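import Mathlib

/-!
# Alexander-Spanier 1-cocycles mod 2 (SRF, Part V)

`helper49`.  All cochains are functions `Y → Y → ZMod 2`, with no continuity; everything is read
near the diagonal.  `Near2 S P`: every point of `S` has a neighbourhood `U` with `P a b` for all
`a, b ∈ U`.
-/

set_option linter.unusedTactic false

namespace Pool.Agent.SRF.V

open Topology Filter Set

abbrev F := ZMod 2

variable {Y Z : Type*} [TopologicalSpace Y] [TopologicalSpace Z]

def Near2 (S : Set Y) (P : Y → Y → Prop) : Prop :=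
  ∀ y ∈ S, ∃ U ∈ 𝓝 y, ∀ a ∈ U, ∀ b ∈ U, P a b

def Near3 (S : Set Y) (P : Y → Y → Y → Prop) : Prop :=
  ∀ y ∈ S, ∃ U ∈ 𝓝 y, ∀ a ∈ U, ∀ b ∈ U, ∀ c ∈ U, P a b c

/-- `φ` is a cocycle at all points of `S` -/
def Coc (S : Set Y) (φ : Y → Y → F) : Prop := Near3 S fun a b c => φ a b + φ b c = φ a c

/-- `φ` is the coboundary of a function at all points of `S` -/
def Triv (S : Set Y) (φ : Y → Y → F) : Prop :=
  ∃ f : Y → F, Near2 S fun a b => φ a b = f a + f b

/-- `φ` vanishes near all points of `S` -/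
def Zer (S : Set Y) (φ : Y → Y → F) : Prop := Near2 S fun a b => φ a b = 0

/-- `φ` has compact support inside `A` -/
def SuppIn (A : Set Y) (φ : Y → Y → F) : Prop := ∃ K ⊆ A, IsCompact K ∧ Zer Kᶜ φ

/-- the cup product of `a` and `b` is the coboundary of a cochain with compact support -/
def Perp (a b : Y → Y → F) : Prop :=
  ∃ c : Y → Y → F, SuppIn univ c ∧
    Near3 univ fun x y z => c x y + c y z + c x z = a x y * b y z

/-- compactly supported cocycles, support in `A` -/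
def ZC (A : Set Y) : Set (Y → Y → F) := {φ | Coc univ φ ∧ SuppIn A φ}

/-! ### F_2 arithmetic -/

theorem F_add_self (x : F) : x + x = 0 := CharTwo.add_self_eq_zero x

theorem F_cases (x : F) : x = 0 ∨ x = 1 := by
  revert x; decide

/-! ### Near2, Near3 -/

theorem Near2.mono {S T : Set Y} {P Q : Y → Y → Prop} (h : Near2 S P) (hT : T ⊆ S)
    (hPQ : ∀ a b, P a b → Q a b) : Near2 T Q := by
  intro y hy
  obtain ⟨U, hU, h⟩ := h y (hT hy)
  exact ⟨U, hU, fun a ha b hb => hPQ _ _ (h a ha b hb)⟩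

theorem Near3.mono {S T : Set Y} {P Q : Y → Y → Y → Prop} (h : Near3 S P) (hT : T ⊆ S)
    (hPQ : ∀ a b c, P a b c → Q a b c) : Near3 T Q := by
  intro y hy
  obtain ⟨U, hU, h⟩ := h y (hT hy)
  exact ⟨U, hU, fun a ha b hb c hc => hPQ _ _ _ (h a ha b hb c hc)⟩

theorem Near2.and {S : Set Y} {P Q : Y → Y → Prop} (h : Near2 S P) (h' : Near2 S Q) :
    Near2 S fun a b => P a b ∧ Q a b := by
  intro y hy
  obtain ⟨U, hU, h⟩ := h y hy
  obtain ⟨V, hV, h'⟩ := h' y hy
  exact ⟨U ∩ V, inter_mem hU hV, fun a ha b hb => ⟨h a ha.1 b hb.1, h' a ha.2 b hb.2⟩⟩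

theorem Near3.and {S : Set Y} {P Q : Y → Y → Y → Prop} (h : Near3 S P) (h' : Near3 S Q) :
    Near3 S fun a b c => P a b c ∧ Q a b c := by
  intro y hy
  obtain ⟨U, hU, h⟩ := h y hy
  obtain ⟨V, hV, h'⟩ := h' y hy
  exact ⟨U ∩ V, inter_mem hU hV, fun a ha b hb c hc =>
    ⟨h a ha.1 b hb.1 c hc.1, h' a ha.2 b hb.2 c hc.2⟩⟩

theorem Near2.union {S T : Set Y} {P : Y → Y → Prop} (h : Near2 S P) (h' : Near2 T P) :
    Near2 (S ∪ T) P := by
  rintro y (hy | hy)
  · exact h y hy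
  · exact h' y hy

theorem Near3.union {S T : Set Y} {P : Y → Y → Y → Prop} (h : Near3 S P) (h' : Near3 T P) :
    Near3 (S ∪ T) P := by
  rintro y (hy | hy)
  · exact h y hy
  · exact h' y hy

/-- a `Near2` statement as a `Near3` statement about all pairs -/
theorem Near2.to3 {S : Set Y} {P : Y → Y → Prop} (h : Near2 S P) :
    Near3 S fun a b c => P a b ∧ P b c ∧ P a c ∧ P b a ∧ P c b ∧ P c a := by
  intro y hy
  obtain ⟨U, hU, h⟩ := h y hy
  exact ⟨U, hU, fun a ha b hb c hc => ⟨h a ha b hb, h b hb c hc, h a ha c hc, h b hb a ha,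
    h c hc b hb, h c hc a ha⟩⟩

/-- pullback along a map continuous at the points of `S` -/
theorem Near2.comap {S : Set Z} {T : Set Y} {P : Y → Y → Prop} (h : Near2 T P) {g : Z → Y}
    (hg : ∀ z ∈ S, ContinuousAt g z) (hS : ∀ z ∈ S, g z ∈ T) :
    Near2 S fun a b => P (g a) (g b) := by
  intro z hz
  obtain ⟨U, hU, h⟩ := h (g z) (hS z hz)
  exact ⟨g ⁻¹' U, hg z hz hU, fun a ha b hb => h _ ha _ hb⟩

theorem Near3.comap {S : Set Z} {T : Set Y} {P : Y → Y → Y → Prop} (h : Near3 T P) {g : Z → Y}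
    (hg : ∀ z ∈ S, ContinuousAt g z) (hS : ∀ z ∈ S, g z ∈ T) :
    Near3 S fun a b c => P (g a) (g b) (g c) := by
  intro z hz
  obtain ⟨U, hU, h⟩ := h (g z) (hS z hz)
  exact ⟨g ⁻¹' U, hg z hz hU, fun a ha b hb c hc => h _ ha _ hb _ hc⟩

/-- a locally constant function on a preconnected set is constant -/
theorem const_of_near {S : Set Y} (hS : IsPreconnected S) {f : Y → F}
    (h : Near2 S fun a b => f a = f b) {a b : Y} (ha : a ∈ S) (hb : b ∈ S) : f a = f b := by
  have hcont : ContinuousOn f S := by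
    intro y hy
    obtain ⟨U, hU, h⟩ := h y hy
    have : f =ᶠ[𝓝 y] fun _ => f y := by
      filter_upwards [hU] with x hx using h x hx y (mem_of_mem_nhds hU)
    exact (continuousAt_const.congr this.symm).continuousWithinAt
  exact hS.constant hcont ha hb

/-! ### cocycles -/

theorem Coc.diag {S : Set Y} {φ : Y → Y → F} (h : Coc S φ) {y : Y} (hy : y ∈ S) : φ y y = 0 := by
  obtain ⟨U, hU, h⟩ := h y hy
  have hy' := mem_of_mem_nhds hU
  simpa using h y hy' y hy' y hy'

theorem Coc.symm {S : Set Y} {φ : Y → Y → F} (h : Coc S φ) :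
    Near2 S fun a b => φ a b = φ b a := by
  intro y hy
  obtain ⟨U, hU, h⟩ := h y hy
  refine ⟨U, hU, fun a ha b hb => ?_⟩
  have h1 := h a ha b hb a ha
  have h2 := h a ha a ha a ha
  beta_reduce at h1 h2 ⊢
  generalize φ a b = p at *
  generalize φ b a = q at *
  generalize φ a a = r at *
  revert p q r; decide

/-- all the relations on triples at once -/
theorem Coc.all {S : Set Y} {φ : Y → Y → F} (h : Coc S φ) :
    Near3 S fun a b c => φ a b + φ b c = φ a c ∧ φ a b = φ b a ∧ φ b c = φ c b ∧ φ a c = φ c a ∧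
      φ a a = 0 := by
  intro y hy
  obtain ⟨U, hU, h⟩ := h y hy
  have hd : ∀ a ∈ U, φ a a = 0 := fun a ha => by simpa using h a ha a ha a ha
  have hs : ∀ a ∈ U, ∀ b ∈ U, φ a b = φ b a := by
    intro a ha b hb
    have h1 := h a ha b hb a ha
    beta_reduce at h1
    rw [hd a ha] at h1
    generalize φ a b = p at *
    generalize φ b a = q at *
    revert p q; decide
  exact ⟨U, hU, fun a ha b hb c hc => ⟨h a ha b hb c hc, hs a ha b hb, hs b hb c hc, hs a ha c hc,
    hd a ha⟩⟩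

theorem Coc.mono {S T : Set Y} {φ : Y → Y → F} (h : Coc S φ) (hT : T ⊆ S) : Coc T φ :=
  Near3.mono h hT fun _ _ _ => id

theorem Triv.mono {S T : Set Y} {φ : Y → Y → F} (h : Triv S φ) (hT : T ⊆ S) : Triv T φ := by
  obtain ⟨f, hf⟩ := h
  exact ⟨f, hf.mono hT fun _ _ => id⟩

theorem Zer.mono {S T : Set Y} {φ : Y → Y → F} (h : Zer S φ) (hT : T ⊆ S) : Zer T φ :=
  Near2.mono h hT fun _ _ => id

theorem Coc.union {S T : Set Y} {φ : Y → Y → F} (h : Coc S φ) (h' : Coc T φ) :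
    Coc (S ∪ T) φ := Near3.union h h'

theorem Triv.coc {S : Set Y} {φ : Y → Y → F} (h : Triv S φ) : Coc S φ := by
  obtain ⟨f, hf⟩ := h
  refine hf.to3.mono subset_rfl fun a b c h => ?_
  beta_reduce at h ⊢
  obtain ⟨h1, h2, h3, -⟩ := h
  rw [h1, h2, h3]
  generalize f a = p
  generalize f b = q
  generalize f c = r
  revert p q r; decide

theorem Zer.triv {S : Set Y} {φ : Y → Y → F} (h : Zer S φ) : Triv S φ :=
  ⟨fun _ => 0, Near2.mono h subset_rfl fun a b h => by simpa using h⟩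

theorem Zer.coc {S : Set Y} {φ : Y → Y → F} (h : Zer S φ) : Coc S φ := h.triv.coc

theorem Coc.add {S : Set Y} {φ ψ : Y → Y → F} (h : Coc S φ) (h' : Coc S ψ) :
    Coc S fun a b => φ a b + ψ a b := by
  refine (Near3.and h h').mono subset_rfl fun a b c h => ?_
  beta_reduce at h ⊢
  rw [← h.1, ← h.2]; ring

theorem Triv.add {S : Set Y} {φ ψ : Y → Y → F} (h : Triv S φ) (h' : Triv S ψ) :
    Triv S fun a b => φ a b + ψ a b := by
  obtain ⟨f, hf⟩ := h
  obtain ⟨g, hg⟩ := h'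
  refine ⟨fun x => f x + g x, (hf.and hg).mono subset_rfl fun a b h => ?_⟩
  beta_reduce at h ⊢
  rw [h.1, h.2]; ring

theorem Zer.add {S : Set Y} {φ ψ : Y → Y → F} (h : Zer S φ) (h' : Zer S ψ) :
    Zer S fun a b => φ a b + ψ a b := by
  refine (Near2.and h h').mono subset_rfl fun a b h => ?_
  beta_reduce at h ⊢
  rw [h.1, h.2]; ring

/-- the coboundary of a function -/
def cob (f : Y → F) : Y → Y → F := fun a b => f a + f b

theorem triv_cob (S : Set Y) (f : Y → F) : Triv S (cob f) :=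
  ⟨f, fun _ _ => ⟨univ, univ_mem, fun _ _ _ _ => rfl⟩⟩

theorem coc_cob (S : Set Y) (f : Y → F) : Coc S (cob f) := (triv_cob S f).coc

theorem Coc.congr {S : Set Y} {φ ψ : Y → Y → F} (h : Coc S φ)
    (he : Near2 S fun a b => φ a b = ψ a b) : Coc S ψ := by
  refine (Near3.and h he.to3).mono subset_rfl fun a b c h => ?_
  beta_reduce at h ⊢
  obtain ⟨h0, h1, h2, h3, -⟩ := h
  rw [← h1, ← h2, ← h3]; exact h0

theorem Triv.congr {S : Set Y} {φ ψ : Y → Y → F} (h : Triv S φ)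
    (he : Near2 S fun a b => φ a b = ψ a b) : Triv S ψ := by
  obtain ⟨f, hf⟩ := h
  exact ⟨f, (hf.and he).mono subset_rfl fun a b h => by beta_reduce at h ⊢; rw [← h.2, h.1]⟩

/-! ### supports -/

theorem SuppIn.mono {A B : Set Y} {φ : Y → Y → F} (h : SuppIn A φ) (hAB : A ⊆ B) :
    SuppIn B φ := by
  obtain ⟨K, hK, h1, h2⟩ := h
  exact ⟨K, hK.trans hAB, h1, h2⟩

theorem SuppIn.add {A : Set Y} {φ ψ : Y → Y → F} (h : SuppIn A φ) (h' : SuppIn A ψ) :
    SuppIn A fun a b => φ a b + ψ a b := by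
  obtain ⟨K, hK, h1, h2⟩ := h
  obtain ⟨L, hL, h3, h4⟩ := h'
  refine ⟨K ∪ L, union_subset hK hL, h1.union h3, ?_⟩
  exact Zer.add (h2.mono (compl_subset_compl.2 subset_union_left))
    (h4.mono (compl_subset_compl.2 subset_union_right))

theorem SuppIn.congr {A : Set Y} {φ ψ : Y → Y → F} (h : SuppIn A φ)
    (he : Near2 univ fun a b => φ a b = ψ a b) : SuppIn A ψ := by
  obtain ⟨K, hK, h1, h2⟩ := h
  refine ⟨K, hK, h1, ?_⟩
  exact (Near2.and h2 (he.mono (subset_univ _) fun _ _ => id)).mono subset_rfl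
    fun a b h => by beta_reduce at h ⊢; rw [← h.2, h.1]

theorem suppIn_zero (A : Set Y) : SuppIn A (fun _ _ => (0 : F)) :=
  ⟨∅, empty_subset _, isCompact_empty, fun _ _ => ⟨univ, univ_mem, fun _ _ _ _ => rfl⟩⟩

/-! ### Perp -/

theorem Perp.symm {a b : Y → Y → F} (ha : a ∈ ZC (univ : Set Y)) (hb : b ∈ ZC (univ : Set Y))
    (h : Perp a b) : Perp b a := by
  obtain ⟨c, hc, h⟩ := h
  obtain ⟨K, hK, hK1, hK2⟩ := ha.2
  refine ⟨fun x y => c x y + a x y * b x y, hc.add ⟨K, hK, hK1, ?_⟩, ?_⟩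
  · exact Near2.mono hK2 subset_rfl fun x y h => by beta_reduce at h ⊢; simp [h]
  · refine (Near3.and (Near3.and h ha.1) hb.1).mono subset_rfl fun x y z h => ?_
    beta_reduce at h ⊢
    obtain ⟨⟨h1, h2⟩, h3⟩ := h
    rw [← h2, ← h3]
    have h4 : c x z = c x y + c y z + a x y * b y z := by
      rw [← h1]
      generalize c x y = p
      generalize c y z = q
      generalize c x z = r
      revert p q r; decide
    rw [h4]
    generalize c x y = p
    generalize c y z = q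
    generalize a x y = r
    generalize a y z = s
    generalize b x y = t
    generalize b y z = u
    revert p q r s t u; decide

theorem Perp.add_left {a a' b : Y → Y → F} (h : Perp a b) (h' : Perp a' b) :
    Perp (fun x y => a x y + a' x y) b := by
  obtain ⟨c, hc, h⟩ := h
  obtain ⟨c', hc', h'⟩ := h'
  refine ⟨fun x y => c x y + c' x y, hc.add hc', ?_⟩
  refine (Near3.and h h').mono subset_rfl fun x y z h => ?_
  beta_reduce at h ⊢
  rw [add_mul, ← h.1, ← h.2]; ring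

theorem Perp.add_right {a b b' : Y → Y → F} (h : Perp a b) (h' : Perp a b') :
    Perp a (fun x y => b x y + b' x y) := by
  obtain ⟨c, hc, h⟩ := h
  obtain ⟨c', hc', h'⟩ := h'
  refine ⟨fun x y => c x y + c' x y, hc.add hc', ?_⟩
  refine (Near3.and h h').mono subset_rfl fun x y z h => ?_
  beta_reduce at h ⊢
  rw [mul_add, ← h.1, ← h.2]; ring

theorem Perp.congr {a a' b b' : Y → Y → F} (h : Perp a b)
    (ha : Near2 univ fun x y => a x y = a' x y) (hb : Near2 univ fun x y => b x y = b' x y) :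
    Perp a' b' := by
  obtain ⟨c, hc, h⟩ := h
  refine ⟨c, hc, ?_⟩
  refine (Near3.and (Near3.and h ha.to3) hb.to3).mono subset_rfl fun x y z h => ?_
  beta_reduce at h ⊢
  obtain ⟨⟨h1, h2, -⟩, -, h3, -⟩ := h
  rw [← h2, ← h3]; exact h1

/-- a globally trivial cocycle is orthogonal to every compactly supported cocycle -/
theorem perp_of_triv {a b : Y → Y → F} (ha : Triv univ a) (hb : b ∈ ZC (univ : Set Y)) :
    Perp a b := by
  obtain ⟨f, hf⟩ := ha
  obtain ⟨K, hK, hK1, hK2⟩ := hb.2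
  refine ⟨fun x y => f x * b x y, ⟨K, hK, hK1, ?_⟩, ?_⟩
  · exact Near2.mono hK2 subset_rfl fun x y h => by beta_reduce at h ⊢; simp [h]
  · refine (Near3.and hb.1 hf.to3).mono subset_rfl fun x y z h => ?_
    beta_reduce at h ⊢
    obtain ⟨h1, h2, -⟩ := h
    rw [h2, ← h1]
    generalize f x = p
    generalize f y = q
    generalize b x y = r
    generalize b y z = s
    revert p q r s; decide

theorem perp_of_triv_right {a b : Y → Y → F} (ha : a ∈ ZC (univ : Set Y))
    (hb : b ∈ ZC (univ : Set Y)) (h : Triv univ b) : Perp a b :=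
  (perp_of_triv h ha).symm hb ha

/-- cocycles with disjoint supports are orthogonal -/
theorem perp_of_disjoint [T2Space Y] {a b : Y → Y → F} {K L : Set Y} (hK : Zer Kᶜ a)
    (hL : Zer Lᶜ b) (hKL : Disjoint K L) : Perp a b := by
  refine ⟨fun _ _ => 0, suppIn_zero _, fun y _ => ?_⟩
  by_cases hy : y ∈ K
  · have hy' : y ∈ Lᶜ := fun h => (Set.disjoint_left.1 hKL hy h)
    obtain ⟨U, hU, h⟩ := hL y hy'
    exact ⟨U, hU, fun x hx y hy z hz => by have := h y hy z hz; beta_reduce at this ⊢; rw [this]; simp⟩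
  · obtain ⟨U, hU, h⟩ := hK y hy
    exact ⟨U, hU, fun x hx y hy z hz => by have := h x hx y hy; beta_reduce at this ⊢; rw [this]; simp⟩

/-- pullback along a proper map -/
theorem Perp.pull {a b : Y → Y → F} (h : Perp a b) {g : Z → Y} (hg : Continuous g)
    (hp : ∀ K : Set Y, IsCompact K → IsCompact (g ⁻¹' K)) :
    Perp (fun x y => a (g x) (g y)) (fun x y => b (g x) (g y)) := by
  obtain ⟨c, ⟨K, -, hK1, hK2⟩, h⟩ := h
  refine ⟨fun x y => c (g x) (g y), ⟨g ⁻¹' K, subset_univ _, hp K hK1, ?_⟩, ?_⟩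
  · exact Near2.comap hK2 (fun z _ => hg.continuousAt) fun z hz => hz
  · exact Near3.comap h (fun z _ => hg.continuousAt) fun z _ => mem_univ _

theorem ZC.pull {A : Set Y} {a : Y → Y → F} (h : a ∈ ZC A) {g : Z → Y} (hg : Continuous g)
    (hp : ∀ K : Set Y, IsCompact K → IsCompact (g ⁻¹' K)) :
    (fun x y => a (g x) (g y)) ∈ ZC (g ⁻¹' A) := by
  obtain ⟨h1, K, hK, hK1, hK2⟩ := h
  refine ⟨Near3.comap h1 (fun z _ => hg.continuousAt) fun z _ => mem_univ _,
    g ⁻¹' K, preimage_mono hK, hp K hK1, ?_⟩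
  exact Near2.comap hK2 (fun z _ => hg.continuousAt) fun z hz => hz

theorem ZC.add {A : Set Y} {a b : Y → Y → F} (ha : a ∈ ZC A) (hb : b ∈ ZC A) :
    (fun x y => a x y + b x y) ∈ ZC A := ⟨ha.1.add hb.1, ha.2.add hb.2⟩

theorem ZC.mono {A B : Set Y} {a : Y → Y → F} (ha : a ∈ ZC A) (h : A ⊆ B) : a ∈ ZC B :=
  ⟨ha.1, ha.2.mono h⟩

theorem zc_zero (A : Set Y) : (fun _ _ => (0 : F)) ∈ ZC A :=
  ⟨Zer.coc fun _ _ => ⟨univ, univ_mem, fun _ _ _ _ => rfl⟩, suppIn_zero A⟩

end Pool.Agent.SRF.V
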