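import Pool.Agent.SRF.V.Plane

/-!
# The double cover `√(z - p)` (SRF, Part V)
-/

set_option linter.unusedTactic false

namespace Pool.Agent.SRF.V

open Topology Filter Set

/-- a square root -/
noncomputable def sq (x : ℂ) : ℂ := Complex.exp (Complex.log x / 2)

open Classical in
/-- the cocycle of the double cover `√(z - p)` -/
noncomputable def om (p : ℂ) (x y : ℂ) : F :=
  if ‖sq (x - p) - sq (y - p)‖ < ‖sq (x - p) + sq (y - p)‖ then 0 else 1

open Classical in
/-- its primitive upstairs -/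
noncomputable def omf (w : ℂ) : F := if sq (Complex.exp w) = Complex.exp (w / 2) then 0 else 1

theorem sq_exp (w : ℂ) : sq (Complex.exp w) = Complex.exp (w / 2) ∨
    sq (Complex.exp w) = -Complex.exp (w / 2) := by
  have h : sq (Complex.exp w) ^ 2 = Complex.exp (w / 2) ^ 2 := by
    rw [sq, ← Complex.exp_nat_mul, ← Complex.exp_nat_mul]
    have e1 : ((2:ℕ):ℂ) * (Complex.log (Complex.exp w) / 2) = Complex.log (Complex.exp w) := by
      push_cast; ring
    have e2 : ((2:ℕ):ℂ) * (w / 2) = w := by push_cast; ring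
    rw [e1, e2, Complex.exp_log (Complex.exp_ne_zero w)]
  exact sq_eq_sq_iff_eq_or_eq_neg.1 h

theorem exp_ne_neg (w : ℂ) : Complex.exp (w / 2) ≠ -Complex.exp (w / 2) := by
  intro h
  have : Complex.exp (w / 2) = 0 := self_eq_neg.1 h
  exact Complex.exp_ne_zero _ this

theorem omf_period (w : ℂ) : omf (w + 2 * Real.pi * Complex.I) = omf w + 1 := by
  have e1 : Complex.exp (w + 2 * Real.pi * Complex.I) = Complex.exp w := by
    rw [Complex.exp_add, Complex.exp_two_pi_mul_I, mul_one]
  have e2 : Complex.exp ((w + 2 * Real.pi * Complex.I) / 2) = -Complex.exp (w / 2) := by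
    have : (w + 2 * Real.pi * Complex.I) / 2 = w / 2 + Real.pi * Complex.I := by ring
    rw [this, Complex.exp_add, Complex.exp_pi_mul_I]; ring
  rw [omf, omf, e1, e2]
  rcases sq_exp w with h | h
  · rw [h, if_neg (exp_ne_neg w), if_pos rfl]; rfl
  · rw [h, if_pos rfl, if_neg (fun h' => exp_ne_neg w h'.symm)]; decide

theorem om_lift (p : ℂ) : Near2 (univ : Set ℂ) fun a b => om p (cov p a) (cov p b) =
    omf a + omf b := by
  intro w0 _
  have hc : ContinuousAt (fun z : ℂ × ℂ => ‖Complex.exp (z.1 / 2) + Complex.exp (z.2 / 2)‖ -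
      ‖Complex.exp (z.1 / 2) - Complex.exp (z.2 / 2)‖) (w0, w0) := by
    apply Continuous.continuousAt; fun_prop
  have h0 : (0:ℝ) < ‖Complex.exp (w0 / 2) + Complex.exp (w0 / 2)‖ -
      ‖Complex.exp (w0 / 2) - Complex.exp (w0 / 2)‖ := by
    rw [sub_self, norm_zero, sub_zero, norm_pos_iff, ← two_mul]
    exact mul_ne_zero two_ne_zero (Complex.exp_ne_zero _)
  have h1 := hc.eventually (lt_mem_nhds h0)
  rw [nhds_prod_eq, Filter.Eventually, mem_prod_iff] at h1
  obtain ⟨U, hU, V, hV, h2⟩ := h1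
  refine ⟨U ∩ V, inter_mem hU hV, fun a ha b hb => ?_⟩
  have h3 : ‖Complex.exp (a / 2) - Complex.exp (b / 2)‖ <
      ‖Complex.exp (a / 2) + Complex.exp (b / 2)‖ := by
    have := h2 (show (a, b) ∈ U ×ˢ V from ⟨ha.1, hb.2⟩)
    simpa using this
  beta_reduce
  rw [om, cov_sub, cov_sub, omf, omf]
  rcases sq_exp a with h | h <;> rcases sq_exp b with h' | h' <;> rw [h, h']
  · rw [if_pos h3, if_pos rfl, if_pos rfl]; rfl
  · rw [if_neg, if_pos rfl, if_neg (fun e => exp_ne_neg b e.symm)]
    · decide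
    · rw [sub_neg_eq_add, ← sub_eq_add_neg]; exact not_lt.2 h3.le
  · rw [if_neg, if_neg (fun e => exp_ne_neg a e.symm), if_pos rfl]
    · decide
    · have e1 : -Complex.exp (a / 2) - Complex.exp (b / 2) =
          -(Complex.exp (a / 2) + Complex.exp (b / 2)) := by ring
      have e2 : -Complex.exp (a / 2) + Complex.exp (b / 2) =
          -(Complex.exp (a / 2) - Complex.exp (b / 2)) := by ring
      rw [e1, e2, norm_neg, norm_neg]; exact not_lt.2 h3.le
  · rw [if_pos, if_neg (fun e => exp_ne_neg a e.symm), if_neg (fun e => exp_ne_neg b e.symm)]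
    · decide
    · have e1 : -Complex.exp (a / 2) - -Complex.exp (b / 2) =
          -(Complex.exp (a / 2) - Complex.exp (b / 2)) := by ring
      have e2 : -Complex.exp (a / 2) + -Complex.exp (b / 2) =
          -(Complex.exp (a / 2) + Complex.exp (b / 2)) := by ring
      rw [e1, e2, norm_neg, norm_neg]; exact h3

/-- a cochain which is a coboundary upstairs is a cocycle -/
theorem coc_of_lift {S : Set ℂ} {p : ℂ} (hS : p ∉ S) {φ : ℂ → ℂ → F} {f : ℂ → F}
    (h : Near2 (cov p ⁻¹' S) fun a b => φ (cov p a) (cov p b) = f a + f b) : Coc S φ := by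
  intro z hz
  have hz0 : z - p ≠ 0 := fun h0 => hS (by rwa [← sub_eq_zero.1 h0])
  have hw : cov p (Complex.log (z - p)) = z := by
    rw [cov, Complex.exp_log hz0]; ring
  obtain ⟨U, hU, h⟩ := h (Complex.log (z - p)) (by rw [mem_preimage, hw]; exact hz)
  refine ⟨cov p '' U, ?_, ?_⟩
  · have := (isOpenMap_cov p).image_mem_nhds hU
    rwa [hw] at this
  · rintro _ ⟨a, ha, rfl⟩ _ ⟨b, hb, rfl⟩ _ ⟨c, hc, rfl⟩
    have h1 := h a ha b hb
    have h2 := h b hb c hc
    have h3 := h a ha c hc
    beta_reduce at h1 h2 h3 ⊢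
    rw [h1, h2, h3]
    have : ∀ x y z : F, x + y + (y + z) = x + z := by decide
    exact this _ _ _

theorem om_coc (p : ℂ) : Coc {p}ᶜ (om p) :=
  coc_of_lift (by simp) ((om_lift p).mono (subset_univ _) fun _ _ => id)

theorem om_mono (p : ℂ) (r R : ℝ) : Mono p r R (om p) 1 :=
  ⟨omf, (om_lift p).mono (subset_univ _) fun _ _ => id, fun w _ => omf_period w⟩

/-- `√(z - p)` is trivial on every convex set which does not contain `p` -/
theorem om_triv_of_convex {p : ℂ} {S : Set ℂ} (hS : Convex ℝ S) (hp : p ∉ S) : Triv S (om p) :=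
  triv_of_convex hS ((om_coc p).mono fun z hz h => hp (by
    rw [mem_singleton_iff] at h; rwa [h] at hz))

end Pool.Agent.SRF.V
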