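import Pool.Agent.SRF.V.Tor
import Pool.Agent.SRF.V.Om

/-!
# The model of a crosscap: the real blow-up of the plane (SRF, Part V)
-/

set_option linter.unusedTactic false

namespace Pool.Agent.SRF.V

open Topology Filter Set

/-- the open Moebius band: `v ∈ ℂ` and a line `±√ζ` containing it -/
abbrev Bl := {z : ℂ × ℂ // ‖z.2‖ = 1 ∧ z.1 ^ 2 = (‖z.1‖ : ℂ) ^ 2 * z.2}

open Classical in
/-- the sign cocycle of a function -/
noncomputable def dcoc {Y : Type*} (u : Y → ℂ) (x y : Y) : F :=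
  if ‖u x - u y‖ < ‖u x + u y‖ then 0 else 1

section
variable {Y : Type*} [TopologicalSpace Y]

open Classical in
theorem dcoc_lift_at {u E : Y → ℂ} {y : Y} (hE : ContinuousAt E y) (h0 : E y ≠ 0)
    (hu : ∀ᶠ x in 𝓝 y, u x = E x ∨ u x = -E x) : ∃ U ∈ 𝓝 y, ∀ a ∈ U, ∀ b ∈ U,
      dcoc u a b = (if u a = E a then 0 else 1) + (if u b = E b then 0 else 1) := by
  have hc : ContinuousAt (fun z : Y × Y => ‖E z.1 + E z.2‖ - ‖E z.1 - E z.2‖) (y, y) := by
    have h1 : ContinuousAt (fun z : Y × Y => E z.1) (y, y) :=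
      ContinuousAt.comp (f := Prod.fst) (by simpa using hE) continuous_fst.continuousAt
    have h2 : ContinuousAt (fun z : Y × Y => E z.2) (y, y) :=
      ContinuousAt.comp (f := Prod.snd) (by simpa using hE) continuous_snd.continuousAt
    exact (h1.add h2).norm.sub (h1.sub h2).norm
  have h1 : (0:ℝ) < ‖E y + E y‖ - ‖E y - E y‖ := by
    rw [sub_self, norm_zero, sub_zero, norm_pos_iff, ← two_mul]
    exact mul_ne_zero two_ne_zero h0
  have h2 := hc.eventually (lt_mem_nhds h1)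
  rw [nhds_prod_eq, Filter.Eventually, mem_prod_iff] at h2
  obtain ⟨U, hU, V, hV, h3⟩ := h2
  have h4 : ∀ᶠ x in 𝓝 y, E x ≠ 0 := hE.eventually_ne h0
  refine ⟨U ∩ V ∩ {x | u x = E x ∨ u x = -E x} ∩ {x | E x ≠ 0},
    inter_mem (inter_mem (inter_mem hU hV) hu) h4, ?_⟩
  rintro a ⟨⟨⟨ha1, ha2⟩, ha⟩, ha0⟩ b ⟨⟨⟨hb1, hb2⟩, hb⟩, hb0⟩
  have h5 : ‖E a - E b‖ < ‖E a + E b‖ := by
    have := h3 (show (a, b) ∈ U ×ˢ V from ⟨ha1, hb2⟩)
    simpa using this
  have na : -E a ≠ E a := fun h => ha0 (neg_eq_self.1 h)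
  have nb : -E b ≠ E b := fun h => hb0 (neg_eq_self.1 h)
  have ha : u a = E a ∨ u a = -E a := ha
  have hb : u b = E b ∨ u b = -E b := hb
  rw [dcoc]
  rcases ha with h | h <;> rcases hb with h' | h' <;> rw [h, h']
  · rw [if_pos h5, if_pos rfl, if_pos rfl]; rfl
  · rw [if_neg, if_pos rfl, if_neg nb]
    · decide
    · rw [sub_neg_eq_add, ← sub_eq_add_neg]; exact not_lt.2 h5.le
  · rw [if_neg, if_neg na, if_pos rfl]
    · decide
    · have e1 : -E a - E b = -(E a + E b) := by ring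
      have e2 : -E a + E b = -(E a - E b) := by ring
      rw [e1, e2, norm_neg, norm_neg]; exact not_lt.2 h5.le
  · rw [if_pos, if_neg na, if_neg nb]
    · decide
    · have e1 : -E a - -E b = -(E a - E b) := by ring
      have e2 : -E a + -E b = -(E a + E b) := by ring
      rw [e1, e2, norm_neg, norm_neg]; exact h5

theorem dcoc_zer_at {u : Y → ℂ} {y : Y} (hu : ContinuousAt u y) (h0 : u y ≠ 0) :
    ∃ U ∈ 𝓝 y, ∀ a ∈ U, ∀ b ∈ U, dcoc u a b = 0 := by
  classical
  obtain ⟨U, hU, h⟩ := dcoc_lift_at (E := u) hu h0 (Eventually.of_forall fun _ => Or.inl rfl)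
  refine ⟨U, hU, fun a ha b hb => ?_⟩
  rw [h a ha b hb, if_pos rfl, if_pos rfl]; rfl

theorem dcoc_coc_at {u E : Y → ℂ} {y : Y} (hE : ContinuousAt E y) (h0 : E y ≠ 0)
    (hu : ∀ᶠ x in 𝓝 y, u x = E x ∨ u x = -E x) : ∃ U ∈ 𝓝 y, ∀ a ∈ U, ∀ b ∈ U, ∀ c ∈ U,
      dcoc u a b + dcoc u b c = dcoc u a c := by
  classical
  obtain ⟨U, hU, h⟩ := dcoc_lift_at hE h0 hu
  refine ⟨U, hU, fun a ha b hb c hc => ?_⟩
  rw [h a ha b hb, h b hb c hc, h a ha c hc]
  have : ∀ x y z : F, x + y + (y + z) = x + z := by decide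
  exact this _ _ _

end

/-- direction -/
noncomputable def bz (x : Bl) : ℂ := sq x.1.2

open Classical in
noncomputable def bdir (x : Bl) : ℂ := if x.1.1 = 0 then bz x else x.1.1 / (‖x.1.1‖ : ℂ)

theorem sq_sq {z : ℂ} (hz : z ≠ 0) : sq z ^ 2 = z := by
  rw [sq, ← Complex.exp_nat_mul]
  have e1 : ((2:ℕ):ℂ) * (Complex.log z / 2) = Complex.log z := by push_cast; ring
  rw [e1, Complex.exp_log hz]

theorem bz_sq (x : Bl) : bz x ^ 2 = x.1.2 := by
  refine sq_sq fun h => ?_
  have := x.2.1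
  rw [h, norm_zero] at this
  exact zero_ne_one this

theorem bdir_sq (x : Bl) : bdir x ^ 2 = x.1.2 := by
  rw [bdir]
  split_ifs with h
  · exact bz_sq x
  · have h1 : (‖x.1.1‖ : ℂ) ≠ 0 := by
      rw [Ne, Complex.ofReal_eq_zero]; exact norm_ne_zero_iff.2 h
    rw [div_pow, x.2.2]
    field_simp

theorem ne_zero_of_sq {u z : ℂ} (h : u ^ 2 = z) (hz : ‖z‖ = 1) : u ≠ 0 := by
  rintro rfl
  rw [← h] at hz
  simp at hz

theorem bdir_or (x : Bl) {w : ℂ} (h : w ^ 2 = x.1.2) : bdir x = w ∨ bdir x = -w :=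
  sq_eq_sq_iff_eq_or_eq_neg.1 (by rw [bdir_sq, h])

theorem bz_or (x : Bl) {w : ℂ} (h : w ^ 2 = x.1.2) : bz x = w ∨ bz x = -w :=
  sq_eq_sq_iff_eq_or_eq_neg.1 (by rw [bz_sq, h])

/-- the two cocycles: `bg` is supported in the core circle, `bk` in a fibre -/
noncomputable def bg : Bl → Bl → F := dcoc bdir
noncomputable def bk : Bl → Bl → F := dcoc bz

/-- local square root of `ζ` at `w²` -/
noncomputable def lsq (w : ℂ) (x : Bl) : ℂ := w * sq (x.1.2 / w ^ 2)

theorem sq_cont {z : ℂ} (hz : z ∈ Complex.slitPlane) : ContinuousAt sq z := by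
  unfold sq
  exact Complex.continuous_exp.continuousAt.comp ((continuousAt_clog hz).div_const 2)

theorem lsq_cont {w : ℂ} {x : Bl} (hw : w ^ 2 = x.1.2) : ContinuousAt (lsq w) x := by
  have hw0 : w ≠ 0 := ne_zero_of_sq hw x.2.1
  unfold lsq
  refine continuousAt_const.mul ?_
  have h1 : ContinuousAt (fun x : Bl => x.1.2 / w ^ 2) x := by
    apply Continuous.continuousAt
    exact (continuous_snd.comp continuous_subtype_val).div_const _
  refine ContinuousAt.comp (f := fun x : Bl => x.1.2 / w ^ 2) (sq_cont ?_) h1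
  rw [← hw, div_self (pow_ne_zero 2 hw0)]
  exact Complex.one_mem_slitPlane

theorem lsq_self {w : ℂ} {x : Bl} (hw : w ^ 2 = x.1.2) : lsq w x = w := by
  have hw0 : w ≠ 0 := ne_zero_of_sq hw x.2.1
  rw [lsq, ← hw, div_self (pow_ne_zero 2 hw0), sq, Complex.log_one]
  simp

theorem lsq_sq {w : ℂ} (hw : w ≠ 0) (x : Bl) : lsq w x ^ 2 = x.1.2 := by
  have h0 : x.1.2 ≠ 0 := by
    intro h
    have := x.2.1
    rw [h, norm_zero] at this
    exact zero_ne_one this
  rw [lsq, mul_pow, sq_sq (div_ne_zero h0 (pow_ne_zero 2 hw))]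
  field_simp

theorem bg_coc : Coc univ bg := by
  intro x _
  have hb := bz_sq x
  have hb0 := ne_zero_of_sq hb x.2.1
  exact dcoc_coc_at (E := lsq (bz x)) (lsq_cont hb) (by rw [lsq_self hb]; exact hb0)
    (Eventually.of_forall fun y => bdir_or y (lsq_sq hb0 y))

theorem bk_coc : Coc univ bk := by
  intro x _
  have hb := bz_sq x
  have hb0 := ne_zero_of_sq hb x.2.1
  exact dcoc_coc_at (E := lsq (bz x)) (lsq_cont hb) (by rw [lsq_self hb]; exact hb0)
    (Eventually.of_forall fun y => bz_or y (lsq_sq hb0 y))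

theorem bg_zer : Zer {x : Bl | x.1.1 ≠ 0} bg := by
  intro x hx
  have hx : x.1.1 ≠ 0 := hx
  have h1 : ContinuousAt bdir x := by
    have h2 : ContinuousAt (fun x : Bl => x.1.1 / (‖x.1.1‖ : ℂ)) x := by
      have h3 : ContinuousAt (fun x : Bl => x.1.1) x :=
        (continuous_fst.comp continuous_subtype_val).continuousAt
      refine h3.div (Complex.continuous_ofReal.continuousAt.comp h3.norm) ?_
      simpa using hx
    refine h2.congr ?_
    have h4 : ∀ᶠ y : Bl in 𝓝 x, y.1.1 ≠ 0 :=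
      (continuous_fst.comp continuous_subtype_val).continuousAt.eventually_ne hx
    filter_upwards [h4] with y hy
    rw [bdir, if_neg hy]
  exact dcoc_zer_at h1 (ne_zero_of_sq (bdir_sq x) x.2.1)

theorem slit_of_norm {z : ℂ} (h1 : ‖z‖ = 1) (h2 : z ≠ -1) : z ∈ Complex.slitPlane := by
  rw [Complex.mem_slitPlane_iff]
  by_contra hcon
  push Not at hcon
  obtain ⟨h3, h4⟩ := hcon
  apply h2
  have h5 : z = (z.re : ℂ) := by
    apply Complex.ext <;> simp [h4]
  rw [h5, Complex.norm_real, Real.norm_eq_abs, abs_of_nonpos h3] at h1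
  rw [h5]
  have : z.re = -1 := by linarith
  rw [this]; simp

theorem bk_zer : Zer {x : Bl | x.1.2 ≠ -1} bk := by
  intro x hx
  have hx : x.1.2 ≠ -1 := hx
  have h1 : ContinuousAt bz x := by
    unfold bz
    exact ContinuousAt.comp (f := fun x : Bl => x.1.2) (sq_cont (slit_of_norm x.2.1 hx))
      (continuous_snd.comp continuous_subtype_val).continuousAt
  exact dcoc_zer_at h1 (ne_zero_of_sq (bz_sq x) x.2.1)

open Classical in
noncomputable def bH (x : Bl) : F := if bdir x = bz x then 0 else 1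

open Classical in
noncomputable def bh (x : Bl) : F := if (bdir x).im < 0 then 1 else 0

theorem b_add : Near2 (univ : Set Bl) fun x y => bg x y + bk x y = bH x + bH y := by
  classical
  intro x _
  have hb := bz_sq x
  have hb0 := ne_zero_of_sq hb x.2.1
  obtain ⟨U, hU, h1⟩ := dcoc_lift_at (u := bdir) (E := lsq (bz x)) (lsq_cont hb)
    (by rw [lsq_self hb]; exact hb0) (Eventually.of_forall fun y => bdir_or y (lsq_sq hb0 y))
  obtain ⟨V, hV, h2⟩ := dcoc_lift_at (u := bz) (E := lsq (bz x)) (lsq_cont hb)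
    (by rw [lsq_self hb]; exact hb0) (Eventually.of_forall fun y => bz_or y (lsq_sq hb0 y))
  refine ⟨U ∩ V, inter_mem hU hV, fun a ha b hb' => ?_⟩
  beta_reduce
  rw [bg, bk, h1 a ha.1 b hb'.1, h2 a ha.2 b hb'.2]
  have key : ∀ y : Bl, bH y = (if bdir y = lsq (bz x) y then 0 else 1) +
      (if bz y = lsq (bz x) y then 0 else 1) := by
    intro y
    have hl := lsq_sq hb0 y
    have hl0 : lsq (bz x) y ≠ 0 := ne_zero_of_sq hl y.2.1
    have hn : -lsq (bz x) y ≠ lsq (bz x) y := fun h => hl0 (neg_eq_self.1 h)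
    rw [bH]
    rcases bdir_or y hl with h | h <;> rcases bz_or y hl with h' | h' <;> rw [h, h']
    · simp
    · rw [if_neg hn.symm, if_pos rfl, if_neg hn]; decide
    · rw [if_neg hn, if_pos rfl]; decide
    · rw [if_pos rfl, if_neg hn]; decide
  rw [key a, key b]
  ring

theorem bg_h : Near2 {x : Bl | x.1.2 = -1} fun x y => bg x y = bh x + bh y := by
  classical
  intro x hx
  have hx : x.1.2 = -1 := hx
  have hI : Complex.I ^ 2 = x.1.2 := by rw [hx, Complex.I_sq]
  have hI0 : Complex.I ≠ 0 := Complex.I_ne_zero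
  obtain ⟨U, hU, h1⟩ := dcoc_lift_at (u := bdir) (E := lsq Complex.I) (lsq_cont hI)
    (by rw [lsq_self hI]; exact hI0) (Eventually.of_forall fun y => bdir_or y (lsq_sq hI0 y))
  have h2 : ∀ᶠ y in 𝓝 x, 0 < (lsq Complex.I y).im := by
    have h3 : ContinuousAt (fun y => (lsq Complex.I y).im) x :=
      Complex.continuous_im.continuousAt.comp (lsq_cont hI)
    refine h3.eventually (lt_mem_nhds ?_)
    show 0 < (lsq Complex.I x).im
    rw [lsq_self hI, Complex.I_im]; norm_num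
  refine ⟨U ∩ {y | 0 < (lsq Complex.I y).im}, inter_mem hU h2, fun a ha b hb => ?_⟩
  beta_reduce
  rw [bg, h1 a ha.1 b hb.1]
  have key : ∀ y : Bl, 0 < (lsq Complex.I y).im →
      bh y = if bdir y = lsq Complex.I y then 0 else 1 := by
    intro y hy
    have hl := lsq_sq hI0 y
    have hl0 : lsq Complex.I y ≠ 0 := ne_zero_of_sq hl y.2.1
    have hn : -lsq Complex.I y ≠ lsq Complex.I y := fun h => hl0 (neg_eq_self.1 h)
    rw [bh]
    rcases bdir_or y hl with h | h <;> rw [h]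
    · rw [if_neg (not_lt.2 hy.le), if_pos rfl]
    · rw [if_pos (by rw [Complex.neg_im]; linarith), if_neg hn]
  rw [key a ha.2, key b hb.2]

noncomputable def bc (x y : Bl) : F := bH x * bg x y + bk x y * bh y

theorem b_dc : Near3 (univ : Set Bl) fun x y z => bc x y + bc y z + bc x z = bg x y * bg y z := by
  have h1 := cup_left bg_coc bH
  have h2 := cup_right bk_coc bh
  have h3 := b_add.to3
  have h4 : Near3 (univ : Set Bl) fun x y z => bk x y * (bh y + bh z) = bk x y * bg y z := by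
    intro x _
    by_cases hx : x.1.2 = -1
    · obtain ⟨U, hU, h⟩ := bg_h x hx
      refine ⟨U, hU, fun a ha b hb d hd => ?_⟩
      have := h b hb d hd
      beta_reduce at this ⊢
      rw [this]
    · obtain ⟨U, hU, h⟩ := bk_zer x hx
      refine ⟨U, hU, fun a ha b hb d hd => ?_⟩
      have := h a ha b hb
      beta_reduce at this ⊢
      rw [this, zero_mul, zero_mul]
  refine (Near3.and (Near3.and h1 h2) (Near3.and h3 h4)).mono subset_rfl fun x y z h => ?_
  beta_reduce at h ⊢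
  obtain ⟨⟨e1, e2⟩, ⟨e3, -⟩, e4⟩ := h
  have e7 : bc x y + bc y z + bc x z = (bH x + bH y) * bg y z +
      bk x y * (bh y + bh z) := by
    rw [← e1, ← e2, bc, bc, bc]; ring
  rw [e7, e4, ← e3]
  generalize bg x y = p
  generalize bk x y = q
  generalize bg y z = r
  revert p q r; decide

end Pool.Agent.SRF.V
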