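import Pool.Agent.SRF.V.BlGen

/-!
# The universal cover of the open Moebius band (SRF, Part V)
-/

set_option linter.unusedTactic false

namespace Pool.Agent.SRF.V

open Topology Filter Set

/-- `e^{iθ}` -/
noncomputable def ei (θ : ℝ) : ℂ := Complex.exp ((θ : ℂ) * Complex.I)

theorem ei_norm (θ : ℝ) : ‖ei θ‖ = 1 := Complex.norm_exp_ofReal_mul_I θ

theorem ei_ne (θ : ℝ) : ei θ ≠ 0 := Complex.exp_ne_zero _

theorem ei_add (s t : ℝ) : ei (s + t) = ei s * ei t := by
  rw [ei, ei, ei, ← Complex.exp_add]; congr 1; push_cast; ring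

theorem ei_pi : ei Real.pi = -1 := Complex.exp_pi_mul_I

theorem ei_cont : Continuous ei := by unfold ei; fun_prop

/-- the universal cover -/
noncomputable def mu (z : ℝ × ℝ) : Bl := ⟨((z.1 : ℂ) * ei z.2, ei z.2 ^ 2), by
  refine ⟨by simp [ei_norm], ?_⟩
  simp only [norm_mul, ei_norm, mul_one, Complex.norm_real, Real.norm_eq_abs]
  rw [mul_pow, ← Complex.ofReal_pow, ← Complex.ofReal_pow, sq_abs]⟩

theorem mu_cont : Continuous mu := by
  refine Continuous.subtype_mk ?_ _
  have h : Continuous fun z : ℝ × ℝ => ei z.2 := ei_cont.comp continuous_snd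
  exact ((Complex.continuous_ofReal.comp continuous_fst).mul h).prodMk (h.pow 2)

/-- the angle near `ei t` -/
noncomputable def bang (t : ℝ) (x : Bl) : ℝ := t + Complex.arg (x.1.2 / ei t ^ 2) / 2

theorem ei_bang (t : ℝ) (x : Bl) : ei (bang t x) ^ 2 = x.1.2 := by
  have h1 : ‖x.1.2 / ei t ^ 2‖ = 1 := by
    rw [norm_div, norm_pow, ei_norm, x.2.1]; norm_num
  have h2 : ei (Complex.arg (x.1.2 / ei t ^ 2) / 2) ^ 2 = x.1.2 / ei t ^ 2 := by
    rw [ei, ← Complex.exp_nat_mul]
    have h3 := Complex.norm_mul_exp_arg_mul_I (x.1.2 / ei t ^ 2)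
    rw [h1, Complex.ofReal_one, one_mul] at h3
    conv_rhs => rw [← h3]
    congr 1
    push_cast; ring
  rw [bang, ei_add, mul_pow, h2, mul_div_cancel₀]
  exact pow_ne_zero 2 (ei_ne t)

/-- local section of `mu` -/
noncomputable def bsec (t : ℝ) (x : Bl) : ℝ × ℝ := ((x.1.1 / ei (bang t x)).re, bang t x)

theorem mu_bsec (t : ℝ) (x : Bl) : mu (bsec t x) = x := by
  have h1 := ei_bang t x
  have h0 := ei_ne (bang t x)
  apply Subtype.ext
  refine Prod.ext ?_ h1
  show (((x.1.1 / ei (bang t x)).re : ℝ) : ℂ) * ei (bang t x) = x.1.1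
  have h2 : (x.1.1 / ei (bang t x)) ^ 2 = ((‖x.1.1‖ : ℝ) : ℂ) ^ 2 := by
    rw [div_pow, h1, x.2.2]
    have : x.1.2 ≠ 0 := by
      intro h
      have := x.2.1
      rw [h, norm_zero] at this
      exact zero_ne_one this
    field_simp
  have h3 : (((x.1.1 / ei (bang t x)).re : ℝ) : ℂ) = x.1.1 / ei (bang t x) := by
    rcases sq_eq_sq_iff_eq_or_eq_neg.1 h2 with h | h
    · rw [h]; simp
    · rw [h, ← Complex.ofReal_neg]; simp
  rw [h3, div_mul_cancel₀ _ h0]

theorem bang_mu (z : ℝ × ℝ) : bang z.2 (mu z) = z.2 := by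
  rw [bang]
  show z.2 + Complex.arg (ei z.2 ^ 2 / ei z.2 ^ 2) / 2 = z.2
  rw [div_self (pow_ne_zero 2 (ei_ne _)), Complex.arg_one]; simp

theorem bsec_mu (z : ℝ × ℝ) : bsec z.2 (mu z) = z := by
  rw [bsec, bang_mu]
  refine Prod.ext ?_ rfl
  show ((z.1 : ℂ) * ei z.2 / ei z.2).re = z.1
  rw [mul_div_cancel_right₀ _ (ei_ne _)]; simp

theorem bsec_cont (z : ℝ × ℝ) : ContinuousAt (bsec z.2) (mu z) := by
  have h1 : ContinuousAt (bang z.2) (mu z) := by
    unfold bang
    refine continuousAt_const.add (ContinuousAt.div_const ?_ _)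
    refine ContinuousAt.comp (f := fun x : Bl => x.1.2 / ei z.2 ^ 2) (Complex.continuousAt_arg ?_)
      ((continuous_snd.comp continuous_subtype_val).div_const _).continuousAt
    show ei z.2 ^ 2 / ei z.2 ^ 2 ∈ Complex.slitPlane
    rw [div_self (pow_ne_zero 2 (ei_ne _))]
    exact Complex.one_mem_slitPlane
  refine ContinuousAt.prodMk ?_ h1
  refine Complex.continuous_re.continuousAt.comp ?_
  refine ContinuousAt.div ?_ (ei_cont.continuousAt.comp h1) (ei_ne _)
  exact (continuous_fst.comp continuous_subtype_val).continuousAt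

theorem mu_open : IsOpenMap mu := by
  rw [isOpenMap_iff_nhds_le]
  intro z U hU
  have h1 : mu ⁻¹' U ∈ 𝓝 (bsec z.2 (mu z)) := by rw [bsec_mu]; exact hU
  filter_upwards [bsec_cont z h1] with x hx
  rw [mem_preimage, mem_preimage, mu_bsec] at hx
  exact hx

theorem mu_surj (x : Bl) : ∃ z, mu z = x := ⟨bsec 0 x, mu_bsec 0 x⟩

/-- deck transformation -/
noncomputable def dk (z : ℝ × ℝ) : ℝ × ℝ := (-z.1, z.2 + Real.pi)

theorem mu_dk (z : ℝ × ℝ) : mu (dk z) = mu z := by
  apply Subtype.ext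
  show (((-z.1 : ℝ) : ℂ) * ei (z.2 + Real.pi), ei (z.2 + Real.pi) ^ 2) =
    ((z.1 : ℂ) * ei z.2, ei z.2 ^ 2)
  rw [ei_add, ei_pi]
  refine Prod.ext ?_ ?_
  · push_cast; ring
  · ring

theorem dk_cont : Continuous dk := by unfold dk; fun_prop

/-- functions invariant under the deck transformation are constant on the fibres of `mu` -/
theorem inv_of_dk {f : ℝ × ℝ → F} (hf : ∀ z, f (dk z) = f z) {z w : ℝ × ℝ} (h : mu z = mu w) :
    f z = f w := by
  have h2π : ∀ s t : ℝ, f (s, t + 2 * Real.pi) = f (s, t) := by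
    intro s t
    have h1 := hf (-s, t + Real.pi)
    have h2 := hf (s, t)
    rw [dk] at h1 h2
    dsimp only at h1 h2
    rw [← h2, ← h1, neg_neg]
    congr 2
    ring
  have hn : ∀ (s t : ℝ) (n : ℤ), f (s, t + n * (2 * Real.pi)) = f (s, t) := by
    intro s t n
    induction n using Int.induction_on with
    | zero => simp
    | succ i ih =>
      rw [← ih, ← h2π s (t + ((i:ℤ):ℝ) * (2 * Real.pi))]; congr 2; push_cast; ring
    | pred i ih =>
      rw [← ih, ← h2π s (t + ((-(i:ℤ) - 1 : ℤ):ℝ) * (2 * Real.pi))]; congr 2; push_cast; ring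
  have e := congrArg Subtype.val h
  have e1 : (z.1 : ℂ) * ei z.2 = (w.1 : ℂ) * ei w.2 := congrArg Prod.fst e
  have e2 : ei z.2 ^ 2 = ei w.2 ^ 2 := congrArg Prod.snd e
  have key : ∀ s t : ℝ, ei s = ei t → ∃ n : ℤ, s = t + n * (2 * Real.pi) := by
    intro s t h
    obtain ⟨n, hn⟩ := Complex.exp_eq_exp_iff_exists_int.1 h
    refine ⟨n, ?_⟩
    have h3 := congrArg Complex.im hn
    simpa using h3
  rcases sq_eq_sq_iff_eq_or_eq_neg.1 e2 with h3 | h3
  · obtain ⟨n, hn'⟩ := key _ _ h3
    rw [h3] at e1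
    have h4 : z.1 = w.1 := by
      have := mul_right_cancel₀ (ei_ne _) e1
      exact_mod_cast this
    have : z = (w.1, w.2 + n * (2 * Real.pi)) := Prod.ext h4 hn'
    rw [this, hn]
  · have h4 : ei z.2 = ei (w.2 + Real.pi) := by rw [h3, ei_add, ei_pi]; ring
    obtain ⟨n, hn'⟩ := key _ _ h4
    rw [h3] at e1
    have h5 : z.1 = -w.1 := by
      have : (-(z.1 : ℂ)) * ei w.2 = (w.1 : ℂ) * ei w.2 := by rw [← e1]; ring
      have := mul_right_cancel₀ (ei_ne _) this
      have h6 : ((-z.1 : ℝ) : ℂ) = ((w.1 : ℝ) : ℂ) := by rw [Complex.ofReal_neg]; exact this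
      have h7 : -z.1 = w.1 := Complex.ofReal_injective h6
      linarith
    have : z = (-w.1, (w.2 + Real.pi) + n * (2 * Real.pi)) := Prod.ext h5 hn'
    rw [this, hn]
    exact hf w

theorem b_gen {a : Bl → Bl → F} (ha : Coc univ a) :
    ∃ x : F, Triv univ fun u v => a u v + x * bg u v := by
  classical
  have h1 : Coc (univ : Set (ℝ × ℝ)) fun z w => a (mu z) (mu w) :=
    Near3.comap ha (fun _ _ => mu_cont.continuousAt) fun _ _ => mem_univ _
  obtain ⟨f, hf⟩ := triv_of_convex convex_univ h1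
  have h2 : Near2 (univ : Set (ℝ × ℝ)) fun z w => f (dk z) + f z = f (dk w) + f w := by
    have h3 := hf.comap (S := univ) (g := dk) (fun _ _ => dk_cont.continuousAt)
      fun _ _ => mem_univ _
    refine (hf.and h3).mono subset_rfl fun z w h => ?_
    beta_reduce at h ⊢
    obtain ⟨e1, e2⟩ := h
    rw [mu_dk, mu_dk, e1] at e2
    have : ∀ x y z u : F, x + y = z + u → z + x = u + y := by decide
    exact this _ _ _ _ e2
  have h3 : ∀ z, f (dk z) = f z + (f (dk 0) + f 0) := by
    intro z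
    have := const_of_near (f := fun z => f (dk z) + f z) (isPreconnected_univ (α := ℝ × ℝ)) h2
      (mem_univ z) (mem_univ 0)
    beta_reduce at this
    rw [← this]
    have : ∀ x y : F, x = y + (x + y) := by decide
    exact this _ _
  set x := f (dk 0) + f 0 with hx
  set s : ℝ × ℝ → F := fun z => if bdir (mu z) = ei z.2 then 0 else 1 with hs
  have hs1 : ∀ z, s (dk z) = s z + 1 := by
    intro z
    have e1 : ei (dk z).2 = -ei z.2 := by
      show ei (z.2 + Real.pi) = _
      rw [ei_add, ei_pi]; ring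
    have hn : -ei z.2 ≠ ei z.2 := fun h => ei_ne _ (neg_eq_self.1 h)
    simp only [hs]
    rw [mu_dk, e1]
    rcases bdir_or (mu z) (w := ei z.2) rfl with h | h <;> rw [h]
    · rw [if_neg hn.symm, if_pos rfl]; rfl
    · rw [if_pos rfl, if_neg hn]; decide
  have hs2 : Near2 (univ : Set (ℝ × ℝ)) fun z w => bg (mu z) (mu w) = s z + s w := by
    intro z _
    obtain ⟨U, hU, h⟩ := dcoc_lift_at (u := fun z => bdir (mu z)) (E := fun z : ℝ × ℝ => ei z.2)
      (y := z) (ei_cont.comp continuous_snd).continuousAt (ei_ne _)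
      (Eventually.of_forall fun w => bdir_or (mu w) rfl)
    exact ⟨U, hU, fun a ha b hb => h a ha b hb⟩
  refine ⟨x, Triv.descend isOpen_univ mu_open (fun _ _ => mu_cont.continuousAt)
    (fun y _ => mu_surj y) (f := fun z => f z + x * s z) ?_ fun z w _ h => ?_⟩
  · refine (hf.and hs2).mono (subset_univ _) fun z w h => ?_
    beta_reduce at h ⊢
    rw [h.1, h.2]; ring
  · refine inv_of_dk (f := fun z => f z + x * s z) (fun z => ?_) h
    beta_reduce
    rw [h3, hs1]
    have : ∀ a b c : F, a + b + b * (c + 1) = a + b * c := by decide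
    exact this _ _ _

/-- the open Moebius band as a model block -/
theorem mb_bl : MB univ bg bg bc where
  ca := bg_coc
  cb := bg_coc
  supp := by
    have h0 : {x : Bl | x.1.1 = 0} = mu '' (({0} : Set ℝ) ×ˢ Icc (-Real.pi) Real.pi) := by
      ext x
      constructor
      · intro hx
        have hx : x.1.1 = 0 := hx
        have hsq : x.1.2 ≠ 0 := by
          intro h
          have := x.2.1
          rw [h, norm_zero] at this
          exact zero_ne_one this
        refine ⟨(0, Complex.arg x.1.2 / 2), ⟨rfl, ?_, ?_⟩, ?_⟩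
        · have := Complex.neg_pi_lt_arg x.1.2
          have := Real.pi_pos
          show -Real.pi ≤ Complex.arg x.1.2 / 2
          linarith
        · have := Complex.arg_le_pi x.1.2
          have := Real.pi_pos
          show Complex.arg x.1.2 / 2 ≤ Real.pi
          linarith
        · apply Subtype.ext
          refine Prod.ext ?_ ?_
          · show ((0:ℝ):ℂ) * _ = _
            rw [hx]; simp
          · show ei (Complex.arg x.1.2 / 2) ^ 2 = x.1.2
            rw [ei, ← Complex.exp_nat_mul]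
            have h3 := Complex.norm_mul_exp_arg_mul_I x.1.2
            rw [x.2.1, Complex.ofReal_one, one_mul] at h3
            conv_rhs => rw [← h3]
            congr 1
            push_cast; ring
      · rintro ⟨z, ⟨hz, -⟩, rfl⟩
        rw [mem_singleton_iff] at hz
        show (z.1 : ℂ) * ei z.2 = 0
        rw [hz]; simp
    refine ⟨{x : Bl | x.1.1 = 0}, subset_univ _, ?_, ?_, ?_⟩
    · rw [h0]
      exact (isCompact_singleton.prod isCompact_Icc).image mu_cont
    · exact bg_zer.mono fun x hx => hx.2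
    · exact bg_zer.mono fun x hx => hx.2
  gen := fun a ha => by
    obtain ⟨x, hx⟩ := b_gen ha
    refine ⟨x, 0, hx.congr fun y _ => ⟨univ, univ_mem, fun u _ v _ => ?_⟩⟩
    beta_reduce
    rw [zero_mul, add_zero]
  dc := b_dc
  nt := fun K _ hK => b_nt K hK

end Pool.Agent.SRF.V
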