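import Pool.Agent.SRF.V.Bl

/-!
# The open Moebius band is a model block (SRF, Part V)
-/

set_option linter.unusedTactic false

namespace Pool.Agent.SRF.V

open Topology Filter Set

open Classical in
/-- parametrisation of the complement of the core -/
noncomputable def bx (v : ℂ) : Bl :=
  if h : v = 0 then ⟨(0, 1), by simp⟩ else ⟨(v, v ^ 2 / (‖v‖ : ℂ) ^ 2), by
    have h1 : (‖v‖ : ℂ) ≠ 0 := by
      rw [Ne, Complex.ofReal_eq_zero]; exact norm_ne_zero_iff.2 h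
    refine ⟨?_, ?_⟩
    · simp only [norm_div, norm_pow, Complex.norm_real, norm_norm]
      exact div_self (pow_ne_zero 2 (norm_ne_zero_iff.2 h))
    · field_simp⟩

theorem bx_val {v : ℂ} (h : v ≠ 0) : (bx v).1 = (v, v ^ 2 / (‖v‖ : ℂ) ^ 2) := by
  rw [bx, dif_neg h]

theorem ofReal_norm_ne {v : ℂ} (h : v ≠ 0) : (‖v‖ : ℂ) ≠ 0 := by
  rw [Ne, Complex.ofReal_eq_zero]; exact norm_ne_zero_iff.2 h

theorem bx_cont {v : ℂ} (h : v ≠ 0) : ContinuousAt bx v := by
  have hi : IsInducing (Subtype.val : Bl → ℂ × ℂ) := IsInducing.subtypeVal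
  rw [hi.continuousAt_iff]
  have h1 : ContinuousAt (fun v : ℂ => ((v, v ^ 2 / (‖v‖ : ℂ) ^ 2) : ℂ × ℂ)) v := by
    refine continuousAt_id.prodMk (ContinuousAt.div ?_ ?_ ?_)
    · fun_prop
    · fun_prop
    · exact pow_ne_zero 2 (ofReal_norm_ne h)
  refine h1.congr ?_
  filter_upwards [isOpen_ne.mem_nhds h] with w hw
  exact (bx_val hw).symm

theorem bdir_bx {v : ℂ} (h : v ≠ 0) : bdir (bx v) = v / (‖v‖ : ℂ) := by
  rw [bdir, bx_val h, if_neg h]

theorem im_div_norm {v : ℂ} : (v / (‖v‖ : ℂ)).im = v.im / ‖v‖ := Complex.div_ofReal_im _ _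

theorem re_div_norm {v : ℂ} : (v / (‖v‖ : ℂ)).re = v.re / ‖v‖ := Complex.div_ofReal_re _ _

theorem bx_ne {v : ℂ} (h : v.re ≠ 0) : (bx v).1.2 ≠ -1 := by
  have h0 : v ≠ 0 := by rintro rfl; exact h rfl
  rw [bx_val h0]
  intro h1
  dsimp only at h1
  rw [← div_pow] at h1
  have h2 : (v / (‖v‖ : ℂ)) ^ 2 = Complex.I ^ 2 := by rw [h1, Complex.I_sq]
  have h3 : (v / (‖v‖ : ℂ)).re = 0 := by
    rcases sq_eq_sq_iff_eq_or_eq_neg.1 h2 with h3 | h3 <;> rw [h3] <;> simp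
  rw [re_div_norm, div_eq_zero_iff] at h3
  rcases h3 with h3 | h3
  · exact h h3
  · exact h0 (norm_eq_zero.1 h3)

theorem near_bg : Near2 {v : ℂ | v ≠ 0} fun v w => bg (bx v) (bx w) = 0 :=
  bg_zer.comap (fun v hv => bx_cont hv) fun v hv => by
    show (bx v).1.1 ≠ 0
    rw [bx_val hv]; exact hv

theorem near_bc1 : Near2 {v : ℂ | v.re ≠ 0} fun v w => bc (bx v) (bx w) = 0 := by
  have h0 : ∀ v : ℂ, v.re ≠ 0 → v ≠ 0 := by rintro v h rfl; exact h rfl
  have h1 : Near2 {v : ℂ | v.re ≠ 0} fun v w => bk (bx v) (bx w) = 0 :=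
    bk_zer.comap (fun v hv => bx_cont (h0 v hv)) fun v hv => bx_ne hv
  refine ((near_bg.mono (fun v hv => h0 v hv) fun _ _ => id).and h1).mono subset_rfl
    fun v w h => ?_
  beta_reduce at h ⊢
  rw [bc, h.1, h.2]; simp

theorem near_bc2 : Near2 {v : ℂ | 0 < v.im} fun v w => bc (bx v) (bx w) = 0 := by
  have h0 : ∀ v : ℂ, 0 < v.im → v ≠ 0 := by rintro v h rfl; exact lt_irrefl _ h
  have h1 : Near2 {v : ℂ | 0 < v.im} fun v w => 0 < v.im ∧ 0 < w.im := fun v hv =>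
    ⟨{v : ℂ | 0 < v.im}, (isOpen_lt continuous_const Complex.continuous_im).mem_nhds hv,
      fun a ha b hb => ⟨ha, hb⟩⟩
  refine ((near_bg.mono (fun v hv => h0 v hv) fun _ _ => id).and h1).mono subset_rfl
    fun v w h => ?_
  beta_reduce at h ⊢
  obtain ⟨e1, -, e2⟩ := h
  have e3 : bh (bx w) = 0 := by
    rw [bh, bdir_bx (h0 w e2), im_div_norm, if_neg]
    exact not_lt.2 (div_nonneg e2.le (norm_nonneg _))
  rw [bc, e1, e3]; simp

theorem sq_re_pos {z : ℂ} (h1 : ‖z‖ = 1) (h2 : z ≠ -1) : 0 < (sq z).re := by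
  have hs := slit_of_norm h1 h2
  have harg := Complex.mem_slitPlane_iff_arg.1 hs
  rw [sq, Complex.exp_re]
  have e1 : (Complex.log z / 2).im = Complex.arg z / 2 := by
    have : (2:ℂ) = ((2:ℝ):ℂ) := by norm_num
    rw [this, Complex.div_ofReal_im, Complex.log_im]
  rw [e1]
  refine mul_pos (Real.exp_pos _) (Real.cos_pos_of_mem_Ioo ⟨?_, ?_⟩)
  · have := Complex.neg_pi_lt_arg z; linarith
  · have := lt_of_le_of_ne (Complex.arg_le_pi z) harg.1; linarith

theorem bz_bx {v : ℂ} (h : v.re ≠ 0) :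
    bz (bx v) = if 0 < v.re then v / (‖v‖ : ℂ) else -(v / (‖v‖ : ℂ)) := by
  have h0 : v ≠ 0 := by rintro rfl; exact h rfl
  have hp : 0 < (bz (bx v)).re := sq_re_pos (bx v).2.1 (bx_ne h)
  have hn : 0 < ‖v‖ := norm_pos_iff.2 h0
  have h1 : (v / (‖v‖ : ℂ)) ^ 2 = (bx v).1.2 := by
    rw [bx_val h0, div_pow]
  split_ifs with hr
  · rcases bz_or (bx v) h1 with h2 | h2
    · exact h2
    · rw [h2, Complex.neg_re, re_div_norm] at hp
      have := div_pos hr hn
      linarith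
  · rcases bz_or (bx v) h1 with h2 | h2
    · rw [h2, re_div_norm] at hp
      have : v.re / ‖v‖ ≤ 0 := div_nonpos_of_nonpos_of_nonneg (not_lt.1 hr) hn.le
      linarith
    · exact h2

theorem bc_jump {ε s : ℝ} (hε : 0 < ε) (hs : ε < s) :
    bc (bx (⟨ε, -s⟩ : ℂ)) (bx (⟨-ε, -s⟩ : ℂ)) = 1 := by
  set v : ℂ := ⟨ε, -s⟩ with hv
  set w : ℂ := ⟨-ε, -s⟩ with hw
  have v0 : v ≠ 0 := by intro h; have := congrArg Complex.re h; simp [hv] at this; linarith
  have w0 : w ≠ 0 := by intro h; have := congrArg Complex.re h; simp [hw] at this; linarith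
  have hnorm : ‖w‖ = ‖v‖ := by
    rw [Complex.norm_def, Complex.norm_def, Complex.normSq_apply, Complex.normSq_apply]
    simp [hv, hw]
  have hn : 0 < ‖v‖ := norm_pos_iff.2 v0
  have e1 : v / (‖v‖ : ℂ) - w / (‖w‖ : ℂ) = ((2 * ε / ‖v‖ : ℝ) : ℂ) := by
    rw [hnorm, ← sub_div]
    have : v - w = ((2 * ε : ℝ) : ℂ) := by
      apply Complex.ext <;> simp [hv, hw]; ring
    rw [this, ← Complex.ofReal_div]
  have e2 : v / (‖v‖ : ℂ) + w / (‖w‖ : ℂ) = ((-(2 * s / ‖v‖) : ℝ) : ℂ) * Complex.I := by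
    rw [hnorm, ← add_div]
    have : v + w = ((-(2 * s) : ℝ) : ℂ) * Complex.I := by
      apply Complex.ext <;> simp [hv, hw]; ring
    rw [this, mul_div_right_comm, ← Complex.ofReal_div, neg_div]
  have n1 : ‖v / (‖v‖ : ℂ) - w / (‖w‖ : ℂ)‖ = 2 * ε / ‖v‖ := by
    rw [e1, Complex.norm_real, Real.norm_eq_abs, abs_of_pos (by positivity)]
  have n2 : ‖v / (‖v‖ : ℂ) + w / (‖w‖ : ℂ)‖ = 2 * s / ‖v‖ := by
    have hs0 : 0 < s := hε.trans hs
    rw [e2, norm_mul, Complex.norm_I, mul_one, Complex.norm_real, Real.norm_eq_abs, abs_neg,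
      abs_of_pos (by positivity)]
  have hlt : 2 * ε / ‖v‖ < 2 * s / ‖v‖ := by gcongr
  have g1 : bg (bx v) (bx w) = 0 := by
    rw [bg, dcoc, bdir_bx v0, bdir_bx w0, n1, n2, if_pos hlt]
  have g2 : bk (bx v) (bx w) = 1 := by
    have r1 : bz (bx v) = v / (‖v‖ : ℂ) := by
      rw [bz_bx (by simp [hv]; exact hε.ne'), if_pos (by simpa [hv] using hε)]
    have r2 : bz (bx w) = -(w / (‖w‖ : ℂ)) := by
      rw [bz_bx (by simp [hw]; exact hε.ne'), if_neg (by simp [hw]; exact hε.le)]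
    rw [bk, dcoc, r1, r2, sub_neg_eq_add, ← sub_eq_add_neg, n1, n2, if_neg (not_lt.2 hlt.le)]
  have g3 : bh (bx w) = 1 := by
    rw [bh, bdir_bx w0, im_div_norm, if_pos]
    refine div_neg_of_neg_of_pos ?_ (hnorm ▸ hn)
    simp [hw]; linarith
  rw [bc, g1, g2, g3]; simp

theorem b_nt (K : Set Bl) (hK : IsCompact K) : ¬ Triv (univ \ K) bc := by
  rintro ⟨f, hf'⟩
  obtain ⟨R0, hR0⟩ := hK.exists_bound_of_continuousOn (f := fun x : Bl => x.1.1)
    (continuous_fst.comp continuous_subtype_val).continuousOn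
  set R := max R0 1 with hR
  have hR1 : 1 ≤ R := le_max_right _ _
  have hout : ∀ v : ℂ, R < ‖v‖ → v ≠ 0 ∧ bx v ∈ (univ : Set Bl) \ K := by
    intro v hv
    have v0 : v ≠ 0 := by rintro rfl; rw [norm_zero] at hv; linarith
    refine ⟨v0, mem_univ _, fun h => ?_⟩
    have h1 := hR0 _ h
    beta_reduce at h1
    rw [bx_val v0] at h1
    have := le_max_left R0 1
    dsimp only at h1
    linarith
  have hg : Near2 {v : ℂ | R < ‖v‖} fun v w => bc (bx v) (bx w) = f (bx v) + f (bx w) :=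
    hf'.comap (fun v hv => bx_cont (hout v hv).1) fun v hv => (hout v hv).2
  have hconst : ∀ P : Set ℂ, IsOpen P → Convex ℝ P → P ⊆ {v : ℂ | R < ‖v‖} →
      (Near2 P fun v w => bc (bx v) (bx w) = 0) → ∀ a ∈ P, ∀ b ∈ P, f (bx a) = f (bx b) := by
    intro P hP hPc hPQ h0 a ha b hb
    refine const_of_near (f := fun z => f (bx z)) hPc.isPreconnected ?_ ha hb
    refine ((hg.mono hPQ fun _ _ => id).and h0).mono subset_rfl fun v w h => ?_
    beta_reduce at h ⊢
    rw [h.2] at h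
    have e : ∀ x y : F, 0 = x + y → x = y := by decide
    exact e _ _ h.1
  have nre : ∀ v : ℂ, |v.re| ≤ ‖v‖ := Complex.abs_re_le_norm
  have nim : ∀ v : ℂ, |v.im| ≤ ‖v‖ := Complex.abs_im_le_norm
  have o1 : ∀ c : ℝ, IsOpen {v : ℂ | c < v.re} := fun c =>
    isOpen_lt continuous_const Complex.continuous_re
  have o2 : ∀ c : ℝ, IsOpen {v : ℂ | v.re < c} := fun c =>
    isOpen_lt Complex.continuous_re continuous_const
  have o3 : ∀ c : ℝ, IsOpen {v : ℂ | c < v.im} := fun c =>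
    isOpen_lt continuous_const Complex.continuous_im
  have o4 : ∀ c : ℝ, IsOpen {v : ℂ | v.im < c} := fun c =>
    isOpen_lt Complex.continuous_im continuous_const
  have k1 : ∀ c : ℝ, Convex ℝ {v : ℂ | c < v.re} := fun c => convex_halfSpace_re_gt c
  have k2 : ∀ c : ℝ, Convex ℝ {v : ℂ | v.re < c} := fun c => convex_halfSpace_re_lt c
  have k3 : ∀ c : ℝ, Convex ℝ {v : ℂ | c < v.im} := fun c => convex_halfSpace_im_gt c
  have k4 : ∀ c : ℝ, Convex ℝ {v : ℂ | v.im < c} := fun c => convex_halfSpace_im_lt c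
  have c1 := hconst _ ((o4 (-R)).inter (o1 0)) ((k4 (-R)).inter (k1 0))
    (fun v hv => by
      have h1 : v.im < -R := hv.1
      have := nim v
      show R < ‖v‖
      rw [abs_of_neg (by linarith)] at this; linarith)
    (near_bc1.mono (fun v hv => ne_of_gt hv.2) fun _ _ => id)
  have c2 := hconst _ (o1 R) (k1 R)
    (fun v hv => by
      have h1 : R < v.re := hv
      have := nre v
      show R < ‖v‖
      rw [abs_of_pos (by linarith)] at this; linarith)
    (near_bc1.mono (fun v hv => by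
      have h1 : R < v.re := hv
      show v.re ≠ 0
      linarith) fun _ _ => id)
  have c3 := hconst _ (o3 R) (k3 R)
    (fun v hv => by
      have h1 : R < v.im := hv
      have := nim v
      show R < ‖v‖
      rw [abs_of_pos (by linarith)] at this; linarith)
    (near_bc2.mono (fun v hv => by
      have h1 : R < v.im := hv
      show 0 < v.im
      linarith) fun _ _ => id)
  have c4 := hconst _ (o2 (-R)) (k2 (-R))
    (fun v hv => by
      have h1 : v.re < -R := hv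
      have := nre v
      show R < ‖v‖
      rw [abs_of_neg (by linarith)] at this; linarith)
    (near_bc1.mono (fun v hv => by
      have h1 : v.re < -R := hv
      show v.re ≠ 0
      linarith) fun _ _ => id)
  have c5 := hconst _ ((o4 (-R)).inter (o2 0)) ((k4 (-R)).inter (k2 0))
    (fun v hv => by
      have h1 : v.im < -R := hv.1
      have := nim v
      show R < ‖v‖
      rw [abs_of_neg (by linarith)] at this; linarith)
    (near_bc1.mono (fun v hv => ne_of_lt hv.2) fun _ _ => id)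
  -- a point on the ray
  have hv0 : (⟨0, -(R+1)⟩ : ℂ) ∈ {v : ℂ | R < ‖v‖} := by
    have := nim ⟨0, -(R+1)⟩
    show R < _
    rw [show (⟨0, -(R+1)⟩ : ℂ).im = -(R+1) from rfl, abs_of_neg (by linarith)] at this
    linarith
  obtain ⟨U, hU, h⟩ := hg _ hv0
  obtain ⟨η, hη, hηU⟩ := Metric.mem_nhds_iff.1 hU
  set ε := min (η/2) (1/2) with hε
  have hε0 : 0 < ε := lt_min (by linarith) (by norm_num)
  have hεη : ε < η := lt_of_le_of_lt (min_le_left _ _) (by linarith)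
  have hε1 : ε ≤ 1/2 := min_le_right _ _
  have m1 : (⟨ε, -(R+1)⟩ : ℂ) ∈ U := hηU (by
    rw [Metric.mem_ball, dist_eq_norm]
    have : (⟨ε, -(R+1)⟩ : ℂ) - ⟨0, -(R+1)⟩ = ((ε : ℝ) : ℂ) := by
      apply Complex.ext <;> simp
    rw [this, Complex.norm_real, Real.norm_eq_abs, abs_of_pos hε0]; exact hεη)
  have m2 : (⟨-ε, -(R+1)⟩ : ℂ) ∈ U := hηU (by
    rw [Metric.mem_ball, dist_eq_norm]
    have : (⟨-ε, -(R+1)⟩ : ℂ) - ⟨0, -(R+1)⟩ = ((-ε : ℝ) : ℂ) := by
      apply Complex.ext <;> simp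
    rw [this, Complex.norm_real, Real.norm_eq_abs, abs_neg, abs_of_pos hε0]; exact hεη)
  have h3 := h _ m1 _ m2
  beta_reduce at h3
  rw [bc_jump hε0 (by linarith)] at h3
  have q1 := c1 ⟨ε, -(R+1)⟩ ⟨by show -(R+1) < -R; linarith, hε0⟩ ⟨R+1, -(R+1)⟩
    ⟨by show -(R+1) < -R; linarith, by show 0 < R+1; linarith⟩
  have q2 := c2 ⟨R+1, -(R+1)⟩ (by show R < R+1; linarith) ⟨R+1, R+1⟩ (by show R < R+1; linarith)
  have q3 := c3 ⟨R+1, R+1⟩ (by show R < R+1; linarith) ⟨-(R+1), R+1⟩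
    (by show R < R+1; linarith)
  have q4 := c4 ⟨-(R+1), R+1⟩ (by show -(R+1) < -R; linarith) ⟨-(R+1), -(R+1)⟩
    (by show -(R+1) < -R; linarith)
  have q5 := c5 ⟨-(R+1), -(R+1)⟩ ⟨by show -(R+1) < -R; linarith, by show -(R+1) < 0; linarith⟩
    ⟨-ε, -(R+1)⟩ ⟨by show -(R+1) < -R; linarith, by show -ε < 0; linarith⟩
  rw [q1, q2, q3, q4, q5, F_add_self] at h3
  exact absurd h3 (by decide)

end Pool.Agent.SRF.V
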