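import Pool.Agent.SRF.V.PQ

/-!
# The crosscap with its antipodal gluing is a Moebius band (SRF, Part V)
-/

set_option linter.unusedTactic false

namespace Pool.Agent.SRF.V

open Topology Filter Set

/-- the crosscap domain -/
def OmP : Set ℂ := {u | 1 / 2 ≤ ‖u‖ ∧ ‖u‖ < 1}

noncomputable def mP (t : ℝ) : ℝ := (2 * t - 1) / (1 - t)

open Classical in
noncomputable def psP (u : ℂ) : Bl :=
  if h : u = 0 then ⟨(0, 1), by simp⟩ else
    ⟨((mP ‖u‖ : ℂ) * (u / (‖u‖ : ℂ)), (u / (‖u‖ : ℂ)) ^ 2), by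
      have h1 : ‖u / (‖u‖ : ℂ)‖ = 1 := by
        rw [norm_div, Complex.norm_real, norm_norm, div_self (norm_ne_zero_iff.2 h)]
      refine ⟨?_, ?_⟩
      · show ‖(u / (‖u‖ : ℂ)) ^ 2‖ = 1
        rw [norm_pow, h1]; norm_num
      · simp only [norm_mul, h1, mul_one, Complex.norm_real, Real.norm_eq_abs]
        rw [mul_pow, ← Complex.ofReal_pow, ← Complex.ofReal_pow, sq_abs]⟩

theorem psP_val {u : ℂ} (h : u ≠ 0) :
    (psP u).1 = ((mP ‖u‖ : ℂ) * (u / (‖u‖ : ℂ)), (u / (‖u‖ : ℂ)) ^ 2) := by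
  rw [psP, dif_neg h]

theorem mem_OmP_ne {u : ℂ} (h : u ∈ OmP) : u ≠ 0 := by
  rintro rfl
  have := h.1
  rw [norm_zero] at this
  norm_num at this

theorem unit_norm {u : ℂ} (h : u ≠ 0) : ‖u / (‖u‖ : ℂ)‖ = 1 := by
  rw [norm_div, Complex.norm_real, norm_norm, div_self (norm_ne_zero_iff.2 h)]

theorem norm_mul_unit {u : ℂ} (h : u ≠ 0) : (‖u‖ : ℂ) * (u / (‖u‖ : ℂ)) = u := by
  rw [mul_div_cancel₀ _ (ofReal_norm_ne h)]

theorem mP_inj {s t : ℝ} (hs : s < 1) (ht : t < 1) (h : mP s = mP t) : s = t := by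
  rw [mP, mP, div_eq_div_iff (by linarith) (by linarith)] at h
  nlinarith

theorem mP_nonneg {t : ℝ} (h1 : 1 / 2 ≤ t) (h2 : t < 1) : 0 ≤ mP t :=
  div_nonneg (by linarith) (by linarith)

theorem mP_inv {R : ℝ} (hR : 0 ≤ R) : mP ((1 + R) / (2 + R)) = R := by
  rw [mP]
  have h1 : (2 + R) ≠ 0 := by linarith
  have h2 : 1 - (1 + R) / (2 + R) = 1 / (2 + R) := by field_simp; ring
  rw [h2]
  field_simp
  ring

theorem psP_fib {a b : ℂ} (ha : a ∈ OmP) (hb : b ∈ OmP) :
    psP a = psP b ↔ a = b ∨ (‖a‖ = 1 / 2 ∧ b = -a) := by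
  have ha0 := mem_OmP_ne ha
  have hb0 := mem_OmP_ne hb
  constructor
  · intro h
    have h1 := congrArg Subtype.val h
    rw [psP_val ha0, psP_val hb0, Prod.ext_iff] at h1
    obtain ⟨h1, h2⟩ := h1
    dsimp only at h1 h2
    have h3 : ‖a‖ = ‖b‖ := by
      have h4 := congrArg norm h1
      rw [norm_mul, norm_mul, unit_norm ha0, unit_norm hb0, mul_one, mul_one, Complex.norm_real,
        Complex.norm_real, Real.norm_eq_abs, Real.norm_eq_abs, abs_of_nonneg
        (mP_nonneg ha.1 ha.2), abs_of_nonneg (mP_nonneg hb.1 hb.2)] at h4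
      exact mP_inj ha.2 hb.2 h4
    rcases sq_eq_sq_iff_eq_or_eq_neg.1 h2 with h4 | h4
    · left
      rw [← norm_mul_unit ha0, ← norm_mul_unit hb0, h4, h3]
    · by_cases hm : mP ‖b‖ = 0
      · right
        have h5 : ‖b‖ = 1 / 2 := by
          rw [mP, div_eq_zero_iff] at hm
          rcases hm with hm | hm
          · linarith
          · have := hb.2; linarith
        refine ⟨h3.trans h5, ?_⟩
        rw [← norm_mul_unit ha0, ← norm_mul_unit hb0, h4, h3]
        ring
      · exfalso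
        rw [h4, h3] at h1
        have h6 : (mP ‖b‖ : ℂ) ≠ 0 := by rwa [Ne, Complex.ofReal_eq_zero]
        have h7 := mul_left_cancel₀ h6 h1
        have h8 : b / (‖b‖ : ℂ) = 0 := self_eq_neg.1 h7.symm
        have h9 := unit_norm hb0
        rw [h8, norm_zero] at h9
        exact zero_ne_one h9
  · rintro (rfl | ⟨h1, rfl⟩)
    · rfl
    · apply Subtype.ext
      rw [psP_val ha0, psP_val hb0, norm_neg, h1]
      refine Prod.ext ?_ ?_
      · have : mP (1 / 2) = 0 := by rw [mP]; norm_num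
        dsimp only
        rw [this]; simp
      · dsimp only; ring

theorem psP_cont : ContinuousOn psP OmP := by
  intro u hu
  have hu0 := mem_OmP_ne hu
  refine ContinuousAt.continuousWithinAt ?_
  have hi : IsInducing (Subtype.val : Bl → ℂ × ℂ) := IsInducing.subtypeVal
  rw [hi.continuousAt_iff]
  have h0 : ContinuousAt (fun u : ℂ => u / (‖u‖ : ℂ)) u :=
    continuousAt_id.div (by fun_prop) (ofReal_norm_ne hu0)
  have h2 : ContinuousAt (fun u : ℂ => ((mP ‖u‖ : ℝ) : ℂ)) u := by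
    refine Complex.continuous_ofReal.continuousAt.comp ?_
    unfold mP
    refine ContinuousAt.div (by fun_prop) (by fun_prop) ?_
    have := hu.2
    linarith
  have h1 : ContinuousAt (fun u : ℂ => (((mP ‖u‖ : ℂ) * (u / (‖u‖ : ℂ)),
      (u / (‖u‖ : ℂ)) ^ 2) : ℂ × ℂ)) u := (h2.mul h0).prodMk (h0.pow 2)
  refine h1.congr ?_
  filter_upwards [isOpen_ne.mem_nhds hu0] with w hw
  exact (psP_val hw).symm

theorem prs_P : Prs OmP (univ : Set Bl) psP where
  cont := psP_cont
  image := by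
    refine eq_univ_of_forall fun x => ?_
    have hd : ‖bdir x‖ = 1 := by
      have h1 := congrArg norm (bdir_sq x)
      rw [norm_pow, x.2.1] at h1
      have h2 := norm_nonneg (bdir x)
      nlinarith
    have hd0 : bdir x ≠ 0 := ne_zero_of_sq (bdir_sq x) x.2.1
    set R := ‖x.1.1‖ with hR
    have hR0 : 0 ≤ R := norm_nonneg _
    set t := (1 + R) / (2 + R) with ht
    have ht0 : 0 < t := by positivity
    have ht1 : 1 / 2 ≤ t := by rw [ht, le_div_iff₀ (by linarith)]; linarith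
    have ht2 : t < 1 := by rw [ht, div_lt_one (by linarith)]; linarith
    have hn : ‖(t : ℂ) * bdir x‖ = t := by
      rw [norm_mul, hd, mul_one, Complex.norm_real, Real.norm_eq_abs, abs_of_pos ht0]
    have hu0 : (t : ℂ) * bdir x ≠ 0 := mul_ne_zero (by exact_mod_cast ht0.ne') hd0
    refine ⟨(t : ℂ) * bdir x, ⟨by rw [hn]; exact ht1, by rw [hn]; exact ht2⟩, ?_⟩
    apply Subtype.ext
    have hq : (t : ℂ) * bdir x / ((‖(t : ℂ) * bdir x‖ : ℝ) : ℂ) = bdir x := by
      rw [hn, mul_div_cancel_left₀]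
      exact_mod_cast ht0.ne'
    rw [psP_val hu0, hq, hn, mP_inv hR0, bdir_sq]
    refine Prod.ext ?_ rfl
    dsimp only
    rw [bdir]
    split_ifs with h
    · rw [hR, h]; simp
    · exact norm_mul_unit h
  proper := by
    intro A _ hA
    obtain ⟨M0, hM0⟩ := hA.exists_bound_of_continuousOn (f := fun x : Bl => x.1.1)
      (continuous_fst.comp continuous_subtype_val).continuousOn
    set M := max M0 0 with hM
    have hM1 : 0 ≤ M := le_max_right _ _
    set t := (1 + M) / (2 + M) with ht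
    have ht2 : t < 1 := by rw [ht, div_lt_one (by linarith)]; linarith
    refine ⟨{u | 1 / 2 ≤ ‖u‖ ∧ ‖u‖ ≤ t}, fun u hu => ⟨hu.1, lt_of_le_of_lt hu.2 ht2⟩, ?_, ?_⟩
    · refine Metric.isCompact_of_isClosed_isBounded ?_ ?_
      · exact (isClosed_le continuous_const continuous_norm).inter
          (isClosed_le continuous_norm continuous_const)
      · refine (Metric.isBounded_closedBall (x := (0:ℂ)) (r := t)).subset fun u hu => ?_
        rw [Metric.mem_closedBall, dist_zero_right]; exact hu.2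
    · intro u hu huA
      refine ⟨hu.1, ?_⟩
      have h1 := hM0 _ huA
      have hu0 := mem_OmP_ne hu
      beta_reduce at h1
      rw [psP_val hu0] at h1
      dsimp only at h1
      rw [norm_mul, unit_norm hu0, mul_one, Complex.norm_real, Real.norm_eq_abs, abs_of_nonneg
        (mP_nonneg hu.1 hu.2)] at h1
      have h2 : mP ‖u‖ ≤ M := h1.trans (le_max_left _ _)
      have h3 : 0 < 1 - ‖u‖ := by have := hu.2; linarith
      rw [mP, div_le_iff₀ h3] at h2
      rw [ht, le_div_iff₀ (by linarith)]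
      nlinarith

end Pool.Agent.SRF.V
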