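import Pool.Agent.SRF.V.ModT

/-!
# The handle with its reflection gluing is a punctured torus, II (SRF, Part V)
-/

set_option linter.unusedTactic false

namespace Pool.Agent.SRF.V

open Topology Filter Set

noncomputable def LL : ℝ := Real.log RR

theorem LL_pos : 0 < LL := Real.log_pos RR_gt

noncomputable def ta (w : ℂ) : Tor :=
  (((Real.log ‖w‖ / (2 * LL) : ℝ) : Cir), ((Complex.arg w / (2 * Real.pi) : ℝ) : Cir))

theorem ta_cont {z : ℂ} (hz : z ≠ 0) : ContinuousAt ta z := by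
  refine ContinuousAt.prodMk ?_ ?_
  · refine continuous_coe_cir.continuousAt.comp ?_
    refine ContinuousAt.div_const ?_ _
    exact (Real.continuousAt_log (norm_ne_zero_iff.2 hz)).comp continuous_norm.continuousAt
  · have h1 := (tt_cont hz).snd
    exact h1

theorem ta_one : ta 1 = oo := by simp [ta, oo]

theorem coe_eq_iff {s t : ℝ} : ((s : ℝ) : Cir) = ((t : ℝ) : Cir) ↔ ∃ n : ℤ, s = t + n := by
  constructor
  · intro h
    have : ((s - t : ℝ) : Cir) = 0 := by rw [AddCircle.coe_sub, h, sub_self]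
    obtain ⟨n, hn⟩ := (AddCircle.coe_eq_zero_iff (p := (1:ℝ))).1 this
    exact ⟨n, by rw [zsmul_eq_mul, mul_one] at hn; linarith⟩
  · rintro ⟨n, rfl⟩
    rw [AddCircle.coe_add]
    have : ((n : ℝ) : Cir) = 0 := (AddCircle.coe_eq_zero_iff (p := (1:ℝ))).2 ⟨n, by simp⟩
    rw [this, add_zero]

theorem arg_exp_coe (a b : ℝ) :
    ((Complex.arg (Complex.exp ((a : ℂ) + (b : ℂ) * Complex.I)) / (2 * Real.pi) : ℝ) : Cir) =
      ((b / (2 * Real.pi) : ℝ) : Cir) := by
  set w := Complex.exp ((a : ℂ) + (b : ℂ) * Complex.I) with hw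
  have h1 : Complex.exp (Complex.log w) = Complex.exp ((a : ℂ) + (b : ℂ) * Complex.I) :=
    Complex.exp_log (Complex.exp_ne_zero _)
  obtain ⟨n, hn⟩ := Complex.exp_eq_exp_iff_exists_int.1 h1
  have h2 := congrArg Complex.im hn
  rw [Complex.log_im] at h2
  have h3 : Complex.arg w = b + n * (2 * Real.pi) := by
    rw [h2]; simp
  rw [coe_eq_iff]
  refine ⟨n, ?_⟩
  rw [h3]
  field_simp

theorem ta_surj {x : Tor} (hx : x ≠ oo) : ∃ w : ℂ, w ≠ 1 ∧ RR⁻¹ ≤ ‖w‖ ∧ ‖w‖ ≤ RR ∧ ta w = x := by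
  set s := rp (-1/2) x.1 with hs
  set t := rp (-1/2) x.2 with ht
  have hs1 := rp_mem (-1/2) x.1
  set w := Complex.exp (((2 * LL * s : ℝ) : ℂ) + ((2 * Real.pi * t : ℝ) : ℂ) * Complex.I) with hw
  have hn : ‖w‖ = Real.exp (2 * LL * s) := by
    rw [hw, Complex.norm_exp]; simp
  have hta : ta w = x := by
    refine Prod.ext ?_ ?_
    · show ((Real.log ‖w‖ / (2 * LL) : ℝ) : Cir) = x.1
      rw [hn, Real.log_exp, mul_div_cancel_left₀ _ (by have := LL_pos; positivity), coe_rp]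
    · show ((Complex.arg w / (2 * Real.pi) : ℝ) : Cir) = x.2
      rw [hw, arg_exp_coe, mul_div_cancel_left₀ _ two_pi_pos.ne', coe_rp]
  have hL := LL_pos
  have hR : RR = Real.exp LL := (Real.exp_log (by have := RR_gt; linarith)).symm
  refine ⟨w, ?_, ?_, ?_, hta⟩
  · rintro h
    rw [h, ta_one] at hta
    exact hx hta.symm
  · rw [hn, hR, ← Real.exp_neg]
    refine Real.exp_le_exp.2 ?_
    have := hs1.1
    nlinarith
  · rw [hn, hR]
    refine Real.exp_le_exp.2 ?_
    have := hs1.2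
    nlinarith

theorem eq_of_norm_arg {w w' : ℂ} (h1 : ‖w‖ = ‖w'‖) (h2 : Complex.arg w = Complex.arg w') :
    w = w' := by
  rw [← Complex.norm_mul_exp_arg_mul_I w, ← Complex.norm_mul_exp_arg_mul_I w', h1, h2]

theorem ta_fib {w w' : ℂ} (h1 : RR⁻¹ ≤ ‖w‖) (h2 : ‖w‖ ≤ RR) (h1' : RR⁻¹ ≤ ‖w'‖)
    (h2' : ‖w'‖ ≤ RR) (h : ta w = ta w') :
    w = w' ∨ (Complex.arg w = Complex.arg w' ∧
      ((‖w‖ = RR ∧ ‖w'‖ = RR⁻¹) ∨ (‖w‖ = RR⁻¹ ∧ ‖w'‖ = RR))) := by
  have hR := RR_gt
  have hL := LL_pos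
  have hRi : 0 < RR⁻¹ := by positivity
  obtain ⟨e1, e2⟩ := Prod.ext_iff.1 h
  have harg : Complex.arg w = Complex.arg w' := by
    obtain ⟨n, hn⟩ := coe_eq_iff.1 e2
    have a1 := Complex.neg_pi_lt_arg w
    have a2 := Complex.arg_le_pi w
    have a3 := Complex.neg_pi_lt_arg w'
    have a4 := Complex.arg_le_pi w'
    have hpi := Real.pi_pos
    have h3 : Complex.arg w = Complex.arg w' + n * (2 * Real.pi) := by
      field_simp at hn
      linarith
    have h4 : (n : ℝ) < 1 := by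
      by_contra hcon
      push Not at hcon
      nlinarith
    have h5 : (-1 : ℝ) < n := by
      by_contra hcon
      push Not at hcon
      nlinarith
    have h6 : n < 1 := by exact_mod_cast h4
    have h7 : -1 < n := by exact_mod_cast h5
    have h8 : n = 0 := by omega
    rw [h8] at h3
    simpa using h3
  obtain ⟨n, hn⟩ := coe_eq_iff.1 e1
  have l1 : -LL ≤ Real.log ‖w‖ := by
    rw [LL, ← Real.log_inv]; exact Real.log_le_log hRi h1
  have l2 : Real.log ‖w‖ ≤ LL := Real.log_le_log (lt_of_lt_of_le hRi h1) h2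
  have l1' : -LL ≤ Real.log ‖w'‖ := by
    rw [LL, ← Real.log_inv]; exact Real.log_le_log hRi h1'
  have l2' : Real.log ‖w'‖ ≤ LL := Real.log_le_log (lt_of_lt_of_le hRi h1') h2'
  have h3 : Real.log ‖w‖ = Real.log ‖w'‖ + n * (2 * LL) := by
    field_simp at hn
    linarith
  have w0 : 0 < ‖w‖ := lt_of_lt_of_le hRi h1
  have w0' : 0 < ‖w'‖ := lt_of_lt_of_le hRi h1'
  have h4 : (n : ℝ) < 2 := by
    by_contra hcon
    push Not at hcon
    nlinarith
  have h5 : (-2 : ℝ) < n := by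
    by_contra hcon
    push Not at hcon
    nlinarith
  have h6 : n < 2 := by exact_mod_cast h4
  have h7 : -2 < n := by exact_mod_cast h5
  have h8 : n = -1 ∨ n = 0 ∨ n = 1 := by omega
  have key : ∀ x : ℝ, 0 < x → Real.log x = LL → x = RR := fun x hx h =>
    Real.log_injOn_pos hx (show (0:ℝ) < RR by linarith) h
  have key' : ∀ x : ℝ, 0 < x → Real.log x = -LL → x = RR⁻¹ := fun x hx h =>
    Real.log_injOn_pos hx hRi (by rw [h, Real.log_inv]; rfl)
  rcases h8 with rfl | rfl | rfl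
  · right
    refine ⟨harg, Or.inr ⟨key' _ w0 ?_, key _ w0' ?_⟩⟩
    · push_cast at h3; linarith
    · push_cast at h3; linarith
  · left
    refine eq_of_norm_arg (Real.log_injOn_pos w0 w0' ?_) harg
    rw [h3]; push_cast; ring
  · right
    refine ⟨harg, Or.inl ⟨key _ w0 ?_, key' _ w0' ?_⟩⟩
    · push_cast at h3; linarith
    · push_cast at h3; linarith

/-- the reflection -/
noncomputable def rf (z : ℂ) : ℂ := -(starRingEnd ℂ) z

theorem rf_norm_sub (z : ℂ) : ‖rf z - 1 / 2‖ = ‖z + 1 / 2‖ := by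
  rw [rf, ← norm_neg, ← Complex.norm_conj]
  congr 1
  rw [← half_cast, map_neg, map_sub, map_neg, Complex.conj_conj, Complex.conj_ofReal]
  ring

theorem rf_norm_add (z : ℂ) : ‖rf z + 1 / 2‖ = ‖z - 1 / 2‖ := by
  rw [rf, ← norm_neg, ← Complex.norm_conj]
  congr 1
  rw [← half_cast, map_neg, map_add, map_neg, Complex.conj_conj, Complex.conj_ofReal]
  ring

theorem rf_norm (z : ℂ) : ‖rf z‖ = ‖z‖ := by
  rw [rf, norm_neg, Complex.norm_conj]

theorem rf_mem {z : ℂ} (hz : z ∈ OmZ) : rf z ∈ OmZ :=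
  ⟨by rw [rf_norm_sub]; exact hz.2, by rw [rf_norm_add]; exact hz.1⟩

theorem mo_rf {z : ℂ} (hz : z ∈ OmZ) : mo (rf z) = ((‖mo z‖ ^ 2)⁻¹ : ℝ) * mo z := by
  have h1 : z - cc ≠ 0 := norm_pos_iff.1 (OmZ_ne1 hz)
  have h2 : z + cc ≠ 0 := norm_pos_iff.1 (OmZ_ne2 hz)
  have h3 : mo z ≠ 0 := norm_pos_iff.1 (mo_pos hz)
  have h4 : mo (rf z) * (starRingEnd ℂ) (mo z) = 1 := by
    have hc1 : (starRingEnd ℂ) z - cc ≠ 0 := by
      intro h
      apply h1
      have := congrArg (starRingEnd ℂ) h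
      simpa using this
    have hc2 : (starRingEnd ℂ) z + cc ≠ 0 := by
      intro h
      apply h2
      have := congrArg (starRingEnd ℂ) h
      simpa using this
    have hc3 : -(starRingEnd ℂ) z - cc ≠ 0 := by
      intro h
      apply hc2
      linear_combination -h
    rw [mo, mo, rf, map_div₀, map_add, map_sub, Complex.conj_ofReal]
    rw [div_mul_div_comm, div_eq_one_iff_eq (mul_ne_zero hc3 hc1)]
    ring
  have h5 : (starRingEnd ℂ) (mo z) ≠ 0 := by
    rw [Ne, map_eq_zero]; exact h3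
  have h6 : ((‖mo z‖ ^ 2 : ℝ) : ℂ) = mo z * (starRingEnd ℂ) (mo z) := by
    rw [Complex.mul_conj, Complex.normSq_eq_norm_sq]
  apply mul_right_cancel₀ h5
  rw [h4, mul_assoc, ← h6, ← Complex.ofReal_mul, inv_mul_cancel₀]
  · simp
  · have := mo_pos hz; positivity

theorem mo_rf_norm {z : ℂ} (hz : z ∈ OmZ) : ‖mo (rf z)‖ = ‖mo z‖⁻¹ := by
  have := mo_pos hz
  rw [mo_rf hz, norm_mul, Complex.norm_real, Real.norm_eq_abs, abs_of_pos (by positivity)]
  field_simp

theorem mo_rf_arg {z : ℂ} (hz : z ∈ OmZ) : Complex.arg (mo (rf z)) = Complex.arg (mo z) := by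
  have := mo_pos hz
  rw [mo_rf hz, Complex.arg_real_mul _ (by positivity)]

theorem tors_fib {z z' : ℂ} (hz : z ∈ OmZ) (hz' : z' ∈ OmZ) :
    ta (mo z) = ta (mo z') ↔
      z = z' ∨ ((‖z - 1 / 2‖ = 1 / 8 ∨ ‖z + 1 / 2‖ = 1 / 8) ∧ z' = rf z) := by
  have hR := RR_gt
  constructor
  · intro h
    rcases ta_fib (mo_ge hz) (mo_le hz) (mo_ge hz') (mo_le hz') h with h1 | ⟨h1, h2 | h2⟩
    · exact Or.inl (mo_inj hz hz' h1)
    · right
      refine ⟨Or.inl ((mo_eq_R hz).1 h2.1), mo_inj hz' (rf_mem hz) ?_⟩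
      refine eq_of_norm_arg ?_ ?_
      · rw [mo_rf_norm hz, h2.1, h2.2]
      · rw [mo_rf_arg hz, h1]
    · right
      refine ⟨Or.inr ((mo_eq_Ri hz).1 h2.1), mo_inj hz' (rf_mem hz) ?_⟩
      refine eq_of_norm_arg ?_ ?_
      · rw [mo_rf_norm hz, h2.1, h2.2, inv_inv]
      · rw [mo_rf_arg hz, h1]
  · rintro (rfl | ⟨h1, rfl⟩)
    · rfl
    · refine Prod.ext ?_ ?_
      · show ((Real.log ‖mo z‖ / (2 * LL) : ℝ) : Cir) = ((Real.log ‖mo (rf z)‖ / (2 * LL) : ℝ) : Cir)
        have hL := LL_pos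
        rw [mo_rf_norm hz, Real.log_inv, coe_eq_iff]
        rcases h1 with h1 | h1
        · refine ⟨1, ?_⟩
          rw [(mo_eq_R hz).2 h1, show Real.log RR = LL from rfl]
          field_simp
          norm_num
        · refine ⟨-1, ?_⟩
          rw [(mo_eq_Ri hz).2 h1, Real.log_inv, show Real.log RR = LL from rfl]
          push_cast
          field_simp
          norm_num
      · show ((Complex.arg (mo z) / (2 * Real.pi) : ℝ) : Cir) =
          ((Complex.arg (mo (rf z)) / (2 * Real.pi) : ℝ) : Cir)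
        rw [mo_rf_arg hz]

theorem mo_cont {z : ℂ} (hz : z ∈ OmZ) : ContinuousAt mo z := by
  unfold mo
  refine ContinuousAt.div (by fun_prop) (by fun_prop) ?_
  exact norm_pos_iff.1 (OmZ_ne1 hz)

/-! ### the expansion -/

theorem gx_small {u : ℂ} (h : ‖u‖ ≤ 3 / 4) : gx u = u := by
  rw [gx, max_eq_left (by linarith)]; simp

theorem gx_large {u : ℂ} (h : 3 / 4 ≤ ‖u‖) : gx u = ((1 / (4 - 4 * ‖u‖) : ℝ) : ℂ) * u := by
  rw [gx, max_eq_right (by linarith)]
  congr 3
  ring

theorem gx_norm_large {u : ℂ} (h : 3 / 4 ≤ ‖u‖) (h1 : ‖u‖ < 1) :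
    ‖gx u‖ = ‖u‖ / (4 - 4 * ‖u‖) := by
  rw [gx_large h, norm_mul, Complex.norm_real, Real.norm_eq_abs, abs_of_pos
    (by have : 0 < 4 - 4 * ‖u‖ := by linarith
        positivity)]
  ring

theorem gx_norm_ge {u : ℂ} (h : 3 / 4 ≤ ‖u‖) (h1 : ‖u‖ < 1) : 3 / 4 ≤ ‖gx u‖ := by
  rw [gx_norm_large h h1, le_div_iff₀ (by linarith)]
  linarith

theorem gx_cont {u : ℂ} (h : ‖u‖ < 1) : ContinuousAt gx u := by
  unfold gx
  refine ContinuousAt.mul ?_ continuousAt_id
  refine Complex.continuous_ofReal.continuousAt.comp ?_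
  refine ContinuousAt.div continuousAt_const ?_ ?_
  · refine continuousAt_const.sub (Continuous.continuousAt ?_)
    exact continuous_const.max ((continuous_const.mul continuous_norm).sub continuous_const)
  · have : max 0 (4 * ‖u‖ - 3) < 1 := max_lt one_pos (by linarith)
    linarith

theorem gx_inj {u v : ℂ} (hu : ‖u‖ < 1) (hv : ‖v‖ < 1) (h : gx u = gx v) : u = v := by
  rcases le_total ‖u‖ (3/4) with h1 | h1 <;> rcases le_total ‖v‖ (3/4) with h2 | h2
  · rwa [gx_small h1, gx_small h2] at h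
  · have h3 := gx_norm_large h2 hv
    rw [← h, gx_small h1] at h3
    have h4 : ‖v‖ = 3/4 := by
      rw [h3, div_le_iff₀ (by linarith)] at h1
      linarith
    rw [gx_small h1, gx_small h4.le] at h
    exact h
  · have h3 := gx_norm_large h1 hu
    rw [h, gx_small h2] at h3
    have h4 : ‖u‖ = 3/4 := by
      rw [h3, div_le_iff₀ (by linarith)] at h2
      linarith
    rw [gx_small h2, gx_small h4.le] at h
    exact h
  · have h3 := gx_norm_large h1 hu
    have h4 := gx_norm_large h2 hv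
    rw [h, h4, div_eq_div_iff (by linarith) (by linarith)] at h3
    have h5 : ‖u‖ = ‖v‖ := by nlinarith
    rw [gx_large h1, gx_large h2, h5] at h
    have h6 : ((1 / (4 - 4 * ‖v‖) : ℝ) : ℂ) ≠ 0 := by
      rw [Ne, Complex.ofReal_eq_zero]
      have : 0 < 4 - 4 * ‖v‖ := by linarith
      positivity
    exact mul_left_cancel₀ h6 h

theorem gx_rf (u : ℂ) : gx (rf u) = rf (gx u) := by
  rw [gx, gx, rf_norm, rf, rf, map_mul, Complex.conj_ofReal]; ring

theorem far_mem {z : ℂ} (h : 3 / 4 ≤ ‖z‖) : z ∈ OmZ := by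
  have h1 : ‖z‖ ≤ ‖z - 1 / 2‖ + 1 / 2 := by
    have := norm_add_le (z - 1 / 2) (1 / 2)
    rw [sub_add_cancel] at this
    have e : ‖(1 / 2 : ℂ)‖ = 1 / 2 := by norm_num
    rwa [e] at this
  have h2 : ‖z‖ ≤ ‖z + 1 / 2‖ + 1 / 2 := by
    have := norm_sub_le (z + 1 / 2) (1 / 2)
    rw [add_sub_cancel_right] at this
    have e : ‖(1 / 2 : ℂ)‖ = 1 / 2 := by norm_num
    rwa [e] at this
  exact ⟨by linarith, by linarith⟩

theorem gx_mem {u : ℂ} (hu : u ∈ OmT) : gx u ∈ OmZ := by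
  rcases le_total ‖u‖ (3/4) with h1 | h1
  · rw [gx_small h1]; exact hu.2
  · exact far_mem (gx_norm_ge h1 hu.1)

theorem gx_surj {z : ℂ} (hz : z ∈ OmZ) : ∃ u ∈ OmT, gx u = z := by
  rcases le_total ‖z‖ (3/4) with h1 | h1
  · exact ⟨z, ⟨by linarith, hz⟩, gx_small h1⟩
  · set t : ℝ := 4 / (1 + 4 * ‖z‖) with ht
    have hz0 : 0 ≤ ‖z‖ := norm_nonneg z
    have ht0 : 0 < t := by positivity
    have hn : ‖(t : ℂ) * z‖ = t * ‖z‖ := by
      rw [norm_mul, Complex.norm_real, Real.norm_eq_abs, abs_of_pos ht0]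
    have h2 : t * ‖z‖ < 1 := by
      rw [ht, div_mul_eq_mul_div, div_lt_one (by positivity)]; linarith
    have h3 : 3 / 4 ≤ t * ‖z‖ := by
      rw [ht, div_mul_eq_mul_div, le_div_iff₀ (by positivity)]; linarith
    refine ⟨(t : ℂ) * z, ⟨by rw [hn]; exact h2, ?_⟩, ?_⟩
    · exact far_mem (by rw [hn]; exact h3)
    · rw [gx_large (by rw [hn]; exact h3), hn, ← mul_assoc, ← Complex.ofReal_mul]
      have : 1 / (4 - 4 * (t * ‖z‖)) * t = 1 := by
        have h4 : 4 - 4 * (t * ‖z‖) = t := by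
          rw [ht]; field_simp; ring
        rw [h4, one_div, inv_mul_cancel₀ ht0.ne']
      rw [this]; simp

/-- the presentation of the punctured torus -/
noncomputable def psT (u : ℂ) : Tor := ta (mo (gx u))

theorem psT_fib {a b : ℂ} (ha : a ∈ OmT) (hb : b ∈ OmT) :
    psT a = psT b ↔ a = b ∨ ((‖a - 1 / 2‖ = 1 / 8 ∨ ‖a + 1 / 2‖ = 1 / 8) ∧ b = rf a) := by
  rw [psT, psT, tors_fib (gx_mem ha) (gx_mem hb)]
  have small : ∀ z : ℂ, (‖z - 1 / 2‖ = 1 / 8 ∨ ‖z + 1 / 2‖ = 1 / 8) → ‖z‖ < 3 / 4 := by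
    intro z hz
    have e : ‖(1 / 2 : ℂ)‖ = 1 / 2 := by norm_num
    rcases hz with h | h
    · have := norm_add_le (z - 1 / 2) (1 / 2)
      rw [sub_add_cancel, e] at this
      linarith
    · have := norm_sub_le (z + 1 / 2) (1 / 2)
      rw [add_sub_cancel_right, e] at this
      linarith
  have hgx : ∀ u : ℂ, ‖u‖ < 1 → ‖gx u‖ < 3 / 4 → gx u = u := by
    intro u hu h
    refine gx_small ?_
    by_contra hcon
    push Not at hcon
    have := gx_norm_ge hcon.le hu
    linarith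
  constructor
  · rintro (h | ⟨h1, h2⟩)
    · exact Or.inl (gx_inj ha.1 hb.1 h)
    · right
      have e1 := hgx a ha.1 (small _ h1)
      rw [e1] at h1 h2
      refine ⟨h1, ?_⟩
      have h3 : gx b = gx (rf a) := by
        rw [h2, gx_rf, e1]
      exact gx_inj hb.1 (by rw [rf_norm]; exact ha.1) h3
  · rintro (rfl | ⟨h1, rfl⟩)
    · exact Or.inl rfl
    · right
      have e1 : gx a = a := gx_small (small a h1).le
      rw [gx_rf, e1]
      exact ⟨h1, rfl⟩

theorem prs_T : Prs OmT ({oo}ᶜ : Set Tor) psT where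
  cont := by
    intro u hu
    refine ContinuousAt.continuousWithinAt ?_
    have h1 := gx_mem hu
    have h2 : ContinuousAt (fun u => mo (gx u)) u :=
      ContinuousAt.comp (f := gx) (mo_cont h1) (gx_cont hu.1)
    exact ContinuousAt.comp (f := fun u => mo (gx u)) (ta_cont (norm_pos_iff.1 (mo_pos h1))) h2
  image := by
    ext x
    constructor
    · rintro ⟨u, hu, rfl⟩ h
      rw [mem_singleton_iff, psT, ← ta_one] at h
      have h1 := gx_mem hu
      have hR := RR_gt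
      have hRi : RR⁻¹ ≤ 1 := inv_le_one_of_one_le₀ hR.le
      rcases ta_fib (mo_ge h1) (mo_le h1) (by rw [norm_one]; exact hRi)
        (by rw [norm_one]; exact hR.le) h with h2 | ⟨-, h2 | h2⟩
      · exact mo_ne_one h1 h2
      · have := h2.2
        rw [norm_one] at this
        have h3 : RR⁻¹ < 1 := inv_lt_one_of_one_lt₀ hR
        linarith
      · have := h2.2
        rw [norm_one] at this
        linarith
    · intro hx
      obtain ⟨w, h1, h2, h3, h4⟩ := ta_surj hx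
      obtain ⟨u, hu, hgu⟩ := gx_surj (moi_mem h1 h2 h3)
      refine ⟨u, hu, ?_⟩
      have hR := RR_gt
      rw [psT, hgu, mo_moi h1 (norm_pos_iff.1 (lt_of_lt_of_le (by positivity) h2)), h4]
  proper := by
    intro A hA hAc
    have h1 : ta ⁻¹' Aᶜ ∈ 𝓝 (1 : ℂ) := by
      refine (ta_cont one_ne_zero) (hAc.isClosed.isOpen_compl.mem_nhds ?_)
      rw [ta_one]
      exact fun h => hA h rfl
    obtain ⟨δ, hδ, hδA⟩ := Metric.mem_nhds_iff.1 h1
    have hc := cc_pos
    set M := cc + 2 * cc / δ + 1 with hM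
    have hM0 : 0 < M := by positivity
    have hfar : ∀ z ∈ OmZ, M < ‖z‖ → ta (mo z) ∉ A := by
      intro z hz hzM
      refine hδA ?_
      rw [Metric.mem_ball, dist_eq_norm]
      have hz1 := OmZ_ne1 hz
      have e1 : mo z - 1 = 2 * cc / (z - cc) := by
        have : z - cc ≠ 0 := norm_pos_iff.1 hz1
        rw [mo]; field_simp; ring
      rw [e1, norm_div, norm_mul, Complex.norm_real, Real.norm_eq_abs, abs_of_pos hc,
        div_lt_iff₀ hz1]
      have h2 : ‖z‖ ≤ ‖z - cc‖ + cc := by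
        have := norm_add_le (z - cc) (cc : ℂ)
        rwa [sub_add_cancel, Complex.norm_real, Real.norm_eq_abs, abs_of_pos hc] at this
      have h3 : 2 * cc / δ < ‖z - cc‖ := by linarith
      rw [div_lt_iff₀ hδ] at h3
      have h4 : ‖(2:ℂ)‖ = 2 := by norm_num
      rw [h4]
      linarith
    set t := max (3/4) (4 * M / (1 + 4 * M)) with ht
    have ht1 : t < 1 := by
      refine max_lt (by norm_num) ?_
      rw [div_lt_one (by positivity)]; linarith
    refine ⟨{u | ‖u‖ ≤ t ∧ 1 / 8 ≤ ‖u - 1 / 2‖ ∧ 1 / 8 ≤ ‖u + 1 / 2‖}, fun u hu =>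
      ⟨lt_of_le_of_lt hu.1 ht1, hu.2⟩, ?_, ?_⟩
    · refine Metric.isCompact_of_isClosed_isBounded ?_ ?_
      · exact (isClosed_le continuous_norm continuous_const).inter
          ((isClosed_le continuous_const
            (continuous_norm.comp (continuous_id.sub continuous_const))).inter
            (isClosed_le continuous_const
              (continuous_norm.comp (continuous_id.add continuous_const))))
      · refine (Metric.isBounded_closedBall (x := (0:ℂ)) (r := t)).subset fun u hu => ?_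
        rw [Metric.mem_closedBall, dist_zero_right]; exact hu.1
    · intro u hu huA
      refine ⟨?_, hu.2⟩
      have h2 : ‖gx u‖ ≤ M := by
        by_contra hcon
        push Not at hcon
        exact hfar _ (gx_mem hu) hcon huA
      rcases le_total ‖u‖ (3/4) with h3 | h3
      · exact h3.trans (le_max_left _ _)
      · refine le_trans ?_ (le_max_right _ _)
        have hu1 := hu.1
        rw [gx_norm_large h3 hu1, div_le_iff₀ (by linarith)] at h2
        rw [le_div_iff₀ (by positivity)]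
        nlinarith

end Pool.Agent.SRF.V
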