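import Pool.Agent.SRF.V.Kap
import Pool.Agent.SRF.V.ModP
import Pool.Agent.SRF.V.ModT2

/-!
# Modelled surfaces have a normal form (SRF, Part V)
-/

set_option linter.unusedTactic false

namespace Pool.Agent.SRF.V

open Topology Filter Set Pool.Agent.SRP Metric OnePoint

/-- coordinates in a ball -/
noncomputable def bq (C : Conf) (i : ℝ) (u : ℂ) : ℂ := i + C.rad i * u

theorem bq_cont (C : Conf) (i : ℝ) : Continuous (bq C i) := by unfold bq; fun_prop

theorem bq_inj {C : Conf} {i : ℝ} (hi : 0 < C.rad i) {u v : ℂ} (h : bq C i u = bq C i v) :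
    u = v := by
  rw [bq, bq, add_right_inj] at h
  exact mul_left_cancel₀ (by rw [Ne, Complex.ofReal_eq_zero]; exact hi.ne') h

theorem bq_surj {C : Conf} {i : ℝ} (hi : 0 < C.rad i) (z : ℂ) :
    bq C i ((z - i) / C.rad i) = z := by
  rw [bq, mul_div_cancel₀]
  · ring
  · rw [Ne, Complex.ofReal_eq_zero]; exact hi.ne'

theorem bq_norm {C : Conf} {i : ℝ} (hi : 0 < C.rad i) (u : ℂ) (d : ℝ) :
    ‖bq C i u - ((i + d * C.rad i : ℝ) : ℂ)‖ = C.rad i * ‖u - d‖ := by
  have e : bq C i u - ((i + d * C.rad i : ℝ) : ℂ) = (C.rad i : ℂ) * (u - d) := by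
    rw [bq]; push_cast; ring
  rw [e, norm_mul, Complex.norm_real, Real.norm_eq_abs, abs_of_pos hi]

theorem bq_norm0 {C : Conf} {i : ℝ} (hi : 0 < C.rad i) (u : ℂ) :
    ‖bq C i u - i‖ = C.rad i * ‖u‖ := by
  have := bq_norm hi u 0
  simpa using this

theorem bq_ball {C : Conf} {i : ℝ} (hi : 0 < C.rad i) (u : ℂ) :
    ‖bq C i u - i‖ < C.rad i ↔ ‖u‖ < 1 := by
  rw [bq_norm0 hi]
  constructor
  · intro h; by_contra hcon; push Not at hcon; nlinarith
  · intro h; nlinarith

theorem bq_normp {C : Conf} {i : ℝ} (hi : 0 < C.rad i) (u : ℂ) :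
    ‖bq C i u - ((i + C.rad i / 2 : ℝ) : ℂ)‖ = C.rad i * ‖u - 1 / 2‖ := by
  have := bq_norm hi u (1/2)
  rw [half_cast] at this
  rw [← this]
  congr 4
  ring

theorem bq_normm {C : Conf} {i : ℝ} (hi : 0 < C.rad i) (u : ℂ) :
    ‖bq C i u - ((i - C.rad i / 2 : ℝ) : ℂ)‖ = C.rad i * ‖u + 1 / 2‖ := by
  have := bq_norm hi u (-(1/2))
  rw [Complex.ofReal_neg, half_cast, sub_neg_eq_add] at this
  rw [← this]
  congr 4
  ring

theorem OmT_iff {C : Conf} {i : ℝ} (hi : 0 < C.rad i) (hT : C.lab i = Lab.T) (u : ℂ) :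
    u ∈ OmT ↔ ‖u‖ < 1 ∧ bq C i u ∉ C.holes i := by
  rw [hole_T hT, mem_union, not_or, mem_ball, mem_ball, dist_eq_norm, dist_eq_norm,
    bq_normp hi, bq_normm hi, not_lt, not_lt, and_comm (a := C.rad i / 8 ≤ _)]
  show ‖u‖ < 1 ∧ 1 / 8 ≤ ‖u - 1 / 2‖ ∧ 1 / 8 ≤ ‖u + 1 / 2‖ ↔ _
  have e : ∀ t : ℝ, 1 / 8 ≤ t ↔ C.rad i / 8 ≤ C.rad i * t := by
    intro t
    constructor
    · intro h; nlinarith
    · intro h; by_contra hcon; push Not at hcon; nlinarith
  rw [e, e]

theorem OmP_iff {C : Conf} {i : ℝ} (hi : 0 < C.rad i) (hP : C.lab i = Lab.P) (u : ℂ) :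
    u ∈ OmP ↔ ‖u‖ < 1 ∧ bq C i u ∉ C.holes i := by
  rw [hole_P hP, mem_ball, dist_eq_norm, bq_norm0 hi, not_lt]
  show 1 / 2 ≤ ‖u‖ ∧ ‖u‖ < 1 ↔ _
  rw [and_comm]
  refine and_congr_right fun _ => ?_
  constructor
  · intro h; nlinarith
  · intro h; by_contra hcon; push Not at hcon; nlinarith

section
variable {X : Type} [TopologicalSpace X] {C : Conf} {e q : ℂ → X}

theorem MD.block_prs [T2Space X] (h : MD C e q) {i : ℝ}
    (hi : i ∈ C.I) {Om : Set ℂ} (hOm : ∀ u, u ∈ Om ↔ ‖u‖ < 1 ∧ bq C i u ∉ C.holes i) :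
    Prs Om (kap C e q ⁻¹' dd i (C.rad i)) (fun u => q (bq C i u)) := by
  have hr := h.good.ok.pos i hi
  have hD : ∀ u ∈ Om, bq C i u ∈ C.Dom := fun u hu =>
    (mem_Dom_ball h.good.ok hi ((bq_ball hr u).2 ((hOm u).1 hu).1)).2 ((hOm u).1 hu).2
  have hback : ∀ z ∈ C.Dom, kap C e q (q z) ∈ dd i (C.rad i) → (z - i) / C.rad i ∈ Om := by
    intro z hz hzd
    rw [h.kap_q hz, mem_dd, cl_ball h.good.ok hi] at hzd
    rw [hOm, bq_surj hr, ← bq_ball hr, bq_surj hr]
    exact ⟨hzd, (mem_Dom_ball h.good.ok hi hzd).1 hz⟩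
  have hcase : ∀ x, kap C e q x ∈ dd i (C.rad i) → ∃ z ∈ C.Dom, q z = x := by
    intro x hx
    rcases h.cases x with ⟨w, hw, rfl⟩ | hc
    · exfalso
      rw [h.kap_e hw.le] at hx
      obtain ⟨v, hv, hvw⟩ := hx
      have h1 := ic_far hw hvw.symm
      rw [mem_ball, dist_eq_norm] at hv
      have := norm_lt_of_ball h.good.ok hi hv.le
      linarith
    · exact hc
  refine ⟨h.pres.cont.comp (bq_cont C i).continuousOn hD, ?_, ?_⟩
  · ext x
    constructor
    · rintro ⟨u, hu, rfl⟩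
      rw [mem_preimage, h.kap_q (hD u hu), mem_dd, cl_ball h.good.ok hi, bq_ball hr]
      exact ((hOm u).1 hu).1
    · intro hx
      obtain ⟨z, hz, rfl⟩ := hcase x hx
      exact ⟨_, hback z hz hx, by beta_reduce; rw [bq_surj hr]⟩
  · intro A hA hAc
    have hA' : A ⊆ (e '' OD)ᶜ := by
      intro x hx
      obtain ⟨z, hz, rfl⟩ := hcase x (hA hx)
      exact h.q_not hz
    obtain ⟨B, hB, hBc, hBA⟩ := h.pres.proper A hA' hAc
    have h1 : IsCompact (B ∩ q ⁻¹' A) :=
      hBc.of_isClosed_subset ((h.pres.cont.mono hB).preimage_isClosed_of_isClosed hBc.isClosed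
        hAc.isClosed) inter_subset_left
    refine ⟨(fun z : ℂ => (z - i) / C.rad i) '' (B ∩ q ⁻¹' A), ?_, h1.image (by fun_prop), ?_⟩
    · rintro _ ⟨z, hz, rfl⟩
      exact hback z (hB hz.1) (hA hz.2)
    · intro u hu huA
      refine ⟨bq C i u, ⟨hBA _ (hD u hu) huA, huA⟩, ?_⟩
      beta_reduce
      rw [bq, add_sub_cancel_left, mul_div_cancel_left₀]
      rw [Ne, Complex.ofReal_eq_zero]; exact hr.ne'

theorem MD.fib_T (h : MD C e q) {i : ℝ} (hi : i ∈ C.I) (hT : C.lab i = Lab.T) {a b : ℂ}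
    (ha : a ∈ OmT) (hb : b ∈ OmT) : q (bq C i a) = q (bq C i b) ↔
      a = b ∨ ((‖a - 1 / 2‖ = 1 / 8 ∨ ‖a + 1 / 2‖ = 1 / 8) ∧ b = rf a) := by
  have hr := h.good.ok.pos i hi
  have ha' := (OmT_iff hr hT a).1 ha
  have hb' := (OmT_iff hr hT b).1 hb
  have ba := (bq_ball hr a).2 ha'.1
  have bb := (bq_ball hr b).2 hb'.1
  rw [h.pres.rel _ ((mem_Dom_ball h.good.ok hi ba).2 ha'.2) _
    ((mem_Dom_ball h.good.ok hi bb).2 hb'.2)]
  have e1 : bq C i b = 2 * (i : ℂ) - (starRingEnd ℂ) (bq C i a) ↔ b = rf a := by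
    have : 2 * (i : ℂ) - (starRingEnd ℂ) (bq C i a) = bq C i (rf a) := by
      rw [bq, bq, rf, map_add, map_mul, Complex.conj_ofReal, Complex.conj_ofReal]; ring
    rw [this]
    exact ⟨fun h => bq_inj hr h, fun h => by rw [h]⟩
  have e2 : ∀ t : ℝ, C.rad i * t = C.rad i / 8 ↔ t = 1 / 8 := by
    intro t
    constructor
    · intro h
      have : C.rad i * t = C.rad i * (1 / 8) := by rw [h]; ring
      exact mul_left_cancel₀ hr.ne' this
    · intro h; rw [h]; ring
  constructor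
  · intro hR
    have hcore := rel_core h.good.ok hR
    rcases hR with h1 | ⟨j, hj, h1⟩
    · exact Or.inl (bq_inj hr h1)
    · have hji : j = i := by
        have hrj := h.good.ok.pos j hj
        have h3 : ‖bq C i a - j‖ < C.rad j := by
          rcases h1 with ⟨h1, h2, -⟩ | ⟨h1, h2, -⟩
          · rcases h2 with h2 | h2
            · rw [Metric.mem_sphere, dist_eq_norm, sub_eq_add_neg j] at h2
              have := off_le h2.le
              rw [abs_neg, abs_of_pos (by linarith)] at this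
              linarith
            · rw [Metric.mem_sphere, dist_eq_norm] at h2
              have := off_le h2.le
              rw [abs_of_pos (by linarith)] at this
              linarith
          · rw [Metric.mem_sphere, dist_eq_norm] at h2
            linarith
        exact ball_uniq h.good.ok hj hi h3 ba
      subst hji
      rcases h1 with ⟨-, h2, h3⟩ | ⟨h1, -, -⟩
      · right
        refine ⟨?_, e1.1 h3⟩
        rcases h2 with h2 | h2
        · right
          rw [Metric.mem_sphere, dist_eq_norm, bq_normm hr, e2] at h2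
          exact h2
        · left
          rw [Metric.mem_sphere, dist_eq_norm, bq_normp hr, e2] at h2
          exact h2
      · rw [hT] at h1; exact absurd h1 (by simp)
  · rintro (rfl | ⟨h1, h2⟩)
    · exact Or.inl rfl
    · refine Or.inr ⟨i, hi, Or.inl ⟨hT, ?_, e1.2 h2⟩⟩
      rw [Metric.mem_sphere, Metric.mem_sphere, dist_eq_norm, dist_eq_norm, bq_normm hr,
        bq_normp hr, e2, e2]
      exact h1.symm

theorem MD.fib_P (h : MD C e q) {i : ℝ} (hi : i ∈ C.I) (hP : C.lab i = Lab.P) {a b : ℂ}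
    (ha : a ∈ OmP) (hb : b ∈ OmP) : q (bq C i a) = q (bq C i b) ↔
      a = b ∨ (‖a‖ = 1 / 2 ∧ b = -a) := by
  have hr := h.good.ok.pos i hi
  have ha' := (OmP_iff hr hP a).1 ha
  have hb' := (OmP_iff hr hP b).1 hb
  have ba := (bq_ball hr a).2 ha'.1
  have bb := (bq_ball hr b).2 hb'.1
  rw [h.pres.rel _ ((mem_Dom_ball h.good.ok hi ba).2 ha'.2) _
    ((mem_Dom_ball h.good.ok hi bb).2 hb'.2)]
  have e1 : bq C i b = 2 * (i : ℂ) - bq C i a ↔ b = -a := by
    have : 2 * (i : ℂ) - bq C i a = bq C i (-a) := by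
      rw [bq, bq]; ring
    rw [this]
    exact ⟨fun h => bq_inj hr h, fun h => by rw [h]⟩
  have e2 : ∀ t : ℝ, C.rad i * t = C.rad i / 2 ↔ t = 1 / 2 := by
    intro t
    constructor
    · intro h
      have : C.rad i * t = C.rad i * (1 / 2) := by rw [h]; ring
      exact mul_left_cancel₀ hr.ne' this
    · intro h; rw [h]; ring
  constructor
  · intro hR
    rcases hR with h1 | ⟨j, hj, h1⟩
    · exact Or.inl (bq_inj hr h1)
    · have hji : j = i := by
        have hrj := h.good.ok.pos j hj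
        have h3 : ‖bq C i a - j‖ < C.rad j := by
          rcases h1 with ⟨h1, h2, -⟩ | ⟨h1, h2, -⟩
          · rcases h2 with h2 | h2
            · rw [Metric.mem_sphere, dist_eq_norm, sub_eq_add_neg j] at h2
              have := off_le h2.le
              rw [abs_neg, abs_of_pos (by linarith)] at this
              linarith
            · rw [Metric.mem_sphere, dist_eq_norm] at h2
              have := off_le h2.le
              rw [abs_of_pos (by linarith)] at this
              linarith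
          · rw [Metric.mem_sphere, dist_eq_norm] at h2
            linarith
        exact ball_uniq h.good.ok hj hi h3 ba
      subst hji
      rcases h1 with ⟨h1, -, -⟩ | ⟨-, h2, h3⟩
      · rw [hP] at h1; exact absurd h1 (by simp)
      · right
        rw [Metric.mem_sphere, dist_eq_norm, bq_norm0 hr, e2] at h2
        exact ⟨h2, e1.1 h3⟩
  · rintro (rfl | ⟨h1, h2⟩)
    · exact Or.inl rfl
    · refine Or.inr ⟨i, hi, Or.inr ⟨hP, ?_, e1.2 h2⟩⟩
      rw [Metric.mem_sphere, dist_eq_norm, bq_norm0 hr, e2]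
      exact h1

/-! ### local finiteness -/

theorem loc_fin (hC : C.Ok) {w : ℂ} (hw : ∀ x ∈ C.F, w ≠ (x : ℂ)) :
    ∃ δ > 0, {i ∈ C.I | ∃ z : ℂ, ‖z - i‖ ≤ C.rad i ∧ ‖z - w‖ < δ}.Finite := by
  have hFc : IsCompact C.F := hC.compact.of_isClosed_subset hC.closed subset_union_left
  have hG : IsClosed ((fun x : ℝ => (x : ℂ)) '' C.F) :=
    (hFc.image Complex.continuous_ofReal).isClosed
  have hwG : w ∈ ((fun x : ℝ => (x : ℂ)) '' C.F)ᶜ := by
    rintro ⟨x, hx, hxw⟩
    exact hw x hx hxw.symm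
  obtain ⟨δ', hδ', hδG⟩ := Metric.isOpen_iff.1 hG.isOpen_compl w hwG
  have hfar : ∀ x ∈ C.F, δ' ≤ ‖w - x‖ := by
    intro x hx
    by_contra hcon
    push Not at hcon
    have hxb : (x : ℂ) ∈ ball w δ' := by rwa [mem_ball, dist_eq_norm, norm_sub_rev]
    exact hδG hxb ⟨x, hx, rfl⟩
  have hf1 := rad_fin hC (show 0 < δ' / 3 by linarith)
  have hf2 : {i ∈ C.I | ∀ x ∈ C.F, δ' / 3 ≤ |i - x|}.Finite := by
    by_contra hinf
    obtain ⟨y, hy, hacc⟩ := (Set.not_finite.1 hinf).exists_accPt_of_subset_isCompact hC.compact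
      fun i hi => Or.inr hi.1
    rw [accPt_iff_nhds] at hacc
    rcases hy with hy | hy
    · obtain ⟨i, ⟨h1, h2⟩, -⟩ := hacc _ (Metric.ball_mem_nhds y (show 0 < δ' / 3 by linarith))
      rw [mem_ball, Real.dist_eq] at h1
      have := h2.2 y hy
      linarith
    · obtain ⟨i, ⟨h1, h2⟩, h3⟩ := hacc _ (Metric.ball_mem_nhds y (hC.pos y hy))
      rw [mem_ball, Real.dist_eq] at h1
      have := hC.apart i h2.1 y hy h3
      have := hC.pos i h2.1
      linarith
  refine ⟨δ' / 3, by linarith, (hf1.union hf2).subset ?_⟩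
  rintro i ⟨hi, z, h1, h2⟩
  rcases le_or_gt (δ' / 3) (C.rad i) with h3 | h3
  · exact Or.inl ⟨hi, h3⟩
  · refine Or.inr ⟨hi, fun x hx => ?_⟩
    have h4 := hfar x hx
    have h5 : ‖w - x‖ ≤ ‖z - w‖ + ‖z - i‖ + |i - x| := by
      have e : w - x = -(z - w) + (z - i) + ((i - x : ℝ) : ℂ) := by push_cast; ring
      rw [e]
      refine (norm_add_le _ _).trans ?_
      rw [Complex.norm_real, Real.norm_eq_abs]
      refine add_le_add_left ?_ _
      refine (norm_add_le _ _).trans ?_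
      rw [norm_neg]
    linarith

theorem good_union (hC : C.Good) : C.IT ∪ C.IP = C.I := by
  ext i
  constructor
  · rintro (h | h)
    · exact h.1
    · exact h.1
  · intro h
    have h1 := hC.noO i h
    cases h2 : C.lab i with
    | T => exact Or.inl ⟨h, h2⟩
    | P => exact Or.inr ⟨h, h2⟩
    | O => exact absurd h2 h1

theorem lcs_Bl : LocallyCompactSpace Bl := by
  have h1 : IsClosed {z : ℂ × ℂ | ‖z.2‖ = 1 ∧ z.1 ^ 2 = (‖z.1‖ : ℂ) ^ 2 * z.2} := by
    refine IsClosed.inter ?_ ?_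
    · exact isClosed_eq (by fun_prop) continuous_const
    · exact isClosed_eq (by fun_prop) (by fun_prop)
  exact h1.isClosedEmbedding_subtypeVal.locallyCompactSpace

theorem MD.nf (hX : IsSurf X) (h : MD C e q) :
    NF X C.F C.IT C.IP C.rad (kap C e q) (klam C e q) := by
  have := hX.t2
  have := lcs_of_surf hX
  have hC := h.good.ok
  have hu := good_union h.good
  refine ⟨hC.compact.of_isClosed_subset hC.closed subset_union_left, ?_, ?_, ?_, ?_, ?_, ?_,
    h.kap_cont, h.kap_E, h.kap_proper, fun z hz => h.kap_klam hz, ?_, ?_, ?_, ?_⟩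
  · intro a b hab
    by_contra hcon
    push Not at hcon
    have h1 : Ioo a b ⊆ C.F := fun x hx => hcon x hx.1 hx.2
    have h2 := hC.td _ h1 isPreconnected_Ioo
    have h3 := h2 (show (a + (b - a) / 3) ∈ Ioo a b by constructor <;> linarith)
      (show (a + 2 * (b - a) / 3) ∈ Ioo a b by constructor <;> linarith)
    linarith
  · rw [Set.disjoint_left]
    intro i h1 h2
    have := h1.2.symm.trans h2.2
    exact absurd this (by simp)
  · rw [hu]; exact hC.pos
  · rw [hu]
    intro p hp x hx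
    rw [abs_sub_comm]
    exact hC.away p hp x hx
  · rw [hu]; exact hC.apart
  · rw [hu]
    intro z hz
    induction z using OnePoint.rec with
    | infty =>
      refine ⟨((fun w : ℂ => (w : S2)) '' closedBall 0 1)ᶜ, ?_, ?_⟩
      · refine IsOpen.mem_nhds ?_ ?_
        · exact ((isCompact_closedBall _ _).image OnePoint.continuous_coe).isClosed.isOpen_compl
        · rintro ⟨w, -, hw⟩
          exact OnePoint.coe_ne_infty w hw
      · convert Set.finite_empty (α := ℝ)
        rw [Set.eq_empty_iff_forall_notMem]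
        rintro i ⟨hi, z, ⟨w, hw, rfl⟩, h2⟩
        refine h2 ⟨w, ?_, rfl⟩
        rw [mem_closedBall, dist_zero_right]
        rw [mem_closedBall, dist_eq_norm] at hw
        exact (norm_lt_of_ball hC hi hw).le
    | coe w =>
      obtain ⟨δ, hδ, hfin⟩ := loc_fin hC (w := w) fun x hx hwx => hz (by
        rw [hwx]; exact mem_pt.2 hx)
      refine ⟨(fun w : ℂ => (w : S2)) '' ball w δ, ?_, ?_⟩
      · exact (OnePoint.isOpenEmbedding_coe.isOpenMap _ isOpen_ball).mem_nhds
          ⟨w, mem_ball_self hδ, rfl⟩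
      · refine hfin.subset ?_
        rintro i ⟨hi, z, ⟨v, hv, rfl⟩, v', hv', hvv⟩
        rw [OnePoint.coe_injective hvv] at hv'
        rw [mem_closedBall, dist_eq_norm] at hv
        rw [mem_ball, dist_eq_norm] at hv'
        exact ⟨hi, v, hv, hv'⟩
  · rw [hu]; exact fun x hx => h.klam_kap hx
  · rw [hu]; exact fun z h1 h2 => h.klam_cont h1 h2
  · intro i hi
    have hr := hC.pos i hi.1
    refine match_pres (h.block_prs hi.1 (OmT_iff hr hi.2)) prs_T (lc_of_isOpen ?_)
      (lc_of_isOpen isOpen_compl_singleton) ?_ isOpen_compl_singleton fun a ha b hb => ?_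
    · exact (isOpen_dd _ _).preimage h.kap_cont
    · exact (isOpen_dd _ _).preimage h.kap_cont
    · rw [psT_fib ha hb]; exact h.fib_T hi.1 hi.2 ha hb
  · intro i hi
    have hr := hC.pos i hi.1
    have := lcs_Bl
    refine match_pres (h.block_prs hi.1 (OmP_iff hr hi.2)) prs_P (lc_of_isOpen ?_)
      (lc_of_isOpen isOpen_univ) ?_ isOpen_univ fun a ha b hb => ?_
    · exact (isOpen_dd _ _).preimage h.kap_cont
    · exact (isOpen_dd _ _).preimage h.kap_cont
    · rw [psP_fib ha hb]; exact h.fib_P hi.1 hi.2 ha hb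

theorem MD.conn (hX : IsSurf X) (h : MD C e q) : ConnectedSpace X := by
  have hn := h.nf hX
  have h1 : IsPreconnected (Nb (kap C e q) C.IT C.IP C.rad 0 2) := Nb_preconn hn 0 2
  have h2 : IsPreconnected (e '' OD) :=
    (convex_ball _ _).isPreconnected.image _ h.oe.continuous.continuousOn
  have hsup := Nb_sup hn 0 2
  have hcirc : e (3 / 4) ∈ Nb (kap C e q) C.IT C.IP C.rad 0 2 := by
    refine hsup ?_
    have h3 : ‖(3 / 4 : ℂ)‖ = 3 / 4 := by norm_num
    rw [mem_preimage, h.kap_e (by rw [h3]; norm_num), ic]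
    have h4 : (starRingEnd ℂ) (3 / 4 : ℂ) ≠ 0 := by
      rw [Ne, map_eq_zero]; norm_num
    rw [io_of_ne h4, mem_dd]
    have h5 : ‖((starRingEnd ℂ) (3 / 4 : ℂ))⁻¹ - ((0 : ℝ) : ℂ)‖ = 4 / 3 := by
      rw [Complex.ofReal_zero, sub_zero, norm_inv, Complex.norm_conj, h3]; norm_num
    rw [h5]; norm_num
  have hcirc2 : e (3 / 4) ∈ e '' OD := by
    refine ⟨3 / 4, ?_, rfl⟩
    rw [mem_ball, dist_zero_right]
    norm_num
  have h3 := h1.union _ hcirc hcirc2 h2
  have h4 : Nb (kap C e q) C.IT C.IP C.rad 0 2 ∪ e '' OD = univ := by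
    refine eq_univ_of_forall fun x => ?_
    rcases h.cases x with ⟨w, hw, rfl⟩ | ⟨z, hz, rfl⟩
    · exact Or.inr ⟨w, by rwa [mem_ball, dist_zero_right], rfl⟩
    · refine Or.inl (hsup ?_)
      rw [mem_preimage, h.kap_q hz, mem_dd, Complex.ofReal_zero, sub_zero]
      have := cl_norm h.good.ok (mem_Dom.1 hz).1
      linarith
  rw [h4] at h3
  have : PreconnectedSpace X := ⟨h3⟩
  exact ⟨⟨e 0⟩⟩

end

end Pool.Agent.SRF.V
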