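import Pool.Agent.SRF.V.Deco

/-!
# Two blocks cancel (SRF, Part V)
-/

set_option linter.unusedTactic false

namespace Pool.Agent.SRF.V

open Topology Filter Set

/-- squares of sums -/
theorem alt_add {X : Type*} [TopologicalSpace X] {a b : X → X → F} (ha : a ∈ ZC (univ : Set X))
    (hb : b ∈ ZC (univ : Set X)) (h1 : Perp a a) (h2 : Perp b b) :
    Perp (fun x y => a x y + b x y) (fun x y => a x y + b x y) := by
  obtain ⟨c, hc, h1⟩ := h1
  obtain ⟨d, hd, h2⟩ := h2
  obtain ⟨K, hK, hK1, hK2⟩ := ha.2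
  refine ⟨fun x y => c x y + d x y + a x y * b x y, (hc.add hd).add ⟨K, hK, hK1, ?_⟩, ?_⟩
  · exact Near2.mono hK2 subset_rfl fun x y h => by beta_reduce at h ⊢; simp [h]
  · refine (Near3.and (Near3.and h1 h2) (Near3.and ha.1 hb.1)).mono subset_rfl fun x y z h => ?_
    beta_reduce at h ⊢
    obtain ⟨⟨e1, e2⟩, e3, e4⟩ := h
    have e5 : (a x y + b x y) * (a y z + b y z) = a x y * a y z + b x y * b y z +
        (a x y * b y z + b x y * a y z) := by ring
    rw [e5, ← e1, ← e2, ← e3, ← e4]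
    generalize c x y = p1
    generalize c y z = p2
    generalize c x z = p3
    generalize d x y = q1
    generalize d y z = q2
    generalize d x z = q3
    have : ∀ p1 p2 p3 q1 q2 q3 r : F, p1 + q1 + r + (p2 + q2) + (p3 + q3) =
      p1 + p2 + p3 + (q1 + q2 + q3) + r := by intros; ring
    have e6 : ∀ u v w t : F, u * v + w * t + (u + w) * (v + t) = u * t + v * w := by decide
    have e7 := e6 (a x y) (b x y) (a y z) (b y z)
    linear_combination e7

theorem alt_sum {X : Type*} [TopologicalSpace X] {ι : Type*} {s : Finset ι} {φ : ι → X → X → F}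
    (h : ∀ i ∈ s, φ i ∈ ZC (univ : Set X)) (h2 : ∀ i ∈ s, Perp (φ i) (φ i)) :
    Perp (fun a b => ∑ i ∈ s, φ i a b) (fun a b => ∑ i ∈ s, φ i a b) := by
  classical
  induction s using Finset.induction_on with
  | empty =>
    simp only [Finset.sum_empty]
    exact ⟨fun _ _ => 0, suppIn_zero _, fun _ _ => ⟨univ, univ_mem, fun _ _ _ _ _ _ => by simp⟩⟩
  | insert i s hi ih =>
    simp only [Finset.sum_insert hi]
    exact alt_add (h i (Finset.mem_insert_self _ _))
      (ZC.sum fun j hj => h j (Finset.mem_insert_of_mem hj))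
      (h2 i (Finset.mem_insert_self _ _))
      (ih (fun j hj => h j (Finset.mem_insert_of_mem hj))
        fun j hj => h2 j (Finset.mem_insert_of_mem hj))

open Classical in
/-- `√((z-p)(z-q))` on the sphere, made zero off a neighbourhood of the circle with diameter
`[p, q]` -/
theorem exists_loop {p q : ℝ} {E : Set ℝ} (hE : IsCompact E) (hp : p ∉ E)
    (hq : q ∉ E) :
    ∃ (A : Set S2) (Ω : S2 → S2 → F), IsCompact A ∧ Disjoint A (pt E) ∧
      (∀ z w, z ∉ A → w ∉ A → Ω z w = 0) ∧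
      Coc {z | z ≠ ((p : ℂ) : S2) ∧ z ≠ ((q : ℂ) : S2)} Ω ∧
      (∀ s t : ℝ, 0 ≤ s → t ≤ |p - q| → Mono (p : ℂ) s t (pl Ω) 1 ∧
        Mono (q : ℂ) s t (pl Ω) 1) := by
  set m : ℝ := (p + q) / 2 with hm
  set ρ : ℝ := |p - q| / 2 with hρ
  have hpm : ‖(p : ℂ) - (m : ℂ)‖ = ρ := by
    rw [← Complex.ofReal_sub, Complex.norm_real, Real.norm_eq_abs, hm, hρ]
    rw [show p - (p + q) / 2 = (p - q) / 2 by ring, abs_div]; norm_num
  have hqm : ‖(q : ℂ) - (m : ℂ)‖ = ρ := by
    rw [← Complex.ofReal_sub, Complex.norm_real, Real.norm_eq_abs, hm, hρ]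
    rw [show q - (p + q) / 2 = -((p - q) / 2) by ring, abs_neg, abs_div]; norm_num
  -- distance from the ends to the circle
  obtain ⟨δ, hδ, hδE⟩ : ∃ δ : ℝ, 0 < δ ∧ ∀ x ∈ E, δ < |‖(x : ℂ) - (m : ℂ)‖ - ρ| := by
    rcases E.eq_empty_or_nonempty with rfl | hne
    · exact ⟨1, one_pos, fun x hx => absurd hx (notMem_empty _)⟩
    · obtain ⟨x0, hx0, hmin⟩ := hE.exists_isMinOn hne
        (f := fun x : ℝ => |‖(x : ℂ) - (m : ℂ)‖ - ρ|) (by fun_prop)
      have h0 : 0 < |‖(x0 : ℂ) - (m : ℂ)‖ - ρ| := by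
        rw [abs_pos, sub_ne_zero]
        intro h
        rw [← Complex.ofReal_sub, Complex.norm_real, Real.norm_eq_abs, hm, hρ] at h
        have h1 : |x0 - (p + q) / 2| = |(p - q) / 2| := by
          rw [h, abs_div]; norm_num
        rcases abs_eq_abs.1 h1 with h2 | h2
        · apply hp
          have : x0 = p := by linarith
          rwa [← this]
        · apply hq
          have : x0 = q := by linarith
          rwa [← this]
      refine ⟨|‖(x0 : ℂ) - (m : ℂ)‖ - ρ| / 2, by linarith, fun x hx => ?_⟩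
      have := hmin hx
      have h2 : |‖(x0 : ℂ) - (m : ℂ)‖ - ρ| ≤ |‖(x : ℂ) - (m : ℂ)‖ - ρ| := this
      linarith
  set A0 : Set ℂ := {z | |‖z - (m : ℂ)‖ - ρ| ≤ δ} with hA0
  have hA0c : IsCompact A0 := by
    refine Metric.isCompact_of_isClosed_isBounded
      (isClosed_le (by fun_prop) continuous_const) ?_
    refine (Metric.isBounded_closedBall (x := (m : ℂ)) (r := ρ + δ)).subset ?_
    intro z hz
    have hz : |‖z - (m : ℂ)‖ - ρ| ≤ δ := hz
    rw [Metric.mem_closedBall, dist_eq_norm]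
    have := (abs_le.1 hz).2
    linarith
  set A : Set S2 := (fun w : ℂ => (w : S2)) '' A0 with hA
  have memA : ∀ w : ℂ, (w : S2) ∈ A ↔ w ∈ A0 := by
    intro w
    constructor
    · rintro ⟨v, hv, h⟩
      rw [← OnePoint.coe_injective h]; exact hv
    · intro h; exact ⟨w, h, rfl⟩
  have hAc : IsCompact A := hA0c.image OnePoint.continuous_coe
  -- the cocycle in the plane
  set ω : ℂ → ℂ → F := fun z w => om p z w + om q z w with hω
  have hωc : Coc {z : ℂ | z ≠ p ∧ z ≠ q} ω :=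
    ((om_coc p).mono fun z hz => hz.1).add ((om_coc q).mono fun z hz => hz.2)
  have ht1 : Triv (Metric.ball (m : ℂ) ρ) ω := by
    refine (om_triv_of_convex (convex_ball _ _) ?_).add (om_triv_of_convex (convex_ball _ _) ?_)
    · rw [Metric.mem_ball, dist_eq_norm, hpm]; exact lt_irrefl _
    · rw [Metric.mem_ball, dist_eq_norm, hqm]; exact lt_irrefl _
  have ht2 : Triv {z : ℂ | ρ < ‖z - (m : ℂ)‖} ω := by
    refine ((om_far (p := p) (q := m) hpm.le).add (om_far (p := q) (q := m) hqm.le)).congr ?_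
    intro y _
    refine ⟨univ, univ_mem, fun a _ b _ => ?_⟩
    beta_reduce
    have : ∀ x y z : F, x + z + (y + z) = x + y := by decide
    exact this _ _ _
  have hopen2 : IsOpen {z : ℂ | ρ < ‖z - (m : ℂ)‖} := isOpen_lt continuous_const (by fun_prop)
  obtain ⟨f, hf⟩ := Triv.union_of_preconn Metric.isOpen_ball hopen2 ht1 ht2 (by
    have : Metric.ball (m : ℂ) ρ ∩ {z : ℂ | ρ < ‖z - (m : ℂ)‖} = ∅ := by
      ext z
      simp only [mem_inter_iff, Metric.mem_ball, dist_eq_norm, mem_ofPred_eq, mem_empty_iff_false,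
        iff_false, not_and, not_lt]
      exact fun h => h.le
    rw [this]; exact isPreconnected_empty)
  set toC : S2 → ℂ := fun z => OnePoint.elim z 0 (fun w => w) with htoC
  have toC_coe : ∀ w : ℂ, toC (w : S2) = w := fun w => rfl
  set g : ℂ → F := fun z => if z ∈ A0 then 0 else f z with hg
  set Ω : S2 → S2 → F := fun z w => if z ∉ A ∧ w ∉ A then 0 else
    ω (toC z) (toC w) + (g (toC z) + g (toC w)) with hΩ
  have key : Near2 (univ : Set ℂ) fun z w => pl Ω z w = ω z w + (g z + g w) := by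
    intro z _
    by_cases hz : ‖z - (m : ℂ)‖ = ρ
    · have ho : IsOpen {w : ℂ | |‖w - (m : ℂ)‖ - ρ| < δ} := isOpen_lt (by fun_prop) continuous_const
      refine ⟨{w : ℂ | |‖w - (m : ℂ)‖ - ρ| < δ}, ho.mem_nhds (by
        show |‖z - (m : ℂ)‖ - ρ| < δ
        rw [hz, sub_self, abs_zero]; exact hδ), fun a ha b hb => ?_⟩
      have ha0 : |‖a - (m : ℂ)‖ - ρ| < δ := ha
      have ha' : (a : S2) ∈ A := (memA a).2 ha0.le
      beta_reduce
      simp only [pl, hΩ]
      rw [if_neg fun h => h.1 ha', toC_coe, toC_coe]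
    · have hz' : z ∈ Metric.ball (m : ℂ) ρ ∪ {z : ℂ | ρ < ‖z - (m : ℂ)‖} := by
        rcases lt_or_gt_of_ne hz with h | h
        · left; rwa [Metric.mem_ball, dist_eq_norm]
        · right; exact h
      obtain ⟨U, hU, h1⟩ := hf z hz'
      refine ⟨U, hU, fun a ha b hb => ?_⟩
      beta_reduce
      by_cases hab : (a : S2) ∉ A ∧ (b : S2) ∉ A
      · have e1 : pl Ω a b = 0 := if_pos hab
        have e2 : g a = f a := if_neg fun h => hab.1 ((memA a).2 h)
        have e3 : g b = f b := if_neg fun h => hab.2 ((memA b).2 h)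
        have e4 := h1 a ha b hb
        beta_reduce at e4
        rw [e1, e2, e3, e4]
        exact (F_add_self _).symm
      · simp only [pl, hΩ]
        rw [if_neg hab, toC_coe, toC_coe]
  refine ⟨A, Ω, hAc, ?_, fun z w hz hw => if_pos ⟨hz, hw⟩, ?_, ?_⟩
  · rw [Set.disjoint_left]
    rintro _ hz ⟨x, hx, rfl⟩
    have h1 := (memA _).1 hz
    have h2 := hδE x hx
    have h3 : |‖(x : ℂ) - (m : ℂ)‖ - ρ| ≤ δ := h1
    linarith
  · rintro z ⟨hz1, hz2⟩
    induction z using OnePoint.rec with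
    | infty =>
      refine ⟨Aᶜ, hAc.isClosed.isOpen_compl.mem_nhds ?_, fun a ha b hb c hc => ?_⟩
      · rintro ⟨w, -, h⟩
        exact OnePoint.coe_ne_infty w h
      · have e1 : Ω a b = 0 := if_pos ⟨ha, hb⟩
        have e2 : Ω b c = 0 := if_pos ⟨hb, hc⟩
        have e3 : Ω a c = 0 := if_pos ⟨ha, hc⟩
        beta_reduce
        rw [e1, e2, e3]; simp
    | coe w =>
      have h1 : Coc {z : ℂ | z ≠ p ∧ z ≠ q} (pl Ω) :=
        (hωc.add (coc_cob _ g)).congr ((key.mono (subset_univ _) fun _ _ h => h.symm))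
      have h2 : Coc ((fun w : ℂ => (w : S2)) '' {z : ℂ | z ≠ p ∧ z ≠ q}) Ω := by
        refine Near3.descend OnePoint.isOpenEmbedding_coe.isOpenMap
          (fun y hy => by obtain ⟨w, -, hw⟩ := hy; exact ⟨w, hw⟩) ?_
        refine Near3.mono h1 (fun w hw => ?_) fun _ _ _ => id
        obtain ⟨v, hv, h⟩ := hw
        rw [← OnePoint.coe_injective h]; exact hv
      refine h2 _ ⟨w, ⟨fun h => hz1 (by rw [h]), fun h => hz2 (by rw [h])⟩, rfl⟩
  · intro s t hs ht
    have hk : ∀ r : ℂ, ∀ s t : ℝ, Mono r s t (fun z w => g z + g w) 0 := fun r s t =>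
      Mono.of_triv (triv_cob _ g)
    have n1 : t ≤ ‖(q : ℂ) - (p : ℂ)‖ := by
      rw [← Complex.ofReal_sub, Complex.norm_real, Real.norm_eq_abs, abs_sub_comm]; exact ht
    have n2 : t ≤ ‖(p : ℂ) - (q : ℂ)‖ := by
      rw [← Complex.ofReal_sub, Complex.norm_real, Real.norm_eq_abs]; exact ht
    constructor
    · have h1 := ((om_mono p s t).add (om_mono_near (r := s) n1)).add (hk p s t)
      rw [add_zero, add_zero] at h1
      exact h1.congr (key.mono (subset_univ _) fun _ _ h => h.symm)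
    · have h1 := ((om_mono_near (r := s) n2).add (om_mono q s t)).add (hk q s t)
      rw [zero_add, add_zero] at h1
      exact h1.congr (key.mono (subset_univ _) fun _ _ h => h.symm)

section
variable {X : Type*} [TopologicalSpace X] {E T P : Set ℝ} {r : ℝ → ℝ} {κ : X → S2}
  {lam : S2 → X}

/-- pulling back trivialisations over annuli -/
theorem NF.triv_pull (h : NF X E T P r κ lam) {p s : ℝ} (hp : p ∈ T ∪ P) (hs : 0 ≤ s)
    {a : X → X → F} (ht : Triv (Ann (p : ℂ) s (r p)) fun z w => a (lam z) (lam w)) :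
    Triv (κ ⁻¹' an p s (r p)) a := by
  obtain ⟨f, hf⟩ := triv_an_of_pl (ψ := fun z w => a (lam z) (lam w)) ht
  have h1 := hf.comap (S := κ ⁻¹' an p s (r p)) (g := κ)
    (fun _ _ => h.κc.continuousAt) fun x hx => hx
  refine ⟨fun x => f (κ x), ?_⟩
  have h2 : Near2 (κ ⁻¹' an p s (r p)) fun x y => lam (κ x) = x ∧ lam (κ y) = y := by
    have e : ∀ x ∈ κ ⁻¹' an p s (r p), lam (κ x) = x := by
      intro x hx
      refine h.lamκ x ?_
      rintro ⟨q, hq, hqx⟩
      beta_reduce at hqx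
      rw [mem_preimage, an_eq, ← hqx] at hx
      have h3 : ((q : ℂ) : S2) ∈ cd q (r q) := by
        rw [mem_cd, sub_self, norm_zero]; exact (h.pos q hq).le
      have h4 := h.eq_of_mem hp hq (dd_sub_cd le_rfl hx.1) h3
      subst h4
      exact hx.2 (by rw [mem_cd, sub_self, norm_zero]; exact hs)
    exact fun x hx => ⟨κ ⁻¹' an p s (r p), ((isOpen_an p _ _).preimage h.κc).mem_nhds hx,
      fun u hu v hv => ⟨e u hu, e v hv⟩⟩
  refine (h1.and h2).mono subset_rfl fun x y h => ?_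
  beta_reduce at h ⊢
  obtain ⟨e1, e2, e3⟩ := h
  rw [← e1, e2, e3]

theorem NF.coc_lam (h : NF X E T P r κ lam) {p s : ℝ} (hp : p ∈ T ∪ P) (hs : 0 ≤ s)
    {a : X → X → F} (ha : Coc (κ ⁻¹' an p s (r p)) a) :
    Coc (Ann (p : ℂ) s (r p)) fun z w => a (lam z) (lam w) := by
  have hE : ∀ z ∈ Ann (p : ℂ) s (r p), (z : S2) ∉ pt E := fun z hz h1 =>
    Set.disjoint_left.1 (h.disj_cd hp) (mem_cd.2 hz.2.le) h1
  refine Near3.comap ha (g := fun z : ℂ => lam z) (fun z hz => ?_) fun z hz => ?_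
  · refine ContinuousAt.comp (f := fun z : ℂ => (z : S2)) (h.lamc _ (hE z hz) ?_)
      OnePoint.continuous_coe.continuousAt
    rintro ⟨q, hq, he⟩
    beta_reduce at he
    have h3 : ((q : ℂ) : S2) ∈ cd q (r q) := by
      rw [mem_cd, sub_self, norm_zero]; exact (h.pos q hq).le
    have h4 := h.eq_of_mem hp hq (mem_cd.2 hz.2.le) (he ▸ h3)
    subst h4
    have h5 := OnePoint.coe_injective he
    have := hz.1
    rw [← h5, sub_self, norm_zero] at this
    linarith
  · rw [mem_preimage, h.κlam _ (hE z hz)]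
    exact mem_an.2 hz

/-- `c_p` has monodromy one -/
theorem NB.mono_c {ρ : ℝ → ℝ} {α β c : ℝ → X → X → F} (h : NB X E T P r κ lam ρ α β c)
    {p : ℝ} (hp : p ∈ T ∪ P) : Mono (p : ℂ) (ρ p) (r p) (fun z w => c p (lam z) (lam w)) 1 := by
  have hb := h.bd p hp
  have h1 : Coc (κ ⁻¹' an p (ρ p) (r p)) (c p) := by
    have hsub : κ ⁻¹' an p (ρ p) (r p) ⊆ κ ⁻¹' dd p (r p) := by
      intro q hq; rw [mem_preimage, an_eq] at hq; exact hq.1
    have h2 : Near3 (κ ⁻¹' an p (ρ p) (r p)) fun x y z => α p x y = 0 := fun x hx =>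
      ⟨κ ⁻¹' an p (ρ p) (r p), ((isOpen_an p _ _).preimage h.nf.κc).mem_nhds hx,
        fun u hu v _ w _ => by
          rw [mem_preimage, an_eq] at hu
          exact hb.ea u v (Or.inl hu.2)⟩
    refine (Near3.and (hb.dc.mono hsub fun _ _ _ => id) h2).mono subset_rfl fun x y z h => ?_
    beta_reduce at h ⊢
    rw [h.2, zero_mul] at h
    have : ∀ x y z : F, x + y + z = 0 → x + y = z := by decide
    exact this _ _ _ h.1
  obtain ⟨m, hm⟩ := (h.nf.coc_lam hp hb.ρ0.le h1).exists_mono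
  rcases F_cases m with rfl | rfl
  · exact absurd (h.nf.triv_pull hp hb.ρ0.le (hm.triv hb.ρ0.le)) hb.nt
  · exact hm

open Classical in
theorem NB.pair {ρ : ℝ → ℝ} {α β c : ℝ → X → X → F} (h : NB X E T P r κ lam ρ α β c)
    {p q : ℝ} (hp : p ∈ T ∪ P) (hq : q ∈ T ∪ P) (hne : p ≠ q) :
    ∃ a : X → X → F, SuppIn univ a ∧ Near3 univ fun x y z =>
      a x y + a y z + a x z = α p x y * β p y z + α q x y * β q y z := by
  have hb := h.bd p hp
  have hb' := h.bd q hq
  have hEE : ∀ p ∈ T ∪ P, p ∉ E := fun p hp hE => by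
    have h1 := h.nf.away p hp p hE
    have h2 := h.nf.pos p hp
    rw [sub_self, abs_zero] at h1; linarith
  obtain ⟨A, Ω, hA, hAE, hΩ0, hΩc, hΩm⟩ := exists_loop h.nf.hE (hEE p hp) (hEE q hq)
  have hap := h.nf.apart p hp q hq hne
  have hpp := h.nf.pos p hp
  have hqp := h.nf.pos q hq
  set sp := (ρ p + r p) / 2 with hsp
  set sq' := (ρ q + r q) / 2 with hsq
  have hsp1 : ρ p < sp := by have := hb.ρR; rw [hsp]; linarith
  have hsp2 : sp < r p := by have := hb.ρR; rw [hsp]; linarith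
  have hsq1 : ρ q < sq' := by have := hb'.ρR; rw [hsq]; linarith
  have hsq2 : sq' < r q := by have := hb'.ρR; rw [hsq]; linarith
  set b : X → X → F := fun x y => Ω (κ x) (κ y) with hbdef
  set cU : X → X → F := fun x y => if κ x ∈ dd p (r p) then c p x y else c q x y with hcU
  have hdisj : ∀ x, κ x ∈ dd p (r p) → κ x ∉ dd q (r q) := fun x h1 h2 =>
    hne (h.nf.eq_of_mem hp hq (dd_sub_cd le_rfl h1) (dd_sub_cd le_rfl h2))
  set U : Set X := κ ⁻¹' dd p (r p) ∪ κ ⁻¹' dd q (r q) with hU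
  set V : Set X := {x | κ x ∉ cd p (ρ p) ∧ κ x ∉ cd q (ρ q)} with hV
  set W : Set X := κ ⁻¹' dd p sp ∪ κ ⁻¹' dd q sq' with hW
  have hWo : IsOpen W := (h.nf.open_blk p _).union (h.nf.open_blk q _)
  have hVo : IsOpen V := ((isClosed_cd _ _).isOpen_compl.preimage h.nf.κc).inter
    ((isClosed_cd _ _).isOpen_compl.preimage h.nf.κc)
  have hclW : closure W ⊆ κ ⁻¹' cd p sp ∪ κ ⁻¹' cd q sq' := by
    refine closure_minimal ?_ (((isClosed_cd _ _).preimage h.nf.κc).union
      ((isClosed_cd _ _).preimage h.nf.κc))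
    exact union_subset_union (preimage_mono (dd_sub_cd le_rfl)) (preimage_mono (dd_sub_cd le_rfl))
  -- trivialisation on the annuli
  have tp : ∀ (p q : ℝ), p ∈ T ∪ P → (∀ s t : ℝ, 0 ≤ s → t ≤ r p → Mono (p : ℂ) s t (pl Ω) 1) →
      Triv (κ ⁻¹' an p (ρ p) (r p)) fun x y => c p x y + b x y := by
    intro p _ hp hm
    have hb := h.bd p hp
    have h1 := (h.mono_c hp).add (hm (ρ p) (r p) hb.ρ0.le le_rfl)
    rw [F_add_self] at h1
    refine h.nf.triv_pull hp hb.ρ0.le ((h1.triv hb.ρ0.le).congr ?_)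
    have hE : ∀ z ∈ Ann (p : ℂ) (ρ p) (r p), κ (lam z) = z := fun z hz =>
      h.nf.κlam _ fun h1 => Set.disjoint_left.1 (h.nf.disj_cd hp) (mem_cd.2 hz.2.le) h1
    intro z hz
    refine ⟨Ann (p : ℂ) (ρ p) (r p), (isOpen_ann _ _ _).mem_nhds hz, fun u hu v hv => ?_⟩
    simp only [pl, hbdef]
    rw [hE u hu, hE v hv]
  have tp1 := tp p q hp fun s t hs ht => (hΩm s t hs (by linarith)).1
  have tq1 := tp q p hq fun s t hs ht => (hΩm s t hs (by linarith)).2
  obtain ⟨f, hf⟩ : Triv (κ ⁻¹' an p (ρ p) (r p) ∪ κ ⁻¹' an q (ρ q) (r q)) fun x y =>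
      cU x y + b x y := by
    refine Triv.union_of_preconn ((isOpen_an p _ _).preimage h.nf.κc)
      ((isOpen_an q _ _).preimage h.nf.κc) (tp1.congr ?_) (tq1.congr ?_) ?_
    · intro x hx
      refine ⟨κ ⁻¹' an p (ρ p) (r p), ((isOpen_an p _ _).preimage h.nf.κc).mem_nhds hx,
        fun u hu v hv => ?_⟩
      rw [mem_preimage, an_eq] at hu
      simp only [hcU]
      rw [if_pos hu.1]
    · intro x hx
      refine ⟨κ ⁻¹' an q (ρ q) (r q), ((isOpen_an q _ _).preimage h.nf.κc).mem_nhds hx,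
        fun u hu v hv => ?_⟩
      rw [mem_preimage, an_eq] at hu
      simp only [hcU]
      rw [if_neg fun h1 => hdisj u h1 hu.1]
    · have : κ ⁻¹' an p (ρ p) (r p) ∩ κ ⁻¹' an q (ρ q) (r q) = ∅ := by
        rw [Set.eq_empty_iff_forall_notMem]
        rintro x ⟨h1, h2⟩
        rw [mem_preimage, an_eq] at h1 h2
        exact hdisj x h1.1 h2.1
      rw [this]; exact isPreconnected_empty
  have zα : ∀ (p : ℝ), p ∈ T ∪ P → ∀ x y, κ x ∉ cd p (ρ p) → α p x y = 0 := fun p hp x y hx =>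
    (h.bd p hp).ea x y (Or.inl hx)
  obtain ⟨a, ha1, ha2, ha3⟩ := glue (S := univ) (U := U) (V := V) (W := W)
    (σ := fun x y z => α p x y * β p y z + α q x y * β q y z) (cU := cU) (cV := b) (f := f)
    hWo (union_subset_union (preimage_mono (dd_sub_dd hsp2.le)) (preimage_mono (dd_sub_dd hsq2.le)))
    (by
      rintro x ⟨hx, -⟩
      by_cases hxW : x ∈ W
      · exact Or.inr hxW
      · refine Or.inl ⟨?_, ?_, ?_⟩
        · rcases hclW hx with h1 | h1
          · exact Or.inl (cd_sub_dd hsp2 h1)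
          · exact Or.inr (cd_sub_dd hsq2 h1)
        · exact fun h1 => hxW (Or.inl (cd_sub_dd hsp1 h1))
        · exact fun h1 => hxW (Or.inr (cd_sub_dd hsq1 h1)))
    (by
      rintro x ⟨-, hx⟩
      exact ⟨fun h1 => hx (Or.inl (cd_sub_dd hsp1 h1)), fun h1 => hx (Or.inr (cd_sub_dd hsq1 h1))⟩)
    (by
      rintro x (hx | hx)
      · obtain ⟨N, hN, h1⟩ := hb.dc x hx
        refine ⟨N ∩ κ ⁻¹' dd p (r p), inter_mem hN ((h.nf.open_blk p _).mem_nhds hx), ?_⟩
        rintro u ⟨hu1, hu2⟩ v ⟨hv1, hv2⟩ w ⟨hw1, hw2⟩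
        have e1 := h1 u hu1 v hv1 w hw1
        obtain ⟨e2, -⟩ := h.disj_support hq hp (Ne.symm hne) hu2 v
        have f1 : cU u v = c p u v := if_pos hu2
        have f2 : cU v w = c p v w := if_pos hv2
        have f3 : cU u w = c p u w := if_pos hu2
        beta_reduce at e1 ⊢
        rw [f1, f2, f3, e2, e1]; simp
      · obtain ⟨N, hN, h1⟩ := hb'.dc x hx
        refine ⟨N ∩ κ ⁻¹' dd q (r q), inter_mem hN ((h.nf.open_blk q _).mem_nhds hx), ?_⟩
        rintro u ⟨hu1, hu2⟩ v ⟨hv1, hv2⟩ w ⟨hw1, hw2⟩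
        have e1 := h1 u hu1 v hv1 w hw1
        obtain ⟨e2, -⟩ := h.disj_support hp hq hne hu2 v
        have f1 : cU u v = c q u v := if_neg fun h => hdisj u h hu2
        have f2 : cU v w = c q v w := if_neg fun h => hdisj v h hv2
        have f3 : cU u w = c q u w := if_neg fun h => hdisj u h hu2
        beta_reduce at e1 ⊢
        rw [f1, f2, f3, e2, e1]; simp)
    (by
      have h1 : Coc V b := by
        refine Near3.comap hΩc (g := κ) (fun _ _ => h.nf.κc.continuousAt) fun x hx => ⟨?_, ?_⟩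
        · intro h1
          refine hx.1 ?_
          rw [h1, mem_cd, sub_self, norm_zero]; exact hb.ρ0.le
        · intro h1
          refine hx.2 ?_
          rw [h1, mem_cd, sub_self, norm_zero]; exact hb'.ρ0.le
      intro x hx
      obtain ⟨N, hN, h2⟩ := h1 x hx
      refine ⟨N ∩ V, inter_mem hN (hVo.mem_nhds hx), ?_⟩
      rintro u ⟨hu1, hu2⟩ v ⟨hv1, hv2⟩ w ⟨hw1, hw2⟩
      have e1 := h2 u hu1 v hv1 w hw1
      beta_reduce at e1 ⊢
      rw [zα p hp u v hu2.1, zα q hq u v hu2.2, e1, F_add_self]; simp)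
    (by
      refine hf.mono ?_ fun _ _ => id
      rintro x ⟨h1, h2⟩
      rcases h1 with h1 | h1
      · left; rw [mem_preimage, an_eq]; exact ⟨h1, h2.1⟩
      · right; rw [mem_preimage, an_eq]; exact ⟨h1, h2.2⟩)
  refine ⟨a, ⟨κ ⁻¹' (cd p sp ∪ cd q sq' ∪ A), subset_univ _, ?_, ?_⟩, ha1⟩
  · refine h.nf.κp _ (((isCompact_cd _ _).union (isCompact_cd _ _)).union hA) ?_
    refine Disjoint.union_left (Disjoint.union_left ?_ ?_) hAE
    · exact (h.nf.disj_cd hp).mono_left (cd_sub_cd hsp2.le)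
    · exact (h.nf.disj_cd hq).mono_left (cd_sub_cd hsq2.le)
  · intro x hx
    have hcl : IsClosed (cd p sp ∪ cd q sq' ∪ A) :=
      (((isClosed_cd _ _).union (isClosed_cd _ _)).union hA.isClosed)
    refine ⟨κ ⁻¹' (cd p sp ∪ cd q sq' ∪ A)ᶜ, (hcl.isOpen_compl.preimage h.nf.κc).mem_nhds hx,
      fun u hu v hv => ?_⟩
    have huW : u ∉ W := by
      rintro (h1 | h1)
      · exact hu (Or.inl (Or.inl (dd_sub_cd le_rfl h1)))
      · exact hu (Or.inl (Or.inr (dd_sub_cd le_rfl h1)))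
    beta_reduce
    rw [ha3 u v (Or.inl huW)]
    exact hΩ0 _ _ (fun h1 => hu (Or.inr h1)) fun h1 => hv (Or.inr h1)

/-- an even number of crosscap classes has trivial square -/
theorem NB.even {ρ : ℝ → ℝ} {α β c : ℝ → X → X → F} (h : NB X E T P r κ lam ρ α β c)
    {Q : Finset ℝ} (hQ : ∀ q ∈ Q, q ∈ P) (he : (Q.card : F) = 0) :
    Perp (fun x y => ∑ q ∈ Q, α q x y) (fun x y => ∑ q ∈ Q, α q x y) := by
  classical
  have hZ : ∀ q ∈ P, α q ∈ ZC (univ : Set X) := fun q hq =>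
    ZC.mono (h.αZC (Or.inr hq)) (subset_univ _)
  rcases Q.eq_empty_or_nonempty with rfl | ⟨q0, hq0⟩
  · simp only [Finset.sum_empty]
    exact ⟨fun _ _ => 0, suppIn_zero _, fun _ _ => ⟨univ, univ_mem, fun _ _ _ _ _ _ => by simp⟩⟩
  · have h1 : ∀ q ∈ Q, Perp (fun x y => α q x y + α q0 x y) (fun x y => α q x y + α q0 x y) := by
      intro q hq
      by_cases hqq : q = q0
      · subst hqq
        refine ⟨fun _ _ => 0, suppIn_zero _, fun _ _ => ⟨univ, univ_mem,
          fun _ _ _ _ _ _ => ?_⟩⟩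
        beta_reduce
        rw [F_add_self, F_add_self, F_add_self]; simp
      · obtain ⟨a, ha, hd⟩ := h.pair (Or.inr (hQ q hq)) (Or.inr (hQ q0 hq0)) hqq
        refine ⟨a, ha, hd.mono subset_rfl fun x y z h1 => ?_⟩
        beta_reduce at h1 ⊢
        rw [h1, h.eqP q (hQ q hq), h.eqP q0 (hQ q0 hq0)]
        have c1 : β q x y * β q0 y z = 0 := by
          by_cases hy : κ y ∈ cd q (ρ q)
          · have hy' : κ y ∉ cd q0 (ρ q0) := fun h2 =>
              hqq (h.nf.eq_of_mem (Or.inr (hQ q hq)) (Or.inr (hQ q0 hq0))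
                (cd_sub_cd (h.bd q (Or.inr (hQ q hq))).ρR.le hy)
                (cd_sub_cd (h.bd q0 (Or.inr (hQ q0 hq0))).ρR.le h2))
            rw [(h.bd q0 (Or.inr (hQ q0 hq0))).eb y z (Or.inl hy'), mul_zero]
          · rw [(h.bd q (Or.inr (hQ q hq))).eb x y (Or.inr hy), zero_mul]
        have c2 : β q0 x y * β q y z = 0 := by
          by_cases hy : κ y ∈ cd q (ρ q)
          · have hy' : κ y ∉ cd q0 (ρ q0) := fun h2 =>
              hqq (h.nf.eq_of_mem (Or.inr (hQ q hq)) (Or.inr (hQ q0 hq0))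
                (cd_sub_cd (h.bd q (Or.inr (hQ q hq))).ρR.le hy)
                (cd_sub_cd (h.bd q0 (Or.inr (hQ q0 hq0))).ρR.le h2))
            rw [(h.bd q0 (Or.inr (hQ q0 hq0))).eb x y (Or.inr hy'), zero_mul]
          · rw [(h.bd q (Or.inr (hQ q hq))).eb y z (Or.inl hy), mul_zero]
        linear_combination -c1 - c2
    have h2 := alt_sum (s := Q) (φ := fun q x y => α q x y + α q0 x y)
      (fun q hq => ZC.add (hZ q (hQ q hq)) (hZ q0 (hQ q0 hq0))) h1
    have h3 : (fun x y => ∑ q ∈ Q, (α q x y + α q0 x y)) = fun x y => ∑ q ∈ Q, α q x y := by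
      funext x y
      rw [Finset.sum_add_distrib, Finset.sum_const, nsmul_eq_mul, he, zero_mul, add_zero]
    rwa [h3] at h2

end

end Pool.Agent.SRF.V
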