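import Pool.Agent.SRF.V.Hol

/-!
# Compactly supported cocycles of `X × S¹` (SRF, Part V)

`X` connected and not compact: every compactly supported cocycle of `X × S¹` is, up to a
coboundary, the pullback of its restriction to `X × {0}`.
-/

set_option linter.unusedTactic false
set_option linter.unusedSectionVars false

namespace Pool.Agent.SRF.V

open Topology Filter Set

/-- the circle -/
abbrev Cir := AddCircle (1:ℝ)

variable {X : Type*} [TopologicalSpace X]

/-- the covering `X × ℝ → X × S¹` -/
def qq (z : X × ℝ) : X × Cir := (z.1, (z.2 : Cir))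

theorem continuous_qq : Continuous (qq : X × ℝ → X × Cir) := by
  unfold qq
  exact continuous_fst.prodMk ((AddCircle.continuous_mk' 1).comp continuous_snd)

theorem isOpenMap_qq : IsOpenMap (qq : X × ℝ → X × Cir) := by
  have h : IsOpenMap ((↑) : ℝ → Cir) := QuotientAddGroup.isOpenMap_coe
  exact IsOpenMap.id.prodMap h

theorem isCompact_preimage_fst (K : Set X) (hK : IsCompact K) :
    IsCompact ((Prod.fst : X × Cir → X) ⁻¹' K) := by
  have : (Prod.fst : X × Cir → X) ⁻¹' K = K ×ˢ univ := by ext; simp
  rw [this]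
  exact hK.prod isCompact_univ

theorem isCompact_preimage_sec (K : Set (X × Cir)) (hK : IsCompact K) :
    IsCompact ((fun x : X => ((x, 0) : X × Cir)) ⁻¹' K) := by
  have : (fun x : X => ((x, 0) : X × Cir)) ⁻¹' K =
      Prod.fst '' (K ∩ Prod.snd ⁻¹' {(0 : Cir)}) := by
    ext x
    simp only [mem_preimage, mem_image, mem_inter_iff, mem_singleton_iff]
    constructor
    · intro h; exact ⟨(x, 0), ⟨h, rfl⟩, rfl⟩
    · rintro ⟨⟨y, s⟩, ⟨h1, h2⟩, h3⟩
      dsimp only at h1 h2 h3
      subst h2 h3; exact h1
  rw [this]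
  exact (hK.inter_right (isClosed_singleton.preimage continuous_snd)).image continuous_fst

theorem continuous_sec : Continuous (fun x : X => ((x, 0) : X × Cir)) := by fun_prop

/-- pullback to the product -/
def pul (a : X → X → F) : X × Cir → X × Cir → F := fun z w => a z.1 w.1

/-- restriction to the section -/
def res (ψ : X × Cir → X × Cir → F) : X → X → F := fun x y => ψ (x, 0) (y, 0)

theorem res_pul (a : X → X → F) : res (pul a) = a := rfl

theorem ZC.pul {A : Set X} {a : X → X → F} (h : a ∈ ZC A) : V.pul a ∈ ZC (A ×ˢ (univ : Set Cir)) := by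
  have := ZC.pull h (g := (Prod.fst : X × Cir → X)) continuous_fst isCompact_preimage_fst
  exact ZC.mono this fun z hz => ⟨hz, mem_univ _⟩

theorem ZC.res {A : Set X} {ψ : X × Cir → X × Cir → F} (h : ψ ∈ ZC (A ×ˢ (univ : Set Cir))) :
    V.res ψ ∈ ZC A := by
  have := ZC.pull h (g := fun x : X => ((x, 0) : X × Cir)) continuous_sec isCompact_preimage_sec
  exact ZC.mono this fun z hz => hz.1

theorem perp_pul_iff {a b : X → X → F} : Perp (pul a) (pul b) ↔ Perp a b :=
  ⟨fun h => h.pull continuous_sec isCompact_preimage_sec,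
    fun h => h.pull continuous_fst isCompact_preimage_fst⟩

theorem f2_add4 : ∀ x y z : F, x + y = z → z = x + y := by decide

/-- the main lemma on products -/
theorem triv_prod [PreconnectedSpace X] (hX : ¬ CompactSpace X) {ψ : X × Cir → X × Cir → F}
    (hψ : ψ ∈ ZC (univ : Set (X × Cir))) : Triv univ fun z w => ψ z w + pul (res ψ) z w := by
  obtain ⟨hc, L, -, hL, hL'⟩ := hψ
  obtain ⟨g, hg, hg0⟩ := homotopy (Y := X × ℝ) (S := univ) hc
    (H := fun z => qq (z.1.1, (1 - z.2) * z.1.2))
    (fun a _ t _ => ⟨by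
      apply Continuous.continuousAt
      exact continuous_qq.comp (by fun_prop), mem_univ _⟩)
  -- a point outside the support
  have hx0 : ∃ x0 : X, x0 ∉ Prod.fst '' L := by
    by_contra hcon
    push Not at hcon
    refine hX ⟨?_⟩
    have : (univ : Set X) = Prod.fst '' L := (eq_univ_of_forall hcon).symm
    rw [this]
    exact hL.image continuous_fst
  obtain ⟨x0, hx0⟩ := hx0
  have hz : ∀ t : ℝ, g (x0, t) = 0 := by
    intro t
    refine hg0 _ fun s _ => ⟨?_, ?_⟩
    · apply Continuous.continuousAt
      exact continuous_qq.comp (by fun_prop)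
    · refine hL' _ fun h => hx0 ⟨_, h, rfl⟩
  -- the coboundary upstairs
  have h1 : Near2 (univ : Set (X × ℝ)) fun a b =>
      ψ (qq a) (qq b) + pul (res ψ) (qq a) (qq b) = g a + g b := by
    refine hg.mono subset_rfl fun a b h => ?_
    beta_reduce at h ⊢
    simp only [sub_zero, one_mul, sub_self, zero_mul] at h
    rw [← h]
    rfl
  -- periodicity
  have h2 : ∀ x t, g (x, t + 1) = g (x, t) := by
    have h3 : Near2 (univ : Set (X × ℝ)) fun a b =>
        g (a.1, a.2 + 1) + g a = g (b.1, b.2 + 1) + g b := by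
      have h4 := h1.comap (S := univ) (g := fun z : X × ℝ => (z.1, z.2 + 1))
        (fun z _ => by apply Continuous.continuousAt; fun_prop) fun z _ => mem_univ _
      refine (h1.and h4).mono subset_rfl fun a b h => ?_
      beta_reduce at h ⊢
      obtain ⟨e1, e2⟩ := h
      have e3 : ∀ z : X × ℝ, qq (z.1, z.2 + 1) = qq z := by
        intro z
        simp [qq]
      rw [e3, e3, e1] at e2
      have : ∀ x y z u : F, x + y = z + u → z + x = u + y := by decide
      exact this _ _ _ _ e2
    intro x t
    have := const_of_near (f := fun a : X × ℝ => g (a.1, a.2 + 1) + g a)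
      (isPreconnected_univ (α := X × ℝ)) h3 (mem_univ (x, t)) (mem_univ (x0, t))
    beta_reduce at this
    rw [hz, hz, add_zero] at this
    have e : ∀ x y : F, x + y = 0 → x = y := by decide
    exact e _ _ this
  have h2' : ∀ (x : X) (t : ℝ) (n : ℤ), g (x, t + n) = g (x, t) := by
    intro x t n
    induction n using Int.induction_on with
    | zero => simp
    | succ i ih => rw [← ih, ← h2 x (t + ((i:ℤ):ℝ))]; congr 2; push_cast; ring
    | pred i ih => rw [← ih, ← h2 x (t + ((-(i:ℤ) - 1 : ℤ):ℝ))]; congr 2; push_cast; ring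
  -- descent
  have hlift : ∀ s : Cir, ∃ t : ℝ, (t : Cir) = s := fun s => QuotientAddGroup.mk_surjective s
  choose lf hlf using hlift
  refine ⟨fun z => g (z.1, lf z.2), fun z _ => ?_⟩
  obtain ⟨U, hU, h⟩ := h1 (z.1, lf z.2) (mem_univ _)
  refine ⟨qq '' U, ?_, ?_⟩
  · have := isOpenMap_qq.image_mem_nhds hU
    have e : qq (z.1, lf z.2) = z := by simp [qq, hlf]
    rwa [e] at this
  · rintro _ ⟨a, ha, rfl⟩ _ ⟨b, hb, rfl⟩
    have key : ∀ a : X × ℝ, g ((qq a).1, lf (qq a).2) = g a := by
      intro a
      have e1 : ((lf (qq a).2 : ℝ) : Cir) = (a.2 : Cir) := hlf _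
      have e2 : ∃ n : ℤ, lf (qq a).2 = a.2 + n := by
        have e3 : ((lf (qq a).2 - a.2 : ℝ) : Cir) = 0 := by
          rw [AddCircle.coe_sub, e1, sub_self]
        obtain ⟨n, hn⟩ := (AddCircle.coe_eq_zero_iff (p := (1:ℝ))).1 e3
        refine ⟨n, ?_⟩
        rw [zsmul_eq_mul, mul_one] at hn
        linarith
      obtain ⟨n, hn⟩ := e2
      rw [hn]
      exact h2' _ _ _
    have := h a ha b hb
    beta_reduce at this ⊢
    rw [key, key, this]

end Pool.Agent.SRF.V
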