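import Pool.Agent.SRF.V.Gen
import Pool.Agent.SRF.V.Prod

/-!
# The crossing cocycle on the circle (SRF, Part V)
-/

set_option linter.unusedTactic false

namespace Pool.Agent.SRF.V

open Topology Filter Set

/-- the representative in `[c, c+1)` -/
noncomputable def rp (c : ℝ) (s : Cir) : ℝ := (AddCircle.equivIco 1 c s : ℝ)

theorem rp_mem (c : ℝ) (s : Cir) : rp c s ∈ Ico c (c + 1) := (AddCircle.equivIco 1 c s).2

theorem coe_rp (c : ℝ) (s : Cir) : ((rp c s : ℝ) : Cir) = s := AddCircle.coe_equivIco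

theorem rp_coe (c x : ℝ) : rp c (x : Cir) = x - ⌊x - c⌋ := by
  have h1 : ((x - ⌊x - c⌋ : ℝ) : Cir) = (x : Cir) := by
    rw [AddCircle.coe_sub, sub_eq_self]
    rw [AddCircle.coe_eq_zero_iff]
    exact ⟨⌊x - c⌋, by simp⟩
  have h2 : x - ⌊x - c⌋ ∈ Ico c (c + 1) := by
    constructor
    · have := Int.floor_le (x - c); linarith
    · have := Int.lt_floor_add_one (x - c); linarith
  rw [rp, ← h1]
  exact AddCircle.equivIco_coe_of_mem h2

open Classical in
/-- the crossing cocycle at `c` -/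
noncomputable def crc (c : ℝ) (s t : Cir) : F := if |rp c s - rp c t| < 1 / 2 then 0 else 1

/-- its primitive upstairs -/
noncomputable def fl (c x : ℝ) : F := ((⌊x - c⌋ : ℤ) : F)

theorem fl_add_one (c x : ℝ) : fl c (x + 1) = fl c x + 1 := by
  rw [fl, fl, show x + 1 - c = x - c + 1 by ring, Int.floor_add_one]
  push_cast; ring

theorem crc_lift_of {c x y : ℝ} (h : |x - y| < 1 / 2) :
    crc c (x : Cir) (y : Cir) = fl c x + fl c y := by
  rw [crc, rp_coe, rp_coe, fl, fl]
  set m := ⌊x - c⌋ with hm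
  set n := ⌊y - c⌋ with hn
  have h1 := Int.floor_le (x - c)
  have h2 := Int.lt_floor_add_one (x - c)
  have h3 := Int.floor_le (y - c)
  have h4 := Int.lt_floor_add_one (y - c)
  rw [← hm] at h1 h2
  rw [← hn] at h3 h4
  rw [abs_lt] at h
  have h5 : (m - n : ℝ) < 3/2 := by linarith [h.2]
  have h6 : (-3/2 : ℝ) < (m - n : ℝ) := by linarith [h.1]
  have h7 : m - n < 2 := by
    have : ((m - n : ℤ) : ℝ) < 2 := by push_cast; linarith
    exact_mod_cast this
  have h8 : -2 < m - n := by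
    have : (-2 : ℝ) < ((m - n : ℤ) : ℝ) := by push_cast; linarith
    exact_mod_cast this
  have h9 : m - n = -1 ∨ m - n = 0 ∨ m - n = 1 := by omega
  rcases h9 with h9 | h9 | h9
  · have e1 : m = n - 1 := by omega
    have e2 : (m : ℝ) = n - 1 := by rw [e1]; push_cast; ring
    rw [if_neg, e1]
    · push_cast
      have : ∀ x : F, 1 = x - 1 + x := by decide
      exact this _
    · rw [e2, abs_lt]
      intro h
      linarith [h.2, h.1]
  · have e1 : m = n := by omega
    rw [if_pos, e1]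
    · exact (F_add_self _).symm
    · rw [e1, abs_lt]
      constructor <;> linarith [h.1, h.2]
  · have e1 : m = n + 1 := by omega
    have e2 : (m : ℝ) = n + 1 := by rw [e1]; push_cast; ring
    rw [if_neg, e1]
    · push_cast
      have : ∀ x : F, 1 = x + 1 + x := by decide
      exact this _
    · rw [e2, abs_lt]
      intro h
      linarith [h.2, h.1]

theorem crc_lift (c : ℝ) : Near2 (univ : Set ℝ) fun x y => crc c (x : Cir) (y : Cir) =
    fl c x + fl c y := by
  intro x _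
  refine ⟨Metric.ball x (1/4), Metric.ball_mem_nhds _ (by norm_num), fun a ha b hb => ?_⟩
  refine crc_lift_of ?_
  rw [Metric.mem_ball, Real.dist_eq, abs_lt] at ha hb
  rw [abs_lt]
  constructor <;> linarith [ha.1, ha.2, hb.1, hb.2]

theorem isOpenMap_coe_cir : IsOpenMap ((↑) : ℝ → Cir) := QuotientAddGroup.isOpenMap_coe

theorem continuous_coe_cir : Continuous ((↑) : ℝ → Cir) := AddCircle.continuous_mk' 1

theorem surj_coe_cir (s : Cir) : ∃ x : ℝ, (x : Cir) = s := QuotientAddGroup.mk_surjective s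

theorem crc_coc (c : ℝ) : Coc univ (crc c) := by
  refine Near3.descend isOpenMap_coe_cir (fun s _ => surj_coe_cir s) ?_
  refine (crc_lift c).to3.mono (fun _ _ => mem_univ _) fun x y z h => ?_
  beta_reduce at h ⊢
  obtain ⟨h1, h2, h3, -⟩ := h
  rw [h1, h2, h3]
  have : ∀ x y z : F, x + y + (y + z) = x + z := by decide
  exact this _ _ _

theorem fl_const {c x : ℝ} (h : (x : Cir) ≠ (c : Cir)) : ∀ᶠ y in 𝓝 x, fl c y = fl c x := by
  have h0 : x - c ≠ ⌊x - c⌋ := by
    intro h0
    apply h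
    have : x = c + ⌊x - c⌋ := by linarith
    rw [this, AddCircle.coe_add]
    have : ((⌊x - c⌋ : ℝ) : Cir) = 0 := (AddCircle.coe_eq_zero_iff (p := (1:ℝ))).2
      ⟨⌊x - c⌋, by simp⟩
    rw [this, add_zero]
  have h1 : (⌊x - c⌋ : ℝ) < x - c := lt_of_le_of_ne (Int.floor_le _) (Ne.symm h0)
  have h2 := Int.lt_floor_add_one (x - c)
  have h3 : ∀ᶠ y in 𝓝 x, (⌊x - c⌋ : ℝ) < y - c ∧ y - c < ⌊x - c⌋ + 1 := by
    have : ContinuousAt (fun y : ℝ => y - c) x := by fun_prop
    exact (this.eventually (lt_mem_nhds h1)).and (this.eventually (gt_mem_nhds h2))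
  filter_upwards [h3] with y hy
  have : ⌊y - c⌋ = ⌊x - c⌋ := Int.floor_eq_iff.2 ⟨hy.1.le, hy.2⟩
  rw [fl, fl, this]

theorem crc_zer (c : ℝ) : Zer {(c : Cir)}ᶜ (crc c) := by
  refine Near2.descend isOpenMap_coe_cir (fun s _ => surj_coe_cir s) ?_
  intro x hx
  obtain ⟨U, hU, h⟩ := crc_lift c x (mem_univ _)
  have h1 := fl_const (c := c) (x := x) hx
  refine ⟨U ∩ {y | fl c y = fl c x}, inter_mem hU h1, fun a ha b hb => ?_⟩
  have := h a ha.1 b hb.1
  beta_reduce at this ⊢
  rw [this, ha.2, hb.2]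
  exact F_add_self _

open Classical in
/-- indicator of the negative half circle -/
noncomputable def hf (s : Cir) : F := if rp (-1/2) s < 0 then 1 else 0

theorem hf_coe (x : ℝ) : hf (x : Cir) = fl (-1/2) x + fl 0 x := by
  rw [hf, rp_coe, fl, fl]
  have h1 := Int.floor_le (x - (-1/2))
  have h2 := Int.lt_floor_add_one (x - (-1/2))
  set n := ⌊x - (-1/2)⌋ with hn
  by_cases h : x - n < 0
  · rw [if_pos h]
    have : ⌊x - 0⌋ = n - 1 := by
      rw [Int.floor_eq_iff]
      push_cast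
      constructor <;> linarith
    rw [this]
    push_cast
    have : ∀ x : F, 1 = x + (x - 1) := by decide
    exact this _
  · rw [if_neg h]
    have : ⌊x - 0⌋ = n := by
      rw [Int.floor_eq_iff]
      constructor <;> linarith
    rw [this]
    exact (F_add_self _).symm

theorem crc_add : Near2 (univ : Set Cir) fun s t => crc (-1/2) s t + crc 0 s t = hf s + hf t := by
  refine Near2.descend isOpenMap_coe_cir (fun s _ => surj_coe_cir s) ?_
  refine ((crc_lift (-1/2)).and (crc_lift 0)).mono (fun _ _ => mem_univ _) fun x y h => ?_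
  beta_reduce at h ⊢
  rw [h.1, h.2, hf_coe, hf_coe]
  ring

theorem half_ne_zero : ((-1/2 : ℝ) : Cir) ≠ ((0 : ℝ) : Cir) := by
  intro h
  have h1 : rp 0 ((-1/2 : ℝ) : Cir) = rp 0 ((0:ℝ) : Cir) := by rw [h]
  rw [rp_coe, rp_coe] at h1
  have e1 : ⌊(-1/2 : ℝ) - 0⌋ = -1 := by
    rw [Int.floor_eq_iff]; norm_num
  have e2 : ⌊(0 : ℝ) - 0⌋ = 0 := by simp
  rw [e1, e2] at h1
  norm_num at h1

/-- `rp (-1/2)` is continuous near `0` -/
theorem rp_cont {s : Cir} (hs : s ≠ ((-1/2 : ℝ) : Cir)) : ContinuousAt (rp (-1/2)) s := by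
  have := AddCircle.continuousAt_equivIco 1 (-1/2 : ℝ) hs
  exact continuousAt_subtype_val.comp this

theorem rp_zero : rp (-1/2) ((0:ℝ) : Cir) = 0 := by
  rw [rp_coe]
  have : ⌊(0:ℝ) - (-1/2)⌋ = 0 := by rw [Int.floor_eq_iff]; norm_num
  rw [this]; simp

/-- a cochain on the circle whose square is a coboundary: `θ ∪ θ = δ (hf θ)` -/
theorem crc_sq : Near3 (univ : Set Cir) fun x y z =>
    hf x * crc (-1/2) x y + hf y * crc (-1/2) y z + hf x * crc (-1/2) x z =
      crc (-1/2) x y * crc (-1/2) y z := by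
  have h1 := cup_left (crc_coc (-1/2)) hf
  have h2 := crc_add.to3
  have h3 : Near3 (univ : Set Cir) fun x y z => crc 0 x y * crc (-1/2) y z = 0 := by
    intro s _
    by_cases hs : s = ((0:ℝ) : Cir)
    · have : s ∈ ({((-1/2 : ℝ) : Cir)}ᶜ : Set Cir) := by
        rw [mem_compl_iff, mem_singleton_iff, hs]
        exact fun h => half_ne_zero h.symm
      obtain ⟨U, hU, h⟩ := crc_zer (-1/2) s this
      refine ⟨U, hU, fun a ha b hb d hd => ?_⟩
      have := h b hb d hd
      beta_reduce at this ⊢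
      rw [this, mul_zero]
    · obtain ⟨U, hU, h⟩ := crc_zer 0 s hs
      refine ⟨U, hU, fun a ha b hb d hd => ?_⟩
      have := h a ha b hb
      beta_reduce at this ⊢
      rw [this, zero_mul]
  refine (Near3.and (Near3.and h1 h2) h3).mono subset_rfl fun x y z h => ?_
  beta_reduce at h ⊢
  obtain ⟨⟨e1, e2, -⟩, e3⟩ := h
  rw [e1, ← e2, add_mul, e3, add_zero]

end Pool.Agent.SRF.V
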