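import Pool.Agent.SRF.V.Main

/-!
# Proper quotient maps (SRF, Part V)
-/

set_option linter.unusedTactic false

namespace Pool.Agent.SRF.V

open Topology Filter Set

/-- `q` is a proper map of `Ω` onto `L` -/
structure Prs {X : Type*} [TopologicalSpace X] (Ω : Set ℂ) (L : Set X) (q : ℂ → X) : Prop where
  cont : ContinuousOn q Ω
  image : q '' Ω = L
  proper : ∀ A ⊆ L, IsCompact A → ∃ B ⊆ Ω, IsCompact B ∧ ∀ x ∈ Ω, q x ∈ A → x ∈ B

/-- locally compact subsets -/
def LC {X : Type*} [TopologicalSpace X] (L : Set X) : Prop :=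
  ∀ x ∈ L, ∃ K ⊆ L, IsCompact K ∧ K ∈ 𝓝[L] x

section
variable {X Y : Type*} [TopologicalSpace X] [TopologicalSpace Y]

theorem quot_cont [T2Space X] {Ω : Set ℂ} {L : Set X} {q : ℂ → X} (hq : Prs Ω L q) (hL : LC L)
    {g : ℂ → Y} (hg : ContinuousOn g Ω) {G : X → Y} (hG : ∀ a ∈ Ω, G (q a) = g a) :
    ContinuousOn G L := by
  intro x hx
  obtain ⟨K, hKL, hK, hKx⟩ := hL x hx
  obtain ⟨B, hB, hBc, hBK⟩ := hq.proper K hKL hK
  suffices h : ContinuousWithinAt G K x from h.mono_of_mem_nhdsWithin hKx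
  have h1 : ContinuousOn G K := by
    rw [continuousOn_iff_isClosed]
    intro C hC
    have h2 : IsCompact (B ∩ g ⁻¹' C) := by
      obtain ⟨u, hu, he⟩ := continuousOn_iff_isClosed.1 (hg.mono hB) C hC
      have : B ∩ g ⁻¹' C = B ∩ u := by
        rw [inter_comm, he, inter_comm]
      rw [this]; exact hBc.inter_right hu
    refine ⟨q '' (B ∩ g ⁻¹' C), (h2.image_of_continuousOn
      (hq.cont.mono (inter_subset_left.trans hB))).isClosed, ?_⟩
    ext y
    constructor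
    · rintro ⟨hy1, hy2⟩
      refine ⟨?_, hy2⟩
      have h3 : y ∈ q '' Ω := by rw [hq.image]; exact hKL hy2
      obtain ⟨a, ha, rfl⟩ := h3
      exact ⟨a, ⟨hBK a ha hy2, by rw [mem_preimage, ← hG a ha]; exact hy1⟩, rfl⟩
    · rintro ⟨⟨a, ⟨ha1, ha2⟩, rfl⟩, hy2⟩
      refine ⟨?_, hy2⟩
      rw [mem_preimage, hG a (hB ha1)]; exact ha2
  have hxK : x ∈ K := mem_of_mem_nhdsWithin hx hKx
  exact h1 x hxK

theorem lc_of_isOpen [LocallyCompactSpace X] {L : Set X} (hL : IsOpen L) : LC L := by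
  intro x hx
  obtain ⟨K, hK, hxK, hKL⟩ := exists_compact_subset hL hx
  exact ⟨K, hKL, hK, mem_nhdsWithin_of_mem_nhds (mem_interior_iff_mem_nhds.1 hxK)⟩

theorem lc_of_isClosed [LocallyCompactSpace X] {L : Set X} (hL : IsClosed L) : LC L := by
  intro x hx
  obtain ⟨K, hK, hxK⟩ := exists_compact_mem_nhds x
  refine ⟨K ∩ L, inter_subset_right, hK.inter_right hL, ?_⟩
  exact inter_mem (mem_nhdsWithin_of_mem_nhds hxK) self_mem_nhdsWithin

/-- two presentations with the same fibres -/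
theorem match_pres [T2Space X] [T2Space Y] {Ω : Set ℂ} {L : Set X} {L' : Set Y} {p : ℂ → X}
    {p' : ℂ → Y} (hp : Prs Ω L p) (hp' : Prs Ω L' p') (hL : LC L) (hL' : LC L')
    (hLo : IsOpen L) (hLo' : IsOpen L')
    (h : ∀ a ∈ Ω, ∀ b ∈ Ω, (p a = p b ↔ p' a = p' b)) :
    ∃ Φ : OpenPartialHomeomorph Y X, Φ.source = L' ∧ Φ.target = L := by
  classical
  have e1 : ∀ x ∈ L, ∃ a ∈ Ω, p a = x := fun x hx => by rw [← hp.image] at hx; exact hx
  have e2 : ∀ y ∈ L', ∃ a ∈ Ω, p' a = y := fun y hy => by rw [← hp'.image] at hy; exact hy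
  choose! s hs1 hs2 using e1
  choose! s' hs1' hs2' using e2
  have m1 : ∀ a ∈ Ω, p a ∈ L := fun a ha => by rw [← hp.image]; exact ⟨a, ha, rfl⟩
  have m2 : ∀ a ∈ Ω, p' a ∈ L' := fun a ha => by rw [← hp'.image]; exact ⟨a, ha, rfl⟩
  have k1 : ∀ a ∈ Ω, p (s' (p' a)) = p a := fun a ha =>
    (h _ (hs1' _ (m2 a ha)) a ha).2 (hs2' _ (m2 a ha))
  have k2 : ∀ a ∈ Ω, p' (s (p a)) = p' a := fun a ha =>
    (h _ (hs1 _ (m1 a ha)) a ha).1 (hs2 _ (m1 a ha))
  refine ⟨{ toFun := fun y => p (s' y), invFun := fun x => p' (s x), source := L', target := L,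
            map_source' := fun y hy => m1 _ (hs1' y hy)
            map_target' := fun x hx => m2 _ (hs1 x hx)
            left_inv' := fun y hy => ?_
            right_inv' := fun x hx => ?_
            open_source := hLo'
            open_target := hLo
            continuousOn_toFun := ?_
            continuousOn_invFun := ?_ }, rfl, rfl⟩
  · rw [k2 _ (hs1' y hy), hs2' y hy]
  · rw [k1 _ (hs1 x hx), hs2 x hx]
  · exact quot_cont hp' hL' hp.cont k1
  · exact quot_cont hp hL hp'.cont k2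

end

end Pool.Agent.SRF.V
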