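import Pool.Agent.SRP.StE
import Pool.Agent.SRF.V.PQ

/-!
# Collapsing the cores of the handles and crosscaps of a configuration (SRF, Part V)
-/

set_option linter.unusedTactic false

namespace Pool.Agent.SRF.V

open Topology Filter Set Pool.Agent.SRP Metric

/-- the radial collapse -/
noncomputable def gk (c ρ t : ℝ) : ℝ := max 0 (t - max 0 (c * (ρ - t) / (1 - c)))

section
variable {c ρ : ℝ} (hc0 : 0 < c) (hc1 : c < 1) (hρ : 0 < ρ)

theorem gk_nonneg (t : ℝ) : 0 ≤ gk c ρ t := le_max_left _ _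

theorem gk_le {t : ℝ} (ht : 0 ≤ t) : gk c ρ t ≤ t :=
  max_le ht (by have := le_max_left 0 (c * (ρ - t) / (1 - c)); linarith)

include hc0 hc1

theorem gk_out {t : ℝ} (h : ρ ≤ t) (ht : 0 ≤ t) : gk c ρ t = t := by
  have : c * (ρ - t) / (1 - c) ≤ 0 :=
    div_nonpos_of_nonpos_of_nonneg (mul_nonpos_of_nonneg_of_nonpos hc0.le (by linarith))
      (by linarith)
  rw [gk, max_eq_left this, sub_zero, max_eq_right ht]

theorem gk_in {t : ℝ} (h : t ≤ ρ) : gk c ρ t = max 0 ((t - c * ρ) / (1 - c)) := by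
  have : 0 ≤ c * (ρ - t) / (1 - c) :=
    div_nonneg (mul_nonneg hc0.le (by linarith)) (by linarith)
  rw [gk, max_eq_right this]
  congr 1
  have h1 : 1 - c ≠ 0 := by linarith
  field_simp
  ring

theorem gk_core {t : ℝ} (h : t ≤ c * ρ) (h' : t ≤ ρ) : gk c ρ t = 0 := by
  rw [gk_in hc0 hc1 h', max_eq_left]
  exact div_nonpos_of_nonpos_of_nonneg (by linarith) (by linarith)

theorem gk_mid {t : ℝ} (h : c * ρ ≤ t) (h' : t ≤ ρ) : gk c ρ t = (t - c * ρ) / (1 - c) := by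
  rw [gk_in hc0 hc1 h', max_eq_right]
  exact div_nonneg (by linarith) (by linarith)

include hρ

theorem gk_lt {t : ℝ} (h' : t < ρ) : gk c ρ t < ρ := by
  rw [gk_in hc0 hc1 h'.le]
  refine max_lt hρ ?_
  rw [div_lt_iff₀ (by linarith)]
  linarith

theorem gk_inj {s t : ℝ} (hs : 0 ≤ s) (ht : 0 ≤ t) (h : gk c ρ s = gk c ρ t)
    (h0 : gk c ρ s ≠ 0) : s = t := by
  have key : ∀ t, 0 ≤ t → gk c ρ t ≠ 0 →
      (ρ ≤ t ∧ gk c ρ t = t) ∨ (t < ρ ∧ gk c ρ t < ρ ∧ gk c ρ t = (t - c * ρ) / (1 - c)) := by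
    intro t ht hn
    rcases le_or_gt ρ t with h1 | h1
    · exact Or.inl ⟨h1, gk_out hc0 hc1 h1 ht⟩
    · refine Or.inr ⟨h1, gk_lt hc0 hc1 hρ h1, ?_⟩
      rcases le_total t (c * ρ) with h2 | h2
      · exact absurd (gk_core hc0 hc1 h2 h1.le) hn
      · exact gk_mid hc0 hc1 h2 h1.le
  rcases key s hs h0 with ⟨a1, a2⟩ | ⟨a1, a2, a3⟩ <;>
    rcases key t ht (h ▸ h0) with ⟨b1, b2⟩ | ⟨b1, b2, b3⟩
  · rw [← a2, ← b2, h]
  · linarith
  · linarith
  · rw [a3, b3, div_left_inj' (by linarith)] at h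
    linarith

theorem gk_surj {s : ℝ} (hs : 0 ≤ s) (hs1 : s < ρ) : ∃ t, c * ρ ≤ t ∧ t < ρ ∧ gk c ρ t = s := by
  refine ⟨c * ρ + (1 - c) * s, by nlinarith, by nlinarith, ?_⟩
  rw [gk_mid hc0 hc1 (by nlinarith) (by nlinarith)]
  have h1 : 1 - c ≠ 0 := by linarith
  field_simp
  ring

end

theorem gk_cont (c ρ : ℝ) : Continuous (gk c ρ) := by unfold gk; fun_prop

/-- the collapse of a disc -/
noncomputable def ki (p : ℂ) (ρ c : ℝ) (z : ℂ) : ℂ :=
  p + ((gk c ρ ‖z - p‖ / ‖z - p‖ : ℝ) : ℂ) * (z - p)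

section
variable {c ρ : ℝ} {p : ℂ}

theorem norm_ki (z : ℂ) : ‖ki p ρ c z - p‖ = gk c ρ ‖z - p‖ := by
  rw [ki, add_sub_cancel_left, norm_mul, Complex.norm_real, Real.norm_eq_abs,
    abs_of_nonneg (div_nonneg (gk_nonneg _) (norm_nonneg _))]
  by_cases h : ‖z - p‖ = 0
  · rw [h]; simp only [div_zero, mul_zero]
    exact (le_antisymm (gk_le le_rfl) (gk_nonneg _)).symm
  · exact div_mul_cancel₀ _ h

theorem ki_cont (p : ℂ) (ρ c : ℝ) : Continuous (ki p ρ c) := by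
  rw [continuous_iff_continuousAt]
  intro z
  by_cases h : z = p
  · subst h
    have e : ki z ρ c z = z := by rw [ki, sub_self]; simp
    rw [ContinuousAt, e, Metric.tendsto_nhds]
    intro ε hε
    filter_upwards [Metric.ball_mem_nhds z hε] with w hw
    rw [dist_eq_norm, norm_ki]
    rw [Metric.mem_ball, dist_eq_norm] at hw
    exact lt_of_le_of_lt (gk_le (norm_nonneg _)) hw
  · unfold ki
    refine continuousAt_const.add (ContinuousAt.mul ?_ (by fun_prop))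
    refine Complex.continuous_ofReal.continuousAt.comp (ContinuousAt.div ?_ (by fun_prop) ?_)
    · exact (gk_cont c ρ).continuousAt.comp (by fun_prop)
    · rwa [Ne, norm_eq_zero, sub_eq_zero]

theorem ki_dist {z : ℂ} : ‖ki p ρ c z - z‖ ≤ 2 * ‖z - p‖ := by
  have e : ki p ρ c z - z = (ki p ρ c z - p) - (z - p) := by ring
  rw [e]
  refine (norm_sub_le _ _).trans ?_
  rw [norm_ki]
  have := gk_le (c := c) (ρ := ρ) (norm_nonneg (z - p))
  linarith

variable (hc0 : 0 < c) (hc1 : c < 1) (hρ : 0 < ρ)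
include hc0 hc1

theorem ki_out {z : ℂ} (h : ρ ≤ ‖z - p‖) : ki p ρ c z = z := by
  rw [ki, gk_out hc0 hc1 h (norm_nonneg _)]
  by_cases h0 : ‖z - p‖ = 0
  · have : z = p := sub_eq_zero.1 (norm_eq_zero.1 h0)
    rw [this]; simp
  · rw [div_self h0]; push_cast; ring

theorem ki_core {z : ℂ} (h : ‖z - p‖ ≤ c * ρ) (h' : ‖z - p‖ ≤ ρ) : ki p ρ c z = p := by
  rw [ki, gk_core hc0 hc1 h h']; simp

include hρ

theorem ki_lt {z : ℂ} (h : ‖z - p‖ < ρ) : ‖ki p ρ c z - p‖ < ρ := by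
  rw [norm_ki]; exact gk_lt hc0 hc1 hρ h

theorem ki_inj {z w : ℂ} (h : ki p ρ c z = ki p ρ c w) (h0 : ki p ρ c z ≠ p) : z = w := by
  have h1 : gk c ρ ‖z - p‖ ≠ 0 := by
    rw [← norm_ki, Ne, norm_eq_zero, sub_eq_zero]; exact h0
  have h2 : gk c ρ ‖z - p‖ = gk c ρ ‖w - p‖ := by rw [← norm_ki, ← norm_ki, h]
  have h3 := gk_inj hc0 hc1 hρ (norm_nonneg _) (norm_nonneg _) h2 h1
  have h4 : ‖z - p‖ ≠ 0 := by
    intro h4
    rw [h4] at h1
    exact h1 (le_antisymm (gk_le le_rfl) (gk_nonneg _))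
  rw [ki, ki, ← h3, add_right_inj] at h
  have h5 : ((gk c ρ ‖z - p‖ / ‖z - p‖ : ℝ) : ℂ) ≠ 0 := by
    rw [Ne, Complex.ofReal_eq_zero]; exact div_ne_zero h1 h4
  have h6 := mul_left_cancel₀ h5 h
  exact sub_left_inj.1 h6

theorem ki_surj {w : ℂ} (h : ‖w - p‖ < ρ) : ∃ z, c * ρ ≤ ‖z - p‖ ∧ ‖z - p‖ < ρ ∧
    ki p ρ c z = w := by
  obtain ⟨t, h1, h2, h3⟩ := gk_surj hc0 hc1 hρ (norm_nonneg _) h
  have ht : 0 < t := lt_of_lt_of_le (by positivity) h1
  by_cases h0 : w = p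
  · refine ⟨p + t, ?_, ?_, ?_⟩
    · rw [add_sub_cancel_left, Complex.norm_real, Real.norm_eq_abs, abs_of_pos ht]; exact h1
    · rw [add_sub_cancel_left, Complex.norm_real, Real.norm_eq_abs, abs_of_pos ht]; exact h2
    · rw [ki, add_sub_cancel_left, Complex.norm_real, Real.norm_eq_abs, abs_of_pos ht, h3, h0]
      simp
  · have h4 : ‖w - p‖ ≠ 0 := by rwa [Ne, norm_eq_zero, sub_eq_zero]
    have h5 : ‖((t / ‖w - p‖ : ℝ) : ℂ) * (w - p)‖ = t := by
      rw [norm_mul, Complex.norm_real, Real.norm_eq_abs,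
        abs_of_nonneg (div_nonneg ht.le (norm_nonneg _)), div_mul_cancel₀ _ h4]
    refine ⟨p + ((t / ‖w - p‖ : ℝ) : ℂ) * (w - p), ?_, ?_, ?_⟩
    · rw [add_sub_cancel_left, h5]; exact h1
    · rw [add_sub_cancel_left, h5]; exact h2
    · rw [ki, add_sub_cancel_left, h5, h3, ← mul_assoc, ← Complex.ofReal_mul,
        div_mul_div_cancel₀ ht.ne', div_self h4]
      simp

end

/-! ### configurations -/

/-- the size of the core -/
noncomputable def cv (C : Conf) (i : ℝ) : ℝ :=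
  match C.lab i with
  | Lab.T => 3 / 4
  | Lab.P => 1 / 2
  | Lab.O => 1 / 2

theorem cv_pos (C : Conf) (i : ℝ) : 0 < cv C i := by
  unfold cv; split <;> norm_num

theorem cv_lt (C : Conf) (i : ℝ) : cv C i < 1 := by
  unfold cv; split <;> norm_num

theorem ball_uniq {C : Conf} (hC : C.Ok) {i j : ℝ} (hi : i ∈ C.I) (hj : j ∈ C.I) {z : ℂ}
    (h1 : ‖z - i‖ < C.rad i) (h2 : ‖z - j‖ < C.rad j) : i = j := by
  by_contra hne
  have h3 := hC.apart i hi j hj hne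
  have h4 : |i - j| ≤ ‖z - i‖ + ‖z - j‖ := by
    have e : ((i - j : ℝ) : ℂ) = -(z - i) + (z - j) := by push_cast; ring
    rw [← Real.norm_eq_abs, ← Complex.norm_real, e]
    refine (norm_add_le _ _).trans ?_
    rw [norm_neg]
  linarith

open Classical in
/-- the collapse of all cores -/
noncomputable def cl (C : Conf) (z : ℂ) : ℂ :=
  if h : ∃ i ∈ C.I, ‖z - i‖ < C.rad i then ki h.choose (C.rad h.choose) (cv C h.choose) z else z

theorem cl_in {C : Conf} (hC : C.Ok) {i : ℝ} (hi : i ∈ C.I) {z : ℂ} (hz : ‖z - i‖ < C.rad i) :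
    cl C z = ki i (C.rad i) (cv C i) z := by
  have h : ∃ i ∈ C.I, ‖z - (i : ℂ)‖ < C.rad i := ⟨i, hi, hz⟩
  rw [cl, dif_pos h]
  have := ball_uniq hC h.choose_spec.1 hi h.choose_spec.2 hz
  rw [this]

theorem cl_out {C : Conf} {z : ℂ} (h : ∀ i ∈ C.I, C.rad i ≤ ‖z - i‖) : cl C z = z := by
  rw [cl, dif_neg]
  rintro ⟨i, hi, h1⟩
  exact absurd (h i hi) (not_le.2 h1)

theorem cl_out' {C : Conf} {z : ℂ} (h : ¬ ∃ i ∈ C.I, ‖z - i‖ < C.rad i) : cl C z = z := by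
  rw [cl, dif_neg h]

theorem fin_of_far {A : Set ℝ} (hA : Bornology.IsBounded A) {ε : ℝ} (hε : 0 < ε)
    (h : ∀ a ∈ A, ∀ b ∈ A, a ≠ b → ε ≤ |a - b|) : A.Finite := by
  by_contra hinf
  have hK : IsCompact (closure A) := hA.isCompact_closure
  obtain ⟨x, -, hx⟩ := (Set.not_finite.1 hinf).exists_accPt_of_subset_isCompact hK subset_closure
  rw [accPt_iff_nhds] at hx
  obtain ⟨y, ⟨hy1, hy2⟩, hy3⟩ := hx _ (Metric.ball_mem_nhds x (half_pos hε))
  have hy4 : 0 < |y - x| := abs_pos.2 (sub_ne_zero.2 hy3)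
  obtain ⟨z, ⟨hz1, hz2⟩, hz3⟩ := hx _ (Metric.ball_mem_nhds x (lt_min (half_pos hε) hy4))
  rw [Metric.mem_ball, Real.dist_eq] at hy1 hz1
  have hz4 := lt_of_lt_of_le hz1 (min_le_left _ _)
  have hz5 := lt_of_lt_of_le hz1 (min_le_right _ _)
  have hyz : y ≠ z := by rintro rfl; exact lt_irrefl _ hz5
  have h1 := h y hy2 z hz2 hyz
  have h2 : |y - z| ≤ |y - x| + |z - x| := by
    have : y - z = (y - x) + -(z - x) := by ring
    rw [this]
    refine (abs_add_le _ _).trans ?_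
    rw [abs_neg]
  linarith

theorem I_bdd {C : Conf} (hC : C.Ok) : Bornology.IsBounded C.I := by
  refine (Metric.isBounded_closedBall (x := (0:ℝ)) (r := 1)).subset fun i hi => ?_
  rw [Metric.mem_closedBall, Real.dist_eq, sub_zero]
  have := hC.inside i hi
  have := hC.pos i hi
  linarith

theorem rad_fin {C : Conf} (hC : C.Ok) {ε : ℝ} (hε : 0 < ε) : {i ∈ C.I | ε ≤ C.rad i}.Finite := by
  refine fin_of_far ((I_bdd hC).subset fun i hi => hi.1) hε fun a ha b hb hab => ?_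
  have := hC.apart a ha.1 b hb.1 hab
  have := hC.pos b hb.1
  have := ha.2
  linarith

theorem cl_cont {C : Conf} (hC : C.Ok) : Continuous (cl C) := by
  rw [continuous_iff_continuousAt]
  intro z
  by_cases h : ∃ i ∈ C.I, ‖z - i‖ < C.rad i
  · obtain ⟨i, hi, hz⟩ := h
    refine (ki_cont i (C.rad i) (cv C i)).continuousAt.congr ?_
    have : {w : ℂ | ‖w - i‖ < C.rad i} ∈ 𝓝 z := by
      refine IsOpen.mem_nhds ?_ hz
      exact isOpen_lt (by fun_prop) continuous_const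
    filter_upwards [this] with w hw
    exact (cl_in hC hi hw).symm
  · rw [ContinuousAt, cl_out' h, Metric.tendsto_nhds]
    push Not at h
    intro ε hε
    have hfin := rad_fin hC (show 0 < ε / 4 by linarith)
    have h1 : ∀ᶠ w in 𝓝 z, ∀ i ∈ {i ∈ C.I | ε / 4 ≤ C.rad i},
        dist (ki i (C.rad i) (cv C i) w) z < ε := by
      rw [Filter.eventually_all_finite hfin]
      intro i hi
      have h2 := (ki_cont i (C.rad i) (cv C i)).continuousAt (x := z)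
      rw [ContinuousAt, ki_out (cv_pos C i) (cv_lt C i) (h i hi.1)] at h2
      exact (Metric.tendsto_nhds.1 h2) ε hε
    filter_upwards [h1, Metric.ball_mem_nhds z (half_pos hε)] with w hw1 hw2
    rw [Metric.mem_ball] at hw2
    by_cases h3 : ∃ i ∈ C.I, ‖w - i‖ < C.rad i
    · obtain ⟨i, hi, hwi⟩ := h3
      rw [cl_in hC hi hwi]
      rcases le_or_gt (ε / 4) (C.rad i) with h4 | h4
      · exact hw1 i ⟨hi, h4⟩
      · refine (dist_triangle _ w _).trans_lt ?_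
        rw [dist_eq_norm]
        have := ki_dist (p := (i : ℂ)) (ρ := C.rad i) (c := cv C i) (z := w)
        linarith
    · rw [cl_out' h3]; linarith

/-! ### the domain -/

theorem hole_T {C : Conf} {i : ℝ} (h : C.lab i = Lab.T) : C.holes i =
    ball ((i - C.rad i / 2 : ℝ) : ℂ) (C.rad i / 8) ∪
      ball ((i + C.rad i / 2 : ℝ) : ℂ) (C.rad i / 8) := by
  simp only [Conf.holes, h]

theorem hole_P {C : Conf} {i : ℝ} (h : C.lab i = Lab.P) : C.holes i =
    ball ((i : ℝ) : ℂ) (C.rad i / 2) := by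
  simp only [Conf.holes, h]

theorem hole_O {C : Conf} {i : ℝ} (h : C.lab i = Lab.O) : C.holes i =
    ball ((i : ℝ) : ℂ) (C.rad i / 2) := by
  simp only [Conf.holes, h]

theorem cv_T {C : Conf} {i : ℝ} (h : C.lab i = Lab.T) : cv C i = 3 / 4 := by
  simp only [cv, h]

theorem cv_P {C : Conf} {i : ℝ} (h : C.lab i = Lab.P) : cv C i = 1 / 2 := by
  simp only [cv, h]

theorem cv_O {C : Conf} {i : ℝ} (h : C.lab i = Lab.O) : cv C i = 1 / 2 := by
  simp only [cv, h]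

theorem off_le {z : ℂ} {i d s : ℝ} (h : ‖z - ((i + d : ℝ) : ℂ)‖ ≤ s) : ‖z - i‖ ≤ s + |d| := by
  have e : z - i = (z - ((i + d : ℝ) : ℂ)) + (d : ℂ) := by push_cast; ring
  rw [e]
  refine (norm_add_le _ _).trans ?_
  rw [Complex.norm_real, Real.norm_eq_abs]
  linarith

/-- the holes lie in the core -/
theorem hole_sub {C : Conf} {i : ℝ} (hr : 0 < C.rad i) {z : ℂ} (hz : z ∈ C.holes i) :
    ‖z - i‖ < cv C i * C.rad i := by
  cases h : C.lab i with
  | T =>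
    rw [hole_T h] at hz
    rw [cv_T h]
    rcases hz with hz | hz
    · rw [Metric.mem_ball, dist_eq_norm, sub_eq_add_neg i] at hz
      have := off_le hz.le
      rw [abs_neg, abs_of_pos (by linarith)] at this
      linarith
    · rw [Metric.mem_ball, dist_eq_norm] at hz
      have := off_le hz.le
      rw [abs_of_pos (by linarith)] at this
      linarith
  | P =>
    rw [hole_P h, Metric.mem_ball, dist_eq_norm] at hz
    rw [cv_P h]; linarith
  | O =>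
    rw [hole_O h, Metric.mem_ball, dist_eq_norm] at hz
    rw [cv_O h]; linarith

theorem isOpen_holes (C : Conf) (i : ℝ) : IsOpen (C.holes i) := by
  cases h : C.lab i with
  | T => rw [hole_T h]; exact isOpen_ball.union isOpen_ball
  | P => rw [hole_P h]; exact isOpen_ball
  | O => rw [hole_O h]; exact isOpen_ball

theorem mem_Dom {C : Conf} {z : ℂ} : z ∈ C.Dom ↔
    ‖z‖ ≤ 1 ∧ (∀ x ∈ C.F, z ≠ (x : ℂ)) ∧ ∀ i ∈ C.I, z ∉ C.holes i := by
  rw [Conf.Dom, mem_diff, mem_union, mem_closedBall, dist_zero_right]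
  simp only [mem_image, mem_iUnion, not_or, not_exists, not_and]
  refine and_congr_right fun _ => and_congr ⟨fun h x hx e => h x hx e.symm,
    fun h x hx e => h x hx e.symm⟩ Iff.rfl

theorem norm_lt_of_ball {C : Conf} (hC : C.Ok) {i : ℝ} (hi : i ∈ C.I) {z : ℂ}
    (hz : ‖z - i‖ ≤ C.rad i) : ‖z‖ < 1 := by
  have h1 : ‖z‖ ≤ ‖z - i‖ + |i| := by
    have e : z = (z - i) + (i : ℂ) := by ring
    conv_lhs => rw [e]
    refine (norm_add_le _ _).trans ?_
    rw [Complex.norm_real, Real.norm_eq_abs]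
  have := hC.inside i hi
  linarith

theorem ne_of_ball {C : Conf} (hC : C.Ok) {i : ℝ} (hi : i ∈ C.I) {z : ℂ}
    (hz : ‖z - i‖ ≤ C.rad i) {x : ℝ} (hx : x ∈ C.F) : z ≠ (x : ℂ) := by
  rintro rfl
  rw [← Complex.ofReal_sub, Complex.norm_real, Real.norm_eq_abs] at hz
  have := hC.away i hi x hx
  linarith

theorem cv_rad {C : Conf} (hC : C.Ok) {i : ℝ} (hi : i ∈ C.I) :
    cv C i * C.rad i < C.rad i := by
  have h1 := hC.pos i hi
  have h2 := cv_lt C i
  nlinarith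

/-- the domain inside a ball -/
theorem mem_Dom_ball {C : Conf} (hC : C.Ok) {i : ℝ} (hi : i ∈ C.I) {z : ℂ}
    (hz : ‖z - i‖ < C.rad i) : z ∈ C.Dom ↔ z ∉ C.holes i := by
  rw [mem_Dom]
  refine ⟨fun h => h.2.2 i hi, fun h => ⟨(norm_lt_of_ball hC hi hz.le).le,
    fun x hx => ne_of_ball hC hi hz.le hx, fun j hj hzj => ?_⟩⟩
  have h1 := hole_sub (hC.pos j hj) hzj
  have h2 := cv_rad hC hj
  have h3 := ball_uniq hC hi hj hz (h1.trans h2)
  exact h (h3 ▸ hzj)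

/-- `cl` never takes an end as value on the domain -/
theorem cl_not_F {C : Conf} (hC : C.Ok) {z : ℂ} (hz : z ∈ C.Dom) {x : ℝ} (hx : x ∈ C.F) :
    cl C z ≠ x := by
  by_cases h : ∃ i ∈ C.I, ‖z - i‖ < C.rad i
  · obtain ⟨i, hi, hzi⟩ := h
    rw [cl_in hC hi hzi]
    exact ne_of_ball hC hi (ki_lt (cv_pos C i) (cv_lt C i) (hC.pos i hi) hzi).le hx
  · rw [cl_out' h]
    exact (mem_Dom.1 hz).2.1 x hx

theorem cl_F {C : Conf} (hC : C.Ok) {x : ℝ} (hx : x ∈ C.F) : cl C (x : ℂ) = x := by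
  refine cl_out fun i hi => ?_
  rw [← Complex.ofReal_sub, Complex.norm_real, Real.norm_eq_abs]
  exact (hC.away i hi x hx).le

theorem cl_circle {C : Conf} (hC : C.Ok) {z : ℂ} (hz : 1 ≤ ‖z‖) : cl C z = z := by
  refine cl_out fun i hi => ?_
  by_contra h
  push Not at h
  exact absurd (norm_lt_of_ball hC hi h.le) (not_lt.2 hz)

theorem cl_norm {C : Conf} (hC : C.Ok) {z : ℂ} (hz : ‖z‖ ≤ 1) : ‖cl C z‖ ≤ 1 := by
  by_cases h : ∃ i ∈ C.I, ‖z - i‖ < C.rad i
  · obtain ⟨i, hi, hzi⟩ := h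
    rw [cl_in hC hi hzi]
    exact (norm_lt_of_ball hC hi (ki_lt (cv_pos C i) (cv_lt C i) (hC.pos i hi) hzi).le).le
  · rw [cl_out' h]; exact hz

/-- the values in a ball come from the ball -/
theorem cl_ball {C : Conf} (hC : C.Ok) {i : ℝ} (hi : i ∈ C.I) {z : ℂ} :
    ‖cl C z - i‖ < C.rad i ↔ ‖z - i‖ < C.rad i := by
  constructor
  · intro h
    by_cases h1 : ∃ j ∈ C.I, ‖z - j‖ < C.rad j
    · obtain ⟨j, hj, hzj⟩ := h1
      rw [cl_in hC hj hzj] at h
      have h2 := ki_lt (cv_pos C j) (cv_lt C j) (hC.pos j hj) hzj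
      have h3 := ball_uniq hC hi hj h h2
      rw [h3]; exact hzj
    · rwa [cl_out' h1] at h
  · intro h
    rw [cl_in hC hi h]
    exact ki_lt (cv_pos C i) (cv_lt C i) (hC.pos i hi) h

theorem cl_inj {C : Conf} (hC : C.Ok) {z w : ℂ} (h : cl C z = cl C w)
    (h0 : ∀ i ∈ C.I, cl C z ≠ (i : ℂ)) : z = w := by
  by_cases h1 : ∃ i ∈ C.I, ‖z - i‖ < C.rad i
  · obtain ⟨i, hi, hzi⟩ := h1
    have h2 : ‖w - i‖ < C.rad i := by
      rw [← cl_ball hC hi, ← h, cl_ball hC hi]; exact hzi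
    have h3 := h0 i hi
    rw [cl_in hC hi hzi] at h h3
    rw [cl_in hC hi h2] at h
    exact ki_inj (cv_pos C i) (cv_lt C i) (hC.pos i hi) h h3
  · have h2 : ¬ ∃ i ∈ C.I, ‖w - i‖ < C.rad i := by
      rintro ⟨i, hi, hwi⟩
      refine h1 ⟨i, hi, ?_⟩
      rw [← cl_ball hC hi, h, cl_ball hC hi]; exact hwi
    rwa [cl_out' h1, cl_out' h2] at h

theorem cl_surj {C : Conf} (hC : C.Ok) {w : ℂ} (hw : ‖w‖ ≤ 1) (hF : ∀ x ∈ C.F, w ≠ (x : ℂ)) :
    ∃ z ∈ C.Dom, cl C z = w := by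
  by_cases h1 : ∃ i ∈ C.I, ‖w - i‖ < C.rad i
  · obtain ⟨i, hi, hwi⟩ := h1
    obtain ⟨z, h2, h3, h4⟩ := ki_surj (cv_pos C i) (cv_lt C i) (hC.pos i hi) hwi
    refine ⟨z, (mem_Dom_ball hC hi h3).2 fun h5 => ?_, ?_⟩
    · exact absurd (hole_sub (hC.pos i hi) h5) (not_lt.2 h2)
    · rw [cl_in hC hi h3, h4]
  · refine ⟨w, mem_Dom.2 ⟨hw, hF, fun i hi h => h1 ⟨i, hi, ?_⟩⟩, cl_out' h1⟩
    exact (hole_sub (hC.pos i hi) h).trans (cv_rad hC hi)

theorem rel_core {C : Conf} (hC : C.Ok) {x y : ℂ} (h : C.Rel x y) : x = y ∨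
    ∃ i ∈ C.I, ‖x - i‖ ≤ cv C i * C.rad i ∧ ‖y - i‖ ≤ cv C i * C.rad i := by
  rcases h with h | ⟨i, hi, ⟨h1, h2, h3⟩ | ⟨h1, h2, h3⟩⟩
  · exact Or.inl h
  · right
    have hr := hC.pos i hi
    have hx : ‖x - i‖ ≤ cv C i * C.rad i := by
      rw [cv_T h1]
      rcases h2 with h2 | h2
      · rw [Metric.mem_sphere, dist_eq_norm, sub_eq_add_neg i] at h2
        have := off_le h2.le
        rw [abs_neg, abs_of_pos (by linarith)] at this
        linarith
      · rw [Metric.mem_sphere, dist_eq_norm] at h2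
        have := off_le h2.le
        rw [abs_of_pos (by linarith)] at this
        linarith
    refine ⟨i, hi, hx, ?_⟩
    have e : y - i = -(starRingEnd ℂ) (x - i) := by
      rw [h3, map_sub, Complex.conj_ofReal]; ring
    rw [e, norm_neg, Complex.norm_conj]; exact hx
  · right
    have hx : ‖x - i‖ ≤ cv C i * C.rad i := by
      rw [cv_P h1]
      rw [Metric.mem_sphere, dist_eq_norm] at h2
      linarith
    refine ⟨i, hi, hx, ?_⟩
    have e : y - i = -(x - i) := by rw [h3]; ring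
    rw [e, norm_neg]; exact hx

theorem cl_rel {C : Conf} (hC : C.Ok) {x y : ℂ} (h : C.Rel x y) : cl C x = cl C y := by
  rcases rel_core hC h with h | ⟨i, hi, h1, h2⟩
  · rw [h]
  · have hr := cv_rad hC hi
    rw [cl_in hC hi (h1.trans_lt hr), cl_in hC hi (h2.trans_lt hr),
      ki_core (cv_pos C i) (cv_lt C i) h1 (h1.trans hr.le),
      ki_core (cv_pos C i) (cv_lt C i) h2 (h2.trans hr.le)]

end Pool.Agent.SRF.V
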