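import Pool.Agent.SRF.V.Trans

/-!
# Connected neighbourhoods of the ends (SRF, Part V)
-/

set_option linter.unusedTactic false

namespace Pool.Agent.SRF.V

open Topology Filter Set

/-- a disc minus a small set of real points is connected -/
theorem preconn_ball_diff {S : Set ℝ} (hS : ∀ a b : ℝ, a < b → ∃ x, a < x ∧ x < b ∧ x ∉ S)
    (f ε : ℝ) : IsPreconnected (Metric.ball (f : ℂ) ε \ (fun x : ℝ => (x : ℂ)) '' S) := by
  rcases le_or_gt ε 0 with hε | hε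
  · rw [Metric.ball_eq_empty.2 hε]; simp [isPreconnected_empty]
  set D : Set ℂ := Metric.ball (f : ℂ) ε with hD
  have hDo : IsOpen D := Metric.isOpen_ball
  have hDc : Convex ℝ D := convex_ball _ _
  set R : Set ℂ := {z | z ∈ D ∧ z.im = 0 ∧ z.re ∉ S} with hR
  have hUp : IsPreconnected (D ∩ {z : ℂ | 0 < z.im} ∪ R) := by
    refine (hDc.inter (convex_halfSpace_im_gt 0)).isPreconnected.subset_closure
      subset_union_left (union_subset subset_closure fun z hz => ?_)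
    refine hDo.inter_closure ⟨hz.1, ?_⟩
    rw [Complex.closure_setOfPred_lt_im]
    exact hz.2.1.ge
  have hDn : IsPreconnected (D ∩ {z : ℂ | z.im < 0} ∪ R) := by
    refine (hDc.inter (convex_halfSpace_im_lt 0)).isPreconnected.subset_closure
      subset_union_left (union_subset subset_closure fun z hz => ?_)
    refine hDo.inter_closure ⟨hz.1, ?_⟩
    rw [Complex.closure_setOfPred_im_lt]
    exact hz.2.1.le
  obtain ⟨x, hx1, hx2, hx3⟩ := hS (f - ε) (f + ε) (by linarith)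
  have hxR : (x : ℂ) ∈ R := by
    refine ⟨?_, by simp, by simpa using hx3⟩
    rw [hD, Metric.mem_ball, Complex.dist_eq, ← Complex.ofReal_sub, Complex.norm_real,
      Real.norm_eq_abs, abs_lt]
    constructor <;> linarith
  have h := hUp.union (x : ℂ) (Or.inr hxR) (Or.inr hxR) hDn
  have e : D ∩ {z : ℂ | 0 < z.im} ∪ R ∪ (D ∩ {z : ℂ | z.im < 0} ∪ R) =
      D \ (fun x : ℝ => (x : ℂ)) '' S := by
    ext z
    constructor
    · rintro ((⟨h1, h2⟩ | ⟨h1, h2, h3⟩) | ⟨h1, h2⟩ | ⟨h1, h2, h3⟩)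
      · refine ⟨h1, ?_⟩
        rintro ⟨y, hy, rfl⟩
        have h2 : 0 < ((y : ℝ) : ℂ).im := h2
        simp at h2
      · refine ⟨h1, ?_⟩
        rintro ⟨y, hy, rfl⟩
        exact h3 (by simpa using hy)
      · refine ⟨h1, ?_⟩
        rintro ⟨y, hy, rfl⟩
        have h2 : ((y : ℝ) : ℂ).im < 0 := h2
        simp at h2
      · refine ⟨h1, ?_⟩
        rintro ⟨y, hy, rfl⟩
        exact h3 (by simpa using hy)
    · rintro ⟨h1, h2⟩
      rcases lt_trichotomy z.im 0 with h3 | h3 | h3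
      · exact Or.inr (Or.inl ⟨h1, h3⟩)
      · refine Or.inl (Or.inr ⟨h1, h3, fun h4 => h2 ⟨z.re, h4, ?_⟩⟩)
        apply Complex.ext <;> simp [h3]
      · exact Or.inl (Or.inl ⟨h1, h3⟩)
  rwa [e] at h

theorem preconn_tor : IsPreconnected ({oo}ᶜ : Set Tor) := by
  have h1 : IsPreconnected (Ioo (0:ℝ) 1 ×ˢ (univ : Set ℝ)) :=
    ((convex_Ioo 0 1).prod convex_univ).isPreconnected
  have h2 : IsPreconnected ((univ : Set ℝ) ×ˢ Ioo (0:ℝ) 1) :=
    (convex_univ.prod (convex_Ioo 0 1)).isPreconnected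
  have m1 : ((1/2, 1/2) : ℝ × ℝ) ∈ Ioo (0:ℝ) 1 ×ˢ (univ : Set ℝ) :=
    ⟨⟨by norm_num, by norm_num⟩, mem_univ _⟩
  have m2 : ((1/2, 1/2) : ℝ × ℝ) ∈ (univ : Set ℝ) ×ˢ Ioo (0:ℝ) 1 :=
    ⟨mem_univ _, ⟨by norm_num, by norm_num⟩⟩
  have h3 := h1.union ((1/2, 1/2) : ℝ × ℝ) m1 m2 h2
  have h4 := h3.image tw continuous_tw.continuousOn
  have hne : ∀ x : ℝ, x ∈ Ioo (0:ℝ) 1 → (x : Cir) ≠ ((0:ℝ) : Cir) := by
    intro x hx h
    have h5 : rp 0 (x : Cir) = rp 0 ((0:ℝ) : Cir) := by rw [h]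
    rw [rp_coe, rp_coe] at h5
    have e1 : ⌊x - 0⌋ = 0 := by
      rw [Int.floor_eq_iff]; push_cast; constructor <;> linarith [hx.1, hx.2]
    have e2 : ⌊(0:ℝ) - 0⌋ = 0 := by simp
    rw [e1, e2] at h5
    simp at h5
    linarith [hx.1]
  have hex : ∀ s : Cir, s ≠ ((0:ℝ) : Cir) → ∃ x ∈ Ioo (0:ℝ) 1, (x : Cir) = s := by
    intro s hs
    have h5 := rp_mem 0 s
    refine ⟨rp 0 s, ⟨lt_of_le_of_ne h5.1 fun h => hs ?_, by have := h5.2; linarith⟩, coe_rp 0 s⟩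
    rw [h, coe_rp]
  have e : tw '' (Ioo (0:ℝ) 1 ×ˢ (univ : Set ℝ) ∪ (univ : Set ℝ) ×ˢ Ioo (0:ℝ) 1) =
      ({oo}ᶜ : Set Tor) := by
    ext x
    constructor
    · rintro ⟨z, hz, rfl⟩ h
      obtain ⟨h5, h6⟩ := Prod.ext_iff.1 (mem_singleton_iff.1 h)
      rcases hz with hz | hz
      · exact hne _ hz.1 h5
      · exact hne _ hz.2 h6
    · intro hx
      by_cases h5 : x.1 = ((0:ℝ) : Cir)
      · have h6 : x.2 ≠ ((0:ℝ) : Cir) := fun h6 => hx (Prod.ext h5 h6)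
        obtain ⟨t, ht, ht'⟩ := hex _ h6
        exact ⟨(0, t), Or.inr ⟨mem_univ _, ht⟩, Prod.ext h5.symm ht'⟩
      · obtain ⟨s, hs, hs'⟩ := hex _ h5
        obtain ⟨t, ht⟩ := surj_coe_cir x.2
        exact ⟨(s, t), Or.inl ⟨hs, mem_univ _⟩, Prod.ext hs' ht⟩
  rwa [e] at h4

theorem preconn_bl : IsPreconnected (univ : Set Bl) := by
  have h := (isPreconnected_univ (α := ℝ × ℝ)).image mu mu_cont.continuousOn
  rwa [image_univ, range_eq_univ.2 mu_surj] at h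

section
variable {X : Type*} [TopologicalSpace X] {E T P : Set ℝ} {r : ℝ → ℝ} {κ : X → S2}
  {lam : S2 → X}

theorem NF.preconn_blk (h : NF X E T P r κ lam) {p : ℝ} (hp : p ∈ T ∪ P) :
    IsPreconnected (κ ⁻¹' dd p (r p)) := by
  rcases hp with hp | hp
  · obtain ⟨Φ, h1, h2⟩ := h.bT p hp
    rw [← h2, ← Φ.image_source_eq_target, h1]
    refine preconn_tor.image _ ?_
    rw [← h1]; exact Φ.continuousOn
  · obtain ⟨Φ, h1, h2⟩ := h.bP p hp
    rw [← h2, ← Φ.image_source_eq_target, h1]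
    refine preconn_bl.image _ ?_
    rw [← h1]; exact Φ.continuousOn

theorem NF.noint (h : NF X E T P r κ lam) (a b : ℝ) (hab : a < b) :
    ∃ x, a < x ∧ x < b ∧ x ∉ E ∪ (T ∪ P) := by
  obtain ⟨x, hx1, hx2, hx3⟩ := h.hEI a b hab
  obtain ⟨U, hU, hf⟩ := h.lf ((x : ℂ) : S2) fun h1 => hx3 (mem_pt.1 h1)
  have h1 : (fun y : ℝ => ((y : ℂ) : S2)) ⁻¹' U ∈ 𝓝 x :=
    (OnePoint.continuous_coe.comp Complex.continuous_ofReal).continuousAt hU
  have h2 : Eᶜ ∈ 𝓝 x := h.hE.isClosed.isOpen_compl.mem_nhds hx3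
  obtain ⟨δ, hδ, hδ'⟩ := Metric.mem_nhds_iff.1 (inter_mem (inter_mem h1 h2) (Ioo_mem_nhds hx1 hx2))
  have h3 : (Ioo (x - δ) (x + δ)).Infinite := Ioo_infinite (by linarith)
  obtain ⟨y, hy1, hy2⟩ := h3.exists_notMem_finite hf
  have hy : y ∈ Metric.ball x δ := by rw [Real.ball_eq_Ioo]; exact hy1
  obtain ⟨⟨h4, h5⟩, h6⟩ := hδ' hy
  refine ⟨y, h6.1, h6.2, ?_⟩
  rintro (h7 | h7)
  · exact h5 h7
  · refine hy2 ⟨h7, _, ?_, h4⟩
    rw [mem_cd, sub_self, norm_zero]; exact (h.pos y h7).le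

/-- the connected neighbourhoods of an end -/
def Nb (κ : X → S2) (T P : Set ℝ) (r : ℝ → ℝ) (f ε : ℝ) : Set X :=
  κ ⁻¹' (dd f ε \ pt (T ∪ P)) ∪ ⋃ p ∈ {p | p ∈ T ∪ P ∧ |p - f| < ε}, κ ⁻¹' dd p (r p)

theorem Nb_sup (h : NF X E T P r κ lam) (f ε : ℝ) : κ ⁻¹' dd f ε ⊆ Nb κ T P r f ε := by
  intro x hx
  by_cases h1 : κ x ∈ pt (T ∪ P)
  · obtain ⟨p, hp, hpx⟩ := h1
    beta_reduce at hpx
    rw [mem_preimage, ← hpx, mem_dd, ← Complex.ofReal_sub, Complex.norm_real,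
      Real.norm_eq_abs] at hx
    refine Or.inr (mem_biUnion (show p ∈ {p | p ∈ T ∪ P ∧ |p - f| < ε} from ⟨hp, hx⟩) ?_)
    rw [mem_preimage, ← hpx, mem_dd, sub_self, norm_zero]
    exact h.pos p hp
  · exact Or.inl ⟨hx, h1⟩

theorem Nb_sub (h : NF X E T P r κ lam) {f : ℝ} (hf : f ∈ E) (ε : ℝ) :
    Nb κ T P r f ε ⊆ κ ⁻¹' dd f (2 * ε) := by
  rintro x (hx | hx)
  · have h1 := hx.1
    obtain ⟨w, hw, hwx⟩ := h1
    rw [mem_preimage, ← hwx]
    rw [Metric.mem_ball, dist_eq_norm] at hw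
    have := norm_nonneg (w - f)
    exact mem_dd.2 (by linarith)
  · obtain ⟨p, ⟨hp, hpf⟩, hxp⟩ := mem_iUnion₂.1 hx
    obtain ⟨w, hw, hwx⟩ := hxp
    rw [mem_preimage, ← hwx]
    rw [Metric.mem_ball, dist_eq_norm] at hw
    have h1 := h.away p hp f hf
    refine mem_dd.2 ?_
    have h2 : ‖w - f‖ ≤ ‖w - p‖ + |p - f| := by
      have e : w - f = (w - p) + ((p - f : ℝ) : ℂ) := by push_cast; ring
      rw [e]
      refine (norm_add_le _ _).trans ?_
      rw [Complex.norm_real, Real.norm_eq_abs]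
    linarith

theorem Nb_preconn (h : NF X E T P r κ lam) (f ε : ℝ) : IsPreconnected (Nb κ T P r f ε) := by
  -- the planar part
  have e1 : κ ⁻¹' (dd f ε \ pt (T ∪ P)) = (fun z : ℂ => lam z) ''
      (Metric.ball (f : ℂ) ε \ (fun x : ℝ => (x : ℂ)) '' (E ∪ (T ∪ P))) := by
    ext x
    constructor
    · rintro ⟨⟨w, hw, hwx⟩, h2⟩
      beta_reduce at hwx
      refine ⟨w, ⟨hw, ?_⟩, ?_⟩
      · rintro ⟨y, hy, rfl⟩
        rcases hy with hy | hy
        · exact h.κE x (hwx ▸ mem_pt.2 hy)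
        · exact h2 (hwx ▸ mem_pt.2 hy)
      · beta_reduce
        rw [hwx]; exact h.lamκ x h2
    · rintro ⟨w, ⟨hw1, hw2⟩, rfl⟩
      have hE : (w : S2) ∉ pt E := by
        rintro ⟨y, hy, he⟩
        exact hw2 ⟨y, Or.inl hy, OnePoint.coe_injective he⟩
      have hI : (w : S2) ∉ pt (T ∪ P) := by
        rintro ⟨y, hy, he⟩
        exact hw2 ⟨y, Or.inr hy, OnePoint.coe_injective he⟩
      rw [mem_preimage, h.κlam _ hE]
      exact ⟨⟨w, hw1, rfl⟩, hI⟩
  have h1 : IsPreconnected (κ ⁻¹' (dd f ε \ pt (T ∪ P))) := by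
    rw [e1]
    refine (preconn_ball_diff h.noint f ε).image _ fun w hw => ContinuousAt.continuousWithinAt ?_
    refine ContinuousAt.comp (f := fun z : ℂ => (z : S2)) (h.lamc _ ?_ ?_)
      OnePoint.continuous_coe.continuousAt
    · rintro ⟨y, hy, he⟩
      exact hw.2 ⟨y, Or.inl hy, OnePoint.coe_injective he⟩
    · rintro ⟨y, hy, he⟩
      exact hw.2 ⟨y, Or.inr hy, OnePoint.coe_injective he⟩
  -- each block meets the planar part
  have h2 : ∀ p ∈ {p | p ∈ T ∪ P ∧ |p - f| < ε},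
      ∃ x, x ∈ κ ⁻¹' (dd f ε \ pt (T ∪ P)) ∧ x ∈ κ ⁻¹' dd p (r p) := by
    rintro p ⟨hp, hpf⟩
    have hr := h.pos p hp
    set s := min (r p) (ε - |p - f|) / 2 with hs
    have hs0 : 0 < s := by
      have : 0 < min (r p) (ε - |p - f|) := lt_min hr (by linarith)
      linarith
    have hs1 : s < r p := by have := min_le_left (r p) (ε - |p - f|); linarith
    have hs2 : s < ε - |p - f| := by
      have h3 := min_le_right (r p) (ε - |p - f|)
      have h4 : 0 < ε - |p - f| := by linarith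
      linarith
    set z : ℂ := p + (s : ℂ) * Complex.I with hz
    have hzim : z.im = s := by simp [hz]
    have hzr : ∀ A : Set ℝ, (z : S2) ∉ pt A := by
      rintro A ⟨y, hy, he⟩
      have := congrArg Complex.im (OnePoint.coe_injective he)
      rw [hzim] at this
      simp at this
      linarith
    have n1 : ‖z - p‖ = s := by
      have : z - p = (s : ℂ) * Complex.I := by rw [hz]; ring
      rw [this, norm_mul, Complex.norm_I, mul_one, Complex.norm_real, Real.norm_eq_abs,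
        abs_of_pos hs0]
    refine ⟨lam z, ?_, ?_⟩
    · rw [mem_preimage, h.κlam _ (hzr E)]
      refine ⟨mem_dd.2 ?_, hzr _⟩
      have h3 : ‖z - f‖ ≤ ‖z - p‖ + |p - f| := by
        have e : z - f = (z - p) + ((p - f : ℝ) : ℂ) := by push_cast; ring
        rw [e]
        refine (norm_add_le _ _).trans ?_
        rw [Complex.norm_real, Real.norm_eq_abs]
      rw [n1] at h3
      linarith
    · rw [mem_preimage, h.κlam _ (hzr E)]
      exact mem_dd.2 (by rw [n1]; exact hs1)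
  rcases (κ ⁻¹' (dd f ε \ pt (T ∪ P))).eq_empty_or_nonempty with he | ⟨x0, hx0⟩
  · have : Nb κ T P r f ε = ∅ := by
      rw [Nb, he, empty_union, Set.eq_empty_iff_forall_notMem]
      intro x hx
      obtain ⟨p, hp, -⟩ := mem_iUnion₂.1 hx
      obtain ⟨y, hy, -⟩ := h2 p hp
      rw [he] at hy; exact hy
    rw [this]; exact isPreconnected_empty
  · have h3 : Nb κ T P r f ε = ⋃₀ insert (κ ⁻¹' (dd f ε \ pt (T ∪ P)))
        ((fun p => κ ⁻¹' (dd f ε \ pt (T ∪ P)) ∪ κ ⁻¹' dd p (r p)) ''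
          {p | p ∈ T ∪ P ∧ |p - f| < ε}) := by
      ext x
      simp only [Nb, sUnion_insert, sUnion_image, mem_union, mem_iUnion₂, exists_prop]
      constructor
      · rintro (hx | ⟨p, hp, hx⟩)
        · exact Or.inl hx
        · exact Or.inr ⟨p, hp, Or.inr hx⟩
      · rintro (hx | ⟨p, hp, hx | hx⟩)
        · exact Or.inl hx
        · exact Or.inl hx
        · exact Or.inr ⟨p, hp, hx⟩
    rw [h3]
    refine isPreconnected_sUnion x0 _ ?_ ?_
    · rintro s (rfl | ⟨p, -, rfl⟩)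
      · exact hx0
      · exact Or.inl hx0
    · rintro s (rfl | ⟨p, hp, rfl⟩)
      · exact h1
      · obtain ⟨y, hy1, hy2⟩ := h2 p hp
        exact h1.union y hy1 hy2 (h.preconn_blk hp.1)

end

end Pool.Agent.SRF.V
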