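import Pool.Agent.SRF.V.Push

/-!
# Decomposition of cocycles, Stokes (SRF, Part V)
-/

set_option linter.unusedTactic false

namespace Pool.Agent.SRF.V

open Topology Filter Set

section
variable {X : Type*} [TopologicalSpace X] {E T P : Set ℝ} {r : ℝ → ℝ} {κ : X → S2}
  {lam : S2 → X}

theorem NF.open_blk (h : NF X E T P r κ lam) (p s : ℝ) : IsOpen (κ ⁻¹' dd p s) :=
  (isOpen_dd p s).preimage h.κc

/-- a compactly supported cocycle which is trivial on all blocks is trivial -/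
theorem NF.triv_of_blocks (h : NF X E T P r κ lam) {a : X → X → F} (ha : a ∈ ZC (univ : Set X))
    (hb : ∀ p ∈ T ∪ P, Triv (κ ⁻¹' dd p (r p)) a) : Triv univ a := by
  classical
  obtain ⟨K, a', hK, hKE, hsat, hn, hex, -⟩ := h.exact_support ha.2
  have ha' : Coc univ a' := ha.1.congr hn
  suffices hs : Triv univ a' from hs.congr (hn.mono subset_rfl fun _ _ h => h.symm)
  obtain ⟨f1, hf1⟩ : Triv (⋃ p ∈ T ∪ P, κ ⁻¹' dd p (r p)) a' := by
    refine Triv.biUnion (fun p _ => h.open_blk p _) (fun p hp q hq x h1 h2 => ?_) fun p hp =>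
      (hb p hp).congr (hn.mono (subset_univ _) fun _ _ => id)
    exact h.eq_of_mem hp hq (dd_sub_cd le_rfl h1) (dd_sub_cd le_rfl h2)
  set f : X → F := fun x => if κ x ∈ K then f1 x else 0 with hf
  have hff : ∀ p ∈ T ∪ P, Near2 (κ ⁻¹' dd p (r p)) fun x y => a' x y = f x + f y := by
    intro p hp x hx
    obtain ⟨U, hU, h1⟩ := hf1 x (mem_biUnion hp hx)
    refine ⟨U ∩ κ ⁻¹' dd p (r p), inter_mem hU ((h.open_blk p _).mem_nhds hx), ?_⟩
    rintro u ⟨hu1, hu2⟩ v ⟨hv1, hv2⟩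
    beta_reduce
    rcases hsat p hp with h2 | h2
    · have e : ∀ u ∈ κ ⁻¹' dd p (r p), f u = f1 u := fun u hu =>
        if_pos (h2 (dd_sub_cd le_rfl hu))
      rw [e u hu2, e v hv2]
      exact h1 u hu1 v hv1
    · have e : ∀ u ∈ κ ⁻¹' dd p (r p), κ u ∉ K := fun u hu =>
        Set.disjoint_left.1 h2 (dd_sub_cd le_rfl hu)
      have e2 : ∀ u ∈ κ ⁻¹' dd p (r p), f u = 0 := fun u hu => if_neg (e u hu)
      rw [hex u v (Or.inl (e u hu2)), e2 u hu2, e2 v hv2]; simp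
  have hr2 : ∀ p ∈ T ∪ P, r p / 2 < r p := fun p hp => by have := h.pos p hp; linarith
  obtain ⟨ψ, g, h1, h2, h3, h4, -⟩ := h.push (ρ := fun p => r p / 2) (Q := ∅) (fun p hp => by
    have := h.pos p hp; linarith) hr2
    (empty_subset _) hK hKE hsat hex (ha'.mono (subset_univ _)) (f := f) (by
      rintro x ⟨p, hp, hx⟩
      exact hff p hp.1 x (by rw [mem_preimage]; rw [an_eq] at hx; exact hx.1))
    (fun x hx => if_neg hx)
  obtain ⟨g', hg'⟩ := triv_sphere (h1.mono (T := univ) fun z _ q hq => absurd hq (notMem_empty _))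
  have h5 := hg'.comap (S := (univ : Set X)) (g := κ) (fun _ _ => h.κc.continuousAt)
    fun _ _ => mem_univ _
  refine ⟨fun x => g' (κ x) + g x, fun x _ => ?_⟩
  by_cases hx : ∃ p ∈ T ∪ P, κ x ∈ cd p (r p / 2)
  · obtain ⟨p, hp, hxp⟩ := hx
    have hxs : κ x ∈ dd p ((r p / 2 + r p) / 2) :=
      cd_sub_dd (by have := hr2 p hp; linarith) hxp
    obtain ⟨U, hU, h6⟩ := hff p hp x (cd_sub_dd (hr2 p hp) hxp)
    obtain ⟨V, hV, h7⟩ := h5 x (mem_univ _)
    refine ⟨U ∩ V ∩ κ ⁻¹' dd p ((r p / 2 + r p) / 2), inter_mem (inter_mem hU hV)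
      ((h.open_blk p _).mem_nhds hxs), ?_⟩
    rintro u ⟨⟨hu1, hu2⟩, hu3⟩ v ⟨⟨hv1, hv2⟩, hv3⟩
    have e1 := h6 u hu1 v hv1
    have e2 := h7 u hu2 v hv2
    have e3 := h3 p ⟨hp, notMem_empty _⟩ _ hu3 _ hv3
    have e4 := h4 p ⟨hp, notMem_empty _⟩ _ hu3
    have e5 := h4 p ⟨hp, notMem_empty _⟩ _ hv3
    beta_reduce at e1 e2 ⊢
    rw [e3] at e2
    rw [e1, e4, e5]
    have : ∀ x y z w : F, 0 = x + y → z + w = x + z + (y + w) := by decide
    exact this _ _ _ _ e2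
  · push Not at hx
    obtain ⟨U, hU, h6⟩ := h2 x hx
    obtain ⟨V, hV, h7⟩ := h5 x (mem_univ _)
    refine ⟨U ∩ V, inter_mem hU hV, ?_⟩
    rintro u ⟨hu1, hu2⟩ v ⟨hv1, hv2⟩
    have e1 := h6 u hu1 v hv1
    have e2 := h7 u hu2 v hv2
    beta_reduce at e1 e2 ⊢
    rw [e1] at e2
    have : ∀ a g g' x y : F, a + (g + g') = x + y → a = x + g + (y + g') := by decide
    exact this _ _ _ _ _ e2

/-- `∑` over a finite set of blocks -/
theorem NB.disj_support {ρ : ℝ → ℝ} {α β c : ℝ → X → X → F} (h : NB X E T P r κ lam ρ α β c)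
    {p q : ℝ} (hp : p ∈ T ∪ P) (hq : q ∈ T ∪ P) (hne : p ≠ q) {x : X} (hx : κ x ∈ dd q (r q))
    (y : X) : α p x y = 0 ∧ β p x y = 0 ∧ α p y x = 0 ∧ β p y x = 0 := by
  have h1 : κ x ∉ cd p (ρ p) := by
    intro h1
    exact hne (h.nf.eq_of_mem hp hq (cd_sub_cd (h.bd p hp).ρR.le h1) (dd_sub_cd le_rfl hx))
  exact ⟨(h.bd p hp).ea _ _ (Or.inl h1), (h.bd p hp).eb _ _ (Or.inl h1),
    (h.bd p hp).ea _ _ (Or.inr h1), (h.bd p hp).eb _ _ (Or.inr h1)⟩

theorem NB.supp_cd {ρ : ℝ → ℝ} {α β c : ℝ → X → X → F} (h : NB X E T P r κ lam ρ α β c)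
    {p : ℝ} (hp : p ∈ T ∪ P) : IsCompact (κ ⁻¹' cd p (ρ p)) := by
  refine h.nf.κp _ (isCompact_cd _ _) ?_
  exact (h.nf.disj_cd hp).mono_left (cd_sub_cd (h.bd p hp).ρR.le)

theorem NB.αZC {ρ : ℝ → ℝ} {α β c : ℝ → X → X → F} (h : NB X E T P r κ lam ρ α β c)
    {p : ℝ} (hp : p ∈ T ∪ P) : α p ∈ ZC (κ ⁻¹' dd p (r p)) := by
  refine ⟨(h.bd p hp).ca, κ ⁻¹' cd p (ρ p), preimage_mono (cd_sub_dd (h.bd p hp).ρR),
    h.supp_cd hp, fun x hx => ⟨κ ⁻¹' (cd p (ρ p))ᶜ,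
      ((isClosed_cd _ _).isOpen_compl.preimage h.nf.κc).mem_nhds hx, fun a ha b _ =>
        (h.bd p hp).ea _ _ (Or.inl ha)⟩⟩

theorem NB.βZC {ρ : ℝ → ℝ} {α β c : ℝ → X → X → F} (h : NB X E T P r κ lam ρ α β c)
    {p : ℝ} (hp : p ∈ T ∪ P) : β p ∈ ZC (κ ⁻¹' dd p (r p)) := by
  refine ⟨(h.bd p hp).cb, κ ⁻¹' cd p (ρ p), preimage_mono (cd_sub_dd (h.bd p hp).ρR),
    h.supp_cd hp, fun x hx => ⟨κ ⁻¹' (cd p (ρ p))ᶜ,
      ((isClosed_cd _ _).isOpen_compl.preimage h.nf.κc).mem_nhds hx, fun a ha b _ =>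
        (h.bd p hp).eb _ _ (Or.inl ha)⟩⟩

theorem ZC.sum {ι : Type*} {s : Finset ι} {A : Set X} {φ : ι → X → X → F}
    (h : ∀ i ∈ s, φ i ∈ ZC A) : (fun a b => ∑ i ∈ s, φ i a b) ∈ ZC A := by
  classical
  induction s using Finset.induction_on with
  | empty => simpa using zc_zero A
  | insert i s hi ih =>
    simp only [Finset.sum_insert hi]
    exact ZC.add (h i (Finset.mem_insert_self _ _))
      (ih fun j hj => h j (Finset.mem_insert_of_mem hj))

theorem ZC.smul {A : Set X} {φ : X → X → F} (h : φ ∈ ZC A) (m : F) :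
    (fun a b => m * φ a b) ∈ ZC A := by
  rcases F_cases m with rfl | rfl
  · simpa using zc_zero A
  · simpa using h

/-- every compactly supported cocycle is a finite sum of block classes modulo coboundaries -/
theorem NB.decomp {ρ : ℝ → ℝ} {α β c : ℝ → X → X → F} (h : NB X E T P r κ lam ρ α β c)
    {a : X → X → F} (ha : a ∈ ZC (univ : Set X)) :
    ∃ (G : Finset ℝ) (x y : ℝ → F), (∀ p ∈ G, p ∈ T ∪ P ∧ ¬ Triv (κ ⁻¹' dd p (r p)) a) ∧
      Triv univ fun u v => a u v + ∑ p ∈ G, (x p * α p u v + y p * β p u v) := by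
  classical
  obtain ⟨K, a', hK, hKE, hsat, hn, hex, hfin⟩ := h.nf.exact_support ha.2
  have h1 : ∀ p, ∃ x y : F, p ∈ T ∪ P → Triv (κ ⁻¹' dd p (r p)) fun u v => a u v +
      (x * α p u v + y * β p u v) := by
    intro p
    by_cases hp : p ∈ T ∪ P
    · obtain ⟨x, y, h1⟩ := (h.bd p hp).gen a (ha.1.mono (subset_univ _))
      exact ⟨x, y, fun _ => h1⟩
    · exact ⟨0, 0, fun h => absurd h hp⟩
  choose x y hxy using h1
  set G : Finset ℝ := hfin.toFinset.filter fun p => ¬ Triv (κ ⁻¹' dd p (r p)) a with hG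
  have hGT : ∀ p ∈ G, p ∈ T ∪ P ∧ ¬ Triv (κ ⁻¹' dd p (r p)) a := by
    intro p hp
    rw [hG, Finset.mem_filter, Set.Finite.mem_toFinset] at hp
    exact ⟨hp.1.1, hp.2⟩
  refine ⟨G, x, y, hGT, ?_⟩
  refine h.nf.triv_of_blocks (ZC.add ha (ZC.sum fun p hp => ZC.add
    (ZC.smul (ZC.mono (h.αZC (hGT p hp).1) (subset_univ _)) _)
    (ZC.smul (ZC.mono (h.βZC (hGT p hp).1) (subset_univ _)) _))) ?_
  intro q hq
  by_cases hqG : q ∈ G
  · refine (hxy q hq).congr fun z hz => ⟨κ ⁻¹' dd q (r q), (h.nf.open_blk q _).mem_nhds hz,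
      fun u hu v hv => ?_⟩
    beta_reduce
    rw [Finset.sum_eq_single q]
    · intro p hp hne
      obtain ⟨e1, e2, -⟩ := h.disj_support (hGT p hp).1 hq hne hu v
      rw [e1, e2]; simp
    · exact fun h => absurd hqG h
  · have hqa : Triv (κ ⁻¹' dd q (r q)) a := by
      by_contra hcon
      rcases hsat q hq with h2 | h2
      · exact hqG (by rw [hG, Finset.mem_filter, Set.Finite.mem_toFinset]; exact ⟨⟨hq, h2⟩, hcon⟩)
      · refine hcon (Zer.triv ?_)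
        have h3 : Zer (κ ⁻¹' dd q (r q)) a' := fun z hz =>
          ⟨κ ⁻¹' dd q (r q), (h.nf.open_blk q _).mem_nhds hz, fun u hu v hv =>
            hex u v (Or.inl (Set.disjoint_left.1 h2 (dd_sub_cd le_rfl hu)))⟩
        exact (Near2.and h3 (hn.mono (T := κ ⁻¹' dd q (r q)) (subset_univ _)
          fun _ _ => id)).mono subset_rfl fun u v h => by beta_reduce at h ⊢; rw [h.2, h.1]
    refine hqa.congr fun z hz => ⟨κ ⁻¹' dd q (r q), (h.nf.open_blk q _).mem_nhds hz,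
      fun u hu v hv => ?_⟩
    beta_reduce
    rw [Finset.sum_eq_zero, add_zero]
    intro p hp
    obtain ⟨e1, e2, -⟩ := h.disj_support (hGT p hp).1 hq (fun he => hqG (he ▸ hp)) hu v
    rw [e1, e2]; simp

/-- `Triv` on an annulus of the sphere, seen in the plane -/
theorem triv_an_of_pl {p s t : ℝ} {ψ : S2 → S2 → F} (h : Triv (Ann (p : ℂ) s t) (pl ψ)) :
    Triv (an p s t) ψ := by
  obtain ⟨f, hf⟩ := h
  refine Triv.descend (isOpen_an p s t) OnePoint.isOpenEmbedding_coe.isOpenMap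
    (fun _ _ => OnePoint.continuous_coe.continuousAt) (fun y hy => ?_) (f := f)
    (hf.mono (fun w hw => mem_an.1 hw) fun _ _ => id) (fun a b _ hab => ?_)
  · obtain ⟨w, -, hw⟩ := hy
    exact ⟨w, hw⟩
  · rw [OnePoint.coe_injective hab]

/-- Stokes: the number of blocks around which a compactly supported cochain, closed off the cores
of the blocks, is not trivial, is even -/
theorem NF.stokes (h : NF X E T P r κ lam) {ρ : ℝ → ℝ} (hρ0 : ∀ p ∈ T ∪ P, 0 < ρ p)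
    (hρ : ∀ p ∈ T ∪ P, ρ p < r p) {Q : Finset ℝ} (hQ : ∀ q ∈ Q, q ∈ T ∪ P)
    {a : X → X → F} (hs : SuppIn univ a) (ha : Coc {x | ∀ q ∈ T ∪ P, κ x ∉ cd q (ρ q)} a)
    (ht : ∀ p ∈ T ∪ P, p ∉ Q → Triv (κ ⁻¹' an p (ρ p) (r p)) a)
    (hnt : ∀ q ∈ Q, ¬ Triv (κ ⁻¹' an q (ρ q) (r q)) a) : (Q.card : F) = 0 := by
  classical
  obtain ⟨K, a', hK, hKE, hsat, hn, hex, -⟩ := h.exact_support hs
  have ha' : Coc {x | ∀ q ∈ T ∪ P, κ x ∉ cd q (ρ q)} a' :=
    ha.congr (hn.mono (subset_univ _) fun _ _ => id)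
  have hopen : ∀ p s t : ℝ, IsOpen (κ ⁻¹' an p s t) := fun p s t =>
    (isOpen_an p s t).preimage h.κc
  obtain ⟨f1, hf1⟩ : Triv (⋃ p ∈ (T ∪ P) \ (Q : Set ℝ), κ ⁻¹' an p (ρ p) (r p)) a' := by
    refine Triv.biUnion (fun p _ => hopen p _ _) (fun p hp q hq x h1 h2 => ?_) fun p hp =>
      (ht p hp.1 fun h => hp.2 h).congr (hn.mono (subset_univ _) fun _ _ => id)
    rw [mem_preimage, an_eq] at h1 h2
    exact h.eq_of_mem hp.1 hq.1 (dd_sub_cd le_rfl h1.1) (dd_sub_cd le_rfl h2.1)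
  set f : X → F := fun x => if κ x ∈ K then f1 x else 0 with hf
  have hff : Near2 {x | ∃ p ∈ (T ∪ P) \ (Q : Set ℝ), κ x ∈ an p (ρ p) (r p)}
      fun x y => a' x y = f x + f y := by
    rintro x ⟨p, hp, hx⟩
    obtain ⟨U, hU, h1⟩ := hf1 x (mem_biUnion hp hx)
    have hsub : an p (ρ p) (r p) ⊆ cd p (r p) := by
      rw [an_eq]; exact sdiff_subset.trans (dd_sub_cd le_rfl)
    refine ⟨U ∩ κ ⁻¹' an p (ρ p) (r p), inter_mem hU ((hopen p _ _).mem_nhds hx), ?_⟩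
    rintro u ⟨hu1, hu2⟩ v ⟨hv1, hv2⟩
    beta_reduce
    rcases hsat p hp.1 with h2 | h2
    · have e : ∀ u ∈ κ ⁻¹' an p (ρ p) (r p), f u = f1 u := fun u hu =>
        if_pos (h2 (hsub hu))
      rw [e u hu2, e v hv2]
      exact h1 u hu1 v hv1
    · have e : ∀ u ∈ κ ⁻¹' an p (ρ p) (r p), κ u ∉ K := fun u hu =>
        Set.disjoint_left.1 h2 (hsub hu)
      have e2 : ∀ u ∈ κ ⁻¹' an p (ρ p) (r p), f u = 0 := fun u hu => if_neg (e u hu)
      rw [hex u v (Or.inl (e u hu2)), e2 u hu2, e2 v hv2]; simp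
  obtain ⟨ψ, g, h1, h2, -, -, h5⟩ := h.push hρ0 hρ (Q := (Q : Set ℝ)) (fun q hq => hQ q hq)
    hK hKE hsat hex ha' (f := f) hff (fun x hx => if_neg hx)
  -- monodromies
  have hmono : ∀ q ∈ Q, Mono (q : ℂ) (ρ q) (r q) (pl ψ) 1 := by
    intro q hq
    have hcoc : Coc (Ann (q : ℂ) (ρ q) (r q)) (pl ψ) := by
      refine Near3.comap h1 (g := fun z : ℂ => (z : S2))
        (fun _ _ => OnePoint.continuous_coe.continuousAt) fun z hz => ?_
      intro q' hq' hz'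
      have h6 : (z : S2) ∈ cd q (r q) := mem_cd.2 hz.2.le
      have h7 := h.eq_of_mem (hQ q' hq') (hQ q hq) (cd_sub_cd (hρ q' (hQ q' hq')).le hz') h6
      subst h7
      exact not_lt.2 (mem_cd.1 hz') hz.1
    obtain ⟨m, hm⟩ := hcoc.exists_mono
    rcases F_cases m with rfl | rfl
    · exfalso
      have h6 := triv_an_of_pl (hm.triv (hρ0 q (hQ q hq)).le)
      obtain ⟨f2, hf2⟩ := h6
      refine hnt q hq ?_
      have h7 := hf2.comap (S := κ ⁻¹' an q (ρ q) (r q)) (g := κ)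
        (fun _ _ => h.κc.continuousAt) fun x hx => hx
      refine ⟨fun x => f2 (κ x), ?_⟩
      have h8 : Near2 (κ ⁻¹' an q (ρ q) (r q)) fun x y => g x = 0 ∧ g y = 0 := by
        intro x hx
        refine ⟨κ ⁻¹' dd q (r q), (h.open_blk q _).mem_nhds (by
          rw [mem_preimage, an_eq] at hx; exact hx.1), fun u hu v hv => ⟨h5 q hq u hu, h5 q hq v hv⟩⟩
      have h9 := h2.mono (T := κ ⁻¹' an q (ρ q) (r q)) (fun x hx q' hq' hx' => by
        rw [mem_preimage, an_eq] at hx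
        have h7 := h.eq_of_mem hq' (hQ q hq) (cd_sub_cd (hρ q' hq').le hx')
          (dd_sub_cd le_rfl hx.1)
        subst h7
        exact hx.2 hx') fun _ _ => id
      refine ((h7.and h8).and (h9.and (hn.mono (T := κ ⁻¹' an q (ρ q) (r q)) (subset_univ _)
        fun _ _ => id))).mono subset_rfl fun x y h => ?_
      beta_reduce at h ⊢
      obtain ⟨⟨e1, e2, e3⟩, e4, e5⟩ := h
      rw [e5, ← e1, e4, e2, e3]; simp
    · exact hm
  have hinj : Function.Injective (fun x : ℝ => (x : ℂ)) := Complex.ofReal_injective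
  have hsum := sum_mono (Q := Q.map ⟨fun x : ℝ => (x : ℂ), hinj⟩) (r := fun z => ρ z.re)
    (R := fun z => r z.re) (μ := fun _ => 1) (by
      intro q hq
      obtain ⟨p, hp, rfl⟩ := Finset.mem_map.1 hq
      exact (hρ0 p (hQ p hp)).le) (by
      intro q hq
      obtain ⟨p, hp, rfl⟩ := Finset.mem_map.1 hq
      exact hρ p (hQ p hp)) (by
      intro q hq q' hq' hne
      obtain ⟨p, hp, rfl⟩ := Finset.mem_map.1 hq
      obtain ⟨p', hp', rfl⟩ := Finset.mem_map.1 hq'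
      have h6 := h.apart p (hQ p hp) p' (hQ p' hp') fun he => hne (by rw [he])
      show r p + r p' ≤ ‖(p : ℂ) - (p' : ℂ)‖
      rw [← Complex.ofReal_sub, Complex.norm_real, Real.norm_eq_abs]
      exact h6.le) (φ := ψ) (by
      refine h1.mono fun z hz q hq hzq => ?_
      exact hz (q : ℂ) (Finset.mem_map.2 ⟨q, hq, rfl⟩) hzq) (by
      intro q hq
      obtain ⟨p, hp, rfl⟩ := Finset.mem_map.1 hq
      exact hmono p hp)
  rw [Finset.sum_const, Finset.card_map, nsmul_eq_mul, mul_one] at hsum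
  exact hsum

/-- the main consequence: a cup product which is `α_q ∪ β_q` on the blocks of `Q` and zero
elsewhere is a coboundary only if `#Q` is even -/
theorem NB.stokes {ρ : ℝ → ℝ} {α β c : ℝ → X → X → F} (h : NB X E T P r κ lam ρ α β c)
    {Q : Finset ℝ} (hQ : ∀ q ∈ Q, q ∈ T ∪ P) {σ : X → X → X → F} {a : X → X → F}
    (hs : SuppIn univ a) (hd : Near3 univ fun x y z => a x y + a y z + a x z = σ x y z)
    (h1 : ∀ x y z, (∀ q ∈ T ∪ P, κ x ∉ cd q (ρ q)) → σ x y z = 0)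
    (h2 : ∀ p ∈ T ∪ P, p ∉ Q → ∀ x y z, κ x ∈ dd p (r p) → σ x y z = 0)
    (h3 : ∀ q ∈ Q, ∀ x y z, κ x ∈ dd q (r q) → σ x y z = α q x y * β q y z) :
    (Q.card : F) = 0 := by
  have near0 : ∀ S : Set X, IsOpen S → (∀ x ∈ S, ∀ y z, σ x y z = 0) → Coc S a := by
    intro S hS h0
    refine Near3.mono (P := fun x y z => a x y + a y z + a x z = σ x y z ∧ σ x y z = 0) ?_
      subset_rfl fun x y z h => ?_
    · refine Near3.and (hd.mono (subset_univ _) fun _ _ _ => id) fun x hx =>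
        ⟨S, hS.mem_nhds hx, fun u hu v _ w _ => h0 u hu v w⟩
    · beta_reduce at h ⊢
      rw [h.2] at h
      have : ∀ x y z : F, x + y + z = 0 → x + y = z := by decide
      exact this _ _ _ h.1
  have hρ0 : ∀ p ∈ T ∪ P, 0 < ρ p := fun p hp => (h.bd p hp).ρ0
  have hρ : ∀ p ∈ T ∪ P, ρ p < r p := fun p hp => (h.bd p hp).ρR
  have hzα : ∀ q ∈ T ∪ P, Near2 (κ ⁻¹' an q (ρ q) (r q)) fun x y => α q x y = 0 ∧ β q x y = 0 :=
    fun q hq x hx => ⟨κ ⁻¹' an q (ρ q) (r q),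
      ((isOpen_an q _ _).preimage h.nf.κc).mem_nhds hx, fun u hu v hv => by
        rw [mem_preimage, an_eq] at hu
        exact ⟨(h.bd q hq).ea u v (Or.inl hu.2), (h.bd q hq).eb u v (Or.inl hu.2)⟩⟩
  have hsub : ∀ q, κ ⁻¹' an q (ρ q) (r q) ⊆ κ ⁻¹' dd q (r q) := by
    intro q x hx
    rw [mem_preimage, an_eq] at hx
    exact hx.1
  -- triviality near the boundary of cocycles on a block
  have hbt : ∀ q ∈ T ∪ P, ∀ b : X → X → F, Coc (κ ⁻¹' dd q (r q)) b →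
      Triv (κ ⁻¹' an q (ρ q) (r q)) b := by
    intro q hq b hb
    obtain ⟨x, y, ht⟩ := (h.bd q hq).gen b hb
    refine (ht.mono (hsub q)).congr ?_
    refine (hzα q hq).mono subset_rfl fun u v h => ?_
    beta_reduce
    rw [h.1, h.2]; simp
  refine h.nf.stokes hρ0 hρ hQ hs ?_ ?_ ?_
  · -- closed off the cores
    intro x hx
    by_cases hxd : ∃ p ∈ T ∪ P, κ x ∈ dd p (r p)
    · obtain ⟨p, hp, hxp⟩ := hxd
      have hxa : κ x ∈ an p (ρ p) (r p) := by rw [an_eq]; exact ⟨hxp, hx p hp⟩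
      by_cases hpQ : p ∈ Q
      · refine near0 (κ ⁻¹' an p (ρ p) (r p)) ((isOpen_an p _ _).preimage h.nf.κc)
          (fun u hu v w => ?_) x hxa
        rw [h3 p hpQ u v w (hsub p hu)]
        rw [mem_preimage, an_eq] at hu
        rw [(h.bd p hp).ea u v (Or.inl hu.2), zero_mul]
      · exact near0 (κ ⁻¹' dd p (r p)) (h.nf.open_blk p _)
          (fun u hu v w => h2 p hp hpQ u v w hu) x hxp
    · push Not at hxd
      obtain ⟨N, hN, hN'⟩ := h.nf.near_dd (J := T ∪ P) subset_rfl hρ (h.nf.κE x) hxd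
      have hN2 : κ ⁻¹' interior N ∈ 𝓝 x :=
        (isOpen_interior.preimage h.nf.κc).mem_nhds (mem_interior_iff_mem_nhds.2 hN)
      refine near0 (κ ⁻¹' interior N) (isOpen_interior.preimage h.nf.κc)
        (fun u hu v w => h1 u v w fun q hq => hN' _ (interior_subset hu) q hq) x
        (mem_of_mem_nhds hN2)
  · intro p hp hpQ
    exact hbt p hp a (near0 _ (h.nf.open_blk p _) fun u hu v w => h2 p hp hpQ u v w hu)
  · intro q hq ht
    have hqI := hQ q hq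
    have h4 : Coc (κ ⁻¹' dd q (r q)) fun x y => a x y + c q x y := by
      have h5 := (h.bd q hqI).dc
      have h6 : Near3 (κ ⁻¹' dd q (r q)) fun x y z => σ x y z = α q x y * β q y z := fun x hx =>
        ⟨κ ⁻¹' dd q (r q), (h.nf.open_blk q _).mem_nhds hx, fun u hu v _ w _ => h3 q hq u v w hu⟩
      refine (Near3.and (Near3.and (hd.mono (subset_univ _) fun _ _ _ => id) h5) h6).mono
        subset_rfl fun x y z h => ?_
      beta_reduce at h ⊢
      obtain ⟨⟨e1, e2⟩, e3⟩ := h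
      rw [e3, ← e2] at e1
      have : ∀ a b c d e f : F, a + b + c = d + e + f → a + d + (b + e) = c + f := by decide
      exact this _ _ _ _ _ _ e1
    have h5 := hbt q hqI _ h4
    refine (h.bd q hqI).nt ((h5.add ht).congr fun x _ => ⟨univ, univ_mem, fun u _ v _ => ?_⟩)
    beta_reduce
    have : ∀ a c : F, a + c + a = c := by decide
    exact this _ _

end

end Pool.Agent.SRF.V
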