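import Pool.Agent.SRF.V.Conn

/-!
# Homeomorphisms of `X × S¹` act on the ends (SRF, Part V)
-/

set_option linter.unusedTactic false

namespace Pool.Agent.SRF.V

open Topology Filter Set

/-- real points of the sphere -/
noncomputable def rr (f : ℝ) : S2 := ((f : ℂ) : S2)

theorem rr_cont : Continuous rr := OnePoint.continuous_coe.comp Complex.continuous_ofReal

theorem rr_inj : Function.Injective rr := fun _ _ h =>
  Complex.ofReal_injective (OnePoint.coe_injective h)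

theorem rr_emb : IsEmbedding rr :=
  OnePoint.isOpenEmbedding_coe.isEmbedding.comp Complex.isometry_ofReal.isEmbedding

/-- the filter of neighbourhoods of an end of `X × S¹` -/
noncomputable def el {X : Type*} [TopologicalSpace X] (κ : X → S2) (f : ℝ) : Filter (X × Cir) :=
  comap (fun m => κ m.1) (𝓝 (rr f))

/-- half spheres -/
def reL (c : ℝ) : Set S2 := (fun w : ℂ => (w : S2)) '' {z : ℂ | z.re < c}
def reG (c : ℝ) : Set S2 := (fun w : ℂ => (w : S2)) '' {z : ℂ | c < z.re}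

theorem reL_open (c : ℝ) : IsOpen (reL c) :=
  OnePoint.isOpenEmbedding_coe.isOpenMap _ (isOpen_lt Complex.continuous_re continuous_const)

theorem reG_open (c : ℝ) : IsOpen (reG c) :=
  OnePoint.isOpenEmbedding_coe.isOpenMap _ (isOpen_lt continuous_const Complex.continuous_re)

theorem reL_disj (c : ℝ) : reL c ∩ reG c = ∅ := by
  rw [Set.eq_empty_iff_forall_notMem]
  rintro _ ⟨⟨w, hw, rfl⟩, v, hv, h⟩
  rw [OnePoint.coe_injective h] at hv
  have hw : w.re < c := hw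
  have hv : c < w.re := hv
  exact lt_asymm hw hv

theorem mem_reL {c f : ℝ} (h : f < c) : rr f ∈ reL c := ⟨f, by simpa using h, rfl⟩
theorem mem_reG {c f : ℝ} (h : c < f) : rr f ∈ reG c := ⟨f, by simpa using h, rfl⟩

theorem dd_basis {f : ℝ} {N : Set S2} (hN : N ∈ 𝓝 (rr f)) : ∃ ε > 0, dd f ε ⊆ N := by
  have h1 : (fun w : ℂ => (w : S2)) ⁻¹' N ∈ 𝓝 (f : ℂ) :=
    OnePoint.continuous_coe.continuousAt hN
  obtain ⟨ε, hε, h2⟩ := Metric.mem_nhds_iff.1 h1
  refine ⟨ε, hε, ?_⟩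
  rintro _ ⟨w, hw, rfl⟩
  exact h2 hw

theorem dd_nhds {f ε : ℝ} (hε : 0 < ε) : dd f ε ∈ 𝓝 (rr f) :=
  (isOpen_dd f ε).mem_nhds (mem_dd.2 (by rw [sub_self, norm_zero]; exact hε))

section
variable {X : Type*} [TopologicalSpace X] {E T P : Set ℝ} {r : ℝ → ℝ} {κ : X → S2}
  {lam : S2 → X}

theorem NF.el_neBot (h : NF X E T P r κ lam) (f : ℝ) : (el κ f).NeBot := by
  rw [el, comap_neBot_iff]
  intro N hN
  obtain ⟨ε, hε, hεN⟩ := dd_basis hN
  set z : ℂ := f + ((ε / 2 : ℝ) : ℂ) * Complex.I with hz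
  have hzim : z.im = ε / 2 := by rw [hz]; simp
  have hzr : (z : S2) ∉ pt E := by
    rintro ⟨y, hy, he⟩
    have := congrArg Complex.im (OnePoint.coe_injective he)
    rw [hzim] at this
    simp at this
    linarith
  refine ⟨(lam z, 0), hεN ?_⟩
  show κ (lam z) ∈ dd f ε
  rw [h.κlam _ hzr, mem_dd]
  have : z - f = ((ε / 2 : ℝ) : ℂ) * Complex.I := by rw [hz]; ring
  rw [this, norm_mul, Complex.norm_I, mul_one, Complex.norm_real, Real.norm_eq_abs,
    abs_of_pos (by linarith)]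
  linarith

/-- compact sets stay away from the ends -/
theorem NF.compact_el (h : NF X E T P r κ lam) {f : ℝ} (hf : f ∈ E) {C : Set (X × Cir)}
    (hC : IsCompact C) : ∃ ε > 0, ∀ m : X × Cir, κ m.1 ∈ dd f ε → m ∉ C := by
  have h1 : IsCompact ((fun m : X × Cir => κ m.1) '' C) :=
    hC.image (h.κc.comp continuous_fst)
  have h2 : ((fun m : X × Cir => κ m.1) '' C)ᶜ ∈ 𝓝 (rr f) := by
    refine h1.isClosed.isOpen_compl.mem_nhds ?_
    rintro ⟨m, -, hm⟩
    exact h.κE m.1 (by beta_reduce at hm; rw [hm]; exact mem_pt.2 hf)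
  obtain ⟨ε, hε, h3⟩ := dd_basis h2
  exact ⟨ε, hε, fun m hm hmC => h3 hm ⟨m, hmC, rfl⟩⟩

end

section
variable {X X' : Type*} [TopologicalSpace X] [TopologicalSpace X'] {E T P E' T' P' : Set ℝ}
  {r r' : ℝ → ℝ} {κ : X → S2} {κ' : X' → S2} {lam : S2 → X} {lam' : S2 → X'}

/-- the limit of the images of points tending to an end -/
theorem end_limit (h : NF X E T P r κ lam) (h' : NF X' E' T' P' r' κ' lam')
    (H : X × Cir ≃ₜ X' × Cir) {f : ℝ} (hf : f ∈ E) :
    ∃ f' ∈ E', Tendsto (fun m => κ' (H m).1) (el κ f) (𝓝 (rr f')) := by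
  have := h.el_neBot f
  have hcomp : ∀ N : Set S2, IsCompact N → Disjoint N (pt E') →
      IsCompact ((fun m : X × Cir => κ' (H m).1) ⁻¹' N) := by
    intro N hN hd
    have h1 := isCompact_preimage_fst _ (h'.κp N hN hd)
    exact homeo_proper H _ h1
  set l := map (fun m => κ' (H m).1) (el κ f) with hl
  have hcl : ∀ z, ClusterPt z l → z ∈ pt E' := by
    intro z hz
    by_contra hzE
    obtain ⟨N, hN, hzN, hNE⟩ := exists_compact_subset h'.isClosed_pt.isOpen_compl hzE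
    obtain ⟨ε, hε, h1⟩ := h.compact_el hf (hcomp N hN (Set.disjoint_left.2 fun x hx => hNE hx))
    have h2 : Nᶜ ∈ l := by
      rw [hl, mem_map]
      exact ⟨dd f ε, dd_nhds hε, fun m hm hmN => h1 m hm hmN⟩
    have h3 : N ∈ 𝓝 z := mem_interior_iff_mem_nhds.1 hzN
    have h4 := hz.nonempty_of_mem (inter_mem_inf h3 h2)
    obtain ⟨x, hx1, hx2⟩ := h4
    exact hx2 hx1
  have huniq : ∀ e1 ∈ E', ∀ e2 ∈ E', e1 < e2 → ClusterPt (rr e1) l → ClusterPt (rr e2) l →
      False := by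
    intro e1 _ e2 _ hlt hc1 hc2
    obtain ⟨c, hc1', hc2', hcE⟩ := h'.hEI e1 e2 hlt
    set L : Set S2 := (reL c ∪ reG c)ᶜ with hL
    have hLc : IsCompact L := ((reL_open c).union (reG_open c)).isClosed_compl.isCompact
    have hLd : Disjoint L (pt E') := by
      rw [Set.disjoint_left]
      rintro _ hx ⟨y, hy, rfl⟩
      rcases lt_trichotomy y c with h1 | h1 | h1
      · exact hx (Or.inl (mem_reL h1))
      · exact hcE (h1 ▸ hy)
      · exact hx (Or.inr (mem_reG h1))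
    obtain ⟨ε, hε, h1⟩ := h.compact_el hf (hcomp L hLc hLd)
    set B : Set (X × Cir) := Nb κ T P r f (ε / 2) ×ˢ univ with hB
    have hBp : IsPreconnected B := (Nb_preconn h f (ε / 2)).prod isPreconnected_univ
    have hBsub : ∀ m ∈ B, κ m.1 ∈ dd f ε := by
      intro m hm
      have := Nb_sub h hf (ε / 2) hm.1
      rwa [mul_div_cancel₀ _ (two_ne_zero)] at this
    have hJ := hBp.image (fun m => κ' (H m).1)
      (h'.κc.comp (continuous_fst.comp H.continuous)).continuousOn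
    have hJsub : (fun m => κ' (H m).1) '' B ⊆ reL c ∪ reG c := by
      rintro _ ⟨m, hm, rfl⟩
      by_contra hcon
      exact h1 m (hBsub m hm) hcon
    have hBl : (fun m => κ' (H m).1) '' B ∈ l := by
      rw [hl]
      refine image_mem_map ?_
      refine ⟨dd f (ε / 2), dd_nhds (by linarith), fun m hm => ⟨Nb_sup h f _ hm, mem_univ _⟩⟩
    have m1 : ((fun m => κ' (H m).1) '' B ∩ reL c).Nonempty := by
      obtain ⟨x, hx1, hx2⟩ := hc1.nonempty_of_mem
        (inter_mem_inf ((reL_open c).mem_nhds (mem_reL hc1')) hBl)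
      exact ⟨x, hx2, hx1⟩
    have m2 : ((fun m => κ' (H m).1) '' B ∩ reG c).Nonempty := by
      obtain ⟨x, hx1, hx2⟩ := hc2.nonempty_of_mem
        (inter_mem_inf ((reG_open c).mem_nhds (mem_reG hc2')) hBl)
      exact ⟨x, hx2, hx1⟩
    obtain ⟨x, -, hx⟩ := hJ _ _ (reL_open c) (reG_open c) hJsub m1 m2
    rw [reL_disj] at hx
    exact hx
  obtain ⟨z, hz⟩ := exists_clusterPt_of_compactSpace l
  obtain ⟨f', hf', rfl⟩ := hcl z hz
  refine ⟨f', hf', ?_⟩
  refine le_nhds_of_unique_clusterPt fun w hw => ?_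
  obtain ⟨g', hg', rfl⟩ := hcl w hw
  rcases lt_trichotomy g' f' with h1 | h1 | h1
  · exact (huniq g' hg' f' hf' h1 hw hz).elim
  · rw [h1]; rfl
  · exact (huniq f' hf' g' hg' h1 hz hw).elim

theorem end_cont (h : NF X E T P r κ lam) {H : X × Cir ≃ₜ X' × Cir} {F : E → ℝ}
    (hF1 : ∀ f, F f ∈ E')
    (hF2 : ∀ f : E, Tendsto (fun m => κ' (H m).1) (el κ f) (𝓝 (rr (F f)))) :
    Continuous fun f : E => (⟨F f, hF1 f⟩ : E') := by
  refine Continuous.subtype_mk ?_ _
  rw [rr_emb.isInducing.continuous_iff]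
  rw [continuous_iff_continuousAt]
  intro f W hW
  obtain ⟨N', hN', hcl, hNW⟩ := exists_mem_nhds_isClosed_subset hW
  obtain ⟨N, hN, hN2⟩ := (hF2 f) hN'
  obtain ⟨ε, hε, hεN⟩ := dd_basis hN
  have h1 : {g : E | rr g ∈ dd f ε} ∈ 𝓝 f :=
    (rr_cont.comp continuous_subtype_val).continuousAt (dd_nhds hε)
  rw [mem_map]
  filter_upwards [h1] with g hg
  refine hNW ?_
  have := h.el_neBot g
  refine hcl.mem_of_tendsto (hF2 g) ?_
  exact ⟨dd f ε, (isOpen_dd _ _).mem_nhds hg, fun m hm => hN2 (hεN hm)⟩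

/-- the action on the ends -/
theorem end_homeo (h : NF X E T P r κ lam) (h' : NF X' E' T' P' r' κ' lam')
    (H : X × Cir ≃ₜ X' × Cir) :
    ∃ ψ : E ≃ₜ E', (∀ f : E, Tendsto (fun m => κ' (H m).1) (el κ f) (𝓝 (rr (ψ f)))) ∧
      ∀ f : E', Tendsto (fun m => κ (H.symm m).1) (el κ' f) (𝓝 (rr (ψ.symm f))) := by
  choose F hF1 hF2 using fun f : E => end_limit h h' H f.2
  choose G hG1 hG2 using fun f : E' => end_limit h' h H.symm f.2
  have inv1 : ∀ f : E, G ⟨F f, hF1 f⟩ = f := by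
    intro f
    have := h.el_neBot f
    have h1 : Tendsto H (el κ f) (el κ' (F f)) := tendsto_comap_iff.2 (hF2 f)
    have h2 := (hG2 ⟨F f, hF1 f⟩).comp h1
    have h3 : Tendsto (fun m : X × Cir => κ m.1) (el κ f) (𝓝 (rr f)) := tendsto_comap
    have e : ((fun m => κ (H.symm m).1) ∘ H) = fun m : X × Cir => κ m.1 := by
      funext m; simp
    rw [e] at h2
    exact rr_inj (tendsto_nhds_unique h2 h3)
  have inv2 : ∀ f : E', F ⟨G f, hG1 f⟩ = f := by
    intro f
    have := h'.el_neBot f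
    have h1 : Tendsto H.symm (el κ' f) (el κ (G f)) := tendsto_comap_iff.2 (hG2 f)
    have h2 := (hF2 ⟨G f, hG1 f⟩).comp h1
    have h3 : Tendsto (fun m : X' × Cir => κ' m.1) (el κ' f) (𝓝 (rr f)) := tendsto_comap
    have e : ((fun m => κ' (H m).1) ∘ H.symm) = fun m : X' × Cir => κ' m.1 := by
      funext m; simp
    rw [e] at h2
    exact rr_inj (tendsto_nhds_unique h2 h3)
  refine ⟨⟨⟨fun f => ⟨F f, hF1 f⟩, fun f => ⟨G f, hG1 f⟩, fun f => Subtype.ext (inv1 f),
    fun f => Subtype.ext (inv2 f)⟩, end_cont h hF1 hF2, end_cont h' hG1 hG2⟩, hF2, hG2⟩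

end

end Pool.Agent.SRF.V
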