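import Pool.Agent.SRF.V.Om

/-!
# Extension of cocycles over discs, `√(z - p)` seen from far away (SRF, Part V)
-/

set_option linter.unusedTactic false

namespace Pool.Agent.SRF.V

open Topology Filter Set

theorem f2_xx : ∀ x : F, x + x = 0 := by decide

/-- a cocycle on `S ∖ closedBall p r₀` which is trivial on `r₀ < |z - p| < R` can be changed by a
coboundary supported in `|z - p| < (r₀+R)/2` so that it extends to `S`, by `0` near the disc -/
theorem extend {S : Set ℂ} {p : ℂ} {r R : ℝ} (hr : 0 ≤ r) (hrR : r < R)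
    (hS : Metric.ball p R ⊆ S) {φ : ℂ → ℂ → F} (hφ : Coc (S \ Metric.closedBall p r) φ)
    (ht : Triv (Ann p r R) φ) :
    ∃ (φ' : ℂ → ℂ → F) (g : ℂ → F), Coc S φ' ∧ Zer (Metric.ball p ((r + R) / 2)) φ' ∧
      (Near2 (S \ Metric.closedBall p r) fun z w => φ' z w = φ z w + (g z + g w)) ∧
      ∀ z, z ∉ Metric.ball p ((r + R) / 2) → g z = 0 := by
  classical
  obtain ⟨f, hf⟩ := ht
  set r1 := (r + R) / 2 with hr1
  have h1 : r < r1 := by rw [hr1]; linarith
  have h2 : r1 < R := by rw [hr1]; linarith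
  let g : ℂ → F := fun z => if z ∈ Metric.ball p r1 then f z else 0
  let φ' : ℂ → ℂ → F := fun z w =>
    if z ∈ Metric.ball p r1 ∧ w ∈ Metric.ball p r1 then 0 else φ z w + (g z + g w)
  have hz : Zer (Metric.ball p r1) φ' := by
    intro y hy
    refine ⟨Metric.ball p r1, Metric.isOpen_ball.mem_nhds hy, fun a ha b hb => ?_⟩
    exact if_pos ⟨ha, hb⟩
  have hn : Near2 (S \ Metric.closedBall p r) fun z w => φ' z w = φ z w + (g z + g w) := by
    intro y hy
    by_cases hyR : y ∈ Metric.ball p R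
    · have hyA : y ∈ Ann p r R := by
        refine ⟨?_, ?_⟩
        · have := hy.2
          rw [Metric.mem_closedBall, dist_eq_norm, not_le] at this
          exact this
        · rwa [Metric.mem_ball, dist_eq_norm] at hyR
      obtain ⟨U, hU, h⟩ := hf y hyA
      refine ⟨U, hU, fun a ha b hb => ?_⟩
      by_cases hab : a ∈ Metric.ball p r1 ∧ b ∈ Metric.ball p r1
      · have e1 : φ' a b = 0 := if_pos hab
        have e2 : g a = f a := if_pos hab.1
        have e3 : g b = f b := if_pos hab.2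
        have e4 := h a ha b hb
        beta_reduce at e4 ⊢
        rw [e1, e2, e3, e4]
        exact (f2_xx _).symm
      · exact if_neg hab
    · refine ⟨(Metric.closedBall p r1)ᶜ, Metric.isClosed_closedBall.isOpen_compl.mem_nhds ?_,
        fun a ha b hb => ?_⟩
      · intro h
        exact hyR (Metric.closedBall_subset_ball h2 h)
      · refine if_neg fun h => ha (Metric.ball_subset_closedBall h.1)
  refine ⟨φ', g, ?_, hz, hn, fun z hz => if_neg hz⟩
  have hc1 : Coc (S \ Metric.closedBall p r) φ' := by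
    refine (hφ.add (coc_cob _ g)).congr ?_
    exact hn.mono subset_rfl fun a b h => h.symm
  intro y hy
  by_cases hy1 : y ∈ Metric.ball p r1
  · exact hz.coc y hy1
  · refine hc1 y ⟨hy, fun h => hy1 ?_⟩
    exact Metric.closedBall_subset_ball h1 h

/-- `√(z - p)` and `√(z - q)` agree on the outside of a disc around `q` containing `p` -/
theorem om_far {p q : ℂ} {r : ℝ} (hpq : ‖p - q‖ ≤ r) :
    Triv {z : ℂ | r < ‖z - q‖} fun z w => om p z w + om q z w := by
  obtain ⟨f, hf, -⟩ := homotopy (S := {z : ℂ | r < ‖z - q‖}) (om_coc 0)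
    (H := fun z : ℂ × ℝ => z.1 - (p + (z.2 : ℂ) * (q - p)))
    (fun a ha t ht => ⟨by apply Continuous.continuousAt; fun_prop, by
      simp only [mem_compl_iff, mem_singleton_iff, sub_eq_zero]
      intro h
      have h1 : a - q = (1 - (t:ℂ)) * (p - q) := by rw [h]; ring
      have h2 : ‖a - q‖ ≤ ‖p - q‖ := by
        rw [h1, norm_mul]
        have : ‖(1 - (t:ℂ))‖ ≤ 1 := by
          have e : (1 - (t:ℂ)) = ((1 - t : ℝ) : ℂ) := by push_cast; ring
          rw [e, Complex.norm_real, Real.norm_eq_abs, abs_le]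
          constructor <;> linarith [ht.1, ht.2]
        calc ‖(1 - (t:ℂ))‖ * ‖p - q‖ ≤ 1 * ‖p - q‖ := by gcongr
          _ = ‖p - q‖ := one_mul _
      have h3 : r < ‖a - q‖ := ha
      linarith⟩)
  refine ⟨f, hf.mono subset_rfl fun a b h => ?_⟩
  beta_reduce at h ⊢
  rw [← h]
  have e : ∀ (c x y : ℂ), om c x y = om 0 (x - c) (y - c) := by
    intro c x y; simp [om]
  rw [e p, e q]
  have e1 : ∀ x : ℂ, x - (p + ((0:ℝ):ℂ) * (q - p)) = x - p := by intro x; simp
  have e2 : ∀ x : ℂ, x - (p + ((1:ℝ):ℂ) * (q - p)) = x - q := by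
    intro x; push_cast; ring
  rw [e1, e1, e2, e2]

theorem om_mono_far {p q : ℂ} {r R : ℝ} (hpq : ‖p - q‖ ≤ r) : Mono q r R (om p) 1 := by
  have h1 : Mono q r R (om q) 1 := om_mono q r R
  have h2 : Mono q r R (fun z w => om p z w + om q z w) 0 :=
    Mono.of_triv ((om_far hpq).mono fun z hz => hz.1)
  have h3 := h2.add h1
  rw [zero_add] at h3
  refine h3.congr fun y _ => ⟨univ, univ_mem, fun a _ b _ => ?_⟩
  have : ∀ x y : F, x + y + y = x := by decide
  exact this _ _

/-- `√(z - p)` has no monodromy around discs which do not contain `p` -/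
theorem om_mono_near {p q : ℂ} {r R : ℝ} (hR : R ≤ ‖p - q‖) : Mono q r R (om p) 0 := by
  refine Mono.of_triv ((om_triv_of_convex (convex_ball q R) ?_).mono ?_)
  · rw [Metric.mem_ball, dist_eq_norm, not_lt]; exact hR
  · intro z hz
    rw [Metric.mem_ball, dist_eq_norm]; exact hz.2

/-- multiples of a cocycle -/
theorem Coc.smul {Y : Type*} [TopologicalSpace Y] {S : Set Y} {φ : Y → Y → F} (h : Coc S φ)
    (m : F) : Coc S fun a b => m * φ a b := by
  refine Near3.mono h subset_rfl fun a b c h => ?_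
  beta_reduce at h ⊢
  rw [← h]; ring

theorem Mono.smul {p : ℂ} {r R : ℝ} {φ : ℂ → ℂ → F} {h : F} (H : Mono p r R φ h) (m : F) :
    Mono p r R (fun a b => m * φ a b) (m * h) := by
  obtain ⟨f, h1, h2⟩ := H
  refine ⟨fun w => m * f w, h1.mono subset_rfl fun a b h => ?_, fun w hw => ?_⟩
  · beta_reduce at h ⊢
    rw [h]; ring
  · beta_reduce
    rw [h2 w hw]; ring

end Pool.Agent.SRF.V
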