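import Pool.Agent.SRF.V.Chain

/-!
# The intersection form (SRF, Part V)
-/

set_option linter.unusedTactic false

namespace Pool.Agent.SRF.V

open Topology Filter Set

section
variable {X : Type*} [TopologicalSpace X]

/-- `σ` is the coboundary of a compactly supported cochain -/
def PerpC (σ : X → X → X → F) : Prop :=
  ∃ c : X → X → F, SuppIn univ c ∧ Near3 univ fun x y z => c x y + c y z + c x z = σ x y z

theorem perp_iff {a b : X → X → F} : Perp a b ↔ PerpC fun x y z => a x y * b y z := Iff.rfl

theorem PerpC.add {σ τ : X → X → X → F} (h : PerpC σ) (h' : PerpC τ) :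
    PerpC fun x y z => σ x y z + τ x y z := by
  obtain ⟨c, hc, h⟩ := h
  obtain ⟨d, hd, h'⟩ := h'
  refine ⟨fun x y => c x y + d x y, hc.add hd, (Near3.and h h').mono subset_rfl
    fun x y z h => ?_⟩
  beta_reduce at h ⊢
  rw [← h.1, ← h.2]; ring

theorem PerpC.zero : PerpC (fun _ _ _ => 0 : X → X → X → F) :=
  ⟨fun _ _ => 0, suppIn_zero _, fun _ _ => ⟨univ, univ_mem, fun _ _ _ _ _ _ => by simp⟩⟩

theorem PerpC.smul {σ : X → X → X → F} (m : F) (h : m = 1 → PerpC σ) :
    PerpC fun x y z => m * σ x y z := by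
  rcases F_cases m with rfl | rfl
  · simpa using PerpC.zero
  · simpa using h rfl

theorem PerpC.sum {ι : Type*} {s : Finset ι} {σ : ι → X → X → X → F}
    (h : ∀ i ∈ s, PerpC (σ i)) : PerpC fun x y z => ∑ i ∈ s, σ i x y z := by
  classical
  induction s using Finset.induction_on with
  | empty => simpa using PerpC.zero
  | insert i s hi ih =>
    simp only [Finset.sum_insert hi]
    exact (h i (Finset.mem_insert_self _ _)).add
      (ih fun j hj => h j (Finset.mem_insert_of_mem hj))

theorem PerpC.iff_of_add {σ τ : X → X → X → F} (h : PerpC fun x y z => σ x y z + τ x y z) :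
    PerpC σ ↔ PerpC τ := by
  constructor
  · intro h1
    have := h.add h1
    have e : (fun x y z => σ x y z + τ x y z + σ x y z) = τ := by
      funext x y z
      have : ∀ a b : F, a + b + a = b := by decide
      exact this _ _
    rwa [e] at this
  · intro h1
    have := h.add h1
    have e : (fun x y z => σ x y z + τ x y z + τ x y z) = σ := by
      funext x y z
      have : ∀ a b : F, a + b + b = a := by decide
      exact this _ _
    rwa [e] at this

/-- graded commutativity -/
theorem perpC_comm {a b : X → X → F} (ha : a ∈ ZC (univ : Set X)) (hb : b ∈ ZC (univ : Set X)) :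
    PerpC fun x y z => a x y * b y z + b x y * a y z := by
  obtain ⟨K, hK, hK1, hK2⟩ := ha.2
  refine ⟨fun x y => a x y * b x y, ⟨K, hK, hK1, ?_⟩, ?_⟩
  · exact Near2.mono hK2 subset_rfl fun x y h => by beta_reduce at h ⊢; simp [h]
  · refine (Near3.and ha.1 hb.1).mono subset_rfl fun x y z h => ?_
    beta_reduce at h ⊢
    rw [← h.1, ← h.2]
    have : ∀ u v w t : F, u * v + w * t + (u + w) * (v + t) = u * t + v * w := by decide
    exact this _ _ _ _

/-- changing the arguments of the form by trivial cocycles -/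
theorem perp_congr_triv {a a' b b' : X → X → F} (ha : a ∈ ZC (univ : Set X))
    (ha' : a' ∈ ZC (univ : Set X)) (hb : b ∈ ZC (univ : Set X)) (hb' : b' ∈ ZC (univ : Set X))
    (h1 : Triv univ fun x y => a x y + a' x y) (h2 : Triv univ fun x y => b x y + b' x y) :
    Perp a b ↔ Perp a' b' := by
  have e1 : Perp a b ↔ Perp a' b := by
    refine PerpC.iff_of_add ?_
    have := perp_of_triv h1 hb
    rw [perp_iff] at this
    simpa only [add_mul] using this
  have e2 : Perp a' b ↔ Perp a' b' := by
    refine PerpC.iff_of_add ?_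
    have := perp_of_triv_right ha' (ZC.add hb hb') h2
    rw [perp_iff] at this
    simpa only [mul_add] using this
  exact e1.trans e2

end

section
variable {X : Type*} [TopologicalSpace X] {E T P : Set ℝ} {r : ℝ → ℝ} {κ : X → S2}
  {lam : S2 → X} {ρ : ℝ → ℝ} {α β c : ℝ → X → X → F}

/-- sums of block classes -/
noncomputable def SS (α β : ℝ → X → X → F) (G : Finset ℝ) (x y : ℝ → F) : X → X → F :=
  fun u v => ∑ p ∈ G, (x p * α p u v + y p * β p u v)

theorem NB.SS_zc (h : NB X E T P r κ lam ρ α β c) {G : Finset ℝ} (hG : ∀ p ∈ G, p ∈ T ∪ P)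
    (x y : ℝ → F) : SS α β G x y ∈ ZC (univ : Set X) :=
  ZC.sum fun p hp => ZC.add
    (ZC.smul (ZC.mono (h.αZC (hG p hp)) (subset_univ _)) _)
    (ZC.smul (ZC.mono (h.βZC (hG p hp)) (subset_univ _)) _)

theorem NB.cross (h : NB X E T P r κ lam ρ α β c) {p q : ℝ} (hp : p ∈ T ∪ P) (hq : q ∈ T ∪ P)
    (hne : p ≠ q) (u v w : X) :
    α p u v * α q v w = 0 ∧ α p u v * β q v w = 0 ∧ β p u v * α q v w = 0 ∧
      β p u v * β q v w = 0 := by
  by_cases hy : κ v ∈ cd p (ρ p)
  · have hy' : κ v ∉ cd q (ρ q) := fun h2 =>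
      hne (h.nf.eq_of_mem hp hq (cd_sub_cd (h.bd p hp).ρR.le hy)
        (cd_sub_cd (h.bd q hq).ρR.le h2))
    rw [(h.bd q hq).ea v w (Or.inl hy'), (h.bd q hq).eb v w (Or.inl hy')]
    simp
  · rw [(h.bd p hp).ea u v (Or.inr hy), (h.bd p hp).eb u v (Or.inr hy)]
    simp

theorem NB.SS_mul (h : NB X E T P r κ lam ρ α β c) {G : Finset ℝ} (hG : ∀ p ∈ G, p ∈ T ∪ P)
    (x y x' y' : ℝ → F) (u v w : X) :
    SS α β G x y u v * SS α β G x' y' v w =
      ∑ p ∈ G, (x p * α p u v + y p * β p u v) * (x' p * α p v w + y' p * β p v w) := by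
  rw [SS, SS, Finset.sum_mul_sum]
  refine Finset.sum_congr rfl fun p hp => ?_
  refine Finset.sum_eq_single_of_mem p hp fun q hq hne => ?_
  obtain ⟨e1, e2, e3, e4⟩ := h.cross (hG p hp) (hG q hq) (Ne.symm hne) u v w
  linear_combination (x p * x' q) * e1 + (x p * y' q) * e2 + (y p * x' q) * e3 +
    (y p * y' q) * e4

open Classical in
/-- the coefficient of the form -/
noncomputable def ee (T : Set ℝ) (x y x' y' : ℝ → F) (p : ℝ) : F :=
  if p ∈ T then x p * y' p + y p * x' p else (x p + y p) * (x' p + y' p)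

theorem NB.local (h : NB X E T P r κ lam ρ α β c) {p : ℝ} (hp : p ∈ T ∪ P) (x y x' y' : ℝ → F) :
    PerpC fun u v w => (x p * α p u v + y p * β p u v) * (x' p * α p v w + y' p * β p v w) +
      ee T x y x' y' p * (α p u v * β p v w) := by
  have hα : α p ∈ ZC (univ : Set X) := ZC.mono (h.αZC hp) (subset_univ _)
  have hβ : β p ∈ ZC (univ : Set X) := ZC.mono (h.βZC hp) (subset_univ _)
  by_cases hT : p ∈ T
  · obtain ⟨s1, s2⟩ := h.sq p hT
    rw [perp_iff] at s1 s2
    have h1 := ((PerpC.smul (x p * x' p) fun _ => s1).add (PerpC.smul (y p * y' p) fun _ =>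
      s2)).add (PerpC.smul (y p * x' p) fun _ => perpC_comm hα hβ)
    have e : (fun u v w => (x p * α p u v + y p * β p u v) * (x' p * α p v w + y' p * β p v w) +
      ee T x y x' y' p * (α p u v * β p v w)) = fun u v w =>
      x p * x' p * (α p u v * α p v w) + y p * y' p * (β p u v * β p v w) +
        y p * x' p * (α p u v * β p v w + β p u v * α p v w) := by
      funext u v w
      rw [ee, if_pos hT]
      have h2 : ∀ m : F, m + m = 0 := F_add_self
      linear_combination (α p u v * β p v w * x p * y' p) * (h2 1)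
    rw [e]; exact h1
  · have hP : p ∈ P := hp.resolve_left hT
    have e : (fun u v w => (x p * α p u v + y p * β p u v) * (x' p * α p v w + y' p * β p v w) +
      ee T x y x' y' p * (α p u v * β p v w)) = fun _ _ _ => 0 := by
      funext u v w
      rw [ee, if_neg hT, h.eqP p hP]
      have h2 : ∀ m : F, m + m = 0 := F_add_self
      have h3 := h2 ((x p + y p) * (x' p + y' p) * (β p u v * β p v w))
      linear_combination h3
    rw [e]; exact PerpC.zero

/-- the sum of the classes `α_p ∪ β_p`, `p ∈ Q`, is a coboundary if and only if `#Q` is even -/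
theorem NB.sum_ab (h : NB X E T P r κ lam ρ α β c) {Q : Finset ℝ} (hQ : ∀ p ∈ Q, p ∈ T ∪ P) :
    (PerpC fun u v w => ∑ p ∈ Q, α p u v * β p v w) ↔ (Q.card : F) = 0 := by
  classical
  constructor
  · rintro ⟨a, ha, hd⟩
    refine h.stokes hQ ha hd ?_ ?_ ?_
    · intro x y z hx
      refine Finset.sum_eq_zero fun p hp => ?_
      rw [(h.bd p (hQ p hp)).ea x y (Or.inl (hx p (hQ p hp))), zero_mul]
    · intro p hp hpQ x y z hx
      refine Finset.sum_eq_zero fun q hq => ?_
      obtain ⟨e1, -⟩ := h.disj_support (hQ q hq) hp (fun he => hpQ (he ▸ hq)) hx y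
      rw [e1, zero_mul]
    · intro q hq x y z hx
      refine Finset.sum_eq_single_of_mem q hq fun p hp hne => ?_
      obtain ⟨e1, -⟩ := h.disj_support (hQ p hp) (hQ q hq) hne hx y
      rw [e1, zero_mul]
  · intro he
    rcases Q.eq_empty_or_nonempty with rfl | ⟨q0, hq0⟩
    · simpa using PerpC.zero
    · have h1 : ∀ q ∈ Q, PerpC fun u v w => α q u v * β q v w + α q0 u v * β q0 v w := by
        intro q hq
        by_cases hqq : q = q0
        · subst hqq
          have e : (fun u v w => α q u v * β q v w + α q u v * β q v w) =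
              (fun _ _ _ => 0 : X → X → X → F) := by
            funext u v w; exact F_add_self _
          rw [e]; exact PerpC.zero
        · exact h.pair (hQ q hq) (hQ q0 hq0) hqq
      have h2 := PerpC.sum h1
      have e : (fun u v w => ∑ q ∈ Q, (α q u v * β q v w + α q0 u v * β q0 v w)) =
          fun u v w => ∑ q ∈ Q, α q u v * β q v w := by
        funext u v w
        rw [Finset.sum_add_distrib, Finset.sum_const, nsmul_eq_mul, he, zero_mul, add_zero]
      rwa [e] at h2

/-- the form on sums of block classes -/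
theorem NB.form (h : NB X E T P r κ lam ρ α β c) {G : Finset ℝ} (hG : ∀ p ∈ G, p ∈ T ∪ P)
    (x y x' y' : ℝ → F) :
    Perp (SS α β G x y) (SS α β G x' y') ↔ ∑ p ∈ G, ee T x y x' y' p = 0 := by
  classical
  rw [perp_iff]
  have h1 : PerpC fun u v w => SS α β G x y u v * SS α β G x' y' v w +
      ∑ p ∈ G, ee T x y x' y' p * (α p u v * β p v w) := by
    have h2 := PerpC.sum (s := G) fun p hp => h.local (hG p hp) x y x' y'
    have e : (fun u v w => SS α β G x y u v * SS α β G x' y' v w +
      ∑ p ∈ G, ee T x y x' y' p * (α p u v * β p v w)) = fun u v w => ∑ p ∈ G,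
        ((x p * α p u v + y p * β p u v) * (x' p * α p v w + y' p * β p v w) +
          ee T x y x' y' p * (α p u v * β p v w)) := by
      funext u v w
      rw [h.SS_mul hG, Finset.sum_add_distrib]
    rw [e]; exact h2
  rw [PerpC.iff_of_add h1]
  set Q := G.filter fun p => ee T x y x' y' p = 1 with hQ
  have e1 : (fun u v w => ∑ p ∈ G, ee T x y x' y' p * (α p u v * β p v w)) =
      fun u v w => ∑ p ∈ Q, α p u v * β p v w := by
    funext u v w
    rw [hQ, Finset.sum_filter]
    refine Finset.sum_congr rfl fun p _ => ?_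
    rcases F_cases (ee T x y x' y' p) with h0 | h0 <;> rw [h0]
    · rw [if_neg zero_ne_one, zero_mul]
    · rw [if_pos rfl, one_mul]
  have e2 : ∑ p ∈ G, ee T x y x' y' p = (Q.card : F) := by
    rw [hQ, Finset.card_filter]
    push_cast
    refine Finset.sum_congr rfl fun p _ => ?_
    rcases F_cases (ee T x y x' y' p) with h0 | h0 <;> rw [h0] <;> simp
  rw [e1, e2]
  exact h.sum_ab fun p hp => hG p (Finset.mem_of_mem_filter p hp)

end

end Pool.Agent.SRF.V
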