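import Pool.Agent.SRF.V.Hol

/-!
# Generalities: extension over a closed set, descent along open maps (SRF, Part V)
-/

set_option linter.unusedTactic false

namespace Pool.Agent.SRF.V

open Topology Filter Set

variable {Y Z : Type*} [TopologicalSpace Y] [TopologicalSpace Z]

theorem g_xx : ∀ x : F, x + x = 0 := by decide

/-- a cocycle on `S ∖ C` which is trivial on `V ∖ C` can be changed by a coboundary supported in
`V'` so that it extends to `S`, by `0` on `V'`; here `C ⊆ V'`, `closure V' ⊆ V` -/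
theorem extend_gen {S C V V' : Set Y} (hV' : IsOpen V') (hCV : C ⊆ V')
    (hcl : closure V' ⊆ V) {φ : Y → Y → F} (hφ : Coc (S \ C) φ) (ht : Triv (V \ C) φ) :
    ∃ (φ' : Y → Y → F) (g : Y → F), Coc S φ' ∧ Zer V' φ' ∧
      (Near2 (S \ C) fun z w => φ' z w = φ z w + (g z + g w)) ∧ ∀ z, z ∉ V' → g z = 0 := by
  classical
  obtain ⟨f, hf⟩ := ht
  let g : Y → F := fun z => if z ∈ V' then f z else 0
  let φ' : Y → Y → F := fun z w => if z ∈ V' ∧ w ∈ V' then 0 else φ z w + (g z + g w)
  have hz : Zer V' φ' := by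
    intro y hy
    exact ⟨V', hV'.mem_nhds hy, fun a ha b hb => if_pos ⟨ha, hb⟩⟩
  have hn : Near2 (S \ C) fun z w => φ' z w = φ z w + (g z + g w) := by
    intro y hy
    by_cases hyV : y ∈ closure V'
    · obtain ⟨U, hU, h⟩ := hf y ⟨hcl hyV, hy.2⟩
      refine ⟨U, hU, fun a ha b hb => ?_⟩
      by_cases hab : a ∈ V' ∧ b ∈ V'
      · have e1 : φ' a b = 0 := if_pos hab
        have e2 : g a = f a := if_pos hab.1
        have e3 : g b = f b := if_pos hab.2
        have e4 := h a ha b hb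
        beta_reduce at e4 ⊢
        rw [e1, e2, e3, e4]
        exact (g_xx _).symm
      · exact if_neg hab
    · refine ⟨(closure V')ᶜ, isClosed_closure.isOpen_compl.mem_nhds hyV, fun a ha b hb => ?_⟩
      exact if_neg fun h => ha (subset_closure h.1)
  refine ⟨φ', g, ?_, hz, hn, fun z hz => if_neg hz⟩
  have hc1 : Coc (S \ C) φ' :=
    (hφ.add (coc_cob _ g)).congr (hn.mono subset_rfl fun a b h => h.symm)
  intro y hy
  by_cases hy1 : y ∈ V'
  · exact hz.coc y hy1
  · exact hc1 y ⟨hy, fun h => hy1 (hCV h)⟩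

/-- statements near the diagonal descend along open maps -/
theorem Near2.descend {S : Set Y} {q : Z → Y} (hq : IsOpenMap q) (hs : ∀ y ∈ S, ∃ z, q z = y)
    {P : Y → Y → Prop} (h : Near2 (q ⁻¹' S) fun a b => P (q a) (q b)) : Near2 S P := by
  intro y hy
  obtain ⟨z, rfl⟩ := hs y hy
  obtain ⟨U, hU, h⟩ := h z hy
  refine ⟨q '' U, hq.image_mem_nhds hU, ?_⟩
  rintro _ ⟨a, ha, rfl⟩ _ ⟨b, hb, rfl⟩
  exact h a ha b hb

theorem Near3.descend {S : Set Y} {q : Z → Y} (hq : IsOpenMap q) (hs : ∀ y ∈ S, ∃ z, q z = y)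
    {P : Y → Y → Y → Prop} (h : Near3 (q ⁻¹' S) fun a b c => P (q a) (q b) (q c)) :
    Near3 S P := by
  intro y hy
  obtain ⟨z, rfl⟩ := hs y hy
  obtain ⟨U, hU, h⟩ := h z hy
  refine ⟨q '' U, hq.image_mem_nhds hU, ?_⟩
  rintro _ ⟨a, ha, rfl⟩ _ ⟨b, hb, rfl⟩ _ ⟨c, hc, rfl⟩
  exact h a ha b hb c hc

/-- a cochain which becomes the coboundary of an invariant function is trivial -/
theorem Triv.descend {S : Set Y} (hS : IsOpen S) {q : Z → Y} (hq : IsOpenMap q)
    (hqc : ∀ z, q z ∈ S → ContinuousAt q z) (hs : ∀ y ∈ S, ∃ z, q z = y)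
    {φ : Y → Y → F} {f : Z → F} (h : Near2 (q ⁻¹' S) fun a b => φ (q a) (q b) = f a + f b)
    (hf : ∀ a b, q a ∈ S → q a = q b → f a = f b) : Triv S φ := by
  rcases S.eq_empty_or_nonempty with rfl | ⟨y0, hy0⟩
  · exact ⟨fun _ => 0, fun y hy => absurd hy (notMem_empty _)⟩
  haveI : Nonempty Z := ⟨(hs y0 hy0).choose⟩
  choose! sec hsec using hs
  refine ⟨fun y => f (sec y), fun y hy => ?_⟩
  obtain ⟨z, rfl⟩ : ∃ z, q z = y := ⟨sec y, hsec y hy⟩
  obtain ⟨U, hU, h⟩ := h z hy
  have hU' : U ∩ q ⁻¹' S ∈ 𝓝 z := inter_mem hU (hqc z hy (hS.mem_nhds hy))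
  refine ⟨q '' (U ∩ q ⁻¹' S), hq.image_mem_nhds hU', ?_⟩
  rintro _ ⟨a, ha, rfl⟩ _ ⟨b, hb, rfl⟩
  have := h a ha.1 b hb.1
  beta_reduce at this ⊢
  rw [this, hf a (sec (q a)) ha.2 (hsec _ ha.2).symm, hf b (sec (q b)) hb.2 (hsec _ hb.2).symm]

/-- two trivialisations on open sets with preconnected intersection can be matched -/
theorem Triv.union_of_preconn {U V : Set Y} (hU : IsOpen U) (hV : IsOpen V) {φ : Y → Y → F}
    (h1 : Triv U φ) (h2 : Triv V φ) (hc : IsPreconnected (U ∩ V)) : Triv (U ∪ V) φ := by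
  classical
  obtain ⟨f, hf⟩ := h1
  obtain ⟨g, hg⟩ := h2
  have h3 : Near2 (U ∩ V) fun a b => f a + g a = f b + g b := by
    have h4 := (hf.mono (T := U ∩ V) inter_subset_left fun _ _ => id).and
      (hg.mono (T := U ∩ V) inter_subset_right fun _ _ => id)
    refine h4.mono subset_rfl fun a b h => ?_
    beta_reduce at h ⊢
    obtain ⟨e1, e2⟩ := h
    rw [e1] at e2
    have : ∀ x y z u : F, x + y = z + u → x + z = y + u := by decide
    exact this _ _ _ _ e2
  obtain ⟨k, hk⟩ : ∃ k : F, ∀ a ∈ U ∩ V, g a + k = f a := by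
    rcases (U ∩ V).eq_empty_or_nonempty with he | ⟨a0, ha0⟩
    · exact ⟨0, fun a ha => by rw [he] at ha; exact absurd ha (notMem_empty _)⟩
    · refine ⟨f a0 + g a0, fun a ha => ?_⟩
      have := const_of_near hc (f := fun a => f a + g a) h3 ha ha0
      beta_reduce at this
      rw [← this]
      have : ∀ x y : F, y + (x + y) = x := by decide
      exact this _ _
  refine ⟨fun a => if a ∈ U then f a else g a + k, ?_⟩
  rintro y (hy | hy)
  · obtain ⟨W, hW, h⟩ := hf y hy
    refine ⟨W ∩ U, inter_mem hW (hU.mem_nhds hy), fun a ha b hb => ?_⟩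
    have := h a ha.1 b hb.1
    beta_reduce at this ⊢
    rw [this, if_pos ha.2, if_pos hb.2]
  · obtain ⟨W, hW, h⟩ := hg y hy
    refine ⟨W ∩ V, inter_mem hW (hV.mem_nhds hy), fun a ha b hb => ?_⟩
    have := h a ha.1 b hb.1
    have e : ∀ a ∈ W ∩ V, (if a ∈ U then f a else g a + k) = g a + k := by
      intro a ha
      by_cases hu : a ∈ U
      · rw [if_pos hu, hk a ⟨hu, ha.2⟩]
      · rw [if_neg hu]
    beta_reduce at this ⊢
    rw [this, e a ha, e b hb]
    have : ∀ x y k : F, x + y = x + k + (y + k) := by decide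
    exact this _ _ _

/-- gluing cochains with prescribed coboundary: `c` agrees with `cU + cob f` on `W` and with `cV`
off `closure W` -/
theorem glue {S U V W : Set Y} (hW : IsOpen W) (hWU : W ⊆ U) (hWU' : closure W ∩ S ⊆ U ∩ V ∪ W)
    (hWV : S \ W ⊆ V) {σ : Y → Y → Y → F} {cU cV : Y → Y → F} {f : Y → F}
    (hU : Near3 U fun x y z => cU x y + cU y z + cU x z = σ x y z)
    (hV : Near3 V fun x y z => cV x y + cV y z + cV x z = σ x y z)
    (hUV : Near2 (U ∩ V) fun x y => cU x y + cV x y = f x + f y) :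
    ∃ c : Y → Y → F, (Near3 S fun x y z => c x y + c y z + c x z = σ x y z) ∧
      (∀ x ∈ W, ∀ y ∈ W, c x y = cU x y + (f x + f y)) ∧
      (∀ x y, (x ∉ W ∨ y ∉ W) → c x y = cV x y) := by
  classical
  let c : Y → Y → F := fun x y => if x ∈ W ∧ y ∈ W then cU x y + (f x + f y) else cV x y
  refine ⟨c, ?_, fun x hx y hy => if_pos ⟨hx, hy⟩, fun x y h => if_neg (by tauto)⟩
  intro y hy
  by_cases hyW : y ∈ W
  · obtain ⟨N, hN, h⟩ := hU y (hWU hyW)
    refine ⟨N ∩ W, inter_mem hN (hW.mem_nhds hyW), fun a ha b hb d hd => ?_⟩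
    have := h a ha.1 b hb.1 d hd.1
    beta_reduce at this ⊢
    have e : ∀ x ∈ W, ∀ y ∈ W, c x y = cU x y + (f x + f y) := fun x hx y hy => if_pos ⟨hx, hy⟩
    rw [e a ha.2 b hb.2, e b hb.2 d hd.2, e a ha.2 d hd.2, ← this]
    generalize cU a b = p1
    generalize cU b d = p2
    generalize cU a d = p3
    generalize f a = p4
    generalize f b = p5
    generalize f d = p6
    revert p1 p2 p3 p4 p5 p6; decide
  · have hyV := hWV ⟨hy, hyW⟩
    obtain ⟨N, hN, h⟩ := hV y hyV
    by_cases hcl : y ∈ closure W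
    · have hyUV : y ∈ U ∩ V := by
        rcases hWU' ⟨hcl, hy⟩ with h | h
        · exact h
        · exact absurd h hyW
      obtain ⟨N', hN', h'⟩ := hUV y hyUV
      refine ⟨N ∩ N', inter_mem hN hN', fun a ha b hb d hd => ?_⟩
      have e : ∀ x ∈ N', ∀ y ∈ N', c x y = cV x y := by
        intro x hx y hy
        by_cases hxy : x ∈ W ∧ y ∈ W
        · have e1 : c x y = cU x y + (f x + f y) := if_pos hxy
          have e2 := h' x hx y hy
          beta_reduce at e2
          rw [e1, ← e2]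
          have : ∀ x y : F, x + (x + y) = y := by decide
          exact this _ _
        · exact if_neg hxy
      have := h a ha.1 b hb.1 d hd.1
      beta_reduce at this ⊢
      rw [e a ha.2 b hb.2, e b hb.2 d hd.2, e a ha.2 d hd.2, ← this]
    · refine ⟨N ∩ (closure W)ᶜ, inter_mem hN (isClosed_closure.isOpen_compl.mem_nhds hcl),
        fun a ha b hb d hd => ?_⟩
      have e : ∀ x y, x ∈ (closure W)ᶜ → c x y = cV x y := by
        intro x y hx
        exact if_neg fun h => hx (subset_closure h.1)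
      have := h a ha.1 b hb.1 d hd.1
      beta_reduce at this ⊢
      rw [e a b ha.2, e b d hb.2, e a d ha.2, ← this]

/-- trivialisations on disjoint open sets -/
theorem Triv.biUnion {ι : Type*} {s : Set ι} {U : ι → Set Y} (hU : ∀ i ∈ s, IsOpen (U i))
    (hd : ∀ i ∈ s, ∀ j ∈ s, ∀ y, y ∈ U i → y ∈ U j → i = j) {φ : Y → Y → F}
    (h : ∀ i ∈ s, Triv (U i) φ) : Triv (⋃ i ∈ s, U i) φ := by
  classical
  choose! f hf using h
  refine ⟨fun y => if h : ∃ i ∈ s, y ∈ U i then f h.choose y else 0, fun y hy => ?_⟩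
  simp only [mem_iUnion, exists_prop] at hy
  obtain ⟨i, hi, hyi⟩ := hy
  obtain ⟨W, hW, h⟩ := hf i hi y hyi
  refine ⟨W ∩ U i, inter_mem hW ((hU i hi).mem_nhds hyi), fun a ha b hb => ?_⟩
  have key : ∀ a ∈ U i, (if h : ∃ i ∈ s, a ∈ U i then f h.choose a else 0) = f i a := by
    intro a ha
    have hex : ∃ i ∈ s, a ∈ U i := ⟨i, hi, ha⟩
    rw [dif_pos hex, hd hex.choose hex.choose_spec.1 i hi a hex.choose_spec.2 ha]
  beta_reduce
  rw [key a ha.2, key b hb.2]
  exact h a ha.1 b hb.1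

theorem Coc.sum {ι : Type*} {s : Finset ι} {S : Set Y} {φ : ι → Y → Y → F}
    (h : ∀ i ∈ s, Coc S (φ i)) : Coc S fun a b => ∑ i ∈ s, φ i a b := by
  classical
  induction s using Finset.induction_on with
  | empty =>
    simp only [Finset.sum_empty]
    exact fun y _ => ⟨univ, univ_mem, fun _ _ _ _ _ _ => by simp⟩
  | insert i s hi ih =>
    simp only [Finset.sum_insert hi]
    exact (h i (Finset.mem_insert_self _ _)).add
      (ih fun j hj => h j (Finset.mem_insert_of_mem hj))

theorem Triv.sum {ι : Type*} {s : Finset ι} {S : Set Y} {φ : ι → Y → Y → F}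
    (h : ∀ i ∈ s, Triv S (φ i)) : Triv S fun a b => ∑ i ∈ s, φ i a b := by
  classical
  induction s using Finset.induction_on with
  | empty =>
    simp only [Finset.sum_empty]
    exact ⟨fun _ => 0, fun y _ => ⟨univ, univ_mem, fun _ _ _ _ => by simp⟩⟩
  | insert i s hi ih =>
    simp only [Finset.sum_insert hi]
    exact (h i (Finset.mem_insert_self _ _)).add
      (ih fun j hj => h j (Finset.mem_insert_of_mem hj))

/-- cup products -/
theorem cup_left {S : Set Y} {b : Y → Y → F} (hb : Coc S b) (f : Y → F) :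
    Near3 S fun x y z => f x * b x y + f y * b y z + f x * b x z = (f x + f y) * b y z := by
  refine Near3.mono hb subset_rfl fun x y z h => ?_
  beta_reduce at h ⊢
  rw [← h]
  generalize f x = p
  generalize f y = q
  generalize b x y = r
  generalize b y z = s
  revert p q r s; decide

theorem cup_right {S : Set Y} {a : Y → Y → F} (ha : Coc S a) (f : Y → F) :
    Near3 S fun x y z => a x y * f y + a y z * f z + a x z * f z = a x y * (f y + f z) := by
  refine Near3.mono ha subset_rfl fun x y z h => ?_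
  beta_reduce at h ⊢
  rw [← h]
  generalize f y = p
  generalize f z = q
  generalize a x y = r
  generalize a y z = s
  revert p q r s; decide

end Pool.Agent.SRF.V
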