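import Pool.Agent.SRF.V.Base

/-!
# Holonomy of cocycles and the homotopy lemma (SRF, Part V)
-/

set_option linter.unusedTactic false
set_option linter.unusedSectionVars false

namespace Pool.Agent.SRF.V

open Topology Filter Set

variable {Y Z : Type*} [TopologicalSpace Y] [TopologicalSpace Z]

/-- Lebesgue number lemma for a strip `U × [0,1]` -/
theorem good_strip {G : Set (Y × ℝ) → Prop} (hG : ∀ A B, A ⊆ B → G B → G A) {a0 : Y}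
    (h : ∀ t ∈ Icc (0:ℝ) 1, ∃ U ∈ 𝓝 (a0, t), G U) :
    ∃ U ∈ 𝓝 a0, ∃ k0 : ℕ, ∀ k ≥ k0, ∀ i : ℕ, i < 2 ^ k →
      G (U ×ˢ Icc ((i:ℝ) / 2 ^ k) (((i:ℝ) + 1) / 2 ^ k)) := by
  have h1 : ∀ t ∈ Icc (0:ℝ) 1, ∃ U ∈ 𝓝 a0, ∃ ε > 0, G (U ×ˢ Metric.ball t ε) := by
    intro t ht
    obtain ⟨W, hW, hGW⟩ := h t ht
    rw [nhds_prod_eq, mem_prod_iff] at hW
    obtain ⟨U, hU, V, hV, hUV⟩ := hW
    obtain ⟨ε, hε, hε'⟩ := Metric.mem_nhds_iff.1 hV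
    exact ⟨U, hU, ε, hε, hG _ _ ((prod_mono subset_rfl hε').trans hUV) hGW⟩
  choose! U hU ε hε hUε using h1
  obtain ⟨T, hT1, hT2⟩ := (isCompact_Icc (a := (0:ℝ)) (b := 1)).elim_nhds_subcover
    (fun t => Metric.ball t (ε t / 2)) (fun t ht => Metric.ball_mem_nhds _ (half_pos (hε t ht)))
  have h2 : ∀ t ∈ Icc (0:ℝ) 1, ∃ k : ℕ, (1:ℝ) / 2 ^ k < ε t / 2 := by
    intro t ht
    obtain ⟨k, hk⟩ := exists_pow_lt_of_lt_one (half_pos (hε t ht)) (show (1/2:ℝ) < 1 by norm_num)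
    exact ⟨k, by simpa [one_div] using hk⟩
  choose! kk hkk using h2
  refine ⟨⋂ t ∈ T, U t, (biInter_finset_mem T).2 fun t ht => hU t (hT1 t ht), T.sup kk,
    fun k hk i hi => ?_⟩
  have hpos : (0:ℝ) < 2 ^ k := by positivity
  have hi0 : ((i:ℝ) / 2 ^ k) ∈ Icc (0:ℝ) 1 := by
    refine ⟨by positivity, ?_⟩
    rw [div_le_one hpos]
    exact_mod_cast hi.le
  have := hT2 hi0
  simp only [mem_iUnion] at this
  obtain ⟨t, ht, hti⟩ := this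
  refine hG _ _ (prod_mono (biInter_subset_of_mem ht) ?_) (hUε t (hT1 t ht))
  intro s hs
  have hkt : kk t ≤ k := (Finset.le_sup ht).trans hk
  have h3 : (1:ℝ) / 2 ^ k ≤ 1 / 2 ^ (kk t) := by
    apply one_div_le_one_div_of_le (by positivity)
    exact pow_le_pow_right₀ (by norm_num) hkt
  have h4 := hkk t (hT1 t ht)
  rw [Metric.mem_ball, Real.dist_eq] at hti ⊢
  have h5 : |s - (i:ℝ) / 2 ^ k| ≤ 1 / 2 ^ k := by
    rw [abs_of_nonneg (by linarith [hs.1])]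
    have := hs.2
    rw [add_div] at this
    linarith
  calc |s - t| ≤ |s - (i:ℝ) / 2 ^ k| + |(i:ℝ) / 2 ^ k - t| := abs_sub_le _ _ _
    _ < ε t := by linarith

/-- Riemann sums of a cochain along the path `t ↦ (a, t)` -/
noncomputable def rsum (ψ : Y × ℝ → Y × ℝ → F) (k : ℕ) (a : Y) : F :=
  ∑ i ∈ Finset.range (2 ^ k), ψ (a, (i:ℝ) / 2 ^ k) (a, ((i:ℝ) + 1) / 2 ^ k)

open Classical in
/-- holonomy of a cochain along `t ↦ (a, t)`, `0 ≤ t ≤ 1` -/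
noncomputable def hol (ψ : Y × ℝ → Y × ℝ → F) (a : Y) : F :=
  if h : ∃ v : F, ∃ k0 : ℕ, ∀ k ≥ k0, rsum ψ k a = v then h.choose else 0

theorem hol_eq {ψ : Y × ℝ → Y × ℝ → F} {a : Y} {v : F} {k0 : ℕ}
    (h : ∀ k ≥ k0, rsum ψ k a = v) : hol ψ a = v := by
  have hex : ∃ v : F, ∃ k0 : ℕ, ∀ k ≥ k0, rsum ψ k a = v := ⟨v, k0, h⟩
  rw [hol, dif_pos hex]
  obtain ⟨k1, hk1⟩ := hex.choose_spec
  rw [← hk1 (max k0 k1) (le_max_right _ _), h _ (le_max_left _ _)]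

theorem sum_range_two_mul (f : ℕ → F) (n : ℕ) :
    ∑ i ∈ Finset.range (2 * n), f i = ∑ i ∈ Finset.range n, (f (2 * i) + f (2 * i + 1)) := by
  induction n with
  | zero => simp
  | succ n ih =>
    rw [show 2 * (n + 1) = 2 * n + 1 + 1 by ring, Finset.sum_range_succ, Finset.sum_range_succ, ih,
      Finset.sum_range_succ]
    ring

theorem rsum_succ {ψ : Y × ℝ → Y × ℝ → F} {k : ℕ} {a : Y}
    (h : ∀ i : ℕ, i < 2 ^ k → ∀ p ∈ ({a} : Set Y) ×ˢ Icc ((i:ℝ) / 2 ^ k) (((i:ℝ) + 1) / 2 ^ k),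
      ∀ q ∈ ({a} : Set Y) ×ˢ Icc ((i:ℝ) / 2 ^ k) (((i:ℝ) + 1) / 2 ^ k),
      ∀ r ∈ ({a} : Set Y) ×ˢ Icc ((i:ℝ) / 2 ^ k) (((i:ℝ) + 1) / 2 ^ k),
      ψ p q + ψ q r = ψ p r) : rsum ψ (k + 1) a = rsum ψ k a := by
  rw [rsum, rsum, pow_succ, mul_comm, sum_range_two_mul]
  refine Finset.sum_congr rfl fun i hi => ?_
  have hi' := Finset.mem_range.1 hi
  have hpos : (0:ℝ) < 2 ^ k := by positivity
  have e1 : ((2 * i : ℕ) : ℝ) / (2 ^ (k + 1)) = (i:ℝ) / 2 ^ k := by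
    push_cast; field_simp; ring
  have e2 : (((2 * i : ℕ) : ℝ) + 1) / (2 ^ (k + 1)) = ((i:ℝ) + 1/2) / 2 ^ k := by
    push_cast; field_simp; ring
  have e3 : (((2 * i + 1 : ℕ) : ℝ)) / (2 ^ (k + 1)) = ((i:ℝ) + 1/2) / 2 ^ k := by
    push_cast; field_simp; ring
  have e4 : (((2 * i + 1 : ℕ) : ℝ) + 1) / (2 ^ (k + 1)) = ((i:ℝ) + 1) / 2 ^ k := by
    push_cast; field_simp; ring
  have e5 : (2:ℝ) * 2 ^ k = 2 ^ (k + 1) := by ring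
  rw [e1, e2, e3, e4]
  have m1 : (i:ℝ) / 2 ^ k ≤ ((i:ℝ) + 1/2) / 2 ^ k := by gcongr; linarith
  have m2 : ((i:ℝ) + 1/2) / 2 ^ k ≤ ((i:ℝ) + 1) / 2 ^ k := by gcongr; linarith
  exact h i hi' _ ⟨mem_singleton _, le_rfl, m1.trans m2⟩ _ ⟨mem_singleton _, m1, m2⟩ _
    ⟨mem_singleton _, m1.trans m2, le_rfl⟩

/-- the homotopy lemma on a strip -/
theorem homotopy_strip {S : Set Y} {ψ : Y × ℝ → Y × ℝ → F} (hψ : Coc (S ×ˢ Icc (0:ℝ) 1) ψ) :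
    Near2 S fun a b => ψ (a, 0) (b, 0) + ψ (a, 1) (b, 1) = hol ψ a + hol ψ b := by
  intro a0 ha0
  obtain ⟨U, hU, k0, hk0⟩ := good_strip
    (G := fun A => ∀ p ∈ A, ∀ q ∈ A, ∀ r ∈ A, ψ p q + ψ q r = ψ p r)
    (fun A B hAB hB p hp q hq r hr => hB p (hAB hp) q (hAB hq) r (hAB hr)) (a0 := a0)
    (fun t ht => hψ (a0, t) ⟨ha0, ht⟩)
  have hstep : ∀ a ∈ U, ∀ k ≥ k0, rsum ψ k a = rsum ψ k0 a := by
    intro a ha k hk
    induction k, hk using Nat.le_induction with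
    | base => rfl
    | succ k hk ih =>
      rw [← ih]
      refine rsum_succ fun i hi p hp q hq r hr => ?_
      have hsub : ({a} : Set Y) ×ˢ Icc ((i:ℝ) / 2 ^ k) (((i:ℝ) + 1) / 2 ^ k) ⊆
          U ×ˢ Icc ((i:ℝ) / 2 ^ k) (((i:ℝ) + 1) / 2 ^ k) :=
        prod_mono (singleton_subset_iff.2 ha) subset_rfl
      exact hk0 k hk i hi p (hsub hp) q (hsub hq) r (hsub hr)
  refine ⟨U, hU, fun a ha b hb => ?_⟩
  beta_reduce
  rw [hol_eq (hstep a ha), hol_eq (hstep b hb)]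
  have hpos : (0:ℝ) < 2 ^ k0 := by positivity
  have key : ∀ m ≤ 2 ^ k0,
      (∑ i ∈ Finset.range m, ψ (a, (i:ℝ) / 2 ^ k0) (a, ((i:ℝ) + 1) / 2 ^ k0)) +
        (∑ i ∈ Finset.range m, ψ (b, (i:ℝ) / 2 ^ k0) (b, ((i:ℝ) + 1) / 2 ^ k0)) =
      ψ (a, 0) (b, 0) + ψ (a, (m:ℝ) / 2 ^ k0) (b, (m:ℝ) / 2 ^ k0) := by
    intro m hm
    induction m with
    | zero =>
      simp only [Finset.range_zero, Finset.sum_empty, Nat.cast_zero, zero_div, add_zero]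
      exact (CharTwo.add_self_eq_zero _).symm
    | succ m ih =>
      have hm' : m < 2 ^ k0 := hm
      have ih := ih hm'.le
      rw [Finset.sum_range_succ, Finset.sum_range_succ]
      have hle : (m:ℝ) / 2 ^ k0 ≤ ((m:ℝ) + 1) / 2 ^ k0 := by gcongr; linarith
      have w := hk0 k0 le_rfl m hm'
      have am : ((a, (m:ℝ) / 2 ^ k0) : Y × ℝ) ∈ U ×ˢ Icc ((m:ℝ) / 2 ^ k0) (((m:ℝ) + 1) / 2 ^ k0) :=
        ⟨ha, le_rfl, hle⟩
      have am' : ((a, ((m:ℝ) + 1) / 2 ^ k0) : Y × ℝ) ∈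
          U ×ˢ Icc ((m:ℝ) / 2 ^ k0) (((m:ℝ) + 1) / 2 ^ k0) := ⟨ha, hle, le_rfl⟩
      have bm : ((b, (m:ℝ) / 2 ^ k0) : Y × ℝ) ∈ U ×ˢ Icc ((m:ℝ) / 2 ^ k0) (((m:ℝ) + 1) / 2 ^ k0) :=
        ⟨hb, le_rfl, hle⟩
      have bm' : ((b, ((m:ℝ) + 1) / 2 ^ k0) : Y × ℝ) ∈
          U ×ˢ Icc ((m:ℝ) / 2 ^ k0) (((m:ℝ) + 1) / 2 ^ k0) := ⟨hb, hle, le_rfl⟩
      have r1 := w _ am _ bm _ bm'
      have r2 := w _ am _ am' _ bm'
      push_cast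
      generalize (∑ i ∈ Finset.range m, ψ (a, (i:ℝ) / 2 ^ k0) (a, ((i:ℝ) + 1) / 2 ^ k0)) = s at *
      generalize (∑ i ∈ Finset.range m, ψ (b, (i:ℝ) / 2 ^ k0) (b, ((i:ℝ) + 1) / 2 ^ k0)) = s' at *
      generalize ψ (a, 0) (b, 0) = x0 at *
      generalize ψ (a, (m:ℝ) / 2 ^ k0) (b, (m:ℝ) / 2 ^ k0) = x1 at *
      generalize ψ (a, ((m:ℝ) + 1) / 2 ^ k0) (b, ((m:ℝ) + 1) / 2 ^ k0) = x2 at *
      generalize ψ (a, (m:ℝ) / 2 ^ k0) (a, ((m:ℝ) + 1) / 2 ^ k0) = x3 at *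
      generalize ψ (b, (m:ℝ) / 2 ^ k0) (b, ((m:ℝ) + 1) / 2 ^ k0) = x4 at *
      generalize ψ (a, (m:ℝ) / 2 ^ k0) (b, ((m:ℝ) + 1) / 2 ^ k0) = x5 at *
      have e : x3 + x2 = x1 + x4 := by rw [r2, r1]
      have e' : x3 = x1 + x4 + x2 := by
        rw [← e, add_assoc, CharTwo.add_self_eq_zero, add_zero]
      have e2 : s + x3 + (s' + x4) = (s + s') + x3 + x4 := by ring
      rw [e2, ih, e']
      have : x0 + x1 + (x1 + x4 + x2) + x4 = x0 + x2 + (x1 + x1) + (x4 + x4) := by ring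
      rw [this, CharTwo.add_self_eq_zero, CharTwo.add_self_eq_zero]; ring
  have := key (2 ^ k0) le_rfl
  rw [rsum, rsum, this]
  have e1 : ((2 ^ k0 : ℕ) : ℝ) / 2 ^ k0 = 1 := by
    push_cast; exact div_self hpos.ne'
  rw [e1]

theorem hol_zero {ψ : Y × ℝ → Y × ℝ → F} {a : Y}
    (h : ∀ t ∈ Icc (0:ℝ) 1, ∃ U ∈ 𝓝 (a, t), ∀ p ∈ U, ∀ q ∈ U, ψ p q = 0) : hol ψ a = 0 := by
  obtain ⟨U, hU, k0, hk0⟩ := good_strip (G := fun A => ∀ p ∈ A, ∀ q ∈ A, ψ p q = 0)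
    (fun A B hAB hB p hp q hq => hB p (hAB hp) q (hAB hq)) (a0 := a) h
  refine hol_eq (k0 := k0) fun k hk => ?_
  refine Finset.sum_eq_zero fun i hi => ?_
  have hpos : (0:ℝ) < 2 ^ k := by positivity
  have hle : (i:ℝ) / 2 ^ k ≤ ((i:ℝ) + 1) / 2 ^ k := by gcongr; linarith
  exact hk0 k hk i (Finset.mem_range.1 hi) _ ⟨mem_of_mem_nhds hU, le_rfl, hle⟩ _
    ⟨mem_of_mem_nhds hU, hle, le_rfl⟩

/-- the homotopy lemma, with control of supports -/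
theorem homotopy {S : Set Y} {W : Set Z} {φ : Z → Z → F} (hφ : Coc W φ) {H : Y × ℝ → Z}
    (hH : ∀ a ∈ S, ∀ t ∈ Icc (0:ℝ) 1, ContinuousAt H (a, t) ∧ H (a, t) ∈ W) :
    ∃ f : Y → F, (Near2 S fun a b => φ (H (a, 0)) (H (b, 0)) + φ (H (a, 1)) (H (b, 1)) =
        f a + f b) ∧
      ∀ a, (∀ t ∈ Icc (0:ℝ) 1, ContinuousAt H (a, t) ∧
        ∃ U ∈ 𝓝 (H (a, t)), ∀ p ∈ U, ∀ q ∈ U, φ p q = 0) → f a = 0 := by
  have h0 : Coc (S ×ˢ Icc (0:ℝ) 1) (fun p q => φ (H p) (H q)) :=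
    Near3.comap hφ (fun z hz => (hH z.1 hz.1 z.2 hz.2).1) fun z hz =>
      (hH z.1 hz.1 z.2 hz.2).2
  refine ⟨hol fun p q => φ (H p) (H q), homotopy_strip h0, ?_⟩
  · intro a ha
    refine hol_zero fun t ht => ?_
    obtain ⟨h1, U, hU, h2⟩ := ha t ht
    exact ⟨H ⁻¹' U, h1 hU, fun p hp q hq => h2 _ hp _ hq⟩

/-- a cocycle on a contractible set is trivial -/
theorem triv_of_contract {S : Set Y} {W : Set Z} {φ : Z → Z → F} (hφ : Coc W φ)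
    {H : Y × ℝ → Z} (hH : ∀ a ∈ S, ∀ t ∈ Icc (0:ℝ) 1, ContinuousAt H (a, t) ∧ H (a, t) ∈ W)
    {p : Z} (hp : ∀ a, H (a, 1) = p) {g : Y → Z} (hg : ∀ a, H (a, 0) = g a) :
    Triv S fun a b => φ (g a) (g b) := by
  obtain ⟨f, hf, -⟩ := homotopy hφ hH
  refine ⟨f, fun a0 ha0 => ?_⟩
  obtain ⟨U, hU, h⟩ := hf a0 ha0
  have hpW : p ∈ W := by
    have := (hH a0 ha0 1 ⟨zero_le_one, le_rfl⟩).2
    rwa [hp] at this
  refine ⟨U, hU, fun a ha b hb => ?_⟩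
  have := h a ha b hb
  beta_reduce at this ⊢
  rw [hp, hp, hφ.diag hpW, add_zero, hg, hg] at this
  exact this

/-- a cocycle on a convex set is trivial -/
theorem triv_of_convex {E : Type*} [NormedAddCommGroup E] [NormedSpace ℝ E] {S : Set E}
    (hS : Convex ℝ S) {φ : E → E → F} (hφ : Coc S φ) : Triv S φ := by
  rcases S.eq_empty_or_nonempty with rfl | ⟨p, hp⟩
  · exact ⟨fun _ => 0, fun y hy => absurd hy (notMem_empty _)⟩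
  · have := triv_of_contract (Y := E) (Z := E) (S := S) (W := S) hφ
      (H := fun z => (1 - z.2) • z.1 + z.2 • p) (p := p) (g := id)
      (fun a ha t ht => ⟨?_, ?_⟩) (fun a => by simp) (fun a => by simp)
    · exact this
    · apply Continuous.continuousAt; fun_prop
    · exact hS ha hp (by linarith [ht.2]) ht.1 (by ring)

end Pool.Agent.SRF.V
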