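import Pool.Agent.SRF.V.Form

/-!
# The invariants of a surface in normal form (SRF, Part V)
-/

set_option linter.unusedTactic false

namespace Pool.Agent.SRF.V

open Topology Filter Set

/-- the form vanishes on the cocycles supported in `A` -/
def FlatOn {Y : Type*} [TopologicalSpace Y] (A : Set Y) : Prop := ∀ a ∈ ZC A, ∀ b ∈ ZC A, Perp a b

/-- the form is alternating on the cocycles supported in `A` -/
def AltOn {Y : Type*} [TopologicalSpace Y] (A : Set Y) : Prop := ∀ a ∈ ZC A, Perp a a

/-- parity -/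
def Par (Y : Type*) [TopologicalSpace Y] : Prop :=
  ∃ w ∈ ZC (univ : Set Y), (∀ a ∈ ZC (univ : Set Y), (Perp a a ↔ Perp a w)) ∧ Perp w w

/-- `ι` indexes the compactly supported cocycles modulo trivial ones -/
def Cls (Y : Type*) [TopologicalSpace Y] (ι : Type) : Prop :=
  ∃ φ : ι → Y → Y → F, (∀ i, φ i ∈ ZC (univ : Set Y)) ∧
    (∀ i j, Triv univ (fun x y => φ i x y + φ j x y) → i = j) ∧
    ∀ a ∈ ZC (univ : Set Y), ∃ i, Triv univ fun x y => a x y + φ i x y

theorem Cls.equiv {Y : Type*} [TopologicalSpace Y] {ι ι' : Type} (h : Cls Y ι) (h' : Cls Y ι') :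
    Nonempty (ι ≃ ι') := by
  obtain ⟨φ, h1, h2, h3⟩ := h
  obtain ⟨ψ, k1, k2, k3⟩ := h'
  choose f hf using fun i => k3 (φ i) (h1 i)
  choose g hg using fun i => h3 (ψ i) (k1 i)
  refine ⟨⟨f, g, fun i => ?_, fun i => ?_⟩⟩
  · refine h2 _ _ (((hg (f i)).add (hf i)).congr fun _ _ => ⟨univ, univ_mem, fun u _ v _ => ?_⟩)
    beta_reduce
    have : ∀ a b c : F, a + b + (c + a) = b + c := by decide
    exact this _ _ _
  · refine k2 _ _ (((hf (g i)).add (hg i)).congr fun _ _ => ⟨univ, univ_mem, fun u _ v _ => ?_⟩)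
    beta_reduce
    have : ∀ a b c : F, a + b + (c + a) = b + c := by decide
    exact this _ _ _

section
variable {X : Type*} [TopologicalSpace X] {E T P : Set ℝ} {r : ℝ → ℝ} {κ : X → S2}
  {lam : S2 → X} {ρ : ℝ → ℝ} {α β c : ℝ → X → X → F}

theorem NB.not_perp (h : NB X E T P r κ lam ρ α β c) {p : ℝ} (hp : p ∈ T ∪ P) :
    ¬ Perp (α p) (β p) := by
  intro h1
  have h2 := h.sum_ab (Q := {p}) (by simpa using hp)
  simp only [Finset.sum_singleton, Finset.card_singleton] at h2
  exact absurd (h2.1 h1) (by decide)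

/-- cocycles supported off a block are trivial on it -/
theorem NF.triv_off (h : NF X E T P r κ lam) {p : ℝ} {N : Set S2}
    (hN : Disjoint (cd p (r p)) N) {a : X → X → F} (ha : a ∈ ZC (κ ⁻¹' N)) :
    Triv (κ ⁻¹' dd p (r p)) a := by
  obtain ⟨K, hK, -, hz⟩ := ha.2
  refine Zer.triv (hz.mono fun x hx hxK => ?_)
  exact Set.disjoint_left.1 hN (dd_sub_cd le_rfl hx) (hK hxK)

theorem NF.flat (h : NF X E T P r κ lam) {N : Set S2}
    (hN : ∀ p ∈ T ∪ P, Disjoint (cd p (r p)) N) : FlatOn (κ ⁻¹' N) := by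
  intro a ha b hb
  refine perp_of_triv (h.triv_of_blocks (ZC.mono ha (subset_univ _)) fun p hp => ?_)
    (ZC.mono hb (subset_univ _))
  exact h.triv_off (hN p hp) ha

theorem NB.not_flat (h : NB X E T P r κ lam ρ α β c) {N : Set S2} {p : ℝ} (hp : p ∈ T ∪ P)
    (hN : dd p (r p) ⊆ N) : ¬ FlatOn (κ ⁻¹' N) := fun hf =>
  h.not_perp hp (hf _ (ZC.mono (h.αZC hp) (preimage_mono hN)) _
    (ZC.mono (h.βZC hp) (preimage_mono hN)))

theorem NB.alt (h : NB X E T P r κ lam ρ α β c) {N : Set S2}
    (hN : ∀ p ∈ P, Disjoint (cd p (r p)) N) : AltOn (κ ⁻¹' N) := by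
  intro a ha
  have ha' := ZC.mono ha (subset_univ _)
  obtain ⟨G, x, y, hG, ht⟩ := h.decomp ha'
  have hG' : ∀ p ∈ G, p ∈ T ∪ P := fun p hp => (hG p hp).1
  rw [perp_congr_triv ha' (h.SS_zc hG' x y) ha' (h.SS_zc hG' x y) ht ht, h.form hG']
  refine Finset.sum_eq_zero fun p hp => ?_
  have hT : p ∈ T := by
    refine (hG' p hp).resolve_right fun hP => (hG p hp).2 ?_
    exact h.nf.triv_off (hN p hP) ha
  rw [ee, if_pos hT]
  have : ∀ x y : F, x * y + y * x = 0 := by decide
  exact this _ _

theorem NB.not_alt (h : NB X E T P r κ lam ρ α β c) {N : Set S2} {p : ℝ} (hp : p ∈ P)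
    (hN : dd p (r p) ⊆ N) : ¬ AltOn (κ ⁻¹' N) := by
  intro hf
  have h1 := hf _ (ZC.mono (h.αZC (Or.inr hp)) (preimage_mono hN))
  have h2 := h.not_perp (Or.inr hp)
  rw [← h.eqP p hp] at h2
  exact h2 h1

omit [TopologicalSpace X] in
theorem SS_subset {G G' : Finset ℝ} (hG : G ⊆ G') (x y : ℝ → F) :
    SS α β G x y = SS α β G' (fun p => if p ∈ G then x p else 0)
      (fun p => if p ∈ G then y p else 0) := by
  funext u v
  rw [SS, SS, ← Finset.sum_subset hG]
  · refine Finset.sum_congr rfl fun p hp => ?_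
    rw [if_pos hp, if_pos hp]
  · intro p _ hp
    rw [if_neg hp, if_neg hp]; simp

/-- values of the form on basis elements -/
theorem ee_sum_left {T : Set ℝ} {G : Finset ℝ} {p : ℝ} (hp : p ∈ G) (x y : ℝ → F) :
    ∑ q ∈ G, ee T (fun q => if q = p then 1 else 0) (fun _ => 0) x y q =
      ee T (fun _ => 1) (fun _ => 0) x y p := by
  rw [Finset.sum_eq_single_of_mem p hp]
  · simp only [ee, if_true]
  · intro q _ hq
    simp only [ee, if_neg hq]
    split_ifs <;> simp

theorem ee_sum_right {T : Set ℝ} {G : Finset ℝ} {p : ℝ} (hp : p ∈ G) (x y : ℝ → F) :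
    ∑ q ∈ G, ee T (fun _ => 0) (fun q => if q = p then 1 else 0) x y q =
      ee T (fun _ => 0) (fun _ => 1) x y p := by
  rw [Finset.sum_eq_single_of_mem p hp]
  · simp only [ee, if_true]
  · intro q _ hq
    simp only [ee, if_neg hq]
    split_ifs <;> simp

theorem NB.par (h : NB X E T P r κ lam ρ α β c) {PF : Finset ℝ} (hPF : ∀ p, p ∈ PF ↔ p ∈ P) :
    Par X ↔ (PF.card : F) = 0 := by
  classical
  have hPT : ∀ p ∈ P, p ∉ T := fun p hp hT => Set.disjoint_left.1 h.nf.hTP hT hp
  constructor
  · rintro ⟨w, hw, hw1, hw2⟩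
    obtain ⟨G, x, y, hG, ht⟩ := h.decomp hw
    have hG' : ∀ p ∈ G ∪ PF, p ∈ T ∪ P := fun p hp => by
      rcases Finset.mem_union.1 hp with hp | hp
      · exact (hG p hp).1
      · exact Or.inr ((hPF p).1 hp)
    have hS := SS_subset (α := α) (β := β) (Finset.subset_union_left (s₁ := G) (s₂ := PF)) x y
    set G' := G ∪ PF with hG'def
    set x' : ℝ → F := fun p => if p ∈ G then x p else 0 with hx'
    set y' : ℝ → F := fun p => if p ∈ G then y p else 0 with hy'
    have ht' : Triv univ fun u v => w u v + SS α β G' x' y' u v := by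
      rw [← hS]; exact ht
    have hzc := h.SS_zc hG' x' y'
    have test : ∀ u v : ℝ → F, (∑ q ∈ G', ee T u v u v q = 0 ↔ ∑ q ∈ G', ee T u v x' y' q = 0) := by
      intro u v
      have hz := h.SS_zc hG' u v
      have e1 := hw1 _ hz
      have e3 : Triv univ fun a b => SS α β G' u v a b + SS α β G' u v a b :=
        ⟨fun _ => 0, fun _ _ => ⟨univ, univ_mem, fun _ _ _ _ => by
          beta_reduce; rw [F_add_self]; simp⟩⟩
      rw [perp_congr_triv hz hz hw hzc e3 ht', h.form hG', h.form hG'] at e1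
      exact e1
    have hTc : ∀ p ∈ G', p ∈ T → x' p = 0 ∧ y' p = 0 := by
      intro p hp hT
      constructor
      · have e1 := test (fun _ => 0) (fun q => if q = p then 1 else 0)
        rw [ee_sum_right hp, ee_sum_right hp] at e1
        have e2 : ee T (fun _ => 0) (fun _ => 1) (fun _ => 0) (fun q => if q = p then 1 else 0) p =
          (0 : F) := by
          rw [ee, if_pos hT]; simp
        have e3 := e1.1 e2
        rw [ee, if_pos hT] at e3
        simpa using e3
      · have e1 := test (fun q => if q = p then 1 else 0) (fun _ => 0)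
        rw [ee_sum_left hp, ee_sum_left hp] at e1
        have e2 : ee T (fun _ => 1) (fun _ => 0) (fun q => if q = p then 1 else 0) (fun _ => 0) p =
          (0 : F) := by
          rw [ee, if_pos hT]; simp
        have e3 := e1.1 e2
        rw [ee, if_pos hT] at e3
        simpa using e3
    have hPc : ∀ p ∈ PF, x' p + y' p = 1 := by
      intro p hp
      have hp' : p ∈ G' := Finset.mem_union_right _ hp
      have hT : p ∉ T := hPT p ((hPF p).1 hp)
      have e1 := test (fun q => if q = p then 1 else 0) (fun _ => 0)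
      rw [ee_sum_left hp', ee_sum_left hp'] at e1
      rw [ee, if_neg hT, ee, if_neg hT] at e1
      rcases F_cases (x' p + y' p) with h0 | h0
      · have e2 := e1.2 (by rw [h0, mul_zero])
        simp at e2
      · exact h0
    have e1 := (perp_congr_triv hw hzc hw hzc ht' ht').1 hw2
    rw [h.form hG'] at e1
    have e2 : ∑ p ∈ G', ee T x' y' x' y' p = ∑ p ∈ PF, (1 : F) := by
      rw [← Finset.sum_subset (Finset.subset_union_right (s₁ := G) (s₂ := PF))]
      · refine Finset.sum_congr rfl fun p hp => ?_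
        rw [ee, if_neg (hPT p ((hPF p).1 hp)), hPc p hp, mul_one]
      · intro p hp hpn
        have hT : p ∈ T := (hG' p hp).resolve_right fun hP => hpn ((hPF p).2 hP)
        obtain ⟨e3, e4⟩ := hTc p hp hT
        rw [ee, if_pos hT, e3, e4]; simp
    rw [e2, Finset.sum_const, nsmul_eq_mul, mul_one] at e1
    exact e1
  · intro he
    have hPF' : ∀ p ∈ PF, p ∈ T ∪ P := fun p hp => Or.inr ((hPF p).1 hp)
    refine ⟨SS α β PF (fun _ => 1) (fun _ => 0), h.SS_zc hPF' _ _, fun a ha => ?_, ?_⟩
    · obtain ⟨G, x, y, hG, ht⟩ := h.decomp ha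
      have hG' : ∀ p ∈ G ∪ PF, p ∈ T ∪ P := fun p hp => by
        rcases Finset.mem_union.1 hp with hp | hp
        · exact (hG p hp).1
        · exact hPF' p hp
      have hS := SS_subset (α := α) (β := β) (Finset.subset_union_left (s₁ := G) (s₂ := PF)) x y
      have hW := SS_subset (α := α) (β := β) (Finset.subset_union_right (s₁ := G) (s₂ := PF))
        (fun _ => (1 : F)) (fun _ => 0)
      set G' := G ∪ PF with hG'def
      set x' : ℝ → F := fun p => if p ∈ G then x p else 0 with hx'
      set y' : ℝ → F := fun p => if p ∈ G then y p else 0 with hy'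
      have ht' : Triv univ fun u v => a u v + SS α β G' x' y' u v := by
        rw [← hS]; exact ht
      have hzc := h.SS_zc hG' x' y'
      rw [hW]
      have hwz := h.SS_zc hG' (fun p => if p ∈ PF then (1 : F) else 0)
        (fun p => if p ∈ PF then (0 : F) else 0)
      have e3 : Triv univ fun u v => SS α β G' (fun p => if p ∈ PF then (1 : F) else 0)
        (fun p => if p ∈ PF then (0 : F) else 0) u v + SS α β G'
        (fun p => if p ∈ PF then (1 : F) else 0) (fun p => if p ∈ PF then (0 : F) else 0) u v :=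
        ⟨fun _ => 0, fun _ _ => ⟨univ, univ_mem, fun _ _ _ _ => by
          beta_reduce; rw [F_add_self]; simp⟩⟩
      rw [perp_congr_triv ha hzc ha hzc ht' ht', perp_congr_triv ha hzc hwz hwz ht' e3,
        h.form hG', h.form hG']
      have e4 : ∀ p ∈ G', ee T x' y' x' y' p = ee T x' y' (fun p => if p ∈ PF then (1 : F) else 0)
          (fun p => if p ∈ PF then (0 : F) else 0) p := by
        intro p hp
        rw [ee, ee]
        by_cases hT : p ∈ T
        · have hn : p ∉ PF := fun h1 => hPT p ((hPF p).1 h1) hT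
          rw [if_pos hT, if_pos hT, if_neg hn, if_neg hn]
          have : ∀ x y : F, x * y + y * x = x * 0 + y * 0 := by decide
          exact this _ _
        · have hP : p ∈ PF := (hPF p).2 ((hG' p hp).resolve_left hT)
          rw [if_neg hT, if_neg hT, if_pos hP, if_pos hP]
          have : ∀ x : F, x * x = x * (1 + 0) := by decide
          exact this _
      rw [Finset.sum_congr rfl e4]
    · rw [h.form hPF']
      have e2 : ∑ p ∈ PF, ee T (fun _ => 1) (fun _ => 0) (fun _ => 1) (fun _ => 0) p =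
          ∑ p ∈ PF, (1 : F) := by
        refine Finset.sum_congr rfl fun p hp => ?_
        rw [ee, if_neg (hPT p ((hPF p).1 hp))]; simp
      rw [e2, Finset.sum_const, nsmul_eq_mul, mul_one]
      exact he

open Classical in
theorem NB.cls (h : NB X E T P r κ lam ρ α β c) {TF PF : Finset ℝ} (hTF : ∀ p, p ∈ TF ↔ p ∈ T)
    (hPF : ∀ p, p ∈ PF ↔ p ∈ P) : Cls X (({p // p ∈ TF} → F × F) × ({p // p ∈ PF} → F)) := by
  have hPT : ∀ p ∈ PF, p ∉ TF := fun p hp hT =>
    Set.disjoint_left.1 h.nf.hTP ((hTF p).1 hT) ((hPF p).1 hp)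
  have hG' : ∀ p ∈ TF ∪ PF, p ∈ T ∪ P := fun p hp => by
    rcases Finset.mem_union.1 hp with hp | hp
    · exact Or.inl ((hTF p).1 hp)
    · exact Or.inr ((hPF p).1 hp)
  let xx : ({p // p ∈ TF} → F × F) × ({p // p ∈ PF} → F) → ℝ → F := fun i p =>
    if h : p ∈ TF then (i.1 ⟨p, h⟩).1 else if h : p ∈ PF then i.2 ⟨p, h⟩ else 0
  let yy : ({p // p ∈ TF} → F × F) × ({p // p ∈ PF} → F) → ℝ → F := fun i p =>
    if h : p ∈ TF then (i.1 ⟨p, h⟩).2 else 0
  refine ⟨fun i => SS α β (TF ∪ PF) (xx i) (yy i), fun i => h.SS_zc hG' _ _, ?_, ?_⟩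
  · intro i j ht
    have hadd : (fun u v => SS α β (TF ∪ PF) (xx i) (yy i) u v + SS α β (TF ∪ PF) (xx j) (yy j) u v)
        = SS α β (TF ∪ PF) (fun p => xx i p + xx j p) (fun p => yy i p + yy j p) := by
      funext u v
      rw [SS, SS, SS, ← Finset.sum_add_distrib]
      refine Finset.sum_congr rfl fun p _ => ?_
      ring
    rw [hadd] at ht
    have test : ∀ u v : ℝ → F, ∑ q ∈ TF ∪ PF, ee T u v (fun p => xx i p + xx j p)
        (fun p => yy i p + yy j p) q = 0 := by
      intro u v
      rw [← h.form hG']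
      exact perp_of_triv_right (h.SS_zc hG' _ _) (h.SS_zc hG' _ _) ht
    have f2 : ∀ a b : F, a + b = 0 → a = b := by decide
    refine Prod.ext (funext fun ⟨p, hp⟩ => Prod.ext ?_ ?_) (funext fun ⟨p, hp⟩ => ?_)
    · have hp' : p ∈ TF ∪ PF := Finset.mem_union_left _ hp
      have e1 := test (fun _ => 0) (fun q => if q = p then 1 else 0)
      rw [ee_sum_right hp', ee, if_pos ((hTF p).1 hp)] at e1
      simp only [zero_mul, one_mul, zero_add, xx, dif_pos hp] at e1
      exact f2 _ _ e1
    · have hp' : p ∈ TF ∪ PF := Finset.mem_union_left _ hp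
      have e1 := test (fun q => if q = p then 1 else 0) (fun _ => 0)
      rw [ee_sum_left hp', ee, if_pos ((hTF p).1 hp)] at e1
      simp only [zero_mul, one_mul, add_zero, yy, dif_pos hp] at e1
      exact f2 _ _ e1
    · have hp' : p ∈ TF ∪ PF := Finset.mem_union_right _ hp
      have e1 := test (fun q => if q = p then 1 else 0) (fun _ => 0)
      rw [ee_sum_left hp', ee, if_neg fun h => hPT p hp ((hTF p).2 h)] at e1
      simp only [add_zero, one_mul, yy, xx, dif_neg (hPT p hp), dif_pos hp] at e1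
      exact f2 _ _ e1
  · intro a ha
    obtain ⟨G, x, y, hG, ht⟩ := h.decomp ha
    have hGsub : G ⊆ TF ∪ PF := fun p hp => by
      rcases (hG p hp).1 with h1 | h1
      · exact Finset.mem_union_left _ ((hTF p).2 h1)
      · exact Finset.mem_union_right _ ((hPF p).2 h1)
    have hS := SS_subset (α := α) (β := β) hGsub x y
    set x' : ℝ → F := fun p => if p ∈ G then x p else 0 with hx'
    set y' : ℝ → F := fun p => if p ∈ G then y p else 0 with hy'
    refine ⟨(fun p => (x' p.1, y' p.1), fun p => x' p.1 + y' p.1), ?_⟩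
    have ht' : Triv univ fun u v => a u v + SS α β (TF ∪ PF) x' y' u v := by
      rw [← hS]; exact ht
    have e : SS α β (TF ∪ PF) (xx (fun p => (x' p.1, y' p.1), fun p => x' p.1 + y' p.1))
        (yy (fun p => (x' p.1, y' p.1), fun p => x' p.1 + y' p.1)) = SS α β (TF ∪ PF) x' y' := by
      funext u v
      rw [SS, SS]
      refine Finset.sum_congr rfl fun p hp => ?_
      by_cases hT : p ∈ TF
      · simp only [xx, yy, dif_pos hT]
      · have hP : p ∈ PF := (Finset.mem_union.1 hp).resolve_left hT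
        simp only [xx, yy, dif_neg hT, dif_pos hP]
        rw [h.eqP p ((hPF p).1 hP)]; ring
    beta_reduce
    rw [e]; exact ht'

end

end Pool.Agent.SRF.V
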