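import Pool.Agent.SRF.V.Cl

/-!
# The collapse of a modelled surface onto the sphere (SRF, Part V)
-/

set_option linter.unusedTactic false

namespace Pool.Agent.SRF.V

open Topology Filter Set Pool.Agent.SRP Metric OnePoint

theorem lcs_of_surf {X : Type*} [TopologicalSpace X] (h : IsSurf X) : LocallyCompactSpace X := by
  have := h.t2
  have hw : WeaklyLocallyCompactSpace X := by
    refine ⟨fun x => ?_⟩
    obtain ⟨φ, hφ, h0⟩ := h.chart x
    refine ⟨φ '' closedBall 0 1, (isCompact_closedBall _ _).image hφ.continuous, ?_⟩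
    rw [← h0]
    exact hφ.isOpenMap.image_mem_nhds (closedBall_mem_nhds _ one_pos)
  infer_instance

/-- `io ∘ conj` -/
noncomputable def ic (w : ℂ) : S2 := io ((starRingEnd ℂ) w)

theorem ic_cont : Continuous ic := io_open.continuous.comp Complex.continuous_conj

theorem ic_inj {w w' : ℂ} (h : ic w = ic w') : w = w' :=
  (starRingEnd ℂ).injective (io_open.injective h)

theorem ic_circle {w : ℂ} (hw : ‖w‖ = 1) : ic w = (w : S2) := by
  have h0 : (starRingEnd ℂ) w ≠ 0 := by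
    intro h
    rw [map_eq_zero] at h
    rw [h, norm_zero] at hw
    exact zero_ne_one hw
  rw [ic, io_of_ne h0]
  congr 1
  rw [inv_eq_iff_eq_inv, eq_comm, inv_eq_iff_eq_inv, ← mul_eq_one_iff_eq_inv₀ h0,
    Complex.mul_conj, Complex.normSq_eq_norm_sq, hw]
  norm_num

/-- the points of the sphere outside the unit disc -/
theorem ic_surj {z : S2} : (∃ w : ℂ, ‖w‖ ≤ 1 ∧ ic w = z) ∨ ∃ v : ℂ, ‖v‖ ≤ 1 ∧ (v : S2) = z := by
  induction z using OnePoint.rec with
  | infty => exact Or.inl ⟨0, by simp, by rw [ic, map_zero, io_zero]⟩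
  | coe v =>
    rcases le_total ‖v‖ 1 with h | h
    · exact Or.inr ⟨v, h, rfl⟩
    · left
      have hv : v ≠ 0 := by rintro rfl; rw [norm_zero] at h; linarith
      refine ⟨(starRingEnd ℂ) v⁻¹, ?_, ?_⟩
      · rw [Complex.norm_conj, norm_inv]; exact inv_le_one_of_one_le₀ h
      · rw [ic, Complex.conj_conj, io_of_ne (inv_ne_zero hv), inv_inv]

theorem ic_far {w v : ℂ} (hw : ‖w‖ < 1) (h : ic w = (v : S2)) : 1 < ‖v‖ := by
  by_cases h0 : w = 0
  · rw [h0, ic, map_zero, io_zero] at h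
    exact absurd h (OnePoint.infty_ne_coe v)
  · have h1 : (starRingEnd ℂ) w ≠ 0 := by rwa [Ne, map_eq_zero]
    rw [ic, io_of_ne h1] at h
    rw [← OnePoint.coe_injective h, norm_inv, Complex.norm_conj]
    exact (one_lt_inv₀ (norm_pos_iff.2 h0)).2 hw

theorem isCompact_pt {E : Set ℝ} (hE : IsCompact E) : IsCompact (pt E) :=
  hE.image (OnePoint.continuous_coe.comp Complex.continuous_ofReal)

theorem pt_union {E T : Set ℝ} : pt (E ∪ T) = pt E ∪ pt T := image_union _ _ _

section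
variable {X : Type} [TopologicalSpace X]

open Classical in
/-- the collapse -/
noncomputable def kap (C : Conf) (e q : ℂ → X) (x : X) : S2 :=
  if h : ∃ w ∈ OD, e w = x then ic h.choose else
    if h' : ∃ z ∈ C.Dom, q z = x then ((cl C h'.choose : ℂ) : S2) else ∞

/-- the data of a model -/
structure MD (C : Conf) (e q : ℂ → X) : Prop where
  good : C.Good
  oe : IsOpenEmbedding e
  pres : Pres C (e '' OD)ᶜ q
  qe : ∀ z ∈ UC, q z = e z

variable {C : Conf} {e q : ℂ → X} (h : MD C e q)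
include h

theorem MD.q_not {z : ℂ} (hz : z ∈ C.Dom) : q z ∉ e '' OD := by
  have : q z ∈ (e '' OD)ᶜ := by rw [← h.pres.image]; exact ⟨z, hz, rfl⟩
  exact this

theorem MD.circle_Dom {z : ℂ} (hz : ‖z‖ = 1) : z ∈ C.Dom := by
  rw [mem_Dom]
  refine ⟨hz.le, ?_, ?_⟩
  · rintro x hx rfl
    rw [Complex.norm_real, Real.norm_eq_abs] at hz
    have := h.good.ok.small x hx
    linarith
  · intro i hi hzi
    have h1 := hole_sub (h.good.ok.pos i hi) hzi
    have h2 := cv_rad h.good.ok hi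
    have := norm_lt_of_ball h.good.ok hi (h1.trans h2).le
    linarith

theorem MD.kap_q {z : ℂ} (hz : z ∈ C.Dom) : kap C e q (q z) = ((cl C z : ℂ) : S2) := by
  have h1 : ¬ ∃ w ∈ OD, e w = q z := h.q_not hz
  have h2 : ∃ z' ∈ C.Dom, q z' = q z := ⟨z, hz, rfl⟩
  rw [kap, dif_neg h1, dif_pos h2]
  congr 1
  exact cl_rel h.good.ok ((h.pres.rel _ h2.choose_spec.1 _ hz).1 h2.choose_spec.2)

theorem MD.kap_e {w : ℂ} (hw : ‖w‖ ≤ 1) : kap C e q (e w) = ic w := by
  rcases hw.lt_or_eq with h1 | h1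
  · have h2 : ∃ w' ∈ OD, e w' = e w := ⟨w, by rwa [mem_ball, dist_zero_right], rfl⟩
    rw [kap, dif_pos h2, h.oe.injective h2.choose_spec.2]
  · rw [← h.qe w (by rwa [mem_sphere, dist_zero_right]), h.kap_q (h.circle_Dom h1),
      cl_circle h.good.ok h1.ge, ic_circle h1]

theorem MD.cases (x : X) : (∃ w, ‖w‖ < 1 ∧ e w = x) ∨ ∃ z ∈ C.Dom, q z = x := by
  by_cases h1 : x ∈ e '' OD
  · obtain ⟨w, hw, rfl⟩ := h1
    exact Or.inl ⟨w, by rwa [mem_ball, dist_zero_right] at hw, rfl⟩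
  · right
    have : x ∈ q '' C.Dom := by rw [h.pres.image]; exact h1
    obtain ⟨z, hz, rfl⟩ := this
    exact ⟨z, hz, rfl⟩

theorem MD.lclosed : IsClosed (e '' OD)ᶜ := (h.oe.isOpenMap _ isOpen_ball).isClosed_compl

theorem MD.prs_q : Prs C.Dom (e '' OD)ᶜ q := ⟨h.pres.cont, h.pres.image, h.pres.proper⟩

theorem MD.prs_e : Prs CD (e '' CD) e := by
  refine ⟨h.oe.continuous.continuousOn, rfl, fun A _ _ => ⟨CD, subset_rfl,
    isCompact_closedBall _ _, fun x hx _ => hx⟩⟩

theorem MD.kap_cont [T2Space X] [LocallyCompactSpace X] : Continuous (kap C e q) := by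
  have h1 : ContinuousOn (kap C e q) (e '' OD)ᶜ := by
    refine quot_cont h.prs_q (lc_of_isClosed h.lclosed)
      (g := fun z => ((cl C z : ℂ) : S2)) ?_ fun a ha => h.kap_q ha
    exact (OnePoint.continuous_coe.comp (cl_cont h.good.ok)).continuousOn
  have hcd : IsClosed (e '' CD) := ((isCompact_closedBall _ _).image h.oe.continuous).isClosed
  have h2 : ContinuousOn (kap C e q) (e '' CD) := by
    refine quot_cont h.prs_e (lc_of_isClosed hcd) (g := ic) ic_cont.continuousOn fun a ha => ?_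
    exact h.kap_e (by rwa [mem_closedBall, dist_zero_right] at ha)
  have h3 := h1.union_of_isClosed h2 h.lclosed hcd
  rw [← continuousOn_univ]
  refine h3.mono fun x _ => ?_
  by_cases hx : x ∈ e '' OD
  · exact Or.inr (image_mono ball_subset_closedBall hx)
  · exact Or.inl hx

theorem MD.kap_E (x : X) : kap C e q x ∉ pt C.F := by
  rintro ⟨f, hf, hfx⟩
  beta_reduce at hfx
  rcases h.cases x with ⟨w, hw, rfl⟩ | ⟨z, hz, rfl⟩
  · rw [h.kap_e hw.le] at hfx
    have h1 := ic_far hw hfx.symm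
    rw [Complex.norm_real, Real.norm_eq_abs] at h1
    have := h.good.ok.small f hf
    linarith
  · rw [h.kap_q hz] at hfx
    exact cl_not_F h.good.ok hz hf (OnePoint.coe_injective hfx).symm

theorem MD.kap_proper [T2Space X] [LocallyCompactSpace X] (K : Set S2) (hK : IsCompact K)
    (hd : Disjoint K (pt C.F)) : IsCompact (kap C e q ⁻¹' K) := by
  set K' : Set ℂ := (fun w : ℂ => (w : S2)) ⁻¹' K with hK'
  have hK'c : IsClosed K' := hK.isClosed.preimage OnePoint.continuous_coe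
  set C0 : Set ℂ := (closedBall 0 1 ∩ ⋂ i ∈ C.I, (C.holes i)ᶜ) ∩ cl C ⁻¹' K' with hC0
  have hC0c : IsCompact C0 := by
    refine (IsCompact.inter_right ?_ ?_).inter_right (hK'c.preimage (cl_cont h.good.ok))
    · exact isCompact_closedBall _ _
    · exact isClosed_biInter fun i _ => (isOpen_holes C i).isClosed_compl
  have hC0D : C0 ⊆ C.Dom := by
    intro z hz
    rw [mem_Dom]
    refine ⟨by simpa using hz.1.1, ?_, fun i hi => mem_iInter₂.1 hz.1.2 i hi⟩
    rintro x hx rfl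
    have h1 : cl C (x : ℂ) ∈ K' := hz.2
    rw [cl_F h.good.ok hx] at h1
    exact disjoint_left.1 hd h1 (mem_pt.2 hx)
  have h1 : kap C e q ⁻¹' K ⊆ e '' CD ∪ q '' C0 := by
    intro x hx
    rcases h.cases x with ⟨w, hw, rfl⟩ | ⟨z, hz, rfl⟩
    · exact Or.inl ⟨w, by rw [mem_closedBall, dist_zero_right]; exact hw.le, rfl⟩
    · right
      rw [mem_preimage, h.kap_q hz] at hx
      have h2 := mem_Dom.1 hz
      refine ⟨z, ⟨⟨by simpa using h2.1, mem_iInter₂.2 h2.2.2⟩, hx⟩, rfl⟩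
  refine IsCompact.of_isClosed_subset (IsCompact.union ?_ ?_)
    (hK.isClosed.preimage h.kap_cont) h1
  · exact (isCompact_closedBall _ _).image h.oe.continuous
  · exact hC0c.image_of_continuousOn (h.pres.cont.mono hC0D)

theorem MD.kap_surj {z : S2} (hz : z ∉ pt C.F) : ∃ x, kap C e q x = z := by
  rcases ic_surj (z := z) with ⟨w, hw, rfl⟩ | ⟨v, hv, rfl⟩
  · exact ⟨e w, h.kap_e hw⟩
  · obtain ⟨z', h1, h2⟩ := cl_surj h.good.ok hv fun x hx hvx => hz (by rw [hvx]; exact mem_pt.2 hx)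
    exact ⟨q z', by rw [h.kap_q h1, h2]⟩

theorem MD.kap_inj {x y : X} (hxy : kap C e q x = kap C e q y) (hx : kap C e q x ∉ pt C.I) :
    x = y := by
  rcases h.cases x with ⟨w, hw, rfl⟩ | ⟨z, hz, rfl⟩ <;>
    rcases h.cases y with ⟨w', hw', rfl⟩ | ⟨z', hz', rfl⟩
  · rw [h.kap_e hw.le, h.kap_e hw'.le] at hxy
    rw [ic_inj hxy]
  · rw [h.kap_e hw.le, h.kap_q hz'] at hxy
    have h1 := ic_far hw hxy
    have h2 := cl_norm h.good.ok (mem_Dom.1 hz').1
    linarith
  · rw [h.kap_e hw'.le, h.kap_q hz] at hxy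
    have h1 := ic_far hw' hxy.symm
    have h2 := cl_norm h.good.ok (mem_Dom.1 hz).1
    linarith
  · rw [h.kap_q hz] at hxy hx
    rw [h.kap_q hz'] at hxy
    have h1 := OnePoint.coe_injective hxy
    rw [cl_inj h.good.ok h1 fun i hi hzi => hx (by rw [hzi]; exact mem_pt.2 hi)]

/-! ### the inverse -/

open Classical in
omit h in
/-- the inverse of the collapse -/
noncomputable def klam (C : Conf) (e q : ℂ → X) (z : S2) : X :=
  if h : ∃ x, kap C e q x = z then h.choose else e 0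

theorem MD.kap_klam {z : S2} (hz : z ∉ pt C.F) : kap C e q (klam C e q z) = z := by
  have h1 := h.kap_surj hz
  rw [klam, dif_pos h1]
  exact h1.choose_spec

theorem MD.klam_kap {x : X} (hx : kap C e q x ∉ pt C.I) : klam C e q (kap C e q x) = x := by
  have h1 := h.kap_klam (h.kap_E x)
  exact h.kap_inj h1 (by rw [h1]; exact hx)

theorem MD.klam_cont [T2Space X] [LocallyCompactSpace X] {z : S2} (hz : z ∉ pt C.F)
    (hz' : z ∉ pt C.I) : ContinuousAt (klam C e q) z := by
  have hcl : IsClosed (pt (C.F ∪ C.I)) := (isCompact_pt h.good.ok.compact).isClosed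
  have hzn : z ∈ (pt (C.F ∪ C.I))ᶜ := by
    rw [pt_union]
    rintro (h1 | h1)
    · exact hz h1
    · exact hz' h1
  obtain ⟨K, hK, hzK, hKs⟩ := exists_compact_subset hcl.isOpen_compl hzn
  have hKF : ∀ y ∈ K, y ∉ pt C.F := fun y hy hy' => hKs hy (by rw [pt_union]; exact Or.inl hy')
  have hKI : ∀ y ∈ K, y ∉ pt C.I := fun y hy hy' => hKs hy (by rw [pt_union]; exact Or.inr hy')
  have hpc := h.kap_proper K hK (Set.disjoint_left.2 hKF)
  suffices hc : ContinuousOn (klam C e q) K from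
    hc.continuousAt (mem_interior_iff_mem_nhds.1 hzK)
  rw [continuousOn_iff_isClosed]
  intro A hA
  refine ⟨kap C e q '' (kap C e q ⁻¹' K ∩ A), ((hpc.inter_right hA).image h.kap_cont).isClosed, ?_⟩
  ext y
  constructor
  · rintro ⟨hy1, hy2⟩
    have h2 := h.kap_klam (hKF y hy2)
    exact ⟨⟨klam C e q y, ⟨by rw [mem_preimage, h2]; exact hy2, hy1⟩, h2⟩, hy2⟩
  · rintro ⟨⟨x, ⟨hx1, hx2⟩, rfl⟩, hy2⟩
    refine ⟨?_, hy2⟩
    rw [mem_preimage, h.klam_kap (hKI _ hy2)]
    exact hx2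

end

end Pool.Agent.SRF.V
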