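import Pool.Agent.SRF.V.Ends

/-!
# The invariants of `X` are determined by `X × S¹` (SRF, Part V)
-/

set_option linter.unusedTactic false

namespace Pool.Agent.SRF.V

open Topology Filter Set

section
variable {X : Type*} [TopologicalSpace X] {E T P : Set ℝ} {r : ℝ → ℝ} {κ : X → S2}
  {lam : S2 → X}

theorem NF.notMem_E (h : NF X E T P r κ lam) {p : ℝ} (hp : p ∈ T ∪ P) : p ∉ E := fun hE => by
  have h1 := h.away p hp p hE
  have h2 := h.pos p hp
  rw [sub_self, abs_zero] at h1; linarith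

/-- an end which is not an accumulation point of the blocks in `J` has a neighbourhood disjoint
from these blocks -/
theorem NF.acc_nbhd (h : NF X E T P r κ lam) {J : Set ℝ} (hJ : J ⊆ T ∪ P) {f : ℝ} (hf : f ∈ E)
    (hacc : ¬ AccPt f (𝓟 J)) : ∃ N ∈ 𝓝 (rr f), ∀ p ∈ J, Disjoint (cd p (r p)) N := by
  rw [accPt_iff_nhds] at hacc
  push Not at hacc
  obtain ⟨U, hU, h1⟩ := hacc
  obtain ⟨δ, hδ, hδU⟩ := Metric.mem_nhds_iff.1 hU
  have h2 : ∀ p ∈ J, δ ≤ |p - f| := by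
    intro p hp
    by_contra hcon
    have h3 := h1 p ⟨hδU (by rw [Metric.mem_ball, Real.dist_eq]; exact not_le.1 hcon), hp⟩
    exact h.notMem_E (hJ hp) (h3 ▸ hf)
  have hR : ∃ δ1 > 0, ∀ p ∈ J, f < p → f + δ1 ≤ p - r p := by
    by_cases hex : ∃ p0 ∈ J, f < p0 ∧ p0 - r p0 < f + δ / 2
    · obtain ⟨p0, hp0, hfp, hlt⟩ := hex
      have a1 := h.away p0 (hJ hp0) f hf
      rw [abs_of_pos (by linarith)] at a1
      refine ⟨p0 - r p0 - f, by linarith, fun p hp hfp' => ?_⟩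
      by_cases hpp : p = p0
      · subst hpp; linarith
      · by_contra hcon
        push Not at hcon
        have a2 := h.apart p (hJ hp) p0 (hJ hp0) hpp
        have a3 := h2 p hp
        have a4 := h2 p0 hp0
        rw [abs_of_pos (by linarith)] at a3 a4
        have r1 := h.pos p (hJ hp)
        have r2 := h.pos p0 (hJ hp0)
        rcases abs_cases (p - p0) with ⟨h3, h4⟩ | ⟨h3, h4⟩
        · rw [h3] at a2; linarith
        · rw [h3] at a2; linarith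
    · push Not at hex
      exact ⟨δ / 2, by linarith, fun p hp hfp => hex p hp hfp⟩
  have hL : ∃ δ2 > 0, ∀ p ∈ J, p < f → p + r p ≤ f - δ2 := by
    by_cases hex : ∃ p0 ∈ J, p0 < f ∧ f - δ / 2 < p0 + r p0
    · obtain ⟨p0, hp0, hfp, hlt⟩ := hex
      have a1 := h.away p0 (hJ hp0) f hf
      rw [abs_of_neg (by linarith)] at a1
      refine ⟨f - p0 - r p0, by linarith, fun p hp hfp' => ?_⟩
      by_cases hpp : p = p0
      · subst hpp; linarith
      · by_contra hcon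
        push Not at hcon
        have a2 := h.apart p (hJ hp) p0 (hJ hp0) hpp
        have a3 := h2 p hp
        have a4 := h2 p0 hp0
        rw [abs_of_neg (by linarith)] at a3 a4
        have r1 := h.pos p (hJ hp)
        have r2 := h.pos p0 (hJ hp0)
        rcases abs_cases (p - p0) with ⟨h3, h4⟩ | ⟨h3, h4⟩
        · rw [h3] at a2; linarith
        · rw [h3] at a2; linarith
    · push Not at hex
      exact ⟨δ / 2, by linarith, fun p hp hfp => by have := hex p hp hfp; linarith⟩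
  obtain ⟨δ1, hδ1, h3⟩ := hR
  obtain ⟨δ2, hδ2, h4⟩ := hL
  refine ⟨dd f (min δ1 δ2), dd_nhds (lt_min hδ1 hδ2), fun p hp => ?_⟩
  rw [Set.disjoint_left]
  rintro _ ⟨w, hw, rfl⟩ hw2
  rw [Metric.mem_closedBall, dist_eq_norm] at hw
  rw [mem_dd] at hw2
  have r1 : |w.re - p| ≤ r p := by
    have := Complex.abs_re_le_norm (w - p)
    rw [Complex.sub_re, Complex.ofReal_re] at this
    linarith
  have r2 : |w.re - f| < min δ1 δ2 := by
    have := Complex.abs_re_le_norm (w - f)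
    rw [Complex.sub_re, Complex.ofReal_re] at this
    linarith
  have m1 := min_le_left δ1 δ2
  have m2 := min_le_right δ1 δ2
  rw [abs_le] at r1
  rw [abs_lt] at r2
  rcases lt_trichotomy p f with h5 | h5 | h5
  · have := h4 p hp h5; linarith
  · exact h.notMem_E (hJ hp) (h5 ▸ hf)
  · have := h3 p hp h5; linarith

theorem NF.acc_dd (h : NF X E T P r κ lam) {J : Set ℝ} (hJ : J ⊆ T ∪ P) {f : ℝ} (hf : f ∈ E)
    (hacc : AccPt f (𝓟 J)) {N : Set S2} (hN : N ∈ 𝓝 (rr f)) : ∃ p ∈ J, dd p (r p) ⊆ N := by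
  obtain ⟨ε, hε, hεN⟩ := dd_basis hN
  rw [accPt_iff_nhds] at hacc
  obtain ⟨p, ⟨hp1, hp2⟩, -⟩ := hacc (Metric.ball f (ε / 2)) (Metric.ball_mem_nhds _ (by linarith))
  refine ⟨p, hp2, fun z hz => hεN ?_⟩
  have h1 := Nb_sub h hf (ε / 2) (κ := κ) (lam := lam) (T := T) (P := P) (r := r)
  rw [Metric.mem_ball, Real.dist_eq] at hp1
  obtain ⟨w, hw, rfl⟩ := hz
  rw [Metric.mem_ball, dist_eq_norm] at hw
  have h2 := h.away p (hJ hp2) f hf
  refine mem_dd.2 ?_
  have h3 : ‖w - f‖ ≤ ‖w - p‖ + |p - f| := by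
    have e : w - f = (w - p) + ((p - f : ℝ) : ℂ) := by push_cast; ring
    rw [e]
    refine (norm_add_le _ _).trans ?_
    rw [Complex.norm_real, Real.norm_eq_abs]
  linarith

theorem NF.finite_iff (h : NF X E T P r κ lam) {J : Set ℝ} (hJ : J ⊆ T ∪ P) :
    J.Finite ↔ ∀ f ∈ E, ¬ AccPt f (𝓟 J) := by
  constructor
  · intro hfin f _ hacc
    rw [accPt_iff_nhds] at hacc
    have h1 : (J \ {f})ᶜ ∈ 𝓝 f :=
      (hfin.subset sdiff_subset).isClosed.isOpen_compl.mem_nhds fun h => h.2 rfl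
    obtain ⟨y, ⟨hy1, hy2⟩, hy3⟩ := hacc _ h1
    exact hy1 ⟨hy2, hy3⟩
  · intro hna
    have h1 : ∀ z : S2, ∃ U ∈ 𝓝 z, {p | p ∈ J ∧ (cd p (r p) ∩ U).Nonempty}.Finite := by
      intro z
      by_cases hz : z ∈ pt E
      · obtain ⟨f, hf, rfl⟩ := hz
        obtain ⟨N, hN, h2⟩ := h.acc_nbhd hJ hf (hna f hf)
        refine ⟨N, hN, ?_⟩
        have : {p | p ∈ J ∧ (cd p (r p) ∩ N).Nonempty} = ∅ := by
          rw [Set.eq_empty_iff_forall_notMem]
          rintro p ⟨hp, z, hz1, hz2⟩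
          exact Set.disjoint_left.1 (h2 p hp) hz1 hz2
        rw [this]; exact finite_empty
      · obtain ⟨U, hU, h2⟩ := h.lf z hz
        exact ⟨U, hU, h2.subset fun p hp => ⟨hJ hp.1, hp.2⟩⟩
    choose U hU hf using h1
    obtain ⟨t, -, htU⟩ := isCompact_univ.elim_nhds_subcover U fun z _ => hU z
    refine (t.finite_toSet.biUnion fun z _ => hf z).subset fun p hp => ?_
    obtain ⟨z, hz, h2⟩ := mem_iUnion₂.1 (htU (mem_univ (rr p)))
    refine mem_iUnion₂.2 ⟨z, hz, hp, rr p, ?_, h2⟩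
    show ((p : ℂ) : S2) ∈ cd p (r p)
    rw [mem_cd, sub_self, norm_zero]; exact (h.pos p (hJ hp)).le

theorem NF.not_compact (h : NF X E T P r κ lam) {f : ℝ} (hf : f ∈ E) : ¬ CompactSpace X := by
  intro hc
  obtain ⟨ε, hε, h1⟩ := h.compact_el hf (isCompact_univ (X := X × Cir))
  have h2 := h.el_neBot f
  have h3 : {m : X × Cir | κ m.1 ∈ dd f ε} ∈ el κ f := ⟨dd f ε, dd_nhds hε, subset_rfl⟩
  obtain ⟨m, hm⟩ := h2.nonempty_of_mem h3
  exact h1 m hm (mem_univ _)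

theorem NF.compact (h : NF X E T P r κ lam) (hE : E = ∅) : CompactSpace X := by
  refine ⟨?_⟩
  have := h.κp univ isCompact_univ (by subst hE; simp [pt])
  rwa [preimage_univ] at this

end

section
variable {X X' : Type*} [TopologicalSpace X] [TopologicalSpace X'] {E T P E' T' P' : Set ℝ}
  {r r' : ℝ → ℝ} {κ : X → S2} {κ' : X' → S2} {lam : S2 → X} {lam' : S2 → X'}

theorem nbhd_zc {H : X × Cir ≃ₜ X' × Cir} {f f' : ℝ}
    (ht : Tendsto (fun m => κ' (H m).1) (el κ f) (𝓝 (rr f'))) {N' : Set S2}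
    (hN' : N' ∈ 𝓝 (rr f')) : ∃ N ∈ 𝓝 (rr f), ∀ a ∈ ZC (κ ⁻¹' N),
      res (hp H.symm (pul a)) ∈ ZC (κ' ⁻¹' N') ∧
      hp H.symm (pul a) ∈ ZC (univ : Set (X' × Cir)) := by
  obtain ⟨N, hN, h1⟩ := ht hN'
  refine ⟨N, hN, fun a ha => ?_⟩
  have h2 : hp H.symm (pul a) ∈ ZC (H.symm ⁻¹' ((κ ⁻¹' N) ×ˢ univ)) := hp_zc H.symm (ZC.pul ha)
  refine ⟨ZC.res (ZC.mono h2 ?_), ZC.mono h2 (subset_univ _)⟩
  intro m hm
  refine ⟨?_, mem_univ _⟩
  have h3 : κ' (H (H.symm m)).1 ∈ N' := h1 hm.1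
  rwa [H.apply_symm_apply] at h3

theorem flat_transfer [PreconnectedSpace X'] (hX' : ¬ CompactSpace X') {H : X × Cir ≃ₜ X' × Cir}
    {f f' : ℝ} (ht : Tendsto (fun m => κ' (H m).1) (el κ f) (𝓝 (rr f'))) {N' : Set S2}
    (hN' : N' ∈ 𝓝 (rr f')) (hfl : FlatOn (κ' ⁻¹' N')) : ∃ N ∈ 𝓝 (rr f), FlatOn (κ ⁻¹' N) := by
  obtain ⟨N, hN, h1⟩ := nbhd_zc ht hN'
  refine ⟨N, hN, fun a ha b hb => ?_⟩
  obtain ⟨a1, a2⟩ := h1 a ha
  obtain ⟨b1, b2⟩ := h1 b hb
  exact perp_pul_iff.1 ((hp_perp_iff H.symm).1 ((perp_prod hX' a2 b2).2 (hfl _ a1 _ b1)))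

theorem alt_transfer [PreconnectedSpace X'] (hX' : ¬ CompactSpace X') {H : X × Cir ≃ₜ X' × Cir}
    {f f' : ℝ} (ht : Tendsto (fun m => κ' (H m).1) (el κ f) (𝓝 (rr f'))) {N' : Set S2}
    (hN' : N' ∈ 𝓝 (rr f')) (hfl : AltOn (κ' ⁻¹' N')) : ∃ N ∈ 𝓝 (rr f), AltOn (κ ⁻¹' N) := by
  obtain ⟨N, hN, h1⟩ := nbhd_zc ht hN'
  refine ⟨N, hN, fun a ha => ?_⟩
  obtain ⟨a1, a2⟩ := h1 a ha
  exact perp_pul_iff.1 ((hp_perp_iff H.symm).1 ((perp_prod hX' a2 a2).2 (hfl _ a1)))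

theorem acc_transfer [PreconnectedSpace X'] (h : NF X E T P r κ lam)
    (h' : NF X' E' T' P' r' κ' lam') {H : X × Cir ≃ₜ X' × Cir} {f f' : ℝ} (hf : f ∈ E)
    (hf' : f' ∈ E') (ht : Tendsto (fun m => κ' (H m).1) (el κ f) (𝓝 (rr f'))) :
    (AccPt f (𝓟 (T ∪ P)) → AccPt f' (𝓟 (T' ∪ P'))) ∧ (AccPt f (𝓟 P) → AccPt f' (𝓟 P')) := by
  obtain ⟨ρ, α, β, c, hb⟩ := h.exists_nb
  obtain ⟨ρ', α', β', c', hb'⟩ := h'.exists_nb
  have hc := h'.not_compact hf'
  constructor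
  · intro hacc
    by_contra hna
    obtain ⟨N', hN', h1⟩ := h'.acc_nbhd subset_rfl hf' hna
    obtain ⟨N, hN, h2⟩ := flat_transfer hc ht hN' (h'.flat h1)
    obtain ⟨p, hp, h3⟩ := h.acc_dd subset_rfl hf hacc hN
    exact hb.not_flat hp h3 h2
  · intro hacc
    by_contra hna
    obtain ⟨N', hN', h1⟩ := h'.acc_nbhd subset_union_right hf' hna
    obtain ⟨N, hN, h2⟩ := alt_transfer hc ht hN' (hb'.alt h1)
    obtain ⟨p, hp, h3⟩ := h.acc_dd subset_union_right hf hacc hN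
    exact hb.not_alt hp h3 h2

theorem altOn_prod_any [ConnectedSpace X] :
    AltOn (univ : Set (X × Cir)) ↔ AltOn (univ : Set X) := by
  by_cases hX : CompactSpace X
  · exact altOn_prod_compact
  · exact altOn_prod hX

theorem NB.alt_iff {ρ : ℝ → ℝ} {α β c : ℝ → X → X → F} (h : NB X E T P r κ lam ρ α β c) :
    AltOn (univ : Set X) ↔ P = ∅ := by
  constructor
  · intro ha
    by_contra hne
    obtain ⟨p, hp⟩ := Set.nonempty_iff_ne_empty.2 hne
    exact h.not_alt hp (subset_univ _) ha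
  · intro he
    exact h.alt (N := univ) fun p hp => by rw [he] at hp; exact absurd hp (notMem_empty _)

theorem card_cls (TF PF : Finset ℝ) :
    Nat.card (({p // p ∈ TF} → F × F) × ({p // p ∈ PF} → F)) = 2 ^ (2 * TF.card + PF.card) := by
  classical
  rw [Nat.card_prod, Nat.card_fun, Nat.card_fun, Nat.card_prod, Nat.card_zmod]
  simp only [Nat.card_eq_fintype_card, Fintype.card_coe]
  rw [pow_add, pow_mul]
  norm_num

/-- **Part V** for surfaces in normal form -/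
theorem nf_main [ConnectedSpace X] [ConnectedSpace X'] (h : NF X E T P r κ lam)
    (h' : NF X' E' T' P' r' κ' lam') (H : X × Cir ≃ₜ X' × Cir) :
    ∃ ψ : E ≃ₜ E',
      (∀ f : E, AccPt (f : ℝ) (𝓟 (T ∪ P)) ↔ AccPt (ψ f : ℝ) (𝓟 (T' ∪ P'))) ∧
      (∀ f : E, AccPt (f : ℝ) (𝓟 P) ↔ AccPt (ψ f : ℝ) (𝓟 P')) ∧
      ((T ∪ P).Finite → (T' ∪ P').Finite ∧
        2 * T.ncard + P.ncard = 2 * T'.ncard + P'.ncard) ∧
      (P = ∅ ↔ P' = ∅) ∧
      (P.Finite → P'.Finite ∧ P.ncard % 2 = P'.ncard % 2) := by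
  obtain ⟨ψ, hψ, hψ'⟩ := end_homeo h h' H
  obtain ⟨ρ, α, β, c, hb⟩ := h.exists_nb
  obtain ⟨ρ', α', β', c', hb'⟩ := h'.exists_nb
  have hacc : ∀ f : E, (AccPt (f : ℝ) (𝓟 (T ∪ P)) ↔ AccPt (ψ f : ℝ) (𝓟 (T' ∪ P'))) ∧
      (AccPt (f : ℝ) (𝓟 P) ↔ AccPt (ψ f : ℝ) (𝓟 P')) := by
    intro f
    have h1 := acc_transfer h h' f.2 (ψ f).2 (hψ f)
    have h2 := hψ' (ψ f)
    rw [ψ.symm_apply_apply] at h2
    have h3 := acc_transfer h' h (ψ f).2 f.2 h2
    exact ⟨⟨h1.1, h3.1⟩, ⟨h1.2, h3.2⟩⟩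
  have hfin1 : (T ∪ P).Finite ↔ (T' ∪ P').Finite := by
    rw [h.finite_iff subset_rfl, h'.finite_iff subset_rfl]
    constructor
    · intro h1 f hf hc
      have := (hacc (ψ.symm ⟨f, hf⟩)).1
      rw [ψ.apply_symm_apply] at this
      exact h1 _ (ψ.symm ⟨f, hf⟩).2 (this.2 hc)
    · intro h1 f hf hc
      exact h1 _ (ψ ⟨f, hf⟩).2 ((hacc ⟨f, hf⟩).1.1 hc)
  have hfin2 : P.Finite ↔ P'.Finite := by
    rw [h.finite_iff subset_union_right, h'.finite_iff subset_union_right]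
    constructor
    · intro h1 f hf hc
      have := (hacc (ψ.symm ⟨f, hf⟩)).2
      rw [ψ.apply_symm_apply] at this
      exact h1 _ (ψ.symm ⟨f, hf⟩).2 (this.2 hc)
    · intro h1 f hf hc
      exact h1 _ (ψ ⟨f, hf⟩).2 ((hacc ⟨f, hf⟩).2.1 hc)
  have hcomp : E = ∅ ↔ E' = ∅ := by
    constructor
    · intro he
      by_contra hne
      obtain ⟨f, hf⟩ := Set.nonempty_iff_ne_empty.2 hne
      exact Set.eq_empty_iff_forall_notMem.1 he _ (ψ.symm ⟨f, hf⟩).2
    · intro he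
      by_contra hne
      obtain ⟨f, hf⟩ := Set.nonempty_iff_ne_empty.2 hne
      exact Set.eq_empty_iff_forall_notMem.1 he _ (ψ ⟨f, hf⟩).2
  have hrank : (T ∪ P).Finite → 2 * T.ncard + P.ncard = 2 * T'.ncard + P'.ncard := by
    intro hf
    have hf' := hfin1.1 hf
    have hT := hf.subset subset_union_left
    have hP := hf.subset subset_union_right
    have hT' := hf'.subset subset_union_left
    have hP' := hf'.subset subset_union_right
    have c1 := hb.cls (TF := hT.toFinset) (PF := hP.toFinset) (by simp) (by simp)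
    have c2 := hb'.cls (TF := hT'.toFinset) (PF := hP'.toFinset) (by simp) (by simp)
    have e1 : 2 ^ (2 * T.ncard + P.ncard) = 2 ^ (2 * T'.ncard + P'.ncard) := by
      rw [Set.ncard_eq_toFinset_card T hT, Set.ncard_eq_toFinset_card P hP,
        Set.ncard_eq_toFinset_card T' hT', Set.ncard_eq_toFinset_card P' hP',
        ← card_cls, ← card_cls]
      by_cases hE : E = ∅
      · have := h.compact hE
        have := h'.compact (hcomp.1 hE)
        obtain ⟨e⟩ := (Cls.prod_compact c1).equiv (Cls.homeo H (Cls.prod_compact c2))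
        have e2 := Nat.card_congr e
        rw [Nat.card_prod _ F, Nat.card_prod _ F, Nat.card_zmod] at e2
        omega
      · obtain ⟨f, hf⟩ := Set.nonempty_iff_ne_empty.2 hE
        have n1 := h.not_compact hf
        have n2 := h'.not_compact (ψ ⟨f, hf⟩).2
        obtain ⟨e⟩ := (Cls.prod n1 c1).equiv (Cls.homeo H (Cls.prod n2 c2))
        exact Nat.card_congr e
    exact Nat.pow_right_injective le_rfl e1
  refine ⟨ψ, fun f => (hacc f).1, fun f => (hacc f).2, fun hf => ⟨hfin1.1 hf, hrank hf⟩, ?_,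
    fun hf => ⟨hfin2.1 hf, ?_⟩⟩
  · rw [← hb.alt_iff, ← hb'.alt_iff, ← altOn_prod_any (X := X), ← altOn_prod_any (X := X')]
    exact (altOn_homeo H).symm
  · by_cases hE : E = ∅
    · have hTP : (T ∪ P).Finite := by
        rw [h.finite_iff subset_rfl]
        intro f hf; rw [hE] at hf; exact absurd hf (notMem_empty _)
      have := hrank hTP
      omega
    · obtain ⟨f, hfE⟩ := Set.nonempty_iff_ne_empty.2 hE
      have n1 := h.not_compact hfE
      have n2 := h'.not_compact (ψ ⟨f, hfE⟩).2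
      have hf' := hfin2.1 hf
      have p1 := hb.par (PF := hf.toFinset) (by simp)
      have p2 := hb'.par (PF := hf'.toFinset) (by simp)
      rw [← par_prod n1, par_homeo H, par_prod n2, p2, ← Set.ncard_eq_toFinset_card P hf,
        ← Set.ncard_eq_toFinset_card P' hf'] at p1
      rw [ZMod.natCast_eq_zero_iff, ZMod.natCast_eq_zero_iff] at p1
      omega

end

end Pool.Agent.SRF.V
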