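import Pool.Agent.SRF.V.PQ

/-!
# The handle with its reflection gluing is a punctured torus (SRF, Part V)
-/

set_option linter.unusedTactic false

namespace Pool.Agent.SRF.V

open Topology Filter Set

/-- the handle domain -/
def OmT : Set ℂ := {u | ‖u‖ < 1 ∧ 1 / 8 ≤ ‖u - 1 / 2‖ ∧ 1 / 8 ≤ ‖u + 1 / 2‖}

/-- the expansion of the unit disc onto the plane -/
noncomputable def gx (u : ℂ) : ℂ := ((1 / (1 - max 0 (4 * ‖u‖ - 3)) : ℝ) : ℂ) * u

/-- constants: `R = 4 + √15`, `c = √15 / 8` -/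
noncomputable def RR : ℝ := 4 + Real.sqrt 15
noncomputable def cc : ℝ := Real.sqrt 15 / 8

theorem s15 : Real.sqrt 15 * Real.sqrt 15 = 15 := Real.mul_self_sqrt (by norm_num)

theorem s15_pos : 0 < Real.sqrt 15 := Real.sqrt_pos.2 (by norm_num)

theorem cc_pos : 0 < cc := by unfold cc; have := s15_pos; positivity

theorem cc_lt : cc < 1 / 2 := by
  unfold cc
  have h := s15
  have h0 := s15_pos
  have : Real.sqrt 15 < 4 := by nlinarith
  linarith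

theorem cc_sq : cc * cc = 15 / 64 := by unfold cc; have := s15; nlinarith

theorem RR_gt : 1 < RR := by unfold RR; have := s15_pos; linarith

theorem RR_sq : RR * RR = 8 * RR - 1 := by unfold RR; have := s15; nlinarith

/-- the Moebius transformation -/
noncomputable def mo (z : ℂ) : ℂ := (z + cc) / (z - cc)

theorem normSq_sub_real (z : ℂ) (a : ℝ) : ‖z - a‖ ^ 2 = (z.re - a) ^ 2 + z.im ^ 2 := by
  rw [← Complex.normSq_eq_norm_sq, Complex.normSq_apply]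
  simp; ring

theorem normSq_add_real (z : ℂ) (a : ℝ) : ‖z + a‖ ^ 2 = (z.re + a) ^ 2 + z.im ^ 2 := by
  rw [← Complex.normSq_eq_norm_sq, Complex.normSq_apply]
  simp; ring

/-- the region outside the two open discs -/
def OmZ : Set ℂ := {z | 1 / 8 ≤ ‖z - 1 / 2‖ ∧ 1 / 8 ≤ ‖z + 1 / 2‖}

theorem half_cast : ((1 / 2 : ℝ) : ℂ) = 1 / 2 := by push_cast; norm_num

/-- `‖z + c‖² - R² ‖z - c‖²` is a multiple of `‖z - 1/2‖² - 1/64` -/
theorem mo_id1 (z : ℂ) : RR ^ 2 * ‖z - cc‖ ^ 2 - ‖z + cc‖ ^ 2 =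
    (RR ^ 2 - 1) * (‖z - 1 / 2‖ ^ 2 - 1 / 64) := by
  rw [← half_cast, normSq_sub_real, normSq_sub_real, normSq_add_real]
  have h1 := RR_sq
  have h2 := cc_sq
  have h3 : RR * cc * 8 = 15 + 4 * Real.sqrt 15 := by
    unfold RR cc; have := s15; nlinarith
  have h4 : cc * 8 = Real.sqrt 15 := by unfold cc; ring
  have h5 : RR = 4 + Real.sqrt 15 := rfl
  have h6 := s15
  have e1 : RR ^ 2 = 31 + 8 * Real.sqrt 15 := by rw [h5]; nlinarith
  rw [e1]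
  have e2 : cc = Real.sqrt 15 / 8 := rfl
  rw [e2]
  generalize Real.sqrt 15 = s at *
  ring_nf
  have h7 : s ^ 2 = 15 := by rw [pow_two]; exact h6
  have h8 : s ^ 3 = 15 * s := by rw [pow_succ, h7]
  rw [h7, h8]
  ring

theorem mo_id2 (z : ℂ) : RR ^ 2 * ‖z + cc‖ ^ 2 - ‖z - cc‖ ^ 2 =
    (RR ^ 2 - 1) * (‖z + 1 / 2‖ ^ 2 - 1 / 64) := by
  have h := mo_id1 (-z)
  have e1 : ‖-z - cc‖ = ‖z + cc‖ := by rw [← norm_neg]; congr 1; ring
  have e2 : ‖-z + cc‖ = ‖z - cc‖ := by rw [← norm_neg]; congr 1; ring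
  have e3 : ‖-z - 1 / 2‖ = ‖z + 1 / 2‖ := by rw [← norm_neg]; congr 1; ring
  rw [e1, e2, e3] at h
  exact h

theorem RR2 : 0 < RR ^ 2 - 1 := by have := RR_gt; nlinarith

theorem OmZ_ne1 {z : ℂ} (hz : z ∈ OmZ) : 0 < ‖z - cc‖ := by
  have h := mo_id1 z
  have h1 : 0 ≤ ‖z - 1 / 2‖ ^ 2 - 1 / 64 := by have := hz.1; nlinarith
  have h2 := mul_nonneg RR2.le h1
  rcases (norm_nonneg (z - cc)).lt_or_eq with h3 | h3
  · exact h3
  · exfalso
    rw [← h3] at h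
    have h4 : ‖z + cc‖ ^ 2 ≤ 0 := by nlinarith
    have h5 : z - cc = 0 := norm_eq_zero.1 h3.symm
    have h6 : z + cc = 0 := by
      have : ‖z + cc‖ = 0 := by nlinarith [norm_nonneg (z + cc)]
      exact norm_eq_zero.1 this
    have h7 : (cc : ℂ) = 0 := by linear_combination (1 / 2) * h6 - (1 / 2) * h5
    rw [Complex.ofReal_eq_zero] at h7
    exact cc_pos.ne' h7

theorem OmZ_ne2 {z : ℂ} (hz : z ∈ OmZ) : 0 < ‖z + cc‖ := by
  have h1 : -z ∈ OmZ := by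
    refine ⟨?_, ?_⟩
    · have e3 : ‖-z - 1 / 2‖ = ‖z + 1 / 2‖ := by rw [← norm_neg]; congr 1; ring
      rw [e3]; exact hz.2
    · have e3 : ‖-z + 1 / 2‖ = ‖z - 1 / 2‖ := by rw [← norm_neg]; congr 1; ring
      rw [e3]; exact hz.1
  have := OmZ_ne1 h1
  have e1 : ‖-z - cc‖ = ‖z + cc‖ := by rw [← norm_neg]; congr 1; ring
  rwa [e1] at this

theorem mo_norm {z : ℂ} : ‖mo z‖ = ‖z + cc‖ / ‖z - cc‖ := by rw [mo, norm_div]

theorem mo_pos {z : ℂ} (hz : z ∈ OmZ) : 0 < ‖mo z‖ := by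
  rw [mo_norm]; exact div_pos (OmZ_ne2 hz) (OmZ_ne1 hz)

theorem mo_le {z : ℂ} (hz : z ∈ OmZ) : ‖mo z‖ ≤ RR := by
  rw [mo_norm, div_le_iff₀ (OmZ_ne1 hz)]
  have h := mo_id1 z
  have h1 : 0 ≤ ‖z - 1 / 2‖ ^ 2 - 1 / 64 := by have := hz.1; nlinarith
  have h2 := mul_nonneg RR2.le h1
  have h3 : ‖z + cc‖ ^ 2 ≤ (RR * ‖z - cc‖) ^ 2 := by nlinarith
  exact le_of_sq_le_sq h3 (by have := RR_gt; have := norm_nonneg (z - cc); positivity)
  where
  le_of_sq_le_sq {a b : ℝ} (h : a ^ 2 ≤ b ^ 2) (hb : 0 ≤ b) : a ≤ b := by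
    exact le_of_not_gt fun h1 => by nlinarith

theorem mo_ge {z : ℂ} (hz : z ∈ OmZ) : RR⁻¹ ≤ ‖mo z‖ := by
  rw [mo_norm, le_div_iff₀ (OmZ_ne1 hz), inv_mul_le_iff₀ (by have := RR_gt; linarith)]
  have h := mo_id2 z
  have h1 : 0 ≤ ‖z + 1 / 2‖ ^ 2 - 1 / 64 := by have := hz.2; nlinarith
  have h2 := mul_nonneg RR2.le h1
  have h3 : ‖z - cc‖ ^ 2 ≤ (RR * ‖z + cc‖) ^ 2 := by nlinarith
  exact mo_le.le_of_sq_le_sq h3 (by have := RR_gt; have := norm_nonneg (z + cc); positivity)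

theorem mo_eq_R {z : ℂ} (hz : z ∈ OmZ) : ‖mo z‖ = RR ↔ ‖z - 1 / 2‖ = 1 / 8 := by
  have h := mo_id1 z
  have hp := OmZ_ne1 hz
  have hR := RR_gt
  rw [mo_norm, div_eq_iff hp.ne']
  constructor
  · intro h1
    rw [h1] at h
    have h2 : (RR ^ 2 - 1) * (‖z - 1 / 2‖ ^ 2 - 1 / 64) = 0 := by rw [← h]; ring
    rcases mul_eq_zero.1 h2 with h3 | h3
    · exact absurd h3 RR2.ne'
    · nlinarith [norm_nonneg (z - 1 / 2)]
  · intro h1
    rw [h1] at h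
    have h2 : ‖z + cc‖ ^ 2 = (RR * ‖z - cc‖) ^ 2 := by nlinarith
    exact (pow_left_inj₀ (norm_nonneg _) (by positivity) two_ne_zero).1 h2

theorem mo_eq_Ri {z : ℂ} (hz : z ∈ OmZ) : ‖mo z‖ = RR⁻¹ ↔ ‖z + 1 / 2‖ = 1 / 8 := by
  have h := mo_id2 z
  have hp := OmZ_ne1 hz
  have hR := RR_gt
  rw [mo_norm, div_eq_iff hp.ne']
  constructor
  · intro h1
    have h1' : ‖z - cc‖ = RR * ‖z + cc‖ := by rw [h1]; field_simp
    rw [h1'] at h
    have h2 : (RR ^ 2 - 1) * (‖z + 1 / 2‖ ^ 2 - 1 / 64) = 0 := by rw [← h]; ring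
    rcases mul_eq_zero.1 h2 with h3 | h3
    · exact absurd h3 RR2.ne'
    · nlinarith [norm_nonneg (z + 1 / 2)]
  · intro h1
    rw [h1] at h
    have h2 : ‖z - cc‖ ^ 2 = (RR * ‖z + cc‖) ^ 2 := by nlinarith
    have h3 := (pow_left_inj₀ (norm_nonneg _) (by positivity) two_ne_zero).1 h2
    rw [h3]; field_simp

theorem mo_inj {z z' : ℂ} (hz : z ∈ OmZ) (hz' : z' ∈ OmZ) (h : mo z = mo z') : z = z' := by
  have h1 : z - cc ≠ 0 := norm_pos_iff.1 (OmZ_ne1 hz)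
  have h2 : z' - cc ≠ 0 := norm_pos_iff.1 (OmZ_ne1 hz')
  rw [mo, mo, div_eq_div_iff h1 h2] at h
  have h3 : (cc : ℂ) ≠ 0 := by rw [Ne, Complex.ofReal_eq_zero]; exact cc_pos.ne'
  have h4 : (2 * (cc : ℂ)) * (z - z') = 0 := by linear_combination -h
  rcases mul_eq_zero.1 h4 with h5 | h5
  · exact absurd h5 (mul_ne_zero two_ne_zero h3)
  · exact sub_eq_zero.1 h5

theorem mo_ne_one {z : ℂ} (hz : z ∈ OmZ) : mo z ≠ 1 := by
  have h1 : z - cc ≠ 0 := norm_pos_iff.1 (OmZ_ne1 hz)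
  intro h
  rw [mo, div_eq_one_iff_eq h1] at h
  have h3 : (cc : ℂ) = 0 := by linear_combination (1 / 2) * h
  rw [Complex.ofReal_eq_zero] at h3
  exact cc_pos.ne' h3

/-- the inverse Moebius transformation -/
noncomputable def moi (w : ℂ) : ℂ := cc * (w + 1) / (w - 1)

theorem mo_moi {w : ℂ} (hw : w ≠ 1) (hw0 : w ≠ 0) : mo (moi w) = w := by
  have h1 : w - 1 ≠ 0 := sub_ne_zero.2 hw
  have h3 : (cc : ℂ) ≠ 0 := by rw [Ne, Complex.ofReal_eq_zero]; exact cc_pos.ne'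
  have e1 : moi w + cc = 2 * cc * w / (w - 1) := by rw [moi]; field_simp; ring
  have e2 : moi w - cc = 2 * cc / (w - 1) := by rw [moi]; field_simp; ring
  rw [mo, e1, e2]
  field_simp

theorem moi_mem {w : ℂ} (hw : w ≠ 1) (h1 : RR⁻¹ ≤ ‖w‖) (h2 : ‖w‖ ≤ RR) : moi w ∈ OmZ := by
  have hR := RR_gt
  have hw0 : 0 < ‖w‖ := lt_of_lt_of_le (by positivity) h1
  have hw0' : w ≠ 0 := norm_pos_iff.1 hw0
  have hn := congrArg norm (mo_moi hw hw0')
  have h3 : (cc : ℂ) ≠ 0 := by rw [Ne, Complex.ofReal_eq_zero]; exact cc_pos.ne'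
  have hd : 0 < ‖moi w - cc‖ := by
    have e2 : moi w - cc = 2 * cc / (w - 1) := by
      have : w - 1 ≠ 0 := sub_ne_zero.2 hw
      rw [moi]; field_simp; ring
    rw [e2, norm_pos_iff]
    exact div_ne_zero (mul_ne_zero two_ne_zero h3) (sub_ne_zero.2 hw)
  rw [mo_norm, div_eq_iff hd.ne'] at hn
  constructor
  · have h := mo_id1 (moi w)
    rw [hn] at h
    have h4 : 0 ≤ RR ^ 2 * ‖moi w - cc‖ ^ 2 - (‖w‖ * ‖moi w - cc‖) ^ 2 := by
      have : (‖w‖ * ‖moi w - cc‖) ^ 2 ≤ (RR * ‖moi w - cc‖) ^ 2 := by gcongr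
      nlinarith
    rw [h] at h4
    have h5 : 0 ≤ ‖moi w - 1 / 2‖ ^ 2 - 1 / 64 := by
      by_contra hcon
      push Not at hcon
      have := mul_neg_of_pos_of_neg RR2 hcon
      linarith
    by_contra hcon
    push Not at hcon
    nlinarith [norm_nonneg (moi w - 1 / 2)]
  · have h := mo_id2 (moi w)
    rw [hn] at h
    have h6 : 1 ≤ RR * ‖w‖ := by
      rw [inv_le_iff_one_le_mul₀ (by linarith)] at h1
      linarith
    have h4 : 0 ≤ RR ^ 2 * (‖w‖ * ‖moi w - cc‖) ^ 2 - ‖moi w - cc‖ ^ 2 := by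
      have : (1 * ‖moi w - cc‖) ^ 2 ≤ (RR * ‖w‖ * ‖moi w - cc‖) ^ 2 := by gcongr
      nlinarith
    rw [h] at h4
    have h5 : 0 ≤ ‖moi w + 1 / 2‖ ^ 2 - 1 / 64 := by
      by_contra hcon
      push Not at hcon
      have := mul_neg_of_pos_of_neg RR2 hcon
      linarith
    by_contra hcon
    push Not at hcon
    nlinarith [norm_nonneg (moi w + 1 / 2)]

end Pool.Agent.SRF.V
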