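import Pool.Agent.SRF.V.Ext
import Pool.Agent.SRF.V.Gen

/-!
# Cocycles on the sphere, the sum of the monodromies (SRF, Part V)
-/

set_option linter.unusedTactic false

namespace Pool.Agent.SRF.V

open Topology Filter Set OnePoint

/-- the Riemann sphere -/
abbrev S2 := OnePoint ℂ

open Classical in
/-- `z ↦ 1/z` -/
noncomputable def iv : S2 → S2 := fun z => OnePoint.elim z ((0:ℂ) : S2)
  (fun w : ℂ => if w = 0 then (∞ : S2) else ((w⁻¹ : ℂ) : S2))

theorem iv_infty : iv ∞ = ((0:ℂ) : S2) := rfl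

theorem iv_zero : iv ((0:ℂ) : S2) = ∞ := by simp [iv]

theorem iv_coe {w : ℂ} (hw : w ≠ 0) : iv (w : S2) = ((w⁻¹ : ℂ) : S2) := by simp [iv, hw]

theorem iv_iv (z : S2) : iv (iv z) = z := by
  induction z using OnePoint.rec with
  | infty => rw [iv_infty, iv_zero]
  | coe w =>
    by_cases hw : w = 0
    · subst hw; rw [iv_zero, iv_infty]
    · rw [iv_coe hw, iv_coe (inv_ne_zero hw), inv_inv]

theorem coclosed_eq : coclosedCompact ℂ = Bornology.cobounded ℂ := by
  rw [coclosedCompact_eq_cocompact, Metric.cobounded_eq_cocompact]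

theorem continuous_iv : Continuous iv := by
  rw [continuous_iff_continuousAt]
  intro z
  induction z using OnePoint.rec with
  | infty =>
    rw [OnePoint.continuousAt_infty', iv_infty, coclosed_eq]
    have h1 : Tendsto (fun w : ℂ => ((w⁻¹ : ℂ) : S2)) (Bornology.cobounded ℂ) (𝓝 ((0:ℂ) : S2)) :=
      (OnePoint.continuous_coe.tendsto _).comp tendsto_inv₀_cobounded
    refine h1.congr' ?_
    have : ∀ᶠ w : ℂ in Bornology.cobounded ℂ, w ≠ 0 := by
      have := (Bornology.isBounded_singleton : Bornology.IsBounded ({0} : Set ℂ))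
      exact Bornology.isBounded_def.1 this
    filter_upwards [this] with w hw
    simp [iv_coe hw]
  | coe w =>
    rw [OnePoint.continuousAt_coe]
    by_cases hw : w = 0
    · subst hw
      rw [ContinuousAt, Function.comp_apply, iv_zero]
      rw [← nhdsNE_sup_pure, tendsto_sup]
      constructor
      · have h1 : Tendsto (fun w : ℂ => ((w⁻¹ : ℂ) : S2)) (𝓝[≠] (0:ℂ)) (𝓝 ∞) := by
          have h2 : Tendsto ((↑) : ℂ → S2) (Bornology.cobounded ℂ) (𝓝 ∞) := by
            rw [← coclosed_eq]; exact OnePoint.tendsto_coe_infty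
          exact h2.comp tendsto_inv₀_nhdsNE_zero
        refine h1.congr' ?_
        filter_upwards [self_mem_nhdsWithin] with w hw
        have hw : w ≠ 0 := hw
        simp [iv_coe hw]
      · rw [tendsto_pure_left]
        intro s hs
        simp only [Function.comp_apply, iv_zero]
        exact mem_of_mem_nhds hs
    · have h1 : ContinuousAt (fun w : ℂ => ((w⁻¹ : ℂ) : S2)) w :=
        OnePoint.continuous_coe.continuousAt.comp (continuousAt_inv₀ hw)
      refine h1.congr ?_
      filter_upwards [isOpen_ne.mem_nhds hw] with v hv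
      simp [iv_coe hv]

/-- inversion as a homeomorphism -/
noncomputable def ivHomeo : S2 ≃ₜ S2 where
  toFun := iv
  invFun := iv
  left_inv := iv_iv
  right_inv := iv_iv
  continuous_toFun := continuous_iv
  continuous_invFun := continuous_iv

/-- the chart at infinity -/
noncomputable def io (w : ℂ) : S2 := iv (w : S2)

theorem io_open : IsOpenEmbedding io :=
  ivHomeo.isOpenEmbedding.comp OnePoint.isOpenEmbedding_coe

theorem io_zero : io 0 = ∞ := iv_zero

theorem io_of_ne {w : ℂ} (hw : w ≠ 0) : io w = ((w⁻¹ : ℂ) : S2) := iv_coe hw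

/-- restriction of a cochain of the sphere to the plane -/
def pl (φ : S2 → S2 → F) : ℂ → ℂ → F := fun z w => φ z w

/-- a cocycle near infinity is trivial far away -/
theorem triv_far {U : Set S2} (hU : IsOpen U) (hi : ∞ ∈ U) {φ : S2 → S2 → F} (hφ : Coc U φ) :
    ∃ R : ℝ, 0 < R ∧ Triv {z : ℂ | R < ‖z‖} (pl φ) := by
  have h1 : IsOpen (io ⁻¹' U) := hU.preimage io_open.continuous
  have h2 : (0:ℂ) ∈ io ⁻¹' U := by rw [mem_preimage, io_zero]; exact hi
  obtain ⟨ε, hε, hεU⟩ := Metric.isOpen_iff.1 h1 0 h2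
  have h3 : Coc (Metric.ball (0:ℂ) ε) fun a b => φ (io a) (io b) :=
    Near3.comap hφ (fun z _ => io_open.continuous.continuousAt) fun z hz => hεU hz
  obtain ⟨f, hf⟩ := triv_of_convex (convex_ball _ _) h3
  refine ⟨1 / ε, by positivity, fun z => f z⁻¹, ?_⟩
  have h4 : Near2 {z : ℂ | 1 / ε < ‖z‖} fun a b => φ (io a⁻¹) (io b⁻¹) = f a⁻¹ + f b⁻¹ := by
    refine hf.comap (g := fun z : ℂ => z⁻¹) (fun z hz => ?_) fun z hz => ?_
    · refine continuousAt_inv₀ fun h0 => ?_
      have hz : 1 / ε < ‖z‖ := hz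
      rw [h0, norm_zero] at hz
      have : 0 < 1 / ε := by positivity
      linarith
    · have hz : 1 / ε < ‖z‖ := hz
      have h0 : 0 < ‖z‖ := lt_trans (by positivity) hz
      rw [Metric.mem_ball, dist_zero_right, norm_inv, inv_lt_comm₀ h0 hε]
      simpa [one_div] using hz
  have h5 : Near2 {z : ℂ | 1 / ε < ‖z‖} fun a b => a ≠ 0 ∧ b ≠ 0 := by
    intro z hz
    have h0 : z ≠ 0 := by
      intro h0
      have hz : 1 / ε < ‖z‖ := hz
      rw [h0, norm_zero] at hz
      have : 0 < 1 / ε := by positivity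
      linarith
    exact ⟨{0}ᶜ, isOpen_ne.mem_nhds h0, fun a ha b hb => ⟨ha, hb⟩⟩
  refine (h4.and h5).mono subset_rfl fun a b h => ?_
  beta_reduce at h ⊢
  obtain ⟨e1, e2, e3⟩ := h
  rw [io_of_ne (inv_ne_zero e2), io_of_ne (inv_ne_zero e3), inv_inv, inv_inv] at e1
  exact e1

/-- the sphere is simply connected -/
theorem triv_sphere {φ : S2 → S2 → F} (hφ : Coc univ φ) : Triv univ φ := by
  have h1 : Triv (range ((↑) : ℂ → S2)) φ := by
    have h2 : Triv (univ : Set ℂ) fun a b => φ (a : S2) (b : S2) :=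
      triv_of_convex convex_univ (Near3.comap hφ
        (fun z _ => OnePoint.continuous_coe.continuousAt) fun z _ => mem_univ _)
    obtain ⟨f, hf⟩ := h2
    refine Triv.descend OnePoint.isOpenEmbedding_coe.isOpen_range
      OnePoint.isOpenEmbedding_coe.isOpenMap (fun z _ => OnePoint.continuous_coe.continuousAt)
      (fun y hy => hy) (f := f) (hf.mono (subset_univ _) fun _ _ => id) ?_
    intro a b _ hab
    rw [OnePoint.coe_injective hab]
  have h2 : Triv (range io) φ := by
    have h2 : Triv (univ : Set ℂ) fun a b => φ (io a) (io b) :=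
      triv_of_convex convex_univ (Near3.comap hφ
        (fun z _ => io_open.continuous.continuousAt) fun z _ => mem_univ _)
    obtain ⟨f, hf⟩ := h2
    refine Triv.descend io_open.isOpen_range
      io_open.isOpenMap (fun z _ => io_open.continuous.continuousAt)
      (fun y hy => hy) (f := f) (hf.mono (subset_univ _) fun _ _ => id) ?_
    intro a b _ hab
    rw [io_open.injective hab]
  have h3 : IsPreconnected (range ((↑) : ℂ → S2) ∩ range io) := by
    have e : range ((↑) : ℂ → S2) ∩ range io = (fun z : ℂ => (z : S2)) '' {0}ᶜ := by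
      ext y
      constructor
      · rintro ⟨⟨a, rfl⟩, b, hb⟩
        refine ⟨a, fun h0 => ?_, rfl⟩
        rw [mem_singleton_iff] at h0
        subst h0
        by_cases hb0 : b = 0
        · subst hb0; rw [io_zero] at hb; exact OnePoint.infty_ne_coe _ hb
        · rw [io_of_ne hb0] at hb
          exact inv_ne_zero hb0 (OnePoint.coe_injective hb)
      · rintro ⟨a, ha, rfl⟩
        exact ⟨⟨a, rfl⟩, a⁻¹, by rw [io_of_ne (inv_ne_zero ha), inv_inv]⟩
    rw [e]
    have hc : IsPreconnected ({0}ᶜ : Set ℂ) := by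
      have := isConnected_compl_singleton_of_one_lt_rank (E := ℂ) (by
        rw [Complex.rank_real_complex]; norm_num) (0:ℂ)
      exact this.isPreconnected
    exact hc.image _ OnePoint.continuous_coe.continuousOn
  have h4 : range ((↑) : ℂ → S2) ∪ range io = univ := by
    refine eq_univ_of_forall fun z => ?_
    induction z using OnePoint.rec with
    | infty => exact Or.inr ⟨0, io_zero⟩
    | coe w => exact Or.inl ⟨w, rfl⟩
  rw [← h4]
  exact Triv.union_of_preconn OnePoint.isOpenEmbedding_coe.isOpen_range io_open.isOpen_range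
    h1 h2 h3

theorem mono_sum {ι : Type*} {s : Finset ι} {p : ℂ} {r R : ℝ} {φ : ι → ℂ → ℂ → F} {h : ι → F}
    (H : ∀ i ∈ s, Mono p r R (φ i) (h i)) :
    Mono p r R (fun a b => ∑ i ∈ s, φ i a b) (∑ i ∈ s, h i) := by
  classical
  induction s using Finset.induction_on with
  | empty =>
    simp only [Finset.sum_empty]
    exact ⟨fun _ => 0, fun y _ => ⟨univ, univ_mem, fun _ _ _ _ => by simp⟩, fun _ _ => by simp⟩
  | insert i s hi ih =>
    simp only [Finset.sum_insert hi]
    exact (H i (Finset.mem_insert_self _ _)).add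
      (ih fun j hj => H j (Finset.mem_insert_of_mem hj))

/-- the sum of the monodromies around finitely many discs in the sphere is zero -/
theorem sum_mono {Q : Finset ℂ} {r R : ℂ → ℝ} {μ : ℂ → F} (hr : ∀ q ∈ Q, 0 ≤ r q)
    (hrR : ∀ q ∈ Q, r q < R q)
    (hd : ∀ q ∈ Q, ∀ q' ∈ Q, q ≠ q' → R q + R q' ≤ ‖q - q'‖) {φ : S2 → S2 → F}
    (hφ : Coc {z | ∀ q ∈ Q, z ∉ (fun w : ℂ => (w : S2)) '' Metric.closedBall q (r q)} φ)
    (hm : ∀ q ∈ Q, Mono q (r q) (R q) (pl φ) (μ q)) : ∑ q ∈ Q, μ q = 0 := by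
  classical
  set C : Set ℂ := ⋃ q ∈ (Q : Set ℂ), Metric.closedBall q (r q) with hC
  set V : Set ℂ := ⋃ q ∈ (Q : Set ℂ), Metric.ball q (R q) with hV
  set V' : Set ℂ := ⋃ q ∈ (Q : Set ℂ), Metric.ball q ((r q + R q) / 2) with hV'
  have memC : ∀ z, z ∈ C ↔ ∃ q ∈ Q, ‖z - q‖ ≤ r q := by
    intro z; simp [hC, dist_eq_norm]
  have memV : ∀ z, z ∈ V ↔ ∃ q ∈ Q, ‖z - q‖ < R q := by
    intro z; simp [hV, dist_eq_norm]
  have memV' : ∀ z, z ∈ V' ↔ ∃ q ∈ Q, ‖z - q‖ < (r q + R q) / 2 := by
    intro z; simp [hV', dist_eq_norm]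
  have hpl : Coc Cᶜ (pl φ) := by
    refine Near3.comap hφ (g := fun z : ℂ => (z : S2))
      (fun z _ => OnePoint.continuous_coe.continuousAt) fun z hz => ?_
    rintro q hq ⟨w, hw, he⟩
    have he : w = z := OnePoint.coe_injective he
    subst he
    refine hz ((memC w).2 ⟨q, hq, ?_⟩)
    rwa [← dist_eq_norm]
  set ψ : ℂ → ℂ → F := fun a b => pl φ a b + ∑ q ∈ Q, μ q * om q a b with hψ
  have hψc : Coc (univ \ C) ψ := by
    refine Coc.add (hpl.mono fun z hz => hz.2) (Coc.sum fun q hq => ?_)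
    refine ((om_coc q).mono fun z hz h0 => hz.2 ?_).smul (μ q)
    rw [mem_singleton_iff] at h0
    subst h0
    exact (memC z).2 ⟨z, hq, by simpa using hr z hq⟩
  have hψm : ∀ q ∈ Q, Mono q (r q) (R q) ψ 0 := by
    intro q hq
    have h1 : Mono q (r q) (R q) (fun a b => ∑ q' ∈ Q, μ q' * om q' a b)
        (∑ q' ∈ Q, μ q' * (if q' = q then 1 else 0)) := by
      refine mono_sum fun q' hq' => ?_
      by_cases h : q' = q
      · subst h
        rw [if_pos rfl]
        exact (om_mono q' _ _).smul _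
      · rw [if_neg h]
        refine (om_mono_near ?_).smul _
        have := hd q' hq' q hq h
        have h2 := hr q' hq'
        have h3 := hrR q' hq'
        linarith
    have h2 := (hm q hq).add h1
    have e : μ q + ∑ q' ∈ Q, μ q' * (if q' = q then 1 else 0) = 0 := by
      simp only [mul_ite, mul_one, mul_zero, Finset.sum_ite_eq', if_pos hq]
      exact f2_xx _
    rw [e] at h2
    exact h2
  have htr : Triv (V \ C) ψ := by
    have h1 : Triv (⋃ q ∈ (Q : Set ℂ), Ann q (r q) (R q)) ψ := by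
      refine Triv.biUnion (fun q _ => isOpen_ann _ _ _) (fun q hq q' hq' y hy hy' => ?_)
        fun q hq => (hψm q hq).triv (hr q hq)
      by_contra hne
      have h1 := hd q hq q' hq' hne
      have h2 := hy.2
      have h3 := hy'.2
      have h4 : ‖q - q'‖ ≤ ‖y - q‖ + ‖y - q'‖ := by
        have : q - q' = (y - q') - (y - q) := by ring
        rw [this]
        have := norm_sub_le (y - q') (y - q)
        linarith
      linarith
    refine h1.mono fun z hz => ?_
    obtain ⟨q, hq, h2⟩ := (memV z).1 hz.1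
    refine mem_biUnion (show q ∈ (Q : Set ℂ) from hq) ⟨?_, h2⟩
    by_contra h3
    exact hz.2 ((memC z).2 ⟨q, hq, not_lt.1 h3⟩)
  obtain ⟨ψ', g, h1, -, h2, h3⟩ := extend_gen (S := univ) (C := C) (V := V) (V' := V')
    (isOpen_biUnion fun q _ => Metric.isOpen_ball) (fun z hz => by
      obtain ⟨q, hq, h⟩ := (memC z).1 hz
      exact (memV' z).2 ⟨q, hq, by have := hrR q hq; linarith⟩)
    (by
      have hf : (Q : Set ℂ).Finite := Q.finite_toSet
      intro z hz
      have h4 : V' ⊆ ⋃ q ∈ (Q : Set ℂ), Metric.closedBall q ((r q + R q) / 2) :=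
        iUnion₂_mono fun q _ => Metric.ball_subset_closedBall
      have h5 : IsClosed (⋃ q ∈ (Q : Set ℂ), Metric.closedBall q ((r q + R q) / 2)) :=
        hf.isClosed_biUnion fun q _ => Metric.isClosed_closedBall
      have h6 := closure_minimal h4 h5 hz
      simp only [mem_iUnion, exists_prop] at h6
      obtain ⟨q, hq, h7⟩ := h6
      refine (memV z).2 ⟨q, hq, ?_⟩
      rw [Metric.mem_closedBall, dist_eq_norm] at h7
      have := hrR q hq
      linarith) hψc htr
  -- far away
  obtain ⟨R0, hR0, hfar⟩ : ∃ R0 : ℝ, 0 < R0 ∧ Triv {z : ℂ | R0 < ‖z‖} (pl φ) := by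
    have hCc : IsCompact C := Q.finite_toSet.isCompact_biUnion fun q _ =>
      isCompact_closedBall _ _
    have hU : IsOpen ((fun w : ℂ => (w : S2)) '' C)ᶜ := by
      have : IsCompact ((fun w : ℂ => (w : S2)) '' C) := hCc.image OnePoint.continuous_coe
      exact this.isClosed.isOpen_compl
    refine triv_far hU ?_ (φ := φ) (hφ.mono fun z hz q hq h => hz ?_)
    · rintro ⟨w, -, hw⟩
      exact OnePoint.coe_ne_infty w hw
    · obtain ⟨w, hw, rfl⟩ := h
      exact ⟨w, (memC w).2 ⟨q, hq, by rwa [← dist_eq_norm]⟩, rfl⟩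
  obtain ⟨R1, hR1⟩ : ∃ R1 : ℝ, ∀ q ∈ Q, ‖q‖ + R q ≤ R1 := by
    obtain ⟨B, hB⟩ := (Q.image fun q => ‖q‖ + R q).exists_le
    exact ⟨B, fun q hq => hB _ (Finset.mem_image_of_mem _ hq)⟩
  set R2 := max R0 R1 with hR2
  have hR2' : 0 ≤ R2 := hR0.le.trans (le_max_left _ _)
  have hout : ∀ z : ℂ, R2 < ‖z‖ → z ∉ V' ∧ z ∉ C := by
    intro z hz
    have h5 : ∀ q ∈ Q, R q < ‖z - q‖ := by
      intro q hq
      have h6 := hR1 q hq
      have h7 : R1 ≤ R2 := le_max_right _ _
      have h8 : ‖z‖ ≤ ‖z - q‖ + ‖q‖ := by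
        have := norm_add_le (z - q) q
        rwa [sub_add_cancel] at this
      linarith
    constructor
    · intro h
      obtain ⟨q, hq, h6⟩ := (memV' z).1 h
      have := h5 q hq
      have := hrR q hq
      linarith
    · intro h
      obtain ⟨q, hq, h6⟩ := (memC z).1 h
      have := h5 q hq
      have := hrR q hq
      linarith
  have hopen : IsOpen {z : ℂ | R2 < ‖z‖} := isOpen_lt continuous_const continuous_norm
  have hψt : Triv {z : ℂ | R2 < ‖z‖} ψ := by
    have h4 : Triv {z : ℂ | R2 < ‖z‖} ψ' := (triv_of_convex convex_univ h1).mono (subset_univ _)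
    refine h4.congr ?_
    have h5 : Near2 {z : ℂ | R2 < ‖z‖} fun a b => g a = 0 ∧ g b = 0 := fun y hy =>
      ⟨{z : ℂ | R2 < ‖z‖}, hopen.mem_nhds hy, fun a ha b hb =>
        ⟨h3 a (hout a ha).1, h3 b (hout b hb).1⟩⟩
    refine ((h2.mono (T := {z : ℂ | R2 < ‖z‖}) (fun z hz => ⟨mem_univ _, (hout z hz).2⟩)
      fun _ _ => id).and h5).mono subset_rfl fun a b h => ?_
    beta_reduce at h ⊢
    rw [h.1, h.2.1, h.2.2]; simp
  have hann : Ann 0 R2 (R2 + 1) ⊆ {z : ℂ | R2 < ‖z‖} := by
    intro z hz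
    have := hz.1
    rwa [sub_zero] at this
  have m1 : Mono 0 R2 (R2 + 1) ψ 0 := Mono.of_triv (hψt.mono hann)
  have m2 : Mono 0 R2 (R2 + 1) (pl φ) 0 := by
    refine Mono.of_triv (hfar.mono fun z hz => ?_)
    have h8 : R2 < ‖z‖ := hann hz
    exact lt_of_le_of_lt (le_max_left R0 R1) h8
  have m3 : Mono 0 R2 (R2 + 1) (fun a b => ∑ q ∈ Q, μ q * om q a b) (∑ q ∈ Q, μ q * 1) := by
    refine mono_sum fun q hq => (om_mono_far ?_).smul _
    have h6 := hR1 q hq
    have h7 : R1 ≤ R2 := le_max_right _ _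
    have := hrR q hq
    have := hr q hq
    rw [sub_zero]
    linarith
  have m4 := m2.add m3
  have := m4.unique hR2' (by linarith) m1
  simpa using this

end Pool.Agent.SRF.V
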