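import Pool.Agent.SRF.V.TorGen
import Pool.Agent.SRF.V.BlCov
import Pool.Agent.SRF.V.Sph

/-!
# Normal forms of surfaces (SRF, Part V)

`κ : X → S²` collapses the cores of the handles `p ∈ T` and of the crosscaps `p ∈ P`; the ends are
the points of the compact set `E` of real numbers; `lam` is the inverse of `κ`.
-/

set_option linter.unusedTactic false

namespace Pool.Agent.SRF.V

open Topology Filter Set

/-- open disc, closed disc, annulus around a real point, in the sphere -/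
def dd (p s : ℝ) : Set S2 := (fun w : ℂ => (w : S2)) '' Metric.ball (p : ℂ) s
def cd (p s : ℝ) : Set S2 := (fun w : ℂ => (w : S2)) '' Metric.closedBall (p : ℂ) s
def an (p s t : ℝ) : Set S2 := (fun w : ℂ => (w : S2)) '' Ann (p : ℂ) s t
/-- real points in the sphere -/
def pt (E : Set ℝ) : Set S2 := (fun x : ℝ => ((x : ℂ) : S2)) '' E

structure NF (X : Type*) [TopologicalSpace X] (E T P : Set ℝ) (r : ℝ → ℝ) (κ : X → S2)
    (lam : S2 → X) : Prop where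
  hE : IsCompact E
  hEI : ∀ a b : ℝ, a < b → ∃ x, a < x ∧ x < b ∧ x ∉ E
  hTP : Disjoint T P
  pos : ∀ p ∈ T ∪ P, 0 < r p
  away : ∀ p ∈ T ∪ P, ∀ x ∈ E, r p < |p - x|
  apart : ∀ p ∈ T ∪ P, ∀ q ∈ T ∪ P, p ≠ q → r p + r q < |p - q|
  lf : ∀ z : S2, z ∉ pt E → ∃ U ∈ 𝓝 z, {p | p ∈ T ∪ P ∧ (cd p (r p) ∩ U).Nonempty}.Finite
  κc : Continuous κ
  κE : ∀ x, κ x ∉ pt E
  κp : ∀ K : Set S2, IsCompact K → Disjoint K (pt E) → IsCompact (κ ⁻¹' K)
  κlam : ∀ z, z ∉ pt E → κ (lam z) = z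
  lamκ : ∀ x, κ x ∉ pt (T ∪ P) → lam (κ x) = x
  lamc : ∀ z, z ∉ pt E → z ∉ pt (T ∪ P) → ContinuousAt lam z
  bT : ∀ p ∈ T, ∃ Φ : OpenPartialHomeomorph Tor X, Φ.source = {oo}ᶜ ∧ Φ.target = κ ⁻¹' dd p (r p)
  bP : ∀ p ∈ P, ∃ Φ : OpenPartialHomeomorph Bl X, Φ.source = univ ∧ Φ.target = κ ⁻¹' dd p (r p)

theorem mem_dd {p s : ℝ} {w : ℂ} : (w : S2) ∈ dd p s ↔ ‖w - p‖ < s := by
  constructor
  · rintro ⟨v, hv, h⟩
    rw [← OnePoint.coe_injective h]
    rwa [← dist_eq_norm]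
  · intro h
    exact ⟨w, by rwa [Metric.mem_ball, dist_eq_norm], rfl⟩

theorem mem_cd {p s : ℝ} {w : ℂ} : (w : S2) ∈ cd p s ↔ ‖w - p‖ ≤ s := by
  constructor
  · rintro ⟨v, hv, h⟩
    rw [← OnePoint.coe_injective h]
    rwa [← dist_eq_norm]
  · intro h
    exact ⟨w, by rwa [Metric.mem_closedBall, dist_eq_norm], rfl⟩

theorem mem_an {p s t : ℝ} {w : ℂ} : (w : S2) ∈ an p s t ↔ s < ‖w - p‖ ∧ ‖w - p‖ < t := by
  constructor
  · rintro ⟨v, hv, h⟩
    rw [← OnePoint.coe_injective h]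
    exact hv
  · intro h
    exact ⟨w, h, rfl⟩

theorem mem_pt {E : Set ℝ} {x : ℝ} : (((x : ℂ)) : S2) ∈ pt E ↔ x ∈ E := by
  constructor
  · rintro ⟨v, hv, h⟩
    rw [← Complex.ofReal_injective (OnePoint.coe_injective h)]
    exact hv
  · intro h
    exact ⟨x, h, rfl⟩

theorem isOpen_dd (p s : ℝ) : IsOpen (dd p s) :=
  OnePoint.isOpenEmbedding_coe.isOpenMap _ Metric.isOpen_ball

theorem isOpen_an (p s t : ℝ) : IsOpen (an p s t) :=
  OnePoint.isOpenEmbedding_coe.isOpenMap _ (isOpen_ann _ _ _)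

theorem isCompact_cd (p s : ℝ) : IsCompact (cd p s) :=
  (isCompact_closedBall _ _).image OnePoint.continuous_coe

theorem isClosed_cd (p s : ℝ) : IsClosed (cd p s) := (isCompact_cd p s).isClosed

theorem dd_sub_cd {p s t : ℝ} (h : s ≤ t) : dd p s ⊆ cd p t :=
  image_mono (Metric.ball_subset_closedBall.trans (Metric.closedBall_subset_closedBall h))

theorem cd_sub_dd {p s t : ℝ} (h : s < t) : cd p s ⊆ dd p t :=
  image_mono (Metric.closedBall_subset_ball h)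

theorem cd_sub_cd {p s t : ℝ} (h : s ≤ t) : cd p s ⊆ cd p t :=
  image_mono (Metric.closedBall_subset_closedBall h)

theorem dd_sub_dd {p s t : ℝ} (h : s ≤ t) : dd p s ⊆ dd p t :=
  image_mono (Metric.ball_subset_ball h)

theorem an_eq {p s t : ℝ} : an p s t = dd p t \ cd p s := by
  ext z
  constructor
  · rintro ⟨w, hw, rfl⟩
    exact ⟨mem_dd.2 hw.2, fun h => not_lt.2 (mem_cd.1 h) hw.1⟩
  · rintro ⟨⟨w, hw, rfl⟩, h2⟩
    exact mem_an.2 ⟨not_le.1 fun h => h2 (mem_cd.2 h), mem_dd.1 ⟨w, hw, rfl⟩⟩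

/-- the data of a block inside the surface -/
structure BD {X : Type*} [TopologicalSpace X] (κ : X → S2) (p R ρ : ℝ) (α β c : X → X → F) :
    Prop where
  ρ0 : 0 < ρ
  ρR : ρ < R
  ca : Coc univ α
  cb : Coc univ β
  ea : ∀ x y, (κ x ∉ cd p ρ ∨ κ y ∉ cd p ρ) → α x y = 0
  eb : ∀ x y, (κ x ∉ cd p ρ ∨ κ y ∉ cd p ρ) → β x y = 0
  gen : ∀ a : X → X → F, Coc (κ ⁻¹' dd p R) a →
    ∃ x y : F, Triv (κ ⁻¹' dd p R) fun u v => a u v + (x * α u v + y * β u v)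
  dc : Near3 (κ ⁻¹' dd p R) fun x y z => c x y + c y z + c x z = α x y * β y z
  nt : ¬ Triv (κ ⁻¹' an p ρ R) c

open Classical in
/-- transport of a cochain with cut-off -/
noncomputable def trp {X Y : Type*} [TopologicalSpace X] [TopologicalSpace Y]
    (κ : X → S2) (p ρ : ℝ) (Φ : OpenPartialHomeomorph Y X) (φ : Y → Y → F) (x y : X) : F :=
  if κ x ∈ cd p ρ ∧ κ y ∈ cd p ρ then φ (Φ.symm x) (Φ.symm y) else 0

section
variable {X Y : Type*} [TopologicalSpace X] [TopologicalSpace Y]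
  {κ : X → S2} (hκ : Continuous κ) {p R : ℝ} {Φ : OpenPartialHomeomorph Y X}
  (hΦ : Φ.target = κ ⁻¹' dd p R)

include hκ hΦ

theorem trp_near {ρ ρ0 : ℝ} (h0 : ρ0 < ρ) {φ : Y → Y → F} {K0 : Set Y}
    (hK : ∀ y ∈ K0, κ (Φ y) ∈ cd p ρ0) (hz : Zer (Φ.source \ K0) φ) :
    Near2 (κ ⁻¹' dd p R) fun x y => trp κ p ρ Φ φ x y = φ (Φ.symm x) (Φ.symm y) := by
  intro x hx
  by_cases h : κ x ∈ dd p ρ
  · refine ⟨κ ⁻¹' dd p ρ, ((isOpen_dd p ρ).preimage hκ).mem_nhds h, fun a ha b hb => ?_⟩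
    exact if_pos ⟨dd_sub_cd le_rfl ha, dd_sub_cd le_rfl hb⟩
  · have hx' : x ∈ Φ.target := by rw [hΦ]; exact hx
    have h1 : Φ.symm x ∈ Φ.source \ K0 := by
      refine ⟨Φ.map_target hx', fun h2 => h ?_⟩
      have := hK _ h2
      rw [Φ.right_inv hx'] at this
      exact cd_sub_dd h0 this
    obtain ⟨U, hU, h2⟩ := hz _ h1
    refine ⟨Φ.symm ⁻¹' U, (Φ.continuousAt_symm hx') hU, fun a ha b hb => ?_⟩
    have := h2 _ ha _ hb
    beta_reduce at this ⊢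
    rw [this, trp, this]
    split_ifs <;> rfl

theorem trp_coc {ρ ρ0 : ℝ} (h0 : ρ0 < ρ) (hρ : ρ < R) {φ : Y → Y → F} {K0 : Set Y}
    (hK : ∀ y ∈ K0, κ (Φ y) ∈ cd p ρ0) (hz : Zer (Φ.source \ K0) φ) (hφ : Coc Φ.source φ) :
    Coc univ (trp κ p ρ Φ φ) := by
  intro x _
  by_cases hx : κ x ∈ dd p R
  · have h1 := trp_near hκ hΦ h0 hK hz
    have h2 : Coc (κ ⁻¹' dd p R) fun x y => φ (Φ.symm x) (Φ.symm y) := by
      refine Near3.comap hφ (g := Φ.symm) (fun x hx => ?_) fun x hx => ?_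
      · exact Φ.continuousAt_symm (by rw [hΦ]; exact hx)
      · exact Φ.map_target (by rw [hΦ]; exact hx)
    exact (h2.congr (h1.mono subset_rfl fun a b h => h.symm)) x hx
  · refine ⟨κ ⁻¹' (cd p ρ)ᶜ, ((isClosed_cd p ρ).isOpen_compl.preimage hκ).mem_nhds ?_,
      fun a ha b hb c hc => ?_⟩
    · exact fun h => hx (cd_sub_dd hρ h)
    · have e : ∀ x y, κ x ∉ cd p ρ → trp κ p ρ Φ φ x y = 0 := fun x y h => if_neg fun h' => h h'.1
      beta_reduce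
      rw [e a b ha, e b c hb, e a c ha]; simp

/-- squares: if `φ ∪ φ = δ (H φ)` upstairs then the transported cochain is orthogonal to itself -/
theorem trp_sq {ρ ρ0 : ℝ} (h0 : ρ0 < ρ) (hρ : ρ < R) (hκp : IsCompact (κ ⁻¹' cd p ρ))
    {φ : Y → Y → F} {K0 : Set Y}
    (hK : ∀ y ∈ K0, κ (Φ y) ∈ cd p ρ0) (hz : Zer (Φ.source \ K0) φ) {H : Y → F}
    (hsq : Near3 (univ : Set Y) fun x y z => H x * φ x y + H y * φ y z + H x * φ x z =
      φ x y * φ y z) :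
    Perp (trp κ p ρ Φ φ) (trp κ p ρ Φ φ) := by
  refine ⟨fun x y => H (Φ.symm x) * trp κ p ρ Φ φ x y, ⟨κ ⁻¹' cd p ρ, subset_univ _, hκp, ?_⟩, ?_⟩
  · intro x hx
    refine ⟨κ ⁻¹' (cd p ρ)ᶜ, ((isClosed_cd p ρ).isOpen_compl.preimage hκ).mem_nhds hx,
      fun a ha b hb => ?_⟩
    have : trp κ p ρ Φ φ a b = 0 := if_neg fun h' => ha h'.1
    beta_reduce
    rw [this, mul_zero]
  · intro x _
    by_cases hx : κ x ∈ dd p R
    · have h1 := trp_near hκ hΦ h0 hK hz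
      have h2 := Near3.comap hsq (S := κ ⁻¹' dd p R) (g := Φ.symm)
        (fun x hx => Φ.continuousAt_symm (by rw [hΦ]; exact hx)) fun x hx => mem_univ _
      refine ((Near3.and h2 h1.to3).mono subset_rfl fun u v w h => ?_ : Near3 (κ ⁻¹' dd p R) _)
        x hx
      beta_reduce at h ⊢
      obtain ⟨e1, e2, e3, e4, -⟩ := h
      rw [e2, e3, e4, e1]
    · refine ⟨κ ⁻¹' (cd p ρ)ᶜ, ((isClosed_cd p ρ).isOpen_compl.preimage hκ).mem_nhds ?_,
        fun a ha b hb c hc => ?_⟩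
      · exact fun h => hx (cd_sub_dd hρ h)
      · have e : ∀ x y, κ x ∉ cd p ρ → trp κ p ρ Φ φ x y = 0 := fun x y h =>
          if_neg fun h' => h h'.1
        beta_reduce
        rw [e a b ha, e b c hb, e a c ha]; simp

theorem bd_of_mb {S : Set Y} (hS : Φ.source = S) {α β c : Y → Y → F} (hm : MB S α β c)
    (hR : 0 < R) (hκp : ∀ ρ, ρ < R → IsCompact (κ ⁻¹' cd p ρ)) :
    ∃ ρ, BD κ p R ρ (trp κ p ρ Φ α) (trp κ p ρ Φ β) (fun x y => c (Φ.symm x) (Φ.symm y)) ∧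
      (∀ H : Y → F, (Near3 (univ : Set Y) fun x y z => H x * α x y + H y * α y z + H x * α x z =
        α x y * α y z) → Perp (trp κ p ρ Φ α) (trp κ p ρ Φ α)) ∧
      (∀ H : Y → F, (Near3 (univ : Set Y) fun x y z => H x * β x y + H y * β y z + H x * β x z =
        β x y * β y z) → Perp (trp κ p ρ Φ β) (trp κ p ρ Φ β)) := by
  subst hS
  obtain ⟨K0, hK0, hK0c, hα, hβ⟩ := hm.supp
  -- the image of the support
  obtain ⟨ρ0, hρ0, hρ0'⟩ : ∃ ρ0, ρ0 < R ∧ ∀ y ∈ K0, κ (Φ y) ∈ cd p ρ0 := by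
    rcases K0.eq_empty_or_nonempty with he | hne
    · exact ⟨0, hR, fun y hy => by rw [he] at hy; exact absurd hy (notMem_empty _)⟩
    · have hcont : ContinuousOn (fun y => κ (Φ y)) K0 := hκ.comp_continuousOn
        (Φ.continuousOn.mono hK0)
      have hmem : ∀ y ∈ K0, κ (Φ y) ∈ dd p R := fun y hy => by
        have := Φ.map_source (hK0 hy)
        rw [hΦ] at this; exact this
      set W : Set ℂ := {w | (w : S2) ∈ (fun y => κ (Φ y)) '' K0} with hW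
      have hWc : IsCompact W := by
        have h1 : IsCompact ((fun y => κ (Φ y)) '' K0) := hK0c.image_of_continuousOn hcont
        refine OnePoint.isOpenEmbedding_coe.isInducing.isCompact_iff.2 ?_
        have : (fun w : ℂ => (w : S2)) '' W = (fun y => κ (Φ y)) '' K0 := by
          ext z
          constructor
          · rintro ⟨w, hw, rfl⟩; exact hw
          · rintro ⟨y, hy, rfl⟩
            obtain ⟨w, -, hw⟩ := hmem y hy
            exact ⟨w, by rw [hW]; exact ⟨y, hy, hw.symm⟩, hw⟩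
        rw [this]; exact h1
      have hWne : W.Nonempty := by
        obtain ⟨y, hy⟩ := hne
        obtain ⟨w, -, hw⟩ := hmem y hy
        exact ⟨w, y, hy, hw.symm⟩
      obtain ⟨w0, hw0, hmax⟩ := hWc.exists_isMaxOn hWne
        (f := fun w : ℂ => ‖w - p‖) (by fun_prop)
      refine ⟨‖w0 - p‖, ?_, fun y hy => ?_⟩
      · obtain ⟨y, hy, hyw⟩ := hw0
        have := hmem y hy
        beta_reduce at hyw
        rw [hyw] at this
        exact mem_dd.1 this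
      · obtain ⟨w, -, hw⟩ := hmem y hy
        rw [← hw]
        exact mem_cd.2 (hmax (show w ∈ W from ⟨y, hy, hw.symm⟩))
  set ρ := (max ρ0 (R/2) + R) / 2 with hρ
  have hm1 : max ρ0 (R/2) < R := max_lt hρ0 (by linarith)
  have hρR : ρ < R := by rw [hρ]; linarith
  have hρ1 : ρ0 < ρ := by
    have := le_max_left ρ0 (R/2)
    rw [hρ]; linarith
  have hρpos : 0 < ρ := by
    have := le_max_right ρ0 (R/2)
    rw [hρ]; linarith
  have hsymm : ∀ x ∈ κ ⁻¹' dd p R, ContinuousAt Φ.symm x := fun x hx =>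
    Φ.continuousAt_symm (by rw [hΦ]; exact hx)
  have hsymm' : ∀ x ∈ κ ⁻¹' dd p R, Φ.symm x ∈ Φ.source := fun x hx =>
    Φ.map_target (by rw [hΦ]; exact hx)
  have nα := trp_near hκ hΦ hρ1 hρ0' hα
  have nβ := trp_near hκ hΦ hρ1 hρ0' hβ
  refine ⟨ρ, ⟨hρpos, hρR, trp_coc hκ hΦ hρ1 hρR hρ0' hα hm.ca,
    trp_coc hκ hΦ hρ1 hρR hρ0' hβ hm.cb, fun x y h => if_neg (by tauto),
    fun x y h => if_neg (by tauto), fun a ha => ?_, ?_, ?_⟩,
    fun H hH => trp_sq hκ hΦ hρ1 hρR (hκp ρ hρR) hρ0' hα hH,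
    fun H hH => trp_sq hκ hΦ hρ1 hρR (hκp ρ hρR) hρ0' hβ hH⟩
  · -- gen
    have h1 : Coc Φ.source fun u v => a (Φ u) (Φ v) := by
      refine Near3.comap ha (g := Φ) (fun u hu => Φ.continuousAt hu) fun u hu => ?_
      rw [← hΦ]; exact Φ.map_source hu
    obtain ⟨x, y, f, hf⟩ := hm.gen _ h1
    refine ⟨x, y, fun u => f (Φ.symm u), ?_⟩
    have h2 := hf.comap (S := κ ⁻¹' dd p R) (g := Φ.symm) hsymm hsymm'
    have h3 : Near2 (κ ⁻¹' dd p R) fun u v => u ∈ Φ.target ∧ v ∈ Φ.target := fun u hu =>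
      ⟨Φ.target, Φ.open_target.mem_nhds (by rw [hΦ]; exact hu), fun a ha b hb => ⟨ha, hb⟩⟩
    refine ((h2.and h3).and (nα.and nβ)).mono subset_rfl fun u v h => ?_
    beta_reduce at h ⊢
    obtain ⟨⟨e1, e2, e3⟩, e4, e5⟩ := h
    rw [← e1, e4, e5, Φ.right_inv e2, Φ.right_inv e3]
  · -- dc
    have h1 := Near3.comap hm.dc (S := κ ⁻¹' dd p R) (g := Φ.symm) hsymm hsymm'
    refine (Near3.and h1 (Near3.and nα.to3 nβ.to3)).mono subset_rfl fun u v w h => ?_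
    beta_reduce at h ⊢
    obtain ⟨e1, ⟨e2, -⟩, -, e3, -⟩ := h
    rw [e1, e2, e3]
  · -- nt
    intro ht
    set K : Set Y := Φ.symm '' (κ ⁻¹' cd p ρ) with hK
    have hsub : κ ⁻¹' cd p ρ ⊆ Φ.target := by
      rw [hΦ]; exact preimage_mono (cd_sub_dd hρR)
    have hKc : IsCompact K := (hκp ρ hρR).image_of_continuousOn
      (Φ.continuousOn_symm.mono hsub)
    have hKS : K ⊆ Φ.source := by
      rintro _ ⟨x, hx, rfl⟩
      exact Φ.map_target (hsub hx)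
    refine hm.nt K hKS hKc ?_
    obtain ⟨f, hf⟩ := ht
    refine ⟨fun u => f (Φ u), ?_⟩
    have h1 := hf.comap (S := Φ.source \ K) (g := Φ) (fun u hu => Φ.continuousAt hu.1)
      fun u hu => by
        rw [mem_preimage, an_eq]
        refine ⟨?_, fun h => hu.2 ⟨Φ u, h, Φ.left_inv hu.1⟩⟩
        have := Φ.map_source hu.1
        rw [hΦ] at this; exact this
    have h3 : Near2 (Φ.source \ K) fun u v => u ∈ Φ.source ∧ v ∈ Φ.source := fun u hu =>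
      ⟨Φ.source, Φ.open_source.mem_nhds hu.1, fun a ha b hb => ⟨ha, hb⟩⟩
    refine (h1.and h3).mono subset_rfl fun u v h => ?_
    beta_reduce at h ⊢
    obtain ⟨e1, e2, e3⟩ := h
    rw [← e1, Φ.left_inv e2, Φ.left_inv e3]

end

theorem NF.block {X : Type*} [TopologicalSpace X] {E T P : Set ℝ} {r : ℝ → ℝ} {κ : X → S2}
    {lam : S2 → X} (h : NF X E T P r κ lam) {p : ℝ} (hp : p ∈ T ∪ P) :
    ∃ (ρ : ℝ) (α β c : X → X → F), BD κ p (r p) ρ α β c ∧ (p ∈ T → Perp α α ∧ Perp β β) ∧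
      (p ∈ P → α = β) := by
  have hκp : ∀ ρ, ρ < r p → IsCompact (κ ⁻¹' cd p ρ) := by
    intro ρ hρ
    refine h.κp _ (isCompact_cd p ρ) ?_
    rw [Set.disjoint_left]
    rintro z hz ⟨x, hx, rfl⟩
    have h1 := mem_cd.1 hz
    rw [← Complex.ofReal_sub, Complex.norm_real, Real.norm_eq_abs, abs_sub_comm] at h1
    have := h.away p hp x hx
    linarith
  rcases hp with hT | hP
  · obtain ⟨Φ, h1, h2⟩ := h.bT p hT
    obtain ⟨ρ, h3, h4, h5⟩ := bd_of_mb h.κc h2 h1 mb_tor (h.pos p (Or.inl hT)) hκp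
    exact ⟨ρ, _, _, _, h3, fun _ => ⟨h4 _ tα_sq, h5 _ tβ_sq⟩,
      fun hP => absurd hP (Set.disjoint_left.1 h.hTP hT)⟩
  · obtain ⟨Φ, h1, h2⟩ := h.bP p hP
    obtain ⟨ρ, h3, -, -⟩ := bd_of_mb h.κc h2 h1 mb_bl (h.pos p (Or.inr hP)) hκp
    exact ⟨ρ, _, _, _, h3, fun hT => absurd hP (Set.disjoint_left.1 h.hTP hT), fun _ => rfl⟩

end Pool.Agent.SRF.V
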