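import Pool.Agent.SRF.V.Blk

/-!
# Part V: what the homeomorphism of the products with the circle gives (SRF)
-/

set_option linter.unusedTactic false

namespace Pool.Agent.SRF.V

open Topology Filter Set Pool.Agent.SRP Metric OnePoint

/-- Part V -/
theorem thm_PARTV : St_PARTV := by
  intro X X' _ _ hX hX' C C' hC hC' hM hM' hH
  obtain ⟨e, he, q, hq, hqe⟩ := hM
  obtain ⟨e', he', q', hq', hqe'⟩ := hM'
  obtain ⟨H⟩ := hH
  have m : MD C e q := ⟨hC, he, hq, hqe⟩
  have m' : MD C' e' q' := ⟨hC', he', hq', hqe'⟩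
  have := m.conn hX
  have := m'.conn hX'
  let c : Cir ≃ₜ Circle := AddCircle.homeomorphCircle one_ne_zero
  let H' : X × Cir ≃ₜ X' × Cir :=
    ((Homeomorph.refl X).prodCongr c).trans (H.trans ((Homeomorph.refl X').prodCongr c.symm))
  obtain ⟨ψ, h1, h2, h3, h4, h5⟩ := nf_main (m.nf hX) (m'.nf hX') H'
  rw [good_union hC, good_union hC'] at h1 h3
  exact ⟨⟨ψ, fun f => ⟨h1 f, h2 f⟩⟩, h3, h5, h4⟩

end Pool.Agent.SRF.V
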