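import Pool.Agent.SRF.V.Hol

/-!
# Cocycles on annuli in the plane (SRF, Part V)

A cocycle on a round annulus has a monodromy `h ∈ ZMod 2`; it is trivial if and only if `h = 0`.
The double cover `√(z - p)` gives a cocycle `om p` on `ℂ ∖ {p}` with monodromy `1`.
-/

set_option linter.unusedTactic false

namespace Pool.Agent.SRF.V

open Topology Filter Set

theorem f2_swap : ∀ x y z u : F, x + y = z + u → z + x = u + y := by decide

theorem f2_swap' : ∀ x y z u : F, x + y = z + u → x + z = y + u := by decide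

theorem f2_cancel : ∀ x y h k : F, x + h + (y + k) = x + y → h = k := by decide

/-- round annulus -/
def Ann (p : ℂ) (r R : ℝ) : Set ℂ := {z | r < ‖z - p‖ ∧ ‖z - p‖ < R}

/-- the covering map -/
noncomputable def cov (p w : ℂ) : ℂ := p + Complex.exp w

theorem cov_sub (p w : ℂ) : cov p w - p = Complex.exp w := by simp [cov]

theorem continuous_cov (p : ℂ) : Continuous (cov p) := by unfold cov; fun_prop

theorem norm_cov_sub (p w : ℂ) : ‖cov p w - p‖ = Real.exp w.re := by
  rw [cov_sub, Complex.norm_exp]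

/-- the strip over an annulus -/
def Strip (r R : ℝ) : Set ℂ := {w | r < Real.exp w.re ∧ Real.exp w.re < R}

theorem cov_mem {p : ℂ} {r R : ℝ} {w : ℂ} : cov p w ∈ Ann p r R ↔ w ∈ Strip r R := by
  simp only [Ann, Strip, mem_ofPred_eq, norm_cov_sub]

theorem strip_convex (r R : ℝ) : Convex ℝ (Strip r R) := by
  have h : Strip r R = Complex.re ⁻¹' (Real.exp ⁻¹' Ioo r R) := rfl
  rw [h]
  have h1 : (Real.exp ⁻¹' Ioo r R).OrdConnected := by
    have := ordConnected_Ioo (a := r) (b := R)
    exact this.preimage_mono Real.exp_monotone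
  exact (h1.convex).is_linear_preimage Complex.reLm.isLinear

theorem isOpen_ann (p : ℂ) (r R : ℝ) : IsOpen (Ann p r R) := by
  have : Ann p r R = (fun z => ‖z - p‖) ⁻¹' Ioo r R := rfl
  rw [this]
  exact isOpen_Ioo.preimage (by fun_prop)

theorem cov_period (p w : ℂ) : cov p (w + 2 * Real.pi * Complex.I) = cov p w := by
  simp [cov, Complex.exp_add, Complex.exp_two_pi_mul_I]

theorem strip_period {r R : ℝ} {w : ℂ} :
    w + 2 * Real.pi * Complex.I ∈ Strip r R ↔ w ∈ Strip r R := by
  simp [Strip]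

/-- the cocycle `φ` has monodromy `h` on the annulus -/
def Mono (p : ℂ) (r R : ℝ) (φ : ℂ → ℂ → F) (h : F) : Prop :=
  ∃ f : ℂ → F, (Near2 (Strip r R) fun a b => φ (cov p a) (cov p b) = f a + f b) ∧
    ∀ w ∈ Strip r R, f (w + 2 * Real.pi * Complex.I) = f w + h

theorem Mono.mono {p : ℂ} {r R r' R' : ℝ} {φ : ℂ → ℂ → F} {h : F} (H : Mono p r R φ h)
    (hr : r ≤ r') (hR : R' ≤ R) : Mono p r' R' φ h := by
  obtain ⟨f, h1, h2⟩ := H
  have hs : Strip r' R' ⊆ Strip r R := fun w hw => ⟨hr.trans_lt hw.1, hw.2.trans_le hR⟩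
  exact ⟨f, h1.mono hs fun _ _ => id, fun w hw => h2 w (hs hw)⟩

theorem Mono.add {p : ℂ} {r R : ℝ} {φ ψ : ℂ → ℂ → F} {h k : F} (H : Mono p r R φ h)
    (H' : Mono p r R ψ k) : Mono p r R (fun a b => φ a b + ψ a b) (h + k) := by
  obtain ⟨f, h1, h2⟩ := H
  obtain ⟨g, h3, h4⟩ := H'
  refine ⟨fun w => f w + g w, (h1.and h3).mono subset_rfl fun a b h => ?_, fun w hw => ?_⟩
  · beta_reduce at h ⊢
    rw [h.1, h.2]; ring
  · beta_reduce
    rw [h2 w hw, h4 w hw]; ring

theorem Mono.congr {p : ℂ} {r R : ℝ} {φ ψ : ℂ → ℂ → F} {h : F} (H : Mono p r R φ h)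
    (he : Near2 (Ann p r R) fun a b => φ a b = ψ a b) : Mono p r R ψ h := by
  obtain ⟨f, h1, h2⟩ := H
  refine ⟨f, ?_, h2⟩
  have h3 : Near2 (Strip r R) fun a b => φ (cov p a) (cov p b) = ψ (cov p a) (cov p b) :=
    he.comap (fun z _ => (continuous_cov p).continuousAt) fun z hz => cov_mem.2 hz
  exact (h1.and h3).mono subset_rfl fun a b h => by beta_reduce at h ⊢; rw [← h.2, h.1]

theorem Coc.exists_mono {p : ℂ} {r R : ℝ} {φ : ℂ → ℂ → F} (hφ : Coc (Ann p r R) φ) :
    ∃ h, Mono p r R φ h := by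
  have h1 : Coc (Strip r R) fun a b => φ (cov p a) (cov p b) :=
    Near3.comap hφ (fun z _ => (continuous_cov p).continuousAt) fun z hz => cov_mem.2 hz
  obtain ⟨f, hf⟩ := triv_of_convex (strip_convex r R) h1
  have h2 : Near2 (Strip r R) fun a b => f (a + 2 * Real.pi * Complex.I) + f a =
      f (b + 2 * Real.pi * Complex.I) + f b := by
    have h3 : Near2 (Strip r R) fun a b =>
        φ (cov p (a + 2 * Real.pi * Complex.I)) (cov p (b + 2 * Real.pi * Complex.I)) =
          f (a + 2 * Real.pi * Complex.I) + f (b + 2 * Real.pi * Complex.I) :=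
      hf.comap (g := fun w => w + 2 * Real.pi * Complex.I)
        (fun z _ => by apply Continuous.continuousAt; fun_prop) fun z hz => strip_period.2 hz
    refine (hf.and h3).mono subset_rfl fun a b h => ?_
    beta_reduce at h ⊢
    obtain ⟨h4, h5⟩ := h
    rw [cov_period, cov_period, h4] at h5
    exact f2_swap _ _ _ _ h5
  rcases (Strip r R).eq_empty_or_nonempty with he | ⟨w0, hw0⟩
  · exact ⟨0, f, hf, fun w hw => by rw [he] at hw; exact absurd hw (notMem_empty _)⟩
  · refine ⟨f (w0 + 2 * Real.pi * Complex.I) + f w0, f, hf, fun w hw => ?_⟩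
    have := const_of_near (strip_convex r R).isPreconnected
      (f := fun a => f (a + 2 * Real.pi * Complex.I) + f a) h2 hw hw0
    beta_reduce at this
    rw [← this]
    generalize f w = x
    generalize f (w + 2 * Real.pi * Complex.I) = z
    revert x z; decide

theorem Mono.int {r R : ℝ} {f : ℂ → F} {h : F}
    (H : ∀ w ∈ Strip r R, f (w + 2 * Real.pi * Complex.I) = f w + h) (h0 : h = 0) {w : ℂ}
    (hw : w ∈ Strip r R) (n : ℤ) : f (w + n * (2 * Real.pi * Complex.I)) = f w := by
  subst h0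
  have hs : ∀ n : ℤ, w + n * (2 * Real.pi * Complex.I) ∈ Strip r R := by
    intro n
    simpa [Strip] using hw
  induction n using Int.induction_on with
  | zero => simp
  | succ i ih =>
    rw [← ih]
    have := H _ (hs i)
    rw [add_zero] at this
    rw [← this]
    congr 1
    push_cast; ring
  | pred i ih =>
    rw [← ih]
    have := H _ (hs (-(i:ℤ) - 1))
    rw [add_zero] at this
    rw [← this]
    congr 1
    push_cast; ring

theorem isOpenMap_cov (p : ℂ) : IsOpenMap (cov p) :=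
  (Homeomorph.addLeft p).isOpenMap.comp Complex.isOpenMap_exp

theorem Mono.triv {p : ℂ} {r R : ℝ} (hr : 0 ≤ r) {φ : ℂ → ℂ → F} (H : Mono p r R φ 0) :
    Triv (Ann p r R) φ := by
  obtain ⟨f, h1, h2⟩ := H
  refine ⟨fun z => f (Complex.log (z - p)), fun z hz => ?_⟩
  have hcov : ∀ x ∈ Ann p r R, cov p (Complex.log (x - p)) = x := by
    intro x hx
    have : x - p ≠ 0 := by
      intro h0
      have := hx.1
      rw [h0, norm_zero] at this
      linarith
    rw [cov, Complex.exp_log this]; ring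
  have hw : Complex.log (z - p) ∈ Strip r R := by rw [← cov_mem (p := p), hcov z hz]; exact hz
  obtain ⟨U, hU, h⟩ := h1 _ hw
  have hU' : U ∩ Strip r R ∈ 𝓝 (Complex.log (z - p)) := by
    refine inter_mem hU ?_
    have : IsOpen (Strip r R) := by
      have : Strip r R = (fun w : ℂ => Real.exp w.re) ⁻¹' Ioo r R := rfl
      rw [this]
      exact isOpen_Ioo.preimage (by fun_prop)
    exact this.mem_nhds hw
  refine ⟨cov p '' (U ∩ Strip r R), ?_, ?_⟩
  · have := (isOpenMap_cov p).image_mem_nhds hU'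
    rwa [hcov z hz] at this
  · rintro _ ⟨a, ha, rfl⟩ _ ⟨b, hb, rfl⟩
    have key : ∀ w ∈ Strip r R, f (Complex.log (cov p w - p)) = f w := by
      intro w hw
      rw [cov_sub]
      obtain ⟨n, hn⟩ := Complex.exp_eq_exp_iff_exists_int.1
        (Complex.exp_log (Complex.exp_ne_zero w))
      rw [hn]
      exact Mono.int h2 rfl hw n
    have := h a ha.1 b hb.1
    beta_reduce at this ⊢
    rw [this, key a ha.2, key b hb.2]

theorem Mono.of_triv {p : ℂ} {r R : ℝ} {φ : ℂ → ℂ → F} (H : Triv (Ann p r R) φ) :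
    Mono p r R φ 0 := by
  obtain ⟨f, hf⟩ := H
  refine ⟨fun w => f (cov p w), ?_, fun w _ => by beta_reduce; rw [cov_period, add_zero]⟩
  exact hf.comap (fun z _ => (continuous_cov p).continuousAt) fun z hz => cov_mem.2 hz

/-- the monodromy is unique -/
theorem Mono.unique {p : ℂ} {r R : ℝ} (hr : 0 ≤ r) (hrR : r < R) {φ : ℂ → ℂ → F} {h k : F}
    (H : Mono p r R φ h) (H' : Mono p r R φ k) : h = k := by
  obtain ⟨f, h1, h2⟩ := H
  obtain ⟨g, h3, h4⟩ := H'
  have h5 : Near2 (Strip r R) fun a b => f a + g a = f b + g b := by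
    refine (h1.and h3).mono subset_rfl fun a b h => ?_
    beta_reduce at h ⊢
    obtain ⟨e1, e2⟩ := h
    rw [e1] at e2
    exact f2_swap' _ _ _ _ e2
  have hne : ∃ w : ℂ, w ∈ Strip r R := by
    refine ⟨(Real.log ((r + R) / 2) : ℂ), ?_⟩
    have : 0 < (r + R) / 2 := by linarith
    simp only [Strip, mem_ofPred_eq, Complex.ofReal_re, Real.exp_log this]
    constructor <;> linarith
  obtain ⟨w, hw⟩ := hne
  have := const_of_near (strip_convex r R).isPreconnected (f := fun a => f a + g a) h5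
    (strip_period.2 hw) hw
  beta_reduce at this
  rw [h2 w hw, h4 w hw] at this
  exact f2_cancel _ _ _ _ this

theorem Mono.zero_of_triv {p : ℂ} {r R : ℝ} (hr : 0 ≤ r) (hrR : r < R) {φ : ℂ → ℂ → F} {h : F}
    (H : Mono p r R φ h) (H' : Triv (Ann p r R) φ) : h = 0 :=
  H.unique hr hrR (Mono.of_triv H')

end Pool.Agent.SRF.V
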