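import Pool.Agent.SRF.V.NF

/-!
# Pushing cochains to the sphere (SRF, Part V)
-/

set_option linter.unusedTactic false

namespace Pool.Agent.SRF.V

open Topology Filter Set

/-- a normal form with chosen cochains on the blocks -/
structure NB (X : Type*) [TopologicalSpace X] (E T P : Set ℝ) (r : ℝ → ℝ) (κ : X → S2)
    (lam : S2 → X) (ρ : ℝ → ℝ) (α β c : ℝ → X → X → F) : Prop where
  nf : NF X E T P r κ lam
  bd : ∀ p ∈ T ∪ P, BD κ p (r p) (ρ p) (α p) (β p) (c p)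
  sq : ∀ p ∈ T, Perp (α p) (α p) ∧ Perp (β p) (β p)
  eqP : ∀ p ∈ P, α p = β p

theorem NF.exists_nb {X : Type*} [TopologicalSpace X] {E T P : Set ℝ} {r : ℝ → ℝ} {κ : X → S2}
    {lam : S2 → X} (h : NF X E T P r κ lam) : ∃ ρ α β c, NB X E T P r κ lam ρ α β c := by
  have h1 : ∀ p : ℝ, ∃ (ρ : ℝ) (α β c : X → X → F), p ∈ T ∪ P →
      BD κ p (r p) ρ α β c ∧ (p ∈ T → Perp α α ∧ Perp β β) ∧ (p ∈ P → α = β) := by
    intro p
    by_cases hp : p ∈ T ∪ P
    · obtain ⟨ρ, α, β, c, h⟩ := h.block hp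
      exact ⟨ρ, α, β, c, fun _ => h⟩
    · exact ⟨0, fun _ _ => 0, fun _ _ => 0, fun _ _ => 0, fun h => absurd h hp⟩
  choose ρ α β c h2 using h1
  exact ⟨ρ, α, β, c, h, fun p hp => (h2 p hp).1, fun p hp => (h2 p (Or.inl hp)).2.1 hp,
    fun p hp => (h2 p (Or.inr hp)).2.2 hp⟩

section
variable {X : Type*} [TopologicalSpace X] {E T P : Set ℝ} {r : ℝ → ℝ} {κ : X → S2}
  {lam : S2 → X}

theorem NF.isClosed_pt (h : NF X E T P r κ lam) : IsClosed (pt E) := by
  have h1 : IsCompact (pt E) := h.hE.image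
    (OnePoint.continuous_coe.comp Complex.continuous_ofReal)
  exact h1.isClosed

theorem NF.disj_cd (h : NF X E T P r κ lam) {p : ℝ} (hp : p ∈ T ∪ P) :
    Disjoint (cd p (r p)) (pt E) := by
  rw [Set.disjoint_left]
  rintro z hz ⟨x, hx, rfl⟩
  have h1 := mem_cd.1 hz
  rw [← Complex.ofReal_sub, Complex.norm_real, Real.norm_eq_abs, abs_sub_comm] at h1
  have := h.away p hp x hx
  linarith

theorem NF.disj_cd_cd (h : NF X E T P r κ lam) {p q : ℝ} (hp : p ∈ T ∪ P) (hq : q ∈ T ∪ P)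
    (hne : p ≠ q) : Disjoint (cd p (r p)) (cd q (r q)) := by
  rw [Set.disjoint_left]
  rintro _ ⟨w, hw, rfl⟩ hz
  rw [Metric.mem_closedBall, dist_eq_norm] at hw
  have h1 := mem_cd.1 hz
  have h2 := h.apart p hp q hq hne
  have h3 : |p - q| ≤ ‖w - p‖ + ‖w - q‖ := by
    have e : ((p - q : ℝ) : ℂ) = (w - q) - (w - p) := by push_cast; ring
    rw [← Real.norm_eq_abs, ← Complex.norm_real, e]
    have := norm_sub_le (w - q) (w - p)
    linarith
  linarith

theorem NF.eq_of_mem (h : NF X E T P r κ lam) {p q : ℝ} (hp : p ∈ T ∪ P) (hq : q ∈ T ∪ P)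
    {z : S2} (h1 : z ∈ cd p (r p)) (h2 : z ∈ cd q (r q)) : p = q := by
  by_contra hne
  exact Set.disjoint_left.1 (h.disj_cd_cd hp hq hne) h1 h2

theorem NF.near_pt (h : NF X E T P r κ lam) {z : S2} (hz : z ∉ pt E) (hz' : z ∉ pt (T ∪ P)) :
    ∃ N ∈ 𝓝 z, ∀ w ∈ N, w ∉ pt E ∧ w ∉ pt (T ∪ P) := by
  obtain ⟨U, hU, hf⟩ := h.lf z hz
  set G := {p | p ∈ T ∪ P ∧ (cd p (r p) ∩ U).Nonempty} with hG
  have h1 : IsClosed (pt G) := by
    have : (pt G).Finite := hf.image _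
    exact this.isClosed
  have h2 : z ∉ pt G := by
    rintro ⟨p, hp, rfl⟩
    exact hz' (mem_pt.2 hp.1)
  refine ⟨U ∩ (pt G)ᶜ ∩ (pt E)ᶜ, inter_mem (inter_mem hU (h1.isOpen_compl.mem_nhds h2))
    (h.isClosed_pt.isOpen_compl.mem_nhds hz), ?_⟩
  rintro w ⟨⟨hw1, hw2⟩, hw3⟩
  refine ⟨hw3, ?_⟩
  rintro ⟨p, hp, rfl⟩
  refine hw2 (mem_pt.2 ⟨hp, _, mem_cd.2 ?_, hw1⟩)
  rw [sub_self, norm_zero]; exact (h.pos p hp).le

theorem NF.near_dd (h : NF X E T P r κ lam) {J : Set ℝ} (hJ : J ⊆ T ∪ P) {s : ℝ → ℝ}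
    (hs : ∀ p ∈ J, s p < r p) {z : S2} (hz : z ∉ pt E) (hz' : ∀ p ∈ J, z ∉ dd p (r p)) :
    ∃ N ∈ 𝓝 z, ∀ w ∈ N, ∀ p ∈ J, w ∉ cd p (s p) := by
  obtain ⟨U, hU, hf⟩ := h.lf z hz
  set G := {p | p ∈ T ∪ P ∧ (cd p (r p) ∩ U).Nonempty} with hG
  have hfG : (G ∩ J).Finite := hf.subset inter_subset_left
  refine ⟨U ∩ ⋂ p ∈ G ∩ J, (cd p (s p))ᶜ, inter_mem hU ((biInter_mem hfG).2 fun p hp =>
    (isClosed_cd p (s p)).isOpen_compl.mem_nhds fun h1 => hz' p hp.2 (cd_sub_dd (hs p hp.2) h1)),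
    ?_⟩
  rintro w ⟨hw1, hw2⟩ p hp hw
  have hpG : p ∈ G ∩ J := ⟨⟨hJ hp, w, cd_sub_cd (hs p hp).le hw, hw1⟩, hp⟩
  exact (mem_iInter₂.1 hw2 p hpG) hw

/-- replacing a compactly supported cochain by one with exact support -/
theorem NF.exact_support (h : NF X E T P r κ lam) {a : X → X → F} (ha : SuppIn univ a) :
    ∃ (K : Set S2) (a' : X → X → F), IsClosed K ∧ Disjoint K (pt E) ∧
      (∀ p ∈ T ∪ P, cd p (r p) ⊆ K ∨ Disjoint (cd p (r p)) K) ∧
      (Near2 univ fun x y => a x y = a' x y) ∧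
      (∀ x y, (κ x ∉ K ∨ κ y ∉ K) → a' x y = 0) ∧
      {p | p ∈ T ∪ P ∧ cd p (r p) ⊆ K}.Finite := by
  classical
  obtain ⟨L, -, hL, hz⟩ := ha
  have hLc : IsCompact (κ '' L) := hL.image h.κc
  obtain ⟨K1, hK1, hLK, hKE⟩ := exists_compact_between hLc h.isClosed_pt.isOpen_compl
    (by rintro _ ⟨x, -, rfl⟩; exact h.κE x)
  have hfin : ∀ K : Set S2, IsCompact K → K ⊆ (pt E)ᶜ →
      {p | p ∈ T ∪ P ∧ (cd p (r p) ∩ K).Nonempty}.Finite := by
    intro K hK hKE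
    choose! U hU hf using h.lf
    obtain ⟨t, ht, htU⟩ := hK.elim_nhds_subcover U fun z hz => hU z (hKE hz)
    refine (t.finite_toSet.biUnion fun z hz => hf z (hKE (ht z hz))).subset ?_
    rintro p ⟨hp, w, hw1, hw2⟩
    obtain ⟨z, hz, hw3⟩ := mem_iUnion₂.1 (htU hw2)
    exact mem_iUnion₂.2 ⟨z, hz, hp, w, hw1, hw3⟩
  set G := {p | p ∈ T ∪ P ∧ (cd p (r p) ∩ K1).Nonempty} with hG
  have hGf : G.Finite := hfin K1 hK1 hKE
  set K := K1 ∪ ⋃ p ∈ G, cd p (r p) with hK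
  have hKc : IsCompact K := hK1.union (hGf.isCompact_biUnion fun p _ => isCompact_cd _ _)
  have hKd : Disjoint K (pt E) := by
    refine Disjoint.union_left (Set.disjoint_left.2 fun z hz => hKE hz) ?_
    rw [Set.disjoint_iUnion₂_left]
    exact fun p hp => h.disj_cd hp.1
  have hsat : ∀ p ∈ T ∪ P, cd p (r p) ⊆ K ∨ Disjoint (cd p (r p)) K := by
    intro p hp
    by_cases hpG : p ∈ G
    · exact Or.inl ((subset_biUnion_of_mem (u := fun p => cd p (r p)) hpG).trans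
        subset_union_right)
    · refine Or.inr (Disjoint.union_right ?_ ?_)
      · rw [Set.disjoint_left]
        exact fun z hz hz' => hpG ⟨hp, z, hz, hz'⟩
      · rw [Set.disjoint_iUnion₂_right]
        exact fun q hq => h.disj_cd_cd hp hq.1 fun he => hpG (he ▸ hq)
  refine ⟨K, fun x y => if κ x ∈ K ∧ κ y ∈ K then a x y else 0, hKc.isClosed, hKd, hsat, ?_,
    fun x y h => if_neg (by tauto), ?_⟩
  · intro x _
    by_cases hx : x ∈ L
    · refine ⟨κ ⁻¹' interior K1, (isOpen_interior.preimage h.κc).mem_nhds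
        (hLK (mem_image_of_mem _ hx)), fun a ha b hb => ?_⟩
      have h1 : ∀ a, a ∈ κ ⁻¹' interior K1 → κ a ∈ K := fun a ha => Or.inl (interior_subset ha)
      beta_reduce
      rw [if_pos ⟨h1 a ha, h1 b hb⟩]
    · obtain ⟨U, hU, h1⟩ := hz x hx
      refine ⟨U, hU, fun a ha b hb => ?_⟩
      have := h1 a ha b hb
      beta_reduce at this ⊢
      rw [this]; simp
  · refine (hfin K hKc (fun z hz => Set.disjoint_left.1 hKd hz)).subset ?_
    rintro p ⟨hp, hs⟩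
    refine ⟨hp, ((p : ℂ) : S2), ?_, ?_⟩
    · rw [mem_cd, sub_self, norm_zero]; exact (h.pos p hp).le
    · refine hs ?_
      rw [mem_cd, sub_self, norm_zero]; exact (h.pos p hp).le

/-- the push-forward of an exactly supported cochain to the sphere -/
theorem NF.push (h : NF X E T P r κ lam) {ρ : ℝ → ℝ} (hρ0 : ∀ p ∈ T ∪ P, 0 < ρ p)
    (hρ : ∀ p ∈ T ∪ P, ρ p < r p) {Q : Set ℝ} (hQ : Q ⊆ T ∪ P) {K : Set S2} (hK : IsClosed K)
    (hKE : Disjoint K (pt E)) (hsat : ∀ p ∈ T ∪ P, cd p (r p) ⊆ K ∨ Disjoint (cd p (r p)) K)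
    {a : X → X → F} (hex : ∀ x y, (κ x ∉ K ∨ κ y ∉ K) → a x y = 0)
    (ha : Coc {x | ∀ q ∈ T ∪ P, κ x ∉ cd q (ρ q)} a) {f : X → F}
    (hf : Near2 {x | ∃ p ∈ (T ∪ P) \ Q, κ x ∈ an p (ρ p) (r p)} fun x y => a x y = f x + f y)
    (hf0 : ∀ x, κ x ∉ K → f x = 0) :
    ∃ (ψ : S2 → S2 → F) (g : X → F), Coc {z | ∀ q ∈ Q, z ∉ cd q (ρ q)} ψ ∧
      (Near2 {x | ∀ q ∈ T ∪ P, κ x ∉ cd q (ρ q)} fun x y => ψ (κ x) (κ y) =
        a x y + (g x + g y)) ∧
      (∀ p ∈ (T ∪ P) \ Q, ∀ z ∈ dd p ((ρ p + r p) / 2), ∀ w ∈ dd p ((ρ p + r p) / 2),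
        ψ z w = 0) ∧
      (∀ p ∈ (T ∪ P) \ Q, ∀ x, κ x ∈ dd p ((ρ p + r p) / 2) → g x = f x) ∧
      (∀ p ∈ Q, ∀ x, κ x ∈ dd p (r p) → g x = 0) := by
  classical
  set s : ℝ → ℝ := fun p => (ρ p + r p) / 2 with hs
  have hs1 : ∀ p ∈ T ∪ P, ρ p < s p := fun p hp => by have := hρ p hp; simp only [hs]; linarith
  have hs2 : ∀ p ∈ T ∪ P, s p < r p := fun p hp => by have := hρ p hp; simp only [hs]; linarith
  set W : Set S2 := {z | ∃ p ∈ (T ∪ P) \ Q, z ∈ dd p (s p)} with hW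
  set g : X → F := fun x => if κ x ∈ W then f x else 0 with hg
  set ψ : S2 → S2 → F := fun z w => if z ∉ K ∨ w ∉ K then 0 else if z ∈ W ∧ w ∈ W then 0 else
    a (lam z) (lam w) + (g (lam z) + g (lam w)) with hψ
  have hgK : ∀ x, κ x ∉ K → g x = 0 := by
    intro x hx
    simp only [hg]
    rw [hf0 x hx]; simp
  -- the basic comparison
  have key : Near2 {z | z ∉ pt E ∧ ∀ q ∈ T ∪ P, z ∉ cd q (ρ q)} fun z w =>
      ψ z w = a (lam z) (lam w) + (g (lam z) + g (lam w)) := by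
    rintro z ⟨hzE, hzc⟩
    have hzpt : z ∉ pt (T ∪ P) := by
      rintro ⟨p, hp, rfl⟩
      refine hzc p hp ?_
      rw [mem_cd, sub_self, norm_zero]; exact (hρ0 p hp).le
    obtain ⟨N0, hN0, hN0'⟩ := h.near_pt hzE hzpt
    by_cases hzd : ∃ p ∈ (T ∪ P) \ Q, z ∈ dd p (r p)
    · obtain ⟨p, hp, hzp⟩ := hzd
      have hlz : κ (lam z) = z := h.κlam z hzE
      obtain ⟨U, hU, hU'⟩ := hf (lam z) ⟨p, hp, by
        rw [hlz, an_eq]; exact ⟨hzp, hzc p hp.1⟩⟩
      refine ⟨lam ⁻¹' U ∩ N0 ∩ dd p (r p), inter_mem (inter_mem (h.lamc z hzE hzpt hU) hN0)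
        ((isOpen_dd _ _).mem_nhds hzp), ?_⟩
      rintro u ⟨⟨hu1, hu2⟩, hu3⟩ v ⟨⟨hv1, hv2⟩, hv3⟩
      beta_reduce
      have lu := h.κlam u (hN0' u hu2).1
      have lv := h.κlam v (hN0' v hv2).1
      by_cases huv : u ∉ K ∨ v ∉ K
      · have hboth : u ∉ K ∧ v ∉ K := by
          rcases hsat p hp.1 with h1 | h1
          · exfalso
            rcases huv with h2 | h2
            · exact h2 (h1 (dd_sub_cd le_rfl hu3))
            · exact h2 (h1 (dd_sub_cd le_rfl hv3))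
          · exact ⟨Set.disjoint_left.1 h1 (dd_sub_cd le_rfl hu3),
              Set.disjoint_left.1 h1 (dd_sub_cd le_rfl hv3)⟩
        have e1 : ψ u v = 0 := if_pos huv
        rw [e1, hex _ _ (by rw [lu, lv]; exact huv), hgK _ (by rw [lu]; exact hboth.1),
          hgK _ (by rw [lv]; exact hboth.2)]
        simp
      · by_cases hWW : u ∈ W ∧ v ∈ W
        · have e1 : ψ u v = 0 := by
            simp only [hψ]
            rw [if_neg huv, if_pos hWW]
          have e2 : g (lam u) = f (lam u) := by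
            simp only [hg]
            rw [if_pos (by rw [lu]; exact hWW.1)]
          have e3 : g (lam v) = f (lam v) := by
            simp only [hg]
            rw [if_pos (by rw [lv]; exact hWW.2)]
          have e4 := hU' _ hu1 _ hv1
          beta_reduce at e4
          rw [e1, e2, e3, e4]
          exact (F_add_self _).symm
        · simp only [hψ]
          rw [if_neg huv, if_neg hWW]
    · push Not at hzd
      obtain ⟨N1, hN1, hN1'⟩ := h.near_dd (J := (T ∪ P) \ Q) (fun p hp => hp.1) (s := s)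
        (fun p hp => hs2 p hp.1) hzE hzd
      refine ⟨N0 ∩ N1, inter_mem hN0 hN1, ?_⟩
      rintro u ⟨hu1, hu2⟩ v ⟨hv1, hv2⟩
      beta_reduce
      have lu := h.κlam u (hN0' u hu1).1
      have lv := h.κlam v (hN0' v hv1).1
      have nW : ∀ u ∈ N1, u ∉ W := by
        rintro u hu ⟨p, hp, hup⟩
        exact hN1' u hu p hp (dd_sub_cd le_rfl hup)
      have e2 : g (lam u) = 0 := by
        simp only [hg]
        rw [if_neg (by rw [lu]; exact nW u hu2)]
      have e3 : g (lam v) = 0 := by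
        simp only [hg]
        rw [if_neg (by rw [lv]; exact nW v hv2)]
      by_cases huv : u ∉ K ∨ v ∉ K
      · have e1 : ψ u v = 0 := if_pos huv
        rw [e1, hex _ _ (by rw [lu, lv]; exact huv), e2, e3]
        simp
      · simp only [hψ]
        rw [if_neg huv, if_neg fun h => nW u hu2 h.1]
  refine ⟨ψ, g, ?_, ?_, ?_, ?_, ?_⟩
  · intro z hz
    by_cases hzE : z ∈ pt E
    · have hzK : z ∉ K := fun h1 => Set.disjoint_left.1 hKE h1 hzE
      refine ⟨Kᶜ, hK.isOpen_compl.mem_nhds hzK, fun u hu v hv w hw => ?_⟩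
      have e1 : ψ u v = 0 := if_pos (Or.inl hu)
      have e2 : ψ v w = 0 := if_pos (Or.inl hv)
      have e3 : ψ u w = 0 := if_pos (Or.inl hu)
      beta_reduce
      rw [e1, e2, e3]; simp
    · by_cases hzc : ∃ p ∈ T ∪ P, z ∈ cd p (ρ p)
      · obtain ⟨p, hp, hzp⟩ := hzc
        have hpQ : p ∉ Q := fun h1 => hz p h1 hzp
        refine ⟨dd p (s p), (isOpen_dd _ _).mem_nhds (cd_sub_dd (hs1 p hp) hzp),
          fun u hu v hv w hw => ?_⟩
        have e0 : ∀ u ∈ dd p (s p), ∀ v ∈ dd p (s p), ψ u v = 0 := by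
          intro u hu v hv
          simp only [hψ]
          split_ifs with h1 h2
          · rfl
          · rfl
          · exact absurd (⟨⟨p, ⟨hp, hpQ⟩, hu⟩, ⟨p, ⟨hp, hpQ⟩, hv⟩⟩ : u ∈ W ∧ v ∈ W) h2
        beta_reduce
        rw [e0 u hu v hv, e0 v hv w hw, e0 u hu w hw]; simp
      · push Not at hzc
        have hS : IsOpen {z : S2 | z ∉ pt E} := h.isClosed_pt.isOpen_compl
        have hzpt : z ∉ pt (T ∪ P) := by
          rintro ⟨p, hp, rfl⟩
          refine hzc p hp ?_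
          rw [mem_cd, sub_self, norm_zero]; exact (hρ0 p hp).le
        have h1 : Coc {z' | z' = z} fun u v => a (lam u) (lam v) + (g (lam u) + g (lam v)) := by
          have h2 : Coc {z' | z' = z} fun u v => a (lam u) (lam v) := by
            refine Near3.comap ha (g := lam) (fun u hu => ?_) fun u hu => ?_
            · have hu : u = z := hu
              subst hu; exact h.lamc _ hzE hzpt
            · have hu : u = z := hu
              subst hu
              show ∀ q ∈ T ∪ P, κ (lam u) ∉ cd q (ρ q)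
              rw [h.κlam _ hzE]; exact hzc
          exact h2.add (coc_cob _ fun u => g (lam u))
        have h3 := key.mono (T := {z' | z' = z}) (by
          intro u hu
          have hu : u = z := hu
          subst hu; exact ⟨hzE, hzc⟩) fun _ _ h => h.symm
        exact (h1.congr h3) z rfl
  · have h1 := key.comap (S := {x | ∀ q ∈ T ∪ P, κ x ∉ cd q (ρ q)}) (g := κ)
      (fun x _ => h.κc.continuousAt) fun x hx => ⟨h.κE x, hx⟩
    have h2 : Near2 {x | ∀ q ∈ T ∪ P, κ x ∉ cd q (ρ q)} fun x y =>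
        lam (κ x) = x ∧ lam (κ y) = y := by
      intro x hx
      have hxpt : κ x ∉ pt (T ∪ P) := by
        rintro ⟨p, hp, he⟩
        refine hx p hp ?_
        rw [← he]
        beta_reduce
        rw [mem_cd, sub_self, norm_zero]; exact (hρ0 p hp).le
      obtain ⟨N, hN, hN'⟩ := h.near_pt (h.κE x) hxpt
      exact ⟨κ ⁻¹' N, h.κc.continuousAt hN, fun u hu v hv =>
        ⟨h.lamκ u (hN' _ hu).2, h.lamκ v (hN' _ hv).2⟩⟩
    refine (h1.and h2).mono subset_rfl fun x y h => ?_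
    beta_reduce at h ⊢
    rw [h.1, h.2.1, h.2.2]
  · intro p hp z hz w hw
    simp only [hψ]
    split_ifs with h1 h2
    · rfl
    · rfl
    · exact absurd (⟨⟨p, hp, hz⟩, ⟨p, hp, hw⟩⟩ : z ∈ W ∧ w ∈ W) h2
  · intro p hp x hx
    exact if_pos ⟨p, hp, hx⟩
  · intro q hq x hx
    refine if_neg ?_
    rintro ⟨p, hp, hxp⟩
    have := h.eq_of_mem hp.1 (hQ hq) (dd_sub_cd (hs2 p hp.1).le hxp) (dd_sub_cd le_rfl hx)
    exact hp.2 (this ▸ hq)

end

end Pool.Agent.SRF.V
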