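import Pool.Agent.SRF.V.Circ
import Pool.Agent.SRF.V.Ext

/-!
# The model of a handle: the punctured torus (SRF, Part V)
-/

set_option linter.unusedTactic false

namespace Pool.Agent.SRF.V

open Topology Filter Set

/-- the properties of a model block -/
structure MB {Y : Type*} [TopologicalSpace Y] (S : Set Y) (α β c : Y → Y → F) : Prop where
  ca : Coc S α
  cb : Coc S β
  supp : ∃ K ⊆ S, IsCompact K ∧ Zer (S \ K) α ∧ Zer (S \ K) β
  gen : ∀ a : Y → Y → F, Coc S a → ∃ x y : F, Triv S fun u v => a u v + (x * α u v + y * β u v)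
  dc : Near3 S fun x y z => c x y + c y z + c x z = α x y * β y z
  nt : ∀ K ⊆ S, IsCompact K → ¬ Triv (S \ K) c

/-- the torus -/
abbrev Tor := Cir × Cir

/-- the puncture -/
def oo : Tor := (((0:ℝ) : Cir), ((0:ℝ) : Cir))

/-- the universal cover -/
def tw (z : ℝ × ℝ) : Tor := ((z.1 : Cir), (z.2 : Cir))

theorem isOpenMap_tw : IsOpenMap tw := isOpenMap_coe_cir.prodMap isOpenMap_coe_cir

theorem continuous_tw : Continuous tw :=
  (continuous_coe_cir.comp continuous_fst).prodMk (continuous_coe_cir.comp continuous_snd)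

theorem surj_tw (x : Tor) : ∃ z, tw z = x := by
  obtain ⟨s, hs⟩ := surj_coe_cir x.1
  obtain ⟨t, ht⟩ := surj_coe_cir x.2
  exact ⟨(s, t), Prod.ext hs ht⟩

noncomputable def tα (x y : Tor) : F := crc (-1/2) x.1 y.1
noncomputable def tβ (x y : Tor) : F := crc (-1/2) x.2 y.2
noncomputable def tα0 (x y : Tor) : F := crc 0 x.1 y.1
noncomputable def tβ0 (x y : Tor) : F := crc 0 x.2 y.2
noncomputable def tc (x y : Tor) : F := hf x.1 * tβ x y + tα0 x y * hf y.2

theorem Near2.fst {P : Cir → Cir → Prop} {S : Set Cir} (h : Near2 S P) :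
    Near2 (Prod.fst ⁻¹' S : Set Tor) fun x y => P x.1 y.1 :=
  h.comap (fun _ _ => continuous_fst.continuousAt) fun _ h => h

theorem Near2.snd {P : Cir → Cir → Prop} {S : Set Cir} (h : Near2 S P) :
    Near2 (Prod.snd ⁻¹' S : Set Tor) fun x y => P x.2 y.2 :=
  h.comap (fun _ _ => continuous_snd.continuousAt) fun _ h => h

theorem tα_coc : Coc univ tα :=
  Near3.comap (crc_coc _) (fun _ _ => continuous_fst.continuousAt) fun _ _ => mem_univ _

theorem tβ_coc : Coc univ tβ :=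
  Near3.comap (crc_coc _) (fun _ _ => continuous_snd.continuousAt) fun _ _ => mem_univ _

theorem tα0_coc : Coc univ tα0 :=
  Near3.comap (crc_coc _) (fun _ _ => continuous_fst.continuousAt) fun _ _ => mem_univ _

theorem tβ0_coc : Coc univ tβ0 :=
  Near3.comap (crc_coc _) (fun _ _ => continuous_snd.continuousAt) fun _ _ => mem_univ _

theorem t_add_α : Near2 (univ : Set Tor) fun x y => tα x y + tα0 x y = hf x.1 + hf y.1 :=
  crc_add.fst

theorem t_add_β : Near2 (univ : Set Tor) fun x y => tβ x y + tβ0 x y = hf x.2 + hf y.2 :=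
  crc_add.snd

theorem tα_zer : Zer (Prod.fst ⁻¹' {((-1/2 : ℝ) : Cir)}ᶜ) tα := (crc_zer _).fst
theorem tβ_zer : Zer (Prod.snd ⁻¹' {((-1/2 : ℝ) : Cir)}ᶜ) tβ := (crc_zer _).snd
theorem tα0_zer : Zer (Prod.fst ⁻¹' {((0 : ℝ) : Cir)}ᶜ) tα0 := (crc_zer _).fst
theorem tβ0_zer : Zer (Prod.snd ⁻¹' {((0 : ℝ) : Cir)}ᶜ) tβ0 := (crc_zer _).snd

/-- the cup product `α ∪ β` is the coboundary of `tc` off the puncture -/
theorem t_dc : Near3 ({oo}ᶜ : Set Tor) fun x y z =>
    tc x y + tc y z + tc x z = tα x y * tβ y z := by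
  have h1 := cup_left tβ_coc fun x : Tor => hf x.1
  have h2 := cup_right tα0_coc fun x : Tor => hf x.2
  have h3 := t_add_α.to3
  have h4 := t_add_β.to3
  have h5 : Near3 ({oo}ᶜ : Set Tor) fun x y z => tα0 x y * tβ0 y z = 0 := by
    intro x hx
    by_cases hx1 : x.1 = ((0:ℝ) : Cir)
    · have hx2 : x.2 ≠ ((0:ℝ) : Cir) := fun h => hx (Prod.ext hx1 h)
      obtain ⟨U, hU, h⟩ := tβ0_zer x hx2
      refine ⟨U, hU, fun a ha b hb d hd => ?_⟩
      have := h b hb d hd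
      beta_reduce at this ⊢
      rw [this, mul_zero]
    · obtain ⟨U, hU, h⟩ := tα0_zer x hx1
      refine ⟨U, hU, fun a ha b hb d hd => ?_⟩
      have := h a ha b hb
      beta_reduce at this ⊢
      rw [this, zero_mul]
  have h12 := (Near3.and (Near3.and h1 h2) (Near3.and h3 h4)).mono
    (subset_univ ({oo}ᶜ : Set Tor)) fun _ _ _ => id
  refine (Near3.and h12 h5).mono subset_rfl fun x y z h => ?_
  beta_reduce at h ⊢
  obtain ⟨⟨⟨e1, e2⟩, ⟨e3, -⟩, -, e4, -⟩, e5⟩ := h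
  have e6 : tα0 x y * (hf y.2 + hf z.2) = tα0 x y * tβ y z := by
    rw [← e4, mul_add, e5, add_zero]
  have e7 : tc x y + tc y z + tc x z = (hf x.1 + hf y.1) * tβ y z +
      tα0 x y * (hf y.2 + hf z.2) := by
    rw [← e1, ← e2, tc, tc, tc]; ring
  rw [e7, e6, ← e3]
  generalize tα x y = p
  generalize tα0 x y = q
  generalize tβ y z = r
  revert p q r; decide

theorem fl_zero_of {x : ℝ} (h : |x| < 1/4) : fl 0 x = if x < 0 then 1 else 0 := by
  rw [abs_lt] at h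
  rw [fl]
  split_ifs with h0
  · have : ⌊x - 0⌋ = -1 := by
      rw [Int.floor_eq_iff]; push_cast; constructor <;> linarith [h.1]
    rw [this]; decide
  · have : ⌊x - 0⌋ = 0 := by
      rw [Int.floor_eq_iff]; push_cast; constructor <;> linarith [h.2]
    rw [this]; rfl

theorem fl_half_of {x : ℝ} (h : |x| < 1/4) : fl (-1/2) x = 0 := by
  rw [abs_lt] at h
  rw [fl]
  have : ⌊x - (-1/2)⌋ = 0 := by
    rw [Int.floor_eq_iff]; push_cast; constructor <;> linarith [h.1, h.2]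
  rw [this]; rfl

theorem tc_near {z w : ℝ × ℝ} (hz1 : |z.1| < 1/4) (hz2 : |z.2| < 1/4) (hw1 : |w.1| < 1/4)
    (hw2 : |w.2| < 1/4) : tc (tw z) (tw w) =
      ((if z.1 < 0 then 1 else 0) + (if w.1 < 0 then 1 else 0)) * (if w.2 < 0 then 1 else 0) := by
  have d1 : |z.1 - w.1| < 1/2 := by
    rw [abs_lt] at *; constructor <;> linarith [hz1.1, hz1.2, hw1.1, hw1.2]
  have d2 : |z.2 - w.2| < 1/2 := by
    rw [abs_lt] at *; constructor <;> linarith [hz2.1, hz2.2, hw2.1, hw2.2]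
  have e1 : tβ (tw z) (tw w) = 0 := by
    show crc (-1/2) ((z.2 : ℝ) : Cir) ((w.2 : ℝ) : Cir) = 0
    rw [crc_lift_of d2, fl_half_of hz2, fl_half_of hw2]; rfl
  have e2 : tα0 (tw z) (tw w) = (if z.1 < 0 then 1 else 0) + (if w.1 < 0 then 1 else 0) := by
    show crc 0 ((z.1 : ℝ) : Cir) ((w.1 : ℝ) : Cir) = _
    rw [crc_lift_of d1, fl_zero_of hz1, fl_zero_of hw1]
  have e3 : hf (tw w).2 = if w.2 < 0 then 1 else 0 := by
    show hf ((w.2 : ℝ) : Cir) = _
    rw [hf_coe, fl_half_of hw2, fl_zero_of hw2, zero_add]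
  rw [tc, e1, e2, e3, mul_zero, zero_add]

/-- `tc` is not trivial near the puncture -/
theorem tc_nt (K : Set Tor) (hK : K ⊆ {oo}ᶜ) (hKc : IsCompact K) : ¬ Triv ({oo}ᶜ \ K) tc := by
  rintro ⟨f, hf'⟩
  have h1 : tw ⁻¹' Kᶜ ∈ 𝓝 ((0, 0) : ℝ × ℝ) := by
    refine continuous_tw.continuousAt (hKc.isClosed.isOpen_compl.mem_nhds ?_)
    intro h
    exact hK h rfl
  obtain ⟨δ, hδ, hδK⟩ := Metric.mem_nhds_iff.1 h1
  set ε := min δ (1/4) with hε
  have hε0 : 0 < ε := lt_min hδ (by norm_num)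
  have hε4 : ε ≤ 1/4 := min_le_right _ _
  have hεδ : ε ≤ δ := min_le_left _ _
  set Q : Set (ℝ × ℝ) := Metric.ball 0 ε with hQ
  have memQ : ∀ z : ℝ × ℝ, z ∈ Q ↔ |z.1| < ε ∧ |z.2| < ε := by
    intro z
    rw [hQ, Metric.mem_ball, dist_zero_right, Prod.norm_def, max_lt_iff, Real.norm_eq_abs,
      Real.norm_eq_abs]
  have hQo : IsOpen Q := Metric.isOpen_ball
  have hoo : ∀ z ∈ Q, z ≠ 0 → tw z ∈ {oo}ᶜ \ K := by
    intro z hz hz0
    refine ⟨fun h => hz0 ?_, ?_⟩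
    · have h := (Prod.ext_iff.1 (mem_singleton_iff.1 h))
      have hz' := (memQ z).1 hz
      have key : ∀ x : ℝ, |x| < ε → (x : Cir) = ((0:ℝ) : Cir) → x = 0 := by
        intro x hx h
        have h1 : rp (-1/2) (x : Cir) = rp (-1/2) ((0:ℝ) : Cir) := by rw [h]
        rw [rp_zero, rp_coe] at h1
        rw [abs_lt] at hx
        have : ⌊x - (-1/2)⌋ = 0 := by
          rw [Int.floor_eq_iff]; push_cast; constructor <;> linarith [hx.1, hx.2]
        rw [this] at h1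
        simpa using h1
      exact Prod.ext (key _ hz'.1 h.1) (key _ hz'.2 h.2)
    · have : z ∈ Metric.ball ((0, 0) : ℝ × ℝ) δ := Metric.ball_subset_ball hεδ hz
      exact hδK this
  have hg : Near2 (Q \ {0}) fun z w => f (tw z) + f (tw w) =
      ((if z.1 < 0 then 1 else 0) + (if w.1 < 0 then 1 else 0)) *
        (if w.2 < 0 then (1:F) else 0) := by
    have h2 := hf'.comap (S := Q \ {0}) (g := tw) (fun _ _ => continuous_tw.continuousAt)
      fun z hz => hoo z hz.1 hz.2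
    intro z hz
    obtain ⟨U, hU, h⟩ := h2 z hz
    refine ⟨U ∩ Q, inter_mem hU (hQo.mem_nhds hz.1), fun a ha b hb => ?_⟩
    have := h a ha.1 b hb.1
    beta_reduce at this ⊢
    have ha' := (memQ a).1 ha.2
    have hb' := (memQ b).1 hb.2
    rw [← this, tc_near (ha'.1.trans_le hε4) (ha'.2.trans_le hε4) (hb'.1.trans_le hε4)
      (hb'.2.trans_le hε4)]
  have hconst : ∀ P : Set (ℝ × ℝ), IsOpen P → Convex ℝ P → P ⊆ Q \ {0} →
      (∀ a ∈ P, ∀ b ∈ P, ((if a.1 < 0 then 1 else 0) + (if b.1 < 0 then 1 else 0)) *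
        (if b.2 < 0 then (1:F) else 0) = 0) → ∀ a ∈ P, ∀ b ∈ P, f (tw a) = f (tw b) := by
    intro P hP hPc hPQ h0 a ha b hb
    refine const_of_near (f := fun z => f (tw z)) hPc.isPreconnected ?_ ha hb
    intro z hz
    obtain ⟨U, hU, h⟩ := hg z (hPQ hz)
    refine ⟨U ∩ P, inter_mem hU (hP.mem_nhds hz), fun a ha b hb => ?_⟩
    have := h a ha.1 b hb.1
    beta_reduce at this ⊢
    rw [h0 a ha.2 b hb.2] at this
    have e : ∀ x y : F, x + y = 0 → x = y := by decide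
    exact e _ _ this
  have hQc : Convex ℝ Q := convex_ball _ _
  have cR : Convex ℝ (Q ∩ {z : ℝ × ℝ | 0 < z.1}) :=
    hQc.inter ((convex_Ioi (0:ℝ)).is_linear_preimage (LinearMap.fst ℝ ℝ ℝ).isLinear)
  have cL : Convex ℝ (Q ∩ {z : ℝ × ℝ | z.1 < 0}) :=
    hQc.inter ((convex_Iio (0:ℝ)).is_linear_preimage (LinearMap.fst ℝ ℝ ℝ).isLinear)
  have cT : Convex ℝ (Q ∩ {z : ℝ × ℝ | 0 < z.2}) :=
    hQc.inter ((convex_Ioi (0:ℝ)).is_linear_preimage (LinearMap.snd ℝ ℝ ℝ).isLinear)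
  have kR := hconst _ (hQo.inter (isOpen_lt continuous_const continuous_fst)) cR
    (fun z hz => ⟨hz.1, fun h => by rw [mem_singleton_iff] at h; rw [h] at hz; exact lt_irrefl (0:ℝ) hz.2⟩)
    (fun a ha b hb => by
      have h1 : ¬ a.1 < 0 := not_lt.2 (le_of_lt ha.2)
      have h2 : ¬ b.1 < 0 := not_lt.2 (le_of_lt hb.2)
      rw [if_neg h1, if_neg h2]; simp)
  have kL := hconst _ (hQo.inter (isOpen_lt continuous_fst continuous_const)) cL
    (fun z hz => ⟨hz.1, fun h => by rw [mem_singleton_iff] at h; rw [h] at hz; exact lt_irrefl (0:ℝ) hz.2⟩)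
    (fun a ha b hb => by
      have h1 : a.1 < 0 := ha.2
      have h2 : b.1 < 0 := hb.2
      rw [if_pos h1, if_pos h2]
      have : ∀ x : F, (1 + 1) * x = 0 := by decide
      exact this _)
  have kT := hconst _ (hQo.inter (isOpen_lt continuous_const continuous_snd)) cT
    (fun z hz => ⟨hz.1, fun h => by rw [mem_singleton_iff] at h; rw [h] at hz; exact lt_irrefl (0:ℝ) hz.2⟩)
    (fun a ha b hb => by
      have h2 : ¬ b.2 < 0 := not_lt.2 (le_of_lt hb.2)
      rw [if_neg h2]; simp)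
  have hmem : ∀ s t : ℝ, |s| < ε → |t| < ε → ((s, t) : ℝ × ℝ) ∈ Q := fun s t hs ht =>
    (memQ _).2 ⟨hs, ht⟩
  have he2 : |ε/2| < ε := by rw [abs_of_pos (by linarith)]; linarith
  have he2' : |-(ε/2)| < ε := by rw [abs_neg]; exact he2
  -- a point on the ray
  obtain ⟨U, hU, h⟩ := hg (0, -(ε/2)) ⟨hmem _ _ (by simpa using hε0) he2', fun h => by
    rw [mem_singleton_iff, Prod.ext_iff] at h
    have := h.2
    dsimp at this
    linarith⟩
  obtain ⟨η, hη, hηU⟩ := Metric.mem_nhds_iff.1 hU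
  set ζ := min (η/2) (ε/2) with hζ
  have hζ0 : 0 < ζ := lt_min (by linarith) (by linarith)
  have hζη : ζ < η := lt_of_le_of_lt (min_le_left _ _) (by linarith)
  have hζε : ζ < ε := lt_of_le_of_lt (min_le_right _ _) (by linarith)
  have m1 : ((ζ, -(ε/2)) : ℝ × ℝ) ∈ U := hηU (by
    rw [Metric.mem_ball, Prod.dist_eq]
    simp [Real.dist_eq, abs_of_pos hζ0, hζη, hη])
  have m2 : ((-ζ, -(ε/2)) : ℝ × ℝ) ∈ U := hηU (by
    rw [Metric.mem_ball, Prod.dist_eq]
    simp [Real.dist_eq, abs_of_pos hζ0, hζη, hη])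
  have h3 := h _ m1 _ m2
  beta_reduce at h3
  dsimp only at h3
  rw [if_neg (not_lt.2 hζ0.le), if_pos (by linarith : -ζ < 0),
    if_pos (by linarith : -(ε/2) < 0)] at h3
  have aζ : |ζ| < ε := by rw [abs_of_pos hζ0]; exact hζε
  have aζ' : |-ζ| < ε := by rw [abs_neg]; exact aζ
  have q1 := kR (ζ, -(ε/2)) ⟨hmem _ _ aζ he2', hζ0⟩ (ζ, ε/2) ⟨hmem _ _ aζ he2, hζ0⟩
  have q2 := kT (ζ, ε/2) ⟨hmem _ _ aζ he2, by show 0 < ε/2; linarith⟩ (-ζ, ε/2)
    ⟨hmem _ _ aζ' he2, by show 0 < ε/2; linarith⟩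
  have q3 := kL (-ζ, ε/2) ⟨hmem _ _ aζ' he2, by show -ζ < 0; linarith⟩ (-ζ, -(ε/2))
    ⟨hmem _ _ aζ' he2', by show -ζ < 0; linarith⟩
  rw [q1, q2, q3, F_add_self] at h3
  exact absurd h3 (by decide)

end Pool.Agent.SRF.V
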