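import Pool.Agent.SRF.V.Tor

/-!
# Cocycles on the punctured torus (SRF, Part V)
-/

set_option linter.unusedTactic false

namespace Pool.Agent.SRF.V

open Topology Filter Set

/-- the punctured plane covers the torus -/
noncomputable def tt (z : ℂ) : Tor :=
  (((Real.log ‖z‖ / (2 * Real.pi) : ℝ) : Cir), ((Complex.arg z / (2 * Real.pi) : ℝ) : Cir))

theorem two_pi_pos : 0 < 2 * Real.pi := by positivity

theorem tt_cont {z : ℂ} (hz : z ≠ 0) : ContinuousAt tt z := by
  refine ContinuousAt.prodMk ?_ ?_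
  · refine continuous_coe_cir.continuousAt.comp ?_
    refine ContinuousAt.div_const ?_ _
    exact (Real.continuousAt_log (norm_ne_zero_iff.2 hz)).comp continuous_norm.continuousAt
  · have h1 := Complex.continuousAt_arg_coe_angle hz
    have h2 := (AddCircle.homeomorphAddCircle (2 * Real.pi) (1:ℝ) two_pi_pos.ne'
      one_ne_zero).continuous.continuousAt (x := ((Complex.arg z : ℝ) : AddCircle (2 * Real.pi)))
    have h3 : ContinuousAt (fun z : ℂ => (AddCircle.homeomorphAddCircle (2 * Real.pi) (1:ℝ)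
      two_pi_pos.ne' one_ne_zero) ((Complex.arg z : ℝ) : AddCircle (2 * Real.pi))) z :=
      ContinuousAt.comp (f := fun z : ℂ => ((Complex.arg z : ℝ) : AddCircle (2 * Real.pi))) h2 h1
    refine h3.congr (Eventually.of_forall fun w => ?_)
    beta_reduce
    rw [AddCircle.homeomorphAddCircle_apply_mk]
    congr 1
    field_simp

theorem tt_one : tt 1 = oo := by
  simp [tt, oo]

theorem tt_mul {z : ℂ} (hz : z ≠ 0) :
    tt ((Real.exp (2 * Real.pi) : ℝ) * z) = tt z := by
  have h1 : ‖((Real.exp (2 * Real.pi) : ℝ) : ℂ) * z‖ = Real.exp (2 * Real.pi) * ‖z‖ := by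
    rw [norm_mul, Complex.norm_real, Real.norm_eq_abs, abs_of_pos (Real.exp_pos _)]
  refine Prod.ext ?_ ?_
  · show ((Real.log ‖((Real.exp (2 * Real.pi) : ℝ) : ℂ) * z‖ / (2 * Real.pi) : ℝ) : Cir) =
      ((Real.log ‖z‖ / (2 * Real.pi) : ℝ) : Cir)
    rw [h1, Real.log_mul (Real.exp_pos _).ne' (norm_ne_zero_iff.2 hz), Real.log_exp, add_div,
      div_self two_pi_pos.ne', AddCircle.coe_add, add_eq_right]
    exact (AddCircle.coe_eq_zero_iff (p := (1:ℝ))).2 ⟨1, by simp⟩
  · show ((Complex.arg (((Real.exp (2 * Real.pi) : ℝ) : ℂ) * z) / (2 * Real.pi) : ℝ) : Cir) =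
      ((Complex.arg z / (2 * Real.pi) : ℝ) : Cir)
    rw [Complex.arg_real_mul _ (Real.exp_pos _)]

theorem rp_eq_self {x : ℝ} (h1 : -1/2 ≤ x) (h2 : x < 1/2) : rp (-1/2) (x : Cir) = x := by
  rw [rp_coe]
  have : ⌊x - (-1/2)⌋ = 0 := by
    rw [Int.floor_eq_iff]; push_cast; constructor <;> linarith
  rw [this]; simp

theorem tt_ne {z : ℂ} (h0 : Real.exp (-(2 * Real.pi)) < ‖z‖) (h1 : ‖z‖ < Real.exp (2 * Real.pi))
    (hz : z ≠ 1) : tt z ≠ oo := by
  intro h
  have hz0 : 0 < ‖z‖ := (Real.exp_pos _).trans h0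
  obtain ⟨e1, e2⟩ := Prod.ext_iff.1 h
  have e1 : ((Real.log ‖z‖ / (2 * Real.pi) : ℝ) : Cir) = ((0:ℝ) : Cir) := e1
  have e2 : ((Complex.arg z / (2 * Real.pi) : ℝ) : Cir) = ((0:ℝ) : Cir) := e2
  rw [show ((0:ℝ) : Cir) = 0 from rfl, AddCircle.coe_eq_zero_iff] at e1 e2
  obtain ⟨n, hn⟩ := e1
  obtain ⟨m, hm⟩ := e2
  rw [zsmul_eq_mul, mul_one] at hn hm
  have l1 : -(2 * Real.pi) < Real.log ‖z‖ := (Real.lt_log_iff_exp_lt hz0).2 h0
  have l2 : Real.log ‖z‖ < 2 * Real.pi := (Real.log_lt_iff_lt_exp hz0).2 h1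
  have n0 : n = 0 := by
    have a1 : (-1 : ℝ) < n := by
      rw [hn, lt_div_iff₀ two_pi_pos]; linarith
    have a2 : (n : ℝ) < 1 := by
      rw [hn, div_lt_one two_pi_pos]; exact l2
    have b1 : -1 < n := by exact_mod_cast a1
    have b2 : n < 1 := by exact_mod_cast a2
    omega
  have m0 : m = 0 := by
    have a1 : (-1 : ℝ) < m := by
      rw [hm, lt_div_iff₀ two_pi_pos]
      have := Complex.neg_pi_lt_arg z
      have := Real.pi_pos
      linarith
    have a2 : (m : ℝ) < 1 := by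
      rw [hm, div_lt_one two_pi_pos]
      have := Complex.arg_le_pi z
      have := Real.pi_pos
      linarith
    have b1 : -1 < m := by exact_mod_cast a1
    have b2 : m < 1 := by exact_mod_cast a2
    omega
  rw [n0, Int.cast_zero, eq_comm, div_eq_zero_iff] at hn
  rw [m0, Int.cast_zero, eq_comm, div_eq_zero_iff] at hm
  have hl : Real.log ‖z‖ = 0 := hn.resolve_right two_pi_pos.ne'
  have ha : Complex.arg z = 0 := hm.resolve_right two_pi_pos.ne'
  have hn1 : ‖z‖ = 1 := Real.eq_one_of_pos_of_log_eq_zero hz0 hl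
  apply hz
  have := Complex.norm_mul_exp_arg_mul_I z
  rw [hn1, ha] at this
  simpa using this.symm

/-- local section -/
noncomputable def tsig (x : Tor) : ℂ :=
  Complex.exp (((2 * Real.pi * rp (-1/2) x.1 : ℝ) : ℂ) +
    ((2 * Real.pi * rp (-1/2) x.2 : ℝ) : ℂ) * Complex.I)

theorem tsig_oo : tsig oo = 1 := by
  rw [tsig, oo]
  dsimp only
  rw [rp_zero]
  simp

theorem tt_tsig {x : Tor} (h : x.2 ≠ ((-1/2 : ℝ) : Cir)) : tt (tsig x) = x := by
  have hn : ‖tsig x‖ = Real.exp (2 * Real.pi * rp (-1/2) x.1) := by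
    rw [tsig, Complex.norm_exp]; simp
  have h2 := rp_mem (-1/2) x.2
  have h3 : rp (-1/2) x.2 ≠ -1/2 := by
    intro h4
    apply h
    rw [← h4, coe_rp]
  have h4 : -1/2 < rp (-1/2) x.2 := lt_of_le_of_ne h2.1 (Ne.symm h3)
  have h5 : rp (-1/2) x.2 < 1/2 := by have := h2.2; linarith
  have ha : Complex.arg (tsig x) = 2 * Real.pi * rp (-1/2) x.2 := by
    have hl : Complex.log (tsig x) = ((2 * Real.pi * rp (-1/2) x.1 : ℝ) : ℂ) +
        ((2 * Real.pi * rp (-1/2) x.2 : ℝ) : ℂ) * Complex.I := by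
      rw [tsig]
      refine Complex.log_exp ?_ ?_
      · simp only [Complex.add_im, Complex.ofReal_im, Complex.mul_im, Complex.ofReal_re,
          Complex.I_im, mul_one, Complex.I_re, mul_zero, add_zero, zero_add]
        nlinarith [Real.pi_pos]
      · simp only [Complex.add_im, Complex.ofReal_im, Complex.mul_im, Complex.ofReal_re,
          Complex.I_im, mul_one, Complex.I_re, mul_zero, add_zero, zero_add]
        nlinarith [Real.pi_pos]
    have := Complex.log_im (tsig x)
    rw [hl] at this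
    rw [← this]
    simp
  refine Prod.ext ?_ ?_
  · show ((Real.log ‖tsig x‖ / (2 * Real.pi) : ℝ) : Cir) = x.1
    rw [hn, Real.log_exp, mul_div_cancel_left₀ _ two_pi_pos.ne', coe_rp]
  · show ((Complex.arg (tsig x) / (2 * Real.pi) : ℝ) : Cir) = x.2
    rw [ha, mul_div_cancel_left₀ _ two_pi_pos.ne', coe_rp]

theorem tsig_cont {x : Tor} (h1 : x.1 ≠ ((-1/2 : ℝ) : Cir)) (h2 : x.2 ≠ ((-1/2 : ℝ) : Cir)) :
    ContinuousAt tsig x := by
  have c1 : ContinuousAt (fun x : Tor => rp (-1/2) x.1) x :=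
    (rp_cont h1).comp continuous_fst.continuousAt
  have c2 : ContinuousAt (fun x : Tor => rp (-1/2) x.2) x :=
    (rp_cont h2).comp continuous_snd.continuousAt
  unfold tsig
  refine Complex.continuous_exp.continuousAt.comp ?_
  refine ContinuousAt.add ?_ (ContinuousAt.mul ?_ continuousAt_const)
  · exact Complex.continuous_ofReal.continuousAt.comp (continuousAt_const.mul c1)
  · exact Complex.continuous_ofReal.continuousAt.comp (continuousAt_const.mul c2)

/-- a cocycle on the punctured torus is trivial near the puncture -/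
theorem torus_end {a : Tor → Tor → F} (ha : Coc {oo}ᶜ a) :
    ∃ N, IsOpen N ∧ oo ∈ N ∧ Triv (N \ {oo}) a := by
  set q := Real.exp (2 * Real.pi) with hq
  have hq1 : 2 < q := by
    have := Real.add_one_le_exp (2 * Real.pi)
    have := Real.pi_gt_three
    linarith
  have hqi : q⁻¹ = Real.exp (-(2 * Real.pi)) := by rw [hq, Real.exp_neg]
  have hqi1 : q⁻¹ < 1/2 := by
    rw [one_div]
    exact (inv_lt_inv₀ (by linarith) (by norm_num)).2 hq1
  have hqi0 : 0 < q⁻¹ := by positivity
  set φ : ℂ → ℂ → F := fun z w => a (tt z) (tt w) with hφ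
  have hφc : Coc (Ann 0 q⁻¹ q \ {1}) φ := by
    refine Near3.comap ha (g := tt) (fun z hz => tt_cont ?_) fun z hz => ?_
    · intro h0
      have := hz.1.1
      rw [h0] at this
      simp at this
      linarith
    · refine tt_ne ?_ ?_ hz.2
      · have := hz.1.1; rwa [sub_zero, hqi] at this
      · have := hz.1.2; rwa [sub_zero] at this
  have hA1 : Ann 0 q⁻¹ 1 ⊆ Ann 0 q⁻¹ q \ {1} := by
    intro z hz
    refine ⟨⟨hz.1, hz.2.trans (by linarith)⟩, fun h => ?_⟩
    rw [mem_singleton_iff] at h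
    have := hz.2
    rw [h] at this
    simp at this
  have hA2 : Ann 0 1 q ⊆ Ann 0 q⁻¹ q \ {1} := by
    intro z hz
    refine ⟨⟨lt_trans (by linarith) hz.1, hz.2⟩, fun h => ?_⟩
    rw [mem_singleton_iff] at h
    have := hz.1
    rw [h] at this
    simp at this
  have hA3 : Ann 1 0 (1/2) ⊆ Ann 0 q⁻¹ q \ {1} := by
    intro z hz
    have h1 : ‖z - 1‖ < 1/2 := hz.2
    have h2 : ‖z‖ ≤ ‖z - 1‖ + 1 := by
      have := norm_add_le (z - 1) 1
      rw [sub_add_cancel, norm_one] at this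
      exact this
    have h3 : 1 ≤ ‖z - 1‖ + ‖z‖ := by
      have := norm_add_le (1 - z) z
      rw [sub_add_cancel, norm_one, norm_sub_rev] at this
      exact this
    refine ⟨⟨?_, ?_⟩, fun h => ?_⟩
    · rw [sub_zero]; linarith
    · rw [sub_zero]; linarith
    · rw [mem_singleton_iff] at h
      have := hz.1
      rw [h] at this
      simp at this
  obtain ⟨m1, hm1⟩ := (hφc.mono hA1).exists_mono
  obtain ⟨m2, hm2⟩ := (hφc.mono hA2).exists_mono
  obtain ⟨m, hm⟩ := (hφc.mono hA3).exists_mono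
  -- invariance
  have e12 : m1 = m2 := by
    refine hm1.unique hqi0.le (by linarith) ?_
    obtain ⟨f, h1, h2⟩ := hm2
    have hs : ∀ w : ℂ, w ∈ Strip q⁻¹ 1 → w + ((2 * Real.pi : ℝ) : ℂ) ∈ Strip 1 q := by
      intro w hw
      have h3 := hw.1
      have h4 := hw.2
      have e : Real.exp (w + ((2 * Real.pi : ℝ) : ℂ)).re = Real.exp w.re * q := by
        rw [Complex.add_re, Complex.ofReal_re, Real.exp_add]
      constructor
      · rw [e]
        rw [inv_lt_iff_one_lt_mul₀ (by linarith)] at h3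
        exact h3
      · rw [e]; nlinarith
    refine ⟨fun w => f (w + ((2 * Real.pi : ℝ) : ℂ)), ?_, fun w hw => ?_⟩
    · have h3 := h1.comap (S := Strip q⁻¹ 1) (g := fun w : ℂ => w + ((2 * Real.pi : ℝ) : ℂ))
        (fun w _ => by apply Continuous.continuousAt; fun_prop) hs
      refine h3.mono subset_rfl fun a' b' h => ?_
      beta_reduce at h ⊢
      rw [← h, hφ]
      have e : ∀ w : ℂ, tt (cov 0 (w + ((2 * Real.pi : ℝ) : ℂ))) = tt (cov 0 w) := by
        intro w
        have : cov 0 (w + ((2 * Real.pi : ℝ) : ℂ)) =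
            ((Real.exp (2 * Real.pi) : ℝ) : ℂ) * cov 0 w := by
          rw [cov, cov, zero_add, zero_add, Complex.exp_add, Complex.ofReal_exp, mul_comm]
        rw [this, tt_mul]
        rw [cov, zero_add]
        exact Complex.exp_ne_zero _
      beta_reduce
      rw [e, e]
    · beta_reduce
      have := h2 _ (hs w hw)
      rw [← this]
      congr 1
      ring
  -- cancel the monodromy at 1
  set ψ : ℂ → ℂ → F := fun z w => φ z w + m * om 1 z w with hψ
  have hψc : Coc (Ann 0 q⁻¹ q \ Metric.closedBall 1 0) ψ := by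
    rw [Metric.closedBall_zero]
    refine hφc.add (((om_coc 1).mono ?_).smul m)
    intro z hz; exact hz.2
  have hψm : Mono 1 0 (1/2) ψ 0 := by
    have := hm.add ((om_mono 1 0 (1/2)).smul m)
    rw [mul_one, F_add_self] at this
    exact this
  obtain ⟨φ', g, h1, -, h2, h3⟩ := extend (S := Ann 0 q⁻¹ q) (p := 1) (r := 0) (R := 1/2) le_rfl
    (by norm_num) (fun z hz => by
      by_cases hz1 : z = 1
      · subst hz1
        constructor
        · rw [sub_zero, norm_one]; linarith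
        · rw [sub_zero, norm_one]; linarith
      · refine (hA3 ⟨?_, ?_⟩).1
        · rw [norm_pos_iff]; exact sub_ne_zero.2 hz1
        · rwa [← dist_eq_norm]) hψc (hψm.triv le_rfl)
  obtain ⟨k, hk⟩ := h1.exists_mono
  have key : ∀ r R : ℝ, Ann 0 r R ⊆ Ann 0 q⁻¹ q \ {1} → q⁻¹ ≤ r → R ≤ q →
      Mono 0 r R ψ k := by
    intro r R hs hr hR
    have a1 := hk.mono hr hR
    have a2 : Mono 0 r R (fun z w => g z + g w) 0 := Mono.of_triv (triv_cob _ g)
    have a3 := a1.add a2
    rw [add_zero] at a3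
    refine a3.congr ?_
    rw [Metric.closedBall_zero] at h2
    refine (h2.mono hs fun _ _ => id).mono subset_rfl fun z w h => ?_
    beta_reduce at h ⊢
    rw [h]
    have : ∀ x y : F, x + y + y = x := by decide
    exact this _ _
  have k1 := key _ _ hA1 le_rfl (by linarith)
  have k2 := key _ _ hA2 (by linarith) le_rfl
  have l1 : Mono 0 q⁻¹ 1 ψ (m1 + m * 0) := hm1.add ((om_mono_near (by simp)).smul m)
  have l2 : Mono 0 1 q ψ (m2 + m * 1) := hm2.add ((om_mono_far (by simp)).smul m)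
  have u1 := k1.unique hqi0.le (by linarith) l1
  have u2 := k2.unique (by norm_num) (by linarith) l2
  have hm0 : m = 0 := by
    rw [u1, e12] at u2
    rw [mul_zero, mul_one] at u2
    have : ∀ x y : F, x + 0 = x + y → y = 0 := by decide
    exact this _ _ u2
  subst hm0
  have ht := hm.triv le_rfl
  -- back to the torus
  set N0 : Set Tor := {x | x.1 ≠ ((-1/2 : ℝ) : Cir) ∧ x.2 ≠ ((-1/2 : ℝ) : Cir)} with hN0
  have hN0o : IsOpen N0 :=
    (isOpen_compl_singleton.preimage continuous_fst).inter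
      (isOpen_compl_singleton.preimage continuous_snd)
  have hcont : ContinuousOn tsig N0 := fun x hx =>
    (tsig_cont hx.1 hx.2).continuousWithinAt
  have hoN0 : oo ∈ N0 := ⟨fun h => half_ne_zero h.symm, fun h => half_ne_zero h.symm⟩
  refine ⟨N0 ∩ tsig ⁻¹' Metric.ball 1 (1/2), hcont.isOpen_inter_preimage hN0o
    Metric.isOpen_ball, ⟨hoN0, ?_⟩, ?_⟩
  · rw [mem_preimage, tsig_oo]
    exact Metric.mem_ball_self (by norm_num)
  · obtain ⟨f, hf⟩ := ht
    refine ⟨fun x => f (tsig x), ?_⟩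
    have h4 : Near2 ((N0 ∩ tsig ⁻¹' Metric.ball 1 (1/2)) \ {oo}) fun x y =>
        φ (tsig x) (tsig y) = f (tsig x) + f (tsig y) := by
      refine hf.comap (fun x hx => tsig_cont hx.1.1.1 hx.1.1.2) fun x hx => ⟨?_, ?_⟩
      · rw [norm_pos_iff]
        refine sub_ne_zero.2 fun h => hx.2 ?_
        rw [mem_singleton_iff, ← tt_tsig hx.1.1.2, h, tt_one]
      · have := hx.1.2
        rw [mem_preimage, Metric.mem_ball, dist_eq_norm] at this
        exact this
    intro x hx
    obtain ⟨U, hU, h⟩ := h4 x hx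
    refine ⟨U ∩ N0, inter_mem hU (hN0o.mem_nhds hx.1.1), fun y hy z hz => ?_⟩
    have := h y hy.1 z hz.1
    beta_reduce at this ⊢
    rw [← this, hφ]
    beta_reduce
    rw [tt_tsig hy.2.2, tt_tsig hz.2.2]

end Pool.Agent.SRF.V
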