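import Pool.Agent.SRF.V.TorEnd

/-!
# The punctured torus is a model block (SRF, Part V)
-/

set_option linter.unusedTactic false

namespace Pool.Agent.SRF.V

open Topology Filter Set

/-- a cocycle on the torus -/
theorem torus_closed {a : Tor → Tor → F} (ha : Coc univ a) :
    ∃ x y : F, Triv univ fun u v => a u v + (x * tα u v + y * tβ u v) := by
  have h1 : Coc (univ : Set (ℝ × ℝ)) fun z w => a (tw z) (tw w) :=
    Near3.comap ha (fun _ _ => continuous_tw.continuousAt) fun _ _ => mem_univ _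
  obtain ⟨f, hf⟩ := triv_of_convex convex_univ h1
  have hper : ∀ e : ℝ × ℝ, (∀ z, tw (z + e) = tw z) → ∃ x : F, ∀ z, f (z + e) = f z + x := by
    intro e he
    refine ⟨f (0 + e) + f 0, fun z => ?_⟩
    have h2 : Near2 (univ : Set (ℝ × ℝ)) fun z w => f (z + e) + f z = f (w + e) + f w := by
      have h3 := hf.comap (S := univ) (g := fun z => z + e)
        (fun _ _ => by apply Continuous.continuousAt; fun_prop) fun _ _ => mem_univ _
      refine (hf.and h3).mono subset_rfl fun z w h => ?_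
      beta_reduce at h ⊢
      obtain ⟨e1, e2⟩ := h
      rw [he, he, e1] at e2
      have : ∀ x y z u : F, x + y = z + u → z + x = u + y := by decide
      exact this _ _ _ _ e2
    have := const_of_near (f := fun z => f (z + e) + f z) (isPreconnected_univ (α := ℝ × ℝ)) h2
      (mem_univ z) (mem_univ 0)
    beta_reduce at this
    rw [← this]
    have : ∀ x y : F, x = y + (x + y) := by decide
    exact this _ _
  have c1 : ((1:ℝ) : Cir) = 0 := (AddCircle.coe_eq_zero_iff (p := (1:ℝ))).2 ⟨1, by simp⟩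
  obtain ⟨x, hx⟩ := hper (1, 0) fun z => by
    show (((z.1 + 1 : ℝ) : Cir), ((z.2 + 0 : ℝ) : Cir)) = _
    rw [AddCircle.coe_add, c1, add_zero, add_zero]; rfl
  obtain ⟨y, hy⟩ := hper (0, 1) fun z => by
    show (((z.1 + 0 : ℝ) : Cir), ((z.2 + 1 : ℝ) : Cir)) = _
    rw [AddCircle.coe_add (p := (1:ℝ)) z.2 1, c1, add_zero, add_zero]; rfl
  refine ⟨x, y, ?_⟩
  set f' : ℝ × ℝ → F := fun z => f z + (x * fl (-1/2) z.1 + y * fl (-1/2) z.2) with hf'
  have p1 : ∀ s t : ℝ, f' (s + 1, t) = f' (s, t) := by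
    intro s t
    have h2 := hx (s, t)
    have e : ((s, t) : ℝ × ℝ) + (1, 0) = (s + 1, t) := by simp
    rw [e] at h2
    simp only [hf', h2, fl_add_one]
    have : ∀ x y p q r : F, p + x + (x * (q + 1) + y * r) = p + (x * q + y * r) := by decide
    exact this _ _ _ _ _
  have p2 : ∀ s t : ℝ, f' (s, t + 1) = f' (s, t) := by
    intro s t
    have h2 := hy (s, t)
    have e : ((s, t) : ℝ × ℝ) + (0, 1) = (s, t + 1) := by simp
    rw [e] at h2
    simp only [hf', h2, fl_add_one]
    have : ∀ x y p q r : F, p + y + (x * q + y * (r + 1)) = p + (x * q + y * r) := by decide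
    exact this _ _ _ _ _
  have i1 : ∀ (s t : ℝ) (n : ℤ), f' (s + n, t) = f' (s, t) := by
    intro s t n
    induction n using Int.induction_on with
    | zero => simp
    | succ i ih => rw [← ih, ← p1 (s + ((i:ℤ):ℝ)) t]; congr 2; push_cast; ring
    | pred i ih => rw [← ih, ← p1 (s + ((-(i:ℤ) - 1 : ℤ):ℝ)) t]; congr 2; push_cast; ring
  have i2 : ∀ (s t : ℝ) (n : ℤ), f' (s, t + n) = f' (s, t) := by
    intro s t n
    induction n using Int.induction_on with
    | zero => simp
    | succ i ih => rw [← ih, ← p2 s (t + ((i:ℤ):ℝ))]; congr 2; push_cast; ring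
    | pred i ih => rw [← ih, ← p2 s (t + ((-(i:ℤ) - 1 : ℤ):ℝ))]; congr 2; push_cast; ring
  refine Triv.descend isOpen_univ isOpenMap_tw (fun _ _ => continuous_tw.continuousAt)
    (fun y _ => surj_tw y) (f := f') ?_ ?_
  · have hα : Near2 (univ : Set (ℝ × ℝ)) fun z w => tα (tw z) (tw w) =
        fl (-1/2) z.1 + fl (-1/2) w.1 :=
      (crc_lift (-1/2)).comap (g := fun z : ℝ × ℝ => z.1) (fun _ _ => continuous_fst.continuousAt)
        fun _ _ => mem_univ _
    have hβ : Near2 (univ : Set (ℝ × ℝ)) fun z w => tβ (tw z) (tw w) =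
        fl (-1/2) z.2 + fl (-1/2) w.2 :=
      (crc_lift (-1/2)).comap (g := fun z : ℝ × ℝ => z.2) (fun _ _ => continuous_snd.continuousAt)
        fun _ _ => mem_univ _
    refine ((hf.and hα).and hβ).mono (subset_univ _) fun z w h => ?_
    beta_reduce at h ⊢
    obtain ⟨⟨e1, e2⟩, e3⟩ := h
    rw [e1, e2, e3, hf']
    ring
  · intro z w _ h
    obtain ⟨h1, h2⟩ := Prod.ext_iff.1 h
    have key : ∀ s t : ℝ, (s : Cir) = (t : Cir) → ∃ n : ℤ, s = t + n := by
      intro s t h
      have : ((s - t : ℝ) : Cir) = 0 := by rw [AddCircle.coe_sub, h, sub_self]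
      obtain ⟨n, hn⟩ := (AddCircle.coe_eq_zero_iff (p := (1:ℝ))).1 this
      exact ⟨n, by rw [zsmul_eq_mul, mul_one] at hn; linarith⟩
    obtain ⟨n, hn⟩ := key _ _ h1
    obtain ⟨m, hm⟩ := key _ _ h2
    have : z = (w.1 + n, w.2 + m) := Prod.ext hn hm
    rw [this, i1, i2]

theorem torus_gen {a : Tor → Tor → F} (ha : Coc {oo}ᶜ a) :
    ∃ x y : F, Triv {oo}ᶜ fun u v => a u v + (x * tα u v + y * tβ u v) := by
  obtain ⟨N, hN, hoN, hNt⟩ := torus_end ha
  obtain ⟨C, hC, hCc, hCN⟩ := exists_mem_nhds_isClosed_subset (hN.mem_nhds hoN)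
  obtain ⟨a', g, h1, -, h2, -⟩ := extend_gen (S := univ) (C := {oo}) (V := N)
    (V' := interior C) isOpen_interior (by
      intro x hx
      rw [mem_singleton_iff] at hx
      subst hx
      exact mem_interior_iff_mem_nhds.2 hC)
    ((closure_mono interior_subset).trans (hCc.closure_eq.subset.trans hCN))
    (ha.mono fun x hx => hx.2) hNt
  obtain ⟨x, y, h3⟩ := torus_closed h1
  refine ⟨x, y, ?_⟩
  have h4 := (h3.mono (subset_univ {oo}ᶜ)).add (triv_cob {oo}ᶜ g)
  refine h4.congr ?_
  refine h2.mono (fun z hz => ⟨mem_univ _, hz⟩) fun u v h => ?_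
  beta_reduce at h ⊢
  rw [h, cob]
  have : ∀ x y p q r s t : F, p + (s + t) + (x * q + y * r) + (s + t) = p + (x * q + y * r) := by
    decide
  exact this _ _ _ _ _ _ _

/-- the punctured torus as a model block -/
theorem mb_tor : MB {oo}ᶜ tα tβ tc where
  ca := tα_coc.mono (subset_univ _)
  cb := tβ_coc.mono (subset_univ _)
  supp := by
    refine ⟨{x | x.1 = ((-1/2 : ℝ) : Cir)} ∪ {x | x.2 = ((-1/2 : ℝ) : Cir)}, ?_, ?_, ?_, ?_⟩
    · rintro x (hx | hx) h
      · rw [mem_singleton_iff] at h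
        rw [h] at hx
        exact half_ne_zero hx.symm
      · rw [mem_singleton_iff] at h
        rw [h] at hx
        exact half_ne_zero hx.symm
    · exact ((isClosed_singleton.preimage continuous_fst).union
        (isClosed_singleton.preimage continuous_snd)).isCompact
    · exact tα_zer.mono fun x hx h => hx.2 (Or.inl h)
    · exact tβ_zer.mono fun x hx h => hx.2 (Or.inr h)
  gen := fun a ha => torus_gen ha
  dc := t_dc
  nt := tc_nt

/-- `α ∪ α` is a coboundary -/
theorem tα_sq : Near3 (univ : Set Tor) fun x y z =>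
    hf x.1 * tα x y + hf y.1 * tα y z + hf x.1 * tα x z = tα x y * tα y z :=
  Near3.comap crc_sq (fun _ _ => continuous_fst.continuousAt) fun _ _ => mem_univ _

theorem tβ_sq : Near3 (univ : Set Tor) fun x y z =>
    hf x.2 * tβ x y + hf y.2 * tβ y z + hf x.2 * tβ x z = tβ x y * tβ y z :=
  Near3.comap crc_sq (fun _ _ => continuous_snd.continuousAt) fun _ _ => mem_univ _

end Pool.Agent.SRF.V
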