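import Pool.Agent.SRF.V.Inv

/-!
# Products with the circle and homeomorphisms (SRF, Part V)
-/

set_option linter.unusedTactic false

namespace Pool.Agent.SRF.V

open Topology Filter Set

section
variable {Y Y' : Type*} [TopologicalSpace Y] [TopologicalSpace Y']

theorem homeo_proper (h : Y ≃ₜ Y') (K : Set Y') (hK : IsCompact K) : IsCompact (h ⁻¹' K) :=
  h.isCompact_preimage.2 hK

/-- pullback along a homeomorphism -/
def hp (h : Y ≃ₜ Y') (a : Y' → Y' → F) : Y → Y → F := fun x y => a (h x) (h y)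

theorem hp_hp (h : Y ≃ₜ Y') (a : Y' → Y' → F) : hp h.symm (hp h a) = a := by
  funext x y; simp [hp]

theorem hp_hp' (h : Y ≃ₜ Y') (a : Y → Y → F) : hp h (hp h.symm a) = a := by
  funext x y; simp [hp]

theorem hp_zc (h : Y ≃ₜ Y') {A : Set Y'} {a : Y' → Y' → F} (ha : a ∈ ZC A) :
    hp h a ∈ ZC (h ⁻¹' A) := ZC.pull ha h.continuous (homeo_proper h)

theorem hp_zcu (h : Y ≃ₜ Y') {a : Y' → Y' → F} (ha : a ∈ ZC (univ : Set Y')) :
    hp h a ∈ ZC (univ : Set Y) := hp_zc h ha

theorem hp_perp (h : Y ≃ₜ Y') {a b : Y' → Y' → F} (hab : Perp a b) : Perp (hp h a) (hp h b) :=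
  hab.pull h.continuous (homeo_proper h)

theorem hp_perp_iff (h : Y ≃ₜ Y') {a b : Y' → Y' → F} : Perp (hp h a) (hp h b) ↔ Perp a b := by
  refine ⟨fun h1 => ?_, hp_perp h⟩
  have := hp_perp h.symm h1
  rwa [hp_hp, hp_hp] at this

theorem hp_triv (h : Y ≃ₜ Y') {a : Y' → Y' → F} (ha : Triv univ a) : Triv univ (hp h a) := by
  obtain ⟨f, hf⟩ := ha
  exact ⟨fun x => f (h x), hf.comap (fun _ _ => h.continuous.continuousAt) fun _ _ => mem_univ _⟩

theorem Par.homeo (h : Y ≃ₜ Y') (hY : Par Y') : Par Y := by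
  obtain ⟨w, hw, h1, h2⟩ := hY
  refine ⟨hp h w, hp_zcu h hw, fun a ha => ?_, hp_perp h h2⟩
  have h3 := h1 (hp h.symm a) (hp_zcu h.symm ha)
  rw [← hp_perp_iff h (a := hp h.symm a) (b := hp h.symm a),
    ← hp_perp_iff h (a := hp h.symm a) (b := w), hp_hp'] at h3
  exact h3

theorem par_homeo (h : Y ≃ₜ Y') : Par Y ↔ Par Y' := ⟨Par.homeo h.symm, Par.homeo h⟩

theorem Cls.homeo {ι : Type} (h : Y ≃ₜ Y') (hY : Cls Y' ι) : Cls Y ι := by
  obtain ⟨φ, h1, h2, h3⟩ := hY
  refine ⟨fun i => hp h (φ i), fun i => hp_zcu h (h1 i), fun i j ht => h2 i j ?_, fun a ha => ?_⟩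
  · have := hp_triv h.symm ht
    refine this.congr fun _ _ => ⟨univ, univ_mem, fun x _ y _ => ?_⟩
    simp [hp]
  · obtain ⟨i, hi⟩ := h3 (hp h.symm a) (hp_zcu h.symm ha)
    refine ⟨i, (hp_triv h hi).congr fun _ _ => ⟨univ, univ_mem, fun x _ y _ => ?_⟩⟩
    simp [hp]

theorem altOn_homeo (h : Y ≃ₜ Y') : AltOn (univ : Set Y') ↔ AltOn (univ : Set Y) := by
  constructor
  · intro h1 a ha
    have := h1 _ (hp_zcu h.symm ha)
    exact (hp_perp_iff h.symm).1 this
  · intro h1 a ha
    have := h1 _ (hp_zcu h ha)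
    exact (hp_perp_iff h).1 this

end

section
variable {X : Type*} [TopologicalSpace X]

theorem triv_pul {a : X → X → F} (ha : Triv univ a) : Triv univ (pul a) := by
  obtain ⟨f, hf⟩ := ha
  exact ⟨fun z => f z.1, hf.comap (fun _ _ => continuous_fst.continuousAt) fun _ _ => mem_univ _⟩

theorem triv_res {ψ : X × Cir → X × Cir → F} (h : Triv univ ψ) : Triv univ (res ψ) := by
  obtain ⟨f, hf⟩ := h
  exact ⟨fun x => f (x, 0), hf.comap (fun _ _ => continuous_sec.continuousAt)
    fun _ _ => mem_univ _⟩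

theorem pul_zcu {a : X → X → F} (ha : a ∈ ZC (univ : Set X)) :
    pul a ∈ ZC (univ : Set (X × Cir)) := ZC.mono (ZC.pul ha) (subset_univ _)

theorem res_zcu {ψ : X × Cir → X × Cir → F} (h : ψ ∈ ZC (univ : Set (X × Cir))) :
    res ψ ∈ ZC (univ : Set X) := by
  refine ZC.mono (ZC.res (A := univ) (ZC.mono h ?_)) (subset_univ _)
  intro z _; exact ⟨mem_univ _, mem_univ _⟩

/-- the form on the product -/
theorem perp_prod [PreconnectedSpace X] (hX : ¬ CompactSpace X) {φ ψ : X × Cir → X × Cir → F}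
    (h1 : φ ∈ ZC (univ : Set (X × Cir))) (h2 : ψ ∈ ZC (univ : Set (X × Cir))) :
    Perp φ ψ ↔ Perp (res φ) (res ψ) := by
  rw [← perp_pul_iff (a := res φ) (b := res ψ)]
  exact perp_congr_triv h1 (pul_zcu (res_zcu h1)) h2 (pul_zcu (res_zcu h2)) (triv_prod hX h1)
    (triv_prod hX h2)

theorem par_prod [PreconnectedSpace X] (hX : ¬ CompactSpace X) : Par (X × Cir) ↔ Par X := by
  constructor
  · rintro ⟨w, hw, h1, h2⟩
    refine ⟨res w, res_zcu hw, fun a ha => ?_, (perp_prod hX hw hw).1 h2⟩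
    have h3 := h1 (pul a) (pul_zcu ha)
    rw [perp_prod hX (pul_zcu ha) (pul_zcu ha), perp_prod hX (pul_zcu ha) hw, res_pul] at h3
    exact h3
  · rintro ⟨w, hw, h1, h2⟩
    refine ⟨pul w, pul_zcu hw, fun a ha => ?_, perp_pul_iff.2 h2⟩
    rw [perp_prod hX ha ha, perp_prod hX ha (pul_zcu hw), res_pul]
    exact h1 _ (res_zcu ha)

theorem Cls.prod {ι : Type} [PreconnectedSpace X] (hX : ¬ CompactSpace X) (h : Cls X ι) :
    Cls (X × Cir) ι := by
  obtain ⟨φ, h1, h2, h3⟩ := h
  refine ⟨fun i => pul (φ i), fun i => pul_zcu (h1 i), fun i j ht => h2 i j ?_, fun a ha => ?_⟩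
  · exact triv_res ht
  · obtain ⟨i, hi⟩ := h3 (res a) (res_zcu ha)
    refine ⟨i, ((triv_prod hX ha).add (triv_pul hi)).congr fun _ _ =>
      ⟨univ, univ_mem, fun x _ y _ => ?_⟩⟩
    simp only [pul]
    have : ∀ a b c : F, a + b + (b + c) = a + c := by decide
    exact this _ _ _

theorem altOn_prod [PreconnectedSpace X] (hX : ¬ CompactSpace X) :
    AltOn (univ : Set (X × Cir)) ↔ AltOn (univ : Set X) := by
  constructor
  · intro h a ha
    exact perp_pul_iff.1 (h _ (pul_zcu ha))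
  · intro h a ha
    exact (perp_prod hX ha ha).2 (h _ (res_zcu ha))

/-- the angular class -/
noncomputable def th : X × Cir → X × Cir → F := fun z w => crc (-1/2) z.2 w.2

theorem th_coc : Coc (univ : Set (X × Cir)) th :=
  Near3.comap (crc_coc _) (fun _ _ => continuous_snd.continuousAt) fun _ _ => mem_univ _

theorem res_th : res (th : X × Cir → X × Cir → F) = fun _ _ => 0 := by
  funext x y
  have := (crc_coc (-1/2)).diag (mem_univ (0 : Cir))
  exact this

/-- all cocycles of `X × S¹` -/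
theorem triv_prod' [PreconnectedSpace X] [Nonempty X] {ψ : X × Cir → X × Cir → F}
    (hψ : Coc (univ : Set (X × Cir)) ψ) :
    ∃ ε : F, Triv univ fun z w => ψ z w + (pul (res ψ) z w + ε * th z w) := by
  obtain ⟨g, hg, -⟩ := homotopy (Y := X × ℝ) (S := univ) hψ
    (H := fun z => qq (z.1.1, (1 - z.2) * z.1.2))
    (fun a _ t _ => ⟨by
      apply Continuous.continuousAt
      exact continuous_qq.comp (by fun_prop), mem_univ _⟩)
  obtain ⟨x0⟩ := ‹Nonempty X›
  have h1 : Near2 (univ : Set (X × ℝ)) fun a b =>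
      ψ (qq a) (qq b) + pul (res ψ) (qq a) (qq b) = g a + g b := by
    refine hg.mono subset_rfl fun a b h => ?_
    beta_reduce at h ⊢
    simp only [sub_zero, one_mul, sub_self, zero_mul] at h
    rw [← h]
    rfl
  obtain ⟨ε, h2⟩ : ∃ ε : F, ∀ x t, g (x, t + 1) = g (x, t) + ε := by
    have h3 : Near2 (univ : Set (X × ℝ)) fun a b =>
        g (a.1, a.2 + 1) + g a = g (b.1, b.2 + 1) + g b := by
      have h4 := h1.comap (S := univ) (g := fun z : X × ℝ => (z.1, z.2 + 1))
        (fun z _ => by apply Continuous.continuousAt; fun_prop) fun z _ => mem_univ _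
      refine (h1.and h4).mono subset_rfl fun a b h => ?_
      beta_reduce at h ⊢
      obtain ⟨e1, e2⟩ := h
      have e3 : ∀ z : X × ℝ, qq (z.1, z.2 + 1) = qq z := by
        intro z
        simp [qq]
      rw [e3, e3, e1] at e2
      have : ∀ x y z u : F, x + y = z + u → z + x = u + y := by decide
      exact this _ _ _ _ e2
    refine ⟨g (x0, 0 + 1) + g (x0, 0), fun x t => ?_⟩
    have := const_of_near (f := fun a : X × ℝ => g (a.1, a.2 + 1) + g a)
      (isPreconnected_univ (α := X × ℝ)) h3 (mem_univ (x, t)) (mem_univ (x0, 0))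
    beta_reduce at this
    rw [← this]
    have e : ∀ x y : F, x = y + (x + y) := by decide
    exact e _ _
  set g' : X × ℝ → F := fun z => g z + ε * fl (-1/2) z.2 with hg'
  have h2p : ∀ x t, g' (x, t + 1) = g' (x, t) := by
    intro x t
    simp only [hg', h2, fl_add_one]
    have : ∀ a b c : F, a + b + b * (c + 1) = a + b * c := by decide
    exact this _ _ _
  have h2' : ∀ (x : X) (t : ℝ) (n : ℤ), g' (x, t + n) = g' (x, t) := by
    intro x t n
    induction n using Int.induction_on with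
    | zero => simp
    | succ i ih => rw [← ih, ← h2p x (t + ((i:ℤ):ℝ))]; congr 2; push_cast; ring
    | pred i ih => rw [← ih, ← h2p x (t + ((-(i:ℤ) - 1 : ℤ):ℝ))]; congr 2; push_cast; ring
  have hth : Near2 (univ : Set (X × ℝ)) fun a b => th (qq a) (qq b) =
      fl (-1/2) a.2 + fl (-1/2) b.2 :=
    (crc_lift (-1/2)).comap (g := fun z : X × ℝ => z.2) (fun _ _ => continuous_snd.continuousAt)
      fun _ _ => mem_univ _
  refine ⟨ε, Triv.descend isOpen_univ isOpenMap_qq (fun _ _ => continuous_qq.continuousAt)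
    (fun z _ => ?_) (f := g') ?_ fun a b _ hab => ?_⟩
  · obtain ⟨t, ht⟩ := surj_coe_cir z.2
    exact ⟨(z.1, t), Prod.ext rfl ht⟩
  · refine (h1.and hth).mono (subset_univ _) fun a b h => ?_
    beta_reduce at h ⊢
    obtain ⟨e1, e2⟩ := h
    rw [← add_assoc, e1, e2, hg']
    ring
  · obtain ⟨e1, e2⟩ := Prod.ext_iff.1 hab
    have e1 : a.1 = b.1 := e1
    have e2 : ((a.2 : ℝ) : Cir) = ((b.2 : ℝ) : Cir) := e2
    have : ((a.2 - b.2 : ℝ) : Cir) = 0 := by rw [AddCircle.coe_sub, e2, sub_self]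
    obtain ⟨n, hn⟩ := (AddCircle.coe_eq_zero_iff (p := (1:ℝ))).1 this
    rw [zsmul_eq_mul, mul_one] at hn
    have e3 : a = (b.1, b.2 + n) := Prod.ext e1 (by show a.2 = b.2 + n; linarith)
    rw [e3, h2']

theorem crc_not_triv : ¬ Triv (univ : Set Cir) (crc (-1/2)) := by
  rintro ⟨f, hf⟩
  have h1 := hf.comap (S := (univ : Set ℝ)) (g := fun x : ℝ => (x : Cir))
    (fun _ _ => continuous_coe_cir.continuousAt) fun _ _ => mem_univ _
  have h2 : Near2 (univ : Set ℝ) fun x y => f (x : Cir) + fl (-1/2) x = f (y : Cir) +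
      fl (-1/2) y := by
    refine (h1.and (crc_lift (-1/2))).mono subset_rfl fun x y h => ?_
    beta_reduce at h ⊢
    obtain ⟨e1, e2⟩ := h
    rw [e1] at e2
    have : ∀ a b c d : F, a + b = c + d → a + c = b + d := by decide
    exact this _ _ _ _ e2
  have h3 := const_of_near (f := fun x : ℝ => f (x : Cir) + fl (-1/2) x)
    (isPreconnected_univ (α := ℝ)) h2 (mem_univ (0 + 1)) (mem_univ 0)
  beta_reduce at h3
  have e : (((0 : ℝ) + 1 : ℝ) : Cir) = ((0 : ℝ) : Cir) := by
    rw [AddCircle.coe_add]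
    have : ((1:ℝ) : Cir) = 0 := (AddCircle.coe_eq_zero_iff (p := (1:ℝ))).2 ⟨1, by simp⟩
    rw [this, add_zero]
  rw [fl_add_one, e] at h3
  have : ∀ a b : F, a + (b + 1) ≠ a + b := by decide
  exact this _ _ h3

theorem Cls.prod_compact {ι : Type} [ConnectedSpace X] [CompactSpace X] (h : Cls X ι) :
    Cls (X × Cir) (ι × F) := by
  obtain ⟨φ, h1, h2, h3⟩ := h
  have hz : ∀ ψ : X × Cir → X × Cir → F, Coc univ ψ → ψ ∈ ZC (univ : Set (X × Cir)) :=
    fun ψ hψ => ⟨hψ, univ, subset_rfl, isCompact_univ, fun y hy => absurd (mem_univ y) hy⟩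
  refine ⟨fun i => fun z w => pul (φ i.1) z w + i.2 * th z w, fun i =>
    ZC.add (pul_zcu (h1 i.1)) (ZC.smul (hz _ th_coc) _), fun i j ht => ?_, fun a ha => ?_⟩
  · have hij : i.1 = j.1 := by
      refine h2 _ _ ((triv_res ht).congr fun _ _ => ⟨univ, univ_mem, fun x _ y _ => ?_⟩)
      have e := congrFun (congrFun (res_th (X := X)) x) y
      simp only [res] at e ⊢
      rw [e]
      simp [pul]
    refine Prod.ext hij ?_
    by_contra hne
    obtain ⟨x0⟩ : Nonempty X := inferInstance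
    apply crc_not_triv
    have h4 := ht
    obtain ⟨f, hf⟩ := h4
    have h5 := hf.comap (S := (univ : Set Cir)) (g := fun s : Cir => ((x0, s) : X × Cir))
      (fun _ _ => by apply Continuous.continuousAt; fun_prop) fun _ _ => mem_univ _
    refine ⟨fun s => f (x0, s), h5.mono subset_rfl fun s t h => ?_⟩
    beta_reduce at h ⊢
    simp only [pul, th] at h
    rw [← h, hij]
    have : ∀ a b c d : F, c ≠ d → b = a + c * b + (a + d * b) := by decide
    exact this _ _ _ _ hne
  · obtain ⟨ε, he⟩ := triv_prod' ha.1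
    obtain ⟨i, hi⟩ := h3 (res a) (res_zcu ha)
    refine ⟨(i, ε), (he.add (triv_pul hi)).congr fun _ _ => ⟨univ, univ_mem, fun x _ y _ => ?_⟩⟩
    simp only [pul]
    have : ∀ a b c d : F, a + (b + c) + (b + d) = a + (d + c) := by decide
    exact this _ _ _ _

theorem altOn_prod_compact [ConnectedSpace X] [CompactSpace X] :
    AltOn (univ : Set (X × Cir)) ↔ AltOn (univ : Set X) := by
  have hz : ∀ ψ : X × Cir → X × Cir → F, Coc univ ψ → ψ ∈ ZC (univ : Set (X × Cir)) :=
    fun ψ hψ => ⟨hψ, univ, subset_rfl, isCompact_univ, fun y hy => absurd (mem_univ y) hy⟩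
  constructor
  · intro h a ha
    exact perp_pul_iff.1 (h _ (pul_zcu ha))
  · intro h a ha
    obtain ⟨ε, he⟩ := triv_prod' ha.1
    have h1 : (fun z w => pul (res a) z w + ε * th z w) ∈ ZC (univ : Set (X × Cir)) :=
      ZC.add (pul_zcu (res_zcu ha)) (ZC.smul (hz _ th_coc) _)
    rw [perp_congr_triv ha h1 ha h1 he he]
    have hth : Perp (th : X × Cir → X × Cir → F) th := by
      refine ⟨fun z w => hf z.2 * th z w, ⟨univ, subset_rfl, isCompact_univ,
        fun y hy => absurd (mem_univ y) hy⟩, ?_⟩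
      exact Near3.comap crc_sq (g := fun z : X × Cir => z.2)
        (fun _ _ => continuous_snd.continuousAt) fun _ _ => mem_univ _
    refine alt_add (pul_zcu (res_zcu ha)) (ZC.smul (hz _ th_coc) _)
      (perp_pul_iff.2 (h _ (res_zcu ha))) ?_
    rcases F_cases ε with rfl | rfl
    · refine ⟨fun _ _ => 0, suppIn_zero _, fun _ _ => ⟨univ, univ_mem, fun _ _ _ _ _ _ => by simp⟩⟩
    · simpa using hth

end

end Pool.Agent.SRF.V
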